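import Pool.Agent.Lib.MP_d439b2_co.ON.Spec
import Pool.Agent.Lib.MP_d439b2_co.W.LayC
import Pool.Agent.Lib.MP_d439b2_co.L4.A3
import Pool.Agent.Lib.MP_d439b2_co.Rep.FinalG

/-!
# MP_d439b2_co, ON: assembly of Theorem O (helper23)
-/

set_option autoImplicit false

namespace Pool.Agent.MPd439b2.ON

open Pool.Agent.MPd439b2
open Pool.Agent.MPd439b2.Rep
open Pool.Agent.MPd439b2.W
open Pool.Agent.MPd439b2.A0

/-- all parts of the proof -/
structure Parts : Prop where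
  ram : W.S_RamC
  m1 : S_M1
  jb : S_JB
  jab : S_JAB
  jce : S_JCE
  jff : S_JFF
  hk : S_HK
  u1 : S_U1
  u2 : S_U2
  ba : S_Ba
  ch : S_Ch
  pr : S_Pr
  fr : S_Fr
  f0 : S_F0
  mf : S_Mf
  f2 : S_F2
  f3 : S_F3
  f4 : S_F4
  f5 : S_F5
  rp : S_Rp
  pi : S_Pi
  tr : S_TR
  cn : S_CN
  bn : S_BN
  hn : S_HN
  co : S_Co
  cu : S_Cu
  ri : S_RI
  lx : S_LX
  ls : S_LS
  kx : S_KX
  tw : S_Tw
  opp : S_Opp
  pa : S_Pa
  sm : S_Sm
  ha : S_Ha
  ty : S_Ty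
  cl : S_Cl
  idp : S_Id
  ff : S_FF
  nm : S_NM

theorem asmTO (P : Parts) : S_TO := by
  intro t N ht
  have cfr : C_Fr := P.fr P.ram P.ba P.ch
  obtain ⟨n₀, hn₀⟩ := P.mf P.u2 cfr t N t
  have cf2 : C_F2 := P.f2 P.f0
  have cf4 : C_F4 := P.f4 P.f0 (P.f3 P.f0 P.f2)
  have cf5 : C_F5 := P.f5 P.f0 P.f2 P.f3
  have ccn : ∀ c, ∃ G₁, C_CN c G₁ := fun c => P.cn P.ram P.tr P.f0 cf5 c
  choose gc hgc using (P.cu P.f0 cf2 cf4 ccn P.bn P.hn P.co)
  set n := max n₀ (3 * t + 3) with hn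
  obtain ⟨c₁, hc₁⟩ := P.nm P.ram P.u1 (P.opp P.ram P.ba P.pr) P.pa (P.sm P.ram) (P.ha P.pr)
    (P.cl P.ram P.ba P.pr P.opp P.ty) (P.idp P.ram P.ty) P.ff cfr t N n ht (le_max_right _ _)
  refine ⟨fun k => 2 ^ gc k + 3, fun β => ?_⟩
  obtain ⟨n₁, hn₁⟩ := hc₁ (fun c => β (gc c))
  refine ⟨(Finset.range (c₁ + 1)).sup gc, n₁ + 1, ?_⟩
  intro V _ D jf hf tw link
  rcases isEmpty_or_nonempty V with hV | hV
  · refine ⟨Set.univ, fun x _ _ _ => hV.elim (x 0), fun k _ => ?_⟩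
    have : (Set.univ : Set V) = ∅ := Set.eq_empty_of_isEmpty _
    rw [this]
    exact Lay.empty
  · have env : Env D t N n := ⟨hn₀ n (le_max_left _ _) V D jf hf.toHB tw, hf⟩
    obtain ⟨r₁, r₂, hrp⟩ := P.rp P.f0 cf4 t N n V D env
    obtain ⟨π, hπ, hπS, hπ3⟩ := P.pi P.f0 cf2 cf4 t N n V D env r₁ r₂ hrp
    have cutl : ∀ c, ∀ A A' : Set V, Pt (Sg D t n r₁ r₂) A A' → LK.rk D A A' ≤ c →
        LK.rk D (hat (Sg D t n r₁ r₂) π A) (hat (Sg D t n r₁ r₂) π A') ≤ gc c :=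
      fun c A A' hA hr => hgc c t N n V D env r₁ r₂ π hrp hπ A A' hA hr
    have link' : Link (fun c => β (gc c)) c₁ (D.induce (Sg D t n r₁ r₂)) :=
      P.kx P.ri gc β c₁ _ V D (Sg D t n r₁ r₂) π hπS
        (fun c hc => Finset.le_sup (f := gc) (Finset.mem_range.2 (by omega)))
        (fun c _ A A' hA hr => cutl c A A' hA hr) link
    refine ⟨Sg D t n r₁ r₂, fun x y hxy him => ?_, fun k hk => ?_⟩
    · refine hn₁ c₁ le_rfl V D jf hf tw r₁ r₂ link' x y ?_ (fun i hi => hxy i (by omega))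
      intro i hi j hj
      exact him i (by omega) j (by omega)
    · refine P.lx P.ri k 3 (gc k) V D (Sg D t n r₁ r₂) π hπS (fun v hv => ?_) (cutl k) hk
      apply P.ls 3 V D
      have h1 : hat (Sg D t n r₁ r₂) π {v} =
          {v} ∪ {w | w ∉ Sg D t n r₁ r₂ ∧ π w ∈ ({v} : Set V)} := rfl
      rw [h1]
      refine (Set.ncard_union_le _ _).trans ?_
      have h2 : ({w | w ∉ Sg D t n r₁ r₂ ∧ π w ∈ ({v} : Set V)}).ncard ≤ 2 := by
        by_contra hcon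
        push Not at hcon
        obtain ⟨a, b, c, ha, hb, hc, hab, hac, hbc⟩ :=
          (Set.two_lt_ncard_iff (Set.toFinite _)).1 hcon
        have ea : π a = v := ha.2
        have eb : π b = v := hb.2
        have ec : π c = v := hc.2
        rcases hπ3 a ha.1 b hb.1 c hc.1 (ea.trans eb.symm) (eb.trans ec.symm) with h | h | h
        · exact hab h
        · exact hbc h
        · exact hac h
      simp only [Set.ncard_singleton]
      omega

/-! ### The theorem for `G` -/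

/-- an induced minor of an induced subgraph -/
theorem ims_emb {V W I : Type} {H : SimpleGraph I} {G : SimpleGraph V} {G' : SimpleGraph W}
    (f : W → V) (hf : Function.Injective f) (hG : ∀ a b, G'.Adj a b ↔ G.Adj (f a) (f b))
    (h : IMS H G' Set.univ) : IMS H G Set.univ := by
  obtain ⟨B, _, hc, hd, ha⟩ := h
  refine ⟨fun w => f '' B w, fun _ => Set.subset_univ _, fun w => ?_, fun w w' hw => ?_,
    fun w w' hw => ?_⟩
  · refine ⟨(hc w).1.image f, fun C hC hCn hCne => ?_⟩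
    have hC' : f '' (f ⁻¹' C) = C := by
      apply Set.image_preimage_eq_of_subset
      exact hC.trans (Set.image_subset_range _ _)
    obtain ⟨b, hb, a, ha', hab⟩ := (hc w).2 (f ⁻¹' C) (fun x hx => by
        obtain ⟨y, hy, hyx⟩ := hC hx
        rwa [hf hyx] at hy) (by
        obtain ⟨c, hc'⟩ := hCn
        obtain ⟨y, _, rfl⟩ := hC hc'
        exact ⟨y, hc'⟩) (fun h => hCne (by rw [← hC', h]))
    exact ⟨f b, hb, f a, ⟨⟨a, ha'.1, rfl⟩, fun hx => ha'.2 hx⟩, (hG b a).1 hab⟩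
  · exact Set.disjoint_image_of_injective hf (hd w w' hw)
  · rw [ha w w' hw]
    constructor
    · rintro ⟨a, ha', b, hb, hab⟩
      exact ⟨f a, ⟨a, ha', rfl⟩, f b, ⟨b, hb, rfl⟩, (hG a b).1 hab⟩
    · rintro ⟨_, ⟨a, ha', rfl⟩, _, ⟨b, hb, rfl⟩, hab⟩
      exact ⟨a, ha', b, hb, (hG a b).2 hab⟩

/-- the complement of an induced subgraph of the complement -/
theorem adj_cc {V W : Type} {G : SimpleGraph V} (f : W → V) (hf : Function.Injective f)
    (a b : W) : (Gᶜ.comap f)ᶜ.Adj a b ↔ G.Adj (f a) (f b) := by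
  simp only [SimpleGraph.compl_adj, SimpleGraph.comap_adj]
  constructor
  · rintro ⟨h1, h2⟩
    by_contra h3
    exact h2 ⟨fun h => h1 (hf h), h3⟩
  · intro h
    exact ⟨fun e => by subst e; exact G.irrefl h, fun h' => h'.2 h⟩

theorem jf_of (P : Parts) {t : ℕ} {V : Type} {D : SimpleGraph V}
    (h : ¬ IMS (JP t) Dᶜ Set.univ) : JF D t :=
  ⟨(P.jab P.jb t V D h).1, (P.jab P.jb t V D h).2, (P.jce P.jb t V D h).1, (P.jce P.jb t V D h).2.1,
    (P.jce P.jb t V D h).2.2, P.jff P.jb t V D h⟩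

/-- rank and complement -/
theorem cr_co {V : Type} [Finite V] (G : SimpleGraph V) (X : Set V) :
    LK.cr G X ≤ LK.cr Gᶜ X + 1 := by
  classical
  have hfin : Module.Finite (ZMod 2) (V → ZMod 2) := inferInstance
  set T : V → ZMod 2 := fun y => if y ∈ Xᶜ then 1 else 0 with hT
  have hsub : Submodule.span (ZMod 2) (LK.row G Xᶜ '' X) ≤
      Submodule.span (ZMod 2) (LK.row Gᶜ Xᶜ '' X) ⊔ Submodule.span (ZMod 2) {T} := by
    rw [Submodule.span_le]
    rintro _ ⟨x, hx, rfl⟩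
    have h1 : LK.row G Xᶜ x = (-1 : ZMod 2) • LK.row Gᶜ Xᶜ x + T := by
      funext y
      simp only [LK.row, hT, Pi.add_apply, Pi.smul_apply, smul_eq_mul, SimpleGraph.compl_adj]
      by_cases hy : y ∈ Xᶜ
      · have hne : x ≠ y := fun h => hy (h ▸ hx)
        by_cases hxy : G.Adj x y
        · simp [hy, hxy]
        · simp [hy, hxy, hne]
          decide
      · simp [hy]
    rw [h1]
    refine Submodule.add_mem _ ?_ ?_
    · exact Submodule.mem_sup_left (Submodule.smul_mem _ _ (Submodule.subset_span ⟨x, hx, rfl⟩))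
    · exact Submodule.mem_sup_right (Submodule.mem_span_singleton_self _)
  have h2 := Submodule.finrank_mono hsub
  have h3 := Submodule.finrank_add_le_finrank_add_finrank
    (Submodule.span (ZMod 2) (LK.row Gᶜ Xᶜ '' X)) (Submodule.span (ZMod 2) {T})
  have h4 : Module.finrank (ZMod 2) (Submodule.span (ZMod 2) {T}) ≤ 1 := by
    refine (finrank_span_le_card (R := ZMod 2) ({T} : Set (V → ZMod 2))).trans ?_
    simp
  show Module.finrank (ZMod 2) _ ≤ Module.finrank (ZMod 2) _ + 1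
  exact h2.trans (h3.trans (Nat.add_le_add_left h4 _))

theorem link_co {V : Type} [Finite V] {β : ℕ → ℕ} {c₀ : ℕ} {G : SimpleGraph V}
    (h : Link β (c₀ + 1) G) : Link (fun c => β (c + 1)) c₀ Gᶜ := by
  intro c hc X hX
  exact h (c + 1) (by omega) X ((cr_co G X).trans (by omega))

theorem asmO (P : Parts) : S_O := by
  intro t ht
  obtain ⟨g, hg⟩ := asmTO P t 8 ht
  refine ⟨fun k => 2 ^ (g (k + 1)) + 1 + 1, fun β => ?_⟩
  obtain ⟨c₀, n₁, hc⟩ := hg (fun c => β (c + 1))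
  refine ⟨c₀ + 1, n₁, ?_⟩
  intro V _ G hG link
  have l1 : Link (fun c => β (c + 1)) c₀ Gᶜ := link_co link
  obtain ⟨S, hTw, hLay, hLk⟩ := P.tw P.ri P.lx P.kx V Gᶜ
  have l2 := hLk _ _ l1
  have inj1 : Function.Injective (Subtype.val : S → V) := Subtype.val_injective
  have c1 : ∀ a b : S, (Gᶜ.induce S)ᶜ.Adj a b ↔ G.Adj a.1 b.1 := fun a b => adj_cc _ inj1 a b
  have n1 : ¬ IMS K401 (Gᶜ.induce S)ᶜ Set.univ := fun h => hG.1 (ims_emb _ inj1 c1 h)
  have n2 : ¬ IMS (JP t) (Gᶜ.induce S)ᶜ Set.univ := fun h => hG.2 (ims_emb _ inj1 c1 h)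
  obtain ⟨S₂, hS₂, hL₂⟩ := hc S (Gᶜ.induce S) (jf_of P n2) (P.hk P.m1 S _ n1) hTw l2
  have inj2 : Function.Injective (fun a : S₂ => (a.1 : V)) := fun a b h =>
    Subtype.ext (Subtype.ext h)
  have c2 : ∀ a b : S₂, ((Gᶜ.induce S).induce S₂)ᶜ.Adj a b ↔ G.Adj (a.1 : V) (b.1 : V) :=
    fun a b => adj_cc (fun a : S₂ => (a.1 : V)) inj2 a b
  refine ⟨S₂, inferInstance, ((Gᶜ.induce S).induce S₂)ᶜ, ⟨fun h => hG.1 (ims_emb _ inj2 c2 h),
    fun h => hG.2 (ims_emb _ inj2 c2 h)⟩, fun x y him => ?_, fun k hk => ?_⟩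
  · refine hS₂ (fun i => (x i).1) (fun i => (y i).1) (fun i _ => ⟨(x i).2, (y i).2⟩) ?_
    rw [compl_compl] at him
    exact him
  · have k1 := W.layC _ _ _ _ hk
    rw [compl_compl] at k1
    have k2 := hL₂ _ k1
    have k3 := hLay _ k2
    have k4 := W.layC _ _ _ _ k3
    rw [compl_compl] at k4
    exact k4

/-- **Reduction.** It is enough to bound the graphs without large induced matchings in the complement. -/
theorem asmRed (h : S_O) (t : ℕ) (ht : 1 ≤ t)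
    (hn : ∀ n : ℕ, ∃ k : ℕ, ∀ (V : Type) [Finite V] (G : SimpleGraph V), Rep.Fr K401 (JP t) G →
      (∀ x y : ℕ → V, ¬ IM Gᶜ n x y) → Lay G k Set.univ) :
    ∃ k : ℕ, ∀ (V : Type) [Finite V] (G : SimpleGraph V), Rep.Fr K401 (JP t) G →
      Lay G k Set.univ := by
  obtain ⟨g, hg⟩ := h t ht
  refine hl_holds _ _ K401 (JP t) (fun β => ?_)
  obtain ⟨c₀, n₁, hc⟩ := hg β
  obtain ⟨k, hk⟩ := hn n₁
  refine ⟨c₀, g k, fun V _ G hG hl => ?_⟩
  obtain ⟨W, hW, G', hf, hm, hL⟩ := hc V G hG hl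
  exact hL k (hk W G' hf hm)

end Pool.Agent.MPd439b2.ON
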