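import Pool.Agent.Lib.MP_d439b2_co.ON.Spec

/-!
# MP_d439b2_co, ON: selection of indices, components (helper23)
-/

set_option autoImplicit false

namespace Pool.Agent.MPd439b2.ON

open Pool.Agent.MPd439b2
open Pool.Agent.MPd439b2.Rep
open Pool.Agent.MPd439b2.W
open Pool.Agent.MPd439b2.A0

namespace SelAux

variable {V : Type} {D : SimpleGraph V}

theorem incr_inj {m M : ℕ} {σ : ℕ → ℕ} (h : Incr m M σ) {i j : ℕ} (hi : i < m) (hj : j < m)
    (e : σ i = σ j) : i = j := by
  rcases Nat.lt_trichotomy i j with h1 | h1 | h1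
  · have := h.1 i j h1 hj; omega
  · exact h1
  · have := h.1 j i h1 hi; omega

theorem im_sub {m M : ℕ} {a b : ℕ → V} {σ : ℕ → ℕ} (h : IM D M a b) (hσ : Incr m M σ) :
    IM D m (a ∘ σ) (b ∘ σ) := by
  intro i hi j hj
  have h1 := h (σ i) (hσ.2 i hi) (σ j) (hσ.2 j hj)
  refine ⟨?_, h1.2⟩
  show D.Adj (a (σ i)) (b (σ j)) ↔ i = j
  rw [h1.1]
  exact ⟨incr_inj hσ hi hj, fun e => by rw [e]⟩

theorem im_mono {m M : ℕ} {a b : ℕ → V} (h : IM D M a b) (hm : m ≤ M) : IM D m a b :=
  fun i hi j hj => h i (by omega) j (by omega)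

theorem incr_comp {m M K : ℕ} {σ τ : ℕ → ℕ} (hσ : Incr m M σ) (hτ : Incr K m τ) :
    Incr K M (σ ∘ τ) :=
  ⟨fun k l hkl hl => hσ.1 _ _ (hτ.1 k l hkl hl) (hτ.2 l hl), fun k hk => hσ.2 _ (hτ.2 k hk)⟩

theorem incr_mono {m M m' M' : ℕ} {σ : ℕ → ℕ} (h : Incr m M σ) (hm : m' ≤ m) (hM : M ≤ M') :
    Incr m' M' σ :=
  ⟨fun k l hkl hl => h.1 k l hkl (by omega), fun k hk => (h.2 k (by omega)).trans_le hM⟩

/-- enumeration of the elements of a set of indices -/
theorem enum (B : ℕ → Prop) [DecidablePred B] (m M : ℕ)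
    (hB : m ≤ ((Finset.range M).filter B).card) :
    ∃ τ : ℕ → ℕ, Incr m M τ ∧ ∀ k < m, B (τ k) := by
  let f := Finset.orderEmbOfCardLe _ hB
  refine ⟨fun k => if h : k < m then f ⟨k, h⟩ else 0, ⟨fun k l hkl hl => ?_, fun k hk => ?_⟩,
    fun k hk => ?_⟩
  · simp only [hl, (by omega : k < m), dif_pos]
    exact f.strictMono (by simpa using hkl)
  · simp only [hk, dif_pos]
    have := Finset.orderEmbOfCardLe_mem _ hB ⟨k, hk⟩
    simp only [Finset.mem_filter, Finset.mem_range] at this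
    exact this.1
  · simp only [hk, dif_pos]
    have := Finset.orderEmbOfCardLe_mem _ hB ⟨k, hk⟩
    simp only [Finset.mem_filter, Finset.mem_range] at this
    exact this.2

/-- `a` indices with `A` or `b` indices without `A` -/
theorem split (A : ℕ → Prop) (a b : ℕ) :
    (∃ τ : ℕ → ℕ, Incr a (a + b) τ ∧ ∀ k < a, A (τ k)) ∨
      ∃ τ : ℕ → ℕ, Incr b (a + b) τ ∧ ∀ k < b, ¬ A (τ k) := by
  classical
  have hc := Finset.card_filter_add_card_filter_not (s := Finset.range (a + b)) A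
  rw [Finset.card_range] at hc
  by_cases h : a ≤ ((Finset.range (a + b)).filter A).card
  · exact Or.inl (enum A a (a + b) h)
  · exact Or.inr (enum (fun k => ¬ A k) b (a + b) (by omega))

/-- two elements of different components -/
theorem sep {t n : ℕ} {U : Set V} (up : UP D t n U) {a b z z' : V} (ha : a ∈ U) (hb : b ∈ U)
    (hab : ¬ D.Adj a b) (hne : a ≠ b) (hz : Cp D U a z) (hz' : Cp D U b z') :
    ¬ D.Adj z z' ∧ z ≠ z' := by
  have key : ∀ w, Cp D U b w → a ≠ w ∧ ¬ D.Adj a w := by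
    intro w hw
    rcases hw.2 with h | h
    · subst h; exact ⟨hne, hab⟩
    · constructor
      · intro e; subst e; exact hab h
      · intro e; exact hab (up.p3 a ha w hw.1 b hb e h hne)
  obtain ⟨k1, k2⟩ := key z' hz'
  rcases hz.2 with h | h
  · subst h; exact ⟨k2, k1⟩
  · constructor
    · intro e; exact k2 (up.p3 a ha z hz.1 z' hz'.1 h.symm e k1)
    · intro e; subst e; exact k2 h.symm

/-- a component is a clique -/
theorem comp_adj {t n : ℕ} {U : Set V} (up : UP D t n U) {x a b : V} (hx : x ∈ U)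
    (ha : Cp D U x a) (hb : Cp D U x b) (hab : a ≠ b) : D.Adj a b := by
  rcases ha.2 with h | h
  · subst h
    rcases hb.2 with h' | h'
    · exact absurd h'.symm hab
    · exact h'.symm
  · rcases hb.2 with h' | h'
    · subst h'; exact h
    · exact up.p3 a ha.1 x hx b hb.1 h h'.symm hab

theorem comp_trans {t n : ℕ} {U : Set V} (up : UP D t n U) {x z a : V} (hx : x ∈ U)
    (hz : Cp D U x z) (ha : Cp D U z a) : Cp D U x a := by
  refine ⟨ha.1, ?_⟩
  rcases ha.2 with h | h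
  · rw [h]; exact hz.2
  · rcases hz.2 with h' | h'
    · subst h'; exact Or.inr h
    · by_cases e : a = x
      · exact Or.inl e
      · exact Or.inr (up.p3 a ha.1 z hz.1 x hx h h' e)

end SelAux

end Pool.Agent.MPd439b2.ON
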