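import Pool.Agent.Lib.MP_d439b2_co.ON.Spec

/-!
# MP_d439b2_co, ON: free pairs exist (helper9)
-/

set_option autoImplicit false

namespace Pool.Agent.MPd439b2.ON

open Pool.Agent.MPd439b2 Pool.Agent.MPd439b2.Rep Pool.Agent.MPd439b2.W Pool.Agent.MPd439b2.A0

namespace FrAux

variable {V : Type}

/-- enumeration of a finite set -/
theorem enum (S : Finset ℕ) (m : ℕ) (h : m ≤ S.card) :
    ∃ σ : ℕ → ℕ, (∀ k < m, σ k ∈ S) ∧ ∀ k < m, ∀ l < m, σ k = σ l → k = l := by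
  classical
  refine ⟨fun k => if hk : k < S.card then (S.equivFin.symm ⟨k, hk⟩ : ℕ) else 0, ?_, ?_⟩
  · intro k hk
    simp only [dif_pos (lt_of_lt_of_le hk h)]
    exact (S.equivFin.symm ⟨k, lt_of_lt_of_le hk h⟩).2
  · intro k hk l hl hkl
    simp only [dif_pos (lt_of_lt_of_le hk h), dif_pos (lt_of_lt_of_le hl h)] at hkl
    have h1 := S.equivFin.symm.injective (Subtype.ext hkl)
    exact congrArg Fin.val h1

/-- equal or adjacent is transitive in a class -/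
theorem tr {D : SimpleGraph V} {t n : ℕ} {U : Set V} (hU : UP D t n U) {a b c : V} (ha : a ∈ U)
    (hb : b ∈ U) (hc : c ∈ U) (h1 : a = b ∨ D.Adj a b) (h2 : b = c ∨ D.Adj b c) :
    a = c ∨ D.Adj a c := by
  rcases h1 with rfl | h1
  · exact h2
  · rcases h2 with rfl | h2
    · exact Or.inr h1
    · by_cases hac : a = c
      · exact Or.inl hac
      · exact Or.inr (hU.p3 a ha b hb c hc h1 h2 hac)

/-- elements of one component -/
theorem cmp {D : SimpleGraph V} {t n : ℕ} {U : Set V} (hU : UP D t n U) {x u v : V} (hx : x ∈ U)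
    (hu : Cp D U x u) (hv : Cp D U x v) (huv : u ≠ v) : D.Adj u v := by
  have h := tr hU hu.1 hx hv.1 hu.2 (hv.2.imp Eq.symm SimpleGraph.Adj.symm)
  exact h.resolve_left huv

/-- elements of different components -/
theorem cmpne {D : SimpleGraph V} {t n b : ℕ} {U : Set V} (hU : UP D t n U) {x y : ℕ → V}
    (hxy : Sy D U b x y) {i j : ℕ} (hi : i < b) (hj : j < b) (hij : i ≠ j) {u v : V}
    (hu : Cp D U (x i) u) (hv : Cp D U (x j) v) : u ≠ v ∧ ¬ D.Adj u v := by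
  have hno : ¬ (x i = x j ∨ D.Adj (x i) (x j)) := by
    rintro (h | h)
    · have h1 := ((hxy.1 i hi i hi).1).2 rfl
      rw [h] at h1
      exact hij (((hxy.1 j hj i hi).1).1 h1).symm
    · exact (hxy.1 i hi j hj).2.1 h
  have hxi := (hxy.2 i hi).1
  have hxj := (hxy.2 j hj).1
  have key : ¬ (u = v ∨ D.Adj u v) := by
    intro h
    exact hno (tr hU hxi hv.1 hxj (tr hU hxi hu.1 hv.1
      (hu.2.imp Eq.symm SimpleGraph.Adj.symm) h) hv.2)
  exact ⟨fun h => key (Or.inl h), fun h => key (Or.inr h)⟩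

/-- systems from different components -/
theorem sys {D : SimpleGraph V} {t n b m : ℕ} {U : Set V} (hU : UP D t n U) {x y : ℕ → V}
    (hxy : Sy D U b x y) (τ : ℕ → ℕ) (hτ : ∀ k < m, τ k < b)
    (hτi : ∀ k < m, ∀ l < m, τ k = τ l → k = l) (a a' : ℕ → V)
    (ha : ∀ k < m, Cp D U (x (τ k)) (a k)) (ha' : ∀ k < m, Cp D U (x (τ k)) (a' k))
    (hne : ∀ k < m, a k ≠ a' k) : Sy D U m a a' := by
  refine ⟨fun i hi j hj => ⟨⟨fun h => ?_, fun h => ?_⟩, fun h => ?_, fun h => ?_⟩,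
    fun i hi => ⟨(ha i hi).1, (ha' i hi).1⟩⟩
  · by_contra hij
    exact (cmpne hU hxy (hτ i hi) (hτ j hj) (fun h => hij (hτi i hi j hj h)) (ha i hi)
      (ha' j hj)).2 h
  · subst h
    exact cmp hU (hxy.2 _ (hτ i hi)).1 (ha i hi) (ha' i hi) (hne i hi)
  · by_cases hij : i = j
    · subst hij
      exact h.ne rfl
    · exact (cmpne hU hxy (hτ i hi) (hτ j hj) (fun h => hij (hτi i hi j hj h)) (ha i hi)
        (ha j hj)).2 h
  · by_cases hij : i = j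
    · subst hij
      exact h.ne rfl
    · exact (cmpne hU hxy (hτ i hi) (hτ j hj) (fun h => hij (hτi i hi j hj h)) (ha' i hi)
        (ha' j hj)).2 h

/-- the two cases for a component without a free pair -/
theorem cases {D : SimpleGraph V} {t n : ℕ} {U : Set V} (hU : UP D t n U) (hT : TwF D) {x y : V}
    (hx : x ∈ U) (hy : y ∈ U) (hxy : D.Adj x y) (h1 : ¬ FP D U x y) (h2 : ¬ FP D U y x)
    (hA : ¬ ∃ v a a', v ∉ U ∧ Cp D U x a ∧ Cp D U x a' ∧ a ≠ a' ∧ ¬ D.Adj v a ∧ ¬ D.Adj v a') :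
    ∃ v w a a', v ∉ U ∧ w ∉ U ∧ Cp D U x a ∧ Cp D U x a' ∧ a ≠ a' ∧ ¬ D.Adj v a ∧ D.Adj v a' ∧
      D.Adj w a ∧ ¬ D.Adj w a' := by
  by_contra hB
  have two : ∀ a a', Cp D U x a → Cp D U x a' → a ≠ a' →
      (∀ v, v ∉ U → D.Adj v a) ∨ ∀ v, v ∉ U → D.Adj v a' := by
    intro a a' ha ha' hne
    by_contra hcon
    push Not at hcon
    obtain ⟨⟨v, hv, hva⟩, w, hw, hwa⟩ := hcon
    have e1 : D.Adj v a' := by
      by_contra h
      exact hA ⟨v, a, a', hv, ha, ha', hne, hva, h⟩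
    have e2 : D.Adj w a := by
      by_contra h
      exact hA ⟨w, a, a', hw, ha, ha', hne, h, hwa⟩
    exact hB ⟨v, w, a, a', hv, hw, ha, ha', hne, hva, e1, e2, hwa⟩
  have twin : ∀ a a', Cp D U x a → Cp D U x a' → a ≠ a' → (∀ v, v ∉ U → D.Adj v a) →
      (∀ v, v ∉ U → D.Adj v a') → False := by
    intro a a' ha ha' hne h3 h4
    refine hT a a' (cmp hU hx ha ha' hne) fun z hza hza' => ?_
    by_cases hz : z ∈ U
    · constructor
      · intro h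
        exact (tr hU ha'.1 ha.1 hz (Or.inr (cmp hU hx ha' ha hne.symm)) (Or.inr h)).resolve_left
          hza'.symm
      · intro h
        exact (tr hU ha.1 ha'.1 hz (Or.inr (cmp hU hx ha ha' hne)) (Or.inr h)).resolve_left
          hza.symm
    · exact ⟨fun _ => (h4 z hz).symm, fun _ => (h3 z hz).symm⟩
  have cx : Cp D U x x := ⟨hx, Or.inl rfl⟩
  have cy : Cp D U x y := ⟨hy, Or.inr hxy.symm⟩
  by_cases h3 : ∃ z, Cp D U x z ∧ z ≠ x ∧ z ≠ y
  · obtain ⟨z, cz, hzx, hzy⟩ := h3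
    rcases two x y cx cy hxy.ne with hX | hY
    · rcases two y z cy cz hzy.symm with hY | hZ
      · exact twin x y cx cy hxy.ne hX hY
      · exact twin x z cx cz hzx.symm hX hZ
    · rcases two x z cx cz hzx.symm with hX | hZ
      · exact twin x y cx cy hxy.ne hX hY
      · exact twin y z cy cz hzy.symm hY hZ
  · push Not at h3
    rcases two x y cx cy hxy.ne with hX | hY
    · refine h2 ⟨hy, hx, hxy.symm, hX, fun u hu hux => ?_⟩
      exact h3 u ⟨hu, Or.inr hux⟩ hux.ne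
    · refine h1 ⟨hx, hy, hxy, hY, fun u hu huy => ?_⟩
      by_contra hux
      have h5 : Cp D U x u := ⟨hu, tr hU hu hy hx (Or.inr huy) (Or.inr hxy.symm)⟩
      exact huy.ne (h3 u h5 hux)

end FrAux

open FrAux in
/-- **Fr.** -/
theorem oFr : S_Fr := by
  intro hR hBa hCh t N h
  obtain ⟨m₁, hm₁⟩ := hBa hR t N
  obtain ⟨M₂, hM₂⟩ := hCh hR t N h
  obtain ⟨M₃, hM₃⟩ := hCh hR t N M₂
  refine ⟨m₁ + M₃, ?_⟩
  intro V D hJ hH hT n U hU hO x y hxy
  by_contra hcon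
  push Not at hcon
  have : Nonempty V := ⟨x 0⟩
  classical
  let PA : ℕ → Prop := fun k => ∃ v a a', v ∉ U ∧ Cp D U (x k) a ∧ Cp D U (x k) a' ∧ a ≠ a' ∧
    ¬ D.Adj v a ∧ ¬ D.Adj v a'
  have hcard : ((Finset.range (m₁ + M₃)).filter PA).card
      + ((Finset.range (m₁ + M₃)).filter (fun k => ¬ PA k)).card = m₁ + M₃ := by
    rw [Finset.card_filter_add_card_filter_not, Finset.card_range]
  by_cases hc : m₁ ≤ ((Finset.range (m₁ + M₃)).filter PA).card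
  · obtain ⟨τ, hτ, hτi⟩ := enum _ _ hc
    have h1 : ∀ k, k < m₁ → ∃ v a a', v ∉ U ∧ Cp D U (x (τ k)) a ∧ Cp D U (x (τ k)) a' ∧ a ≠ a' ∧
        ¬ D.Adj v a ∧ ¬ D.Adj v a' := fun k hk => (Finset.mem_filter.1 (hτ k hk)).2
    choose! v a a' h2 using h1
    have hτb : ∀ k < m₁, τ k < m₁ + M₃ := fun k hk =>
      Finset.mem_range.1 (Finset.mem_filter.1 (hτ k hk)).1
    exact hm₁ V D hJ hH n U hU a a' v
      (sys hU hxy τ hτb hτi a a' (fun k hk => (h2 k hk).2.1) (fun k hk => (h2 k hk).2.2.1)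
        (fun k hk => (h2 k hk).2.2.2.1))
      (fun k hk => ⟨(h2 k hk).1, (h2 k hk).2.2.2.2.1, (h2 k hk).2.2.2.2.2⟩)
  · have hc' : M₃ ≤ ((Finset.range (m₁ + M₃)).filter (fun k => ¬ PA k)).card := by omega
    obtain ⟨τ, hτ, hτi⟩ := enum _ _ hc'
    have hτb : ∀ k < M₃, τ k < m₁ + M₃ := fun k hk =>
      Finset.mem_range.1 (Finset.mem_filter.1 (hτ k hk)).1
    have h1 : ∀ k, k < M₃ → ∃ v w a a', v ∉ U ∧ w ∉ U ∧ Cp D U (x (τ k)) a ∧
        Cp D U (x (τ k)) a' ∧ a ≠ a' ∧ ¬ D.Adj v a ∧ D.Adj v a' ∧ D.Adj w a ∧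
        ¬ D.Adj w a' := fun k hk =>
      cases hU hT (hxy.2 _ (hτb k hk)).1 (hxy.2 _ (hτb k hk)).2
        (((hxy.1 _ (hτb k hk) _ (hτb k hk)).1).2 rfl) (hcon _ (hτb k hk)).1
        (hcon _ (hτb k hk)).2 (Finset.mem_filter.1 (hτ k hk)).2
    choose! v w a a' h2 using h1
    obtain ⟨k₀, σ, hk₀, hσ, h3⟩ := hM₃ V D hJ hH n U hU a a' v
      (sys hU hxy τ hτb hτi a a' (fun k hk => (h2 k hk).2.2.1) (fun k hk => (h2 k hk).2.2.2.1)
        (fun k hk => (h2 k hk).2.2.2.2.1))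
      (fun k hk => ⟨(h2 k hk).1, (h2 k hk).2.2.2.2.2.1, (h2 k hk).2.2.2.2.2.2.1⟩)
    have incr_inj : ∀ {m M : ℕ} {ρ : ℕ → ℕ}, Incr m M ρ → ∀ k < m, ∀ l < m, ρ k = ρ l → k = l := by
      intro m M ρ hρ k hk l hl hkl
      rcases lt_trichotomy k l with h4 | h4 | h4
      · exact absurd hkl (hρ.1 k l h4 hl).ne
      · exact h4
      · exact absurd hkl (hρ.1 l k h4 hk).ne'
    obtain ⟨k₁, σ', hk₁, hσ', h4⟩ := hM₂ V D hJ hH n U hU (fun k => a' (σ k)) (fun k => a (σ k))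
      (fun k => w (σ k))
      (sys hU hxy (fun k => τ (σ k)) (fun k hk => hτb _ (hσ.2 k hk))
        (fun k hk l hl hkl => incr_inj hσ k hk l hl (hτi _ (hσ.2 k hk) _ (hσ.2 l hl) hkl))
        (fun k => a' (σ k)) (fun k => a (σ k))
        (fun k hk => (h2 _ (hσ.2 k hk)).2.2.2.1) (fun k hk => (h2 _ (hσ.2 k hk)).2.2.1)
        (fun k hk => (h2 _ (hσ.2 k hk)).2.2.2.2.1.symm))
      (fun k hk => ⟨(h2 _ (hσ.2 k hk)).2.1, (h2 _ (hσ.2 k hk)).2.2.2.2.2.2.2.2,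
        (h2 _ (hσ.2 k hk)).2.2.2.2.2.2.2.1⟩)
    refine hO ⟨v k₀, w (σ k₁), fun k => a (σ (σ' k)), fun k => a' (σ (σ' k)), (h2 k₀ hk₀).1,
      (h2 _ (hσ.2 k₁ hk₁)).2.1, ?_, ?_⟩
    · refine sys hU hxy (fun k => τ (σ (σ' k))) (fun k hk => hτb _ (hσ.2 _ (hσ'.2 k hk)))
        (fun k hk l hl hkl => incr_inj hσ' k hk l hl (incr_inj hσ _ (hσ'.2 k hk) _ (hσ'.2 l hl)
          (hτi _ (hσ.2 _ (hσ'.2 k hk)) _ (hσ.2 _ (hσ'.2 l hl)) hkl)))
        _ _
        (fun k hk => (h2 _ (hσ.2 _ (hσ'.2 k hk))).2.2.1)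
        (fun k hk => (h2 _ (hσ.2 _ (hσ'.2 k hk))).2.2.2.1)
        (fun k hk => (h2 _ (hσ.2 _ (hσ'.2 k hk))).2.2.2.2.1)
    · intro i hi
      exact ⟨(h3 _ (hσ'.2 i hi)).1, (h3 _ (hσ'.2 i hi)).2, (h4 i hi).2, (h4 i hi).1⟩

end Pool.Agent.MPd439b2.ON
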