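import Pool.Agent.Lib.MP_d439b2_co.ON.Spec

/-!
# MP_d439b2_co, ON, HK: the facts about `K4:0,1`
-/

set_option autoImplicit false

namespace Pool.Agent.MPd439b2.ON

open Pool.Agent.MPd439b2 Pool.Agent.MPd439b2.Rep Pool.Agent.MPd439b2.W Pool.Agent.MPd439b2.A0

namespace oHKAux

variable {V : Type} {D : SimpleGraph V}

theorem tc {A B : Set V} (u w : V) (hu : u ∈ A) (hw : w ∈ B) (h1 : u ≠ w) (h2 : ¬ D.Adj u w) :
    Tch Dᶜ A B := ⟨u, hu, w, hw, h1, h2⟩

theorem ntc {A B : Set V} (h : ∀ u ∈ A, ∀ w ∈ B, D.Adj u w) : ¬ Tch Dᶜ A B := by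
  rintro ⟨a, ha, b, hb, h1⟩
  exact h1.2 (h a ha b hb)

theorem dj {A B : Set V} (h : ∀ u ∈ A, ∀ w ∈ B, u ≠ w) : Disjoint A B := by
  rw [Set.disjoint_left]
  intro v hv hv'
  exact h v hv v hv' rfl

/-- vertices with different neighbours are different -/
theorem ne1 {u w r : V} (h1 : D.Adj u r) (h2 : ¬ D.Adj w r) : u ≠ w := by
  rintro rfl
  exact h2 h1

/-- the lemma for vertices -/
theorem vx (hM : S_M1) {y y' a b c d : V} (hy : D.Adj y y') (ab : a ≠ b) (ac : a ≠ c) (ad : a ≠ d)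
    (bc : b ≠ c) (bd : b ≠ d) (cd : c ≠ d) (nab : ¬ D.Adj a b) (nac : ¬ D.Adj a c)
    (nad : ¬ D.Adj a d) (nbc : ¬ D.Adj b c) (nbd : ¬ D.Adj b d) (ncd : ¬ D.Adj c d)
    (ya : ¬ D.Adj y a) (yb : D.Adj y b) (yc : D.Adj y c) (yd : D.Adj y d) (y'a : D.Adj y' a)
    (y'b : ¬ D.Adj y' b) (y'c : D.Adj y' c) (y'd : D.Adj y' d) : IMS K401 Dᶜ Set.univ := by
  have e1 : a ≠ y := (ne1 yb nab).symm
  have e2 : b ≠ y' := (ne1 y'a fun h => nab h.symm).symm
  have s : ∀ v : V, Conn Dᶜ ({v} : Set V) := fun v => Conn.singleton _ _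
  exact hM V Dᶜ {a} {b} {c} {d} {y} {y'} (s a) (s b) (s c) (s d) (s y) (s y')
    (Set.disjoint_singleton.mpr ab) (Set.disjoint_singleton.mpr ac)
    (Set.disjoint_singleton.mpr ad) (Set.disjoint_singleton.mpr e1)
    (Set.disjoint_singleton.mpr y'a.ne.symm) (Set.disjoint_singleton.mpr bc)
    (Set.disjoint_singleton.mpr bd) (Set.disjoint_singleton.mpr yb.ne.symm)
    (Set.disjoint_singleton.mpr e2) (Set.disjoint_singleton.mpr cd)
    (Set.disjoint_singleton.mpr yc.ne.symm) (Set.disjoint_singleton.mpr y'c.ne.symm)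
    (Set.disjoint_singleton.mpr yd.ne.symm) (Set.disjoint_singleton.mpr y'd.ne.symm)
    (Set.disjoint_singleton.mpr hy.ne)
    (tc _ _ rfl rfl ab nab) (tc _ _ rfl rfl ac nac) (tc _ _ rfl rfl ad nad)
    (tc _ _ rfl rfl bc nbc) (tc _ _ rfl rfl bd nbd) (tc _ _ rfl rfl cd ncd)
    (tc _ _ rfl rfl e1 fun h => ya h.symm) (tc _ _ rfl rfl e2 fun h => y'b h.symm)
    (ntc (by rintro _ rfl _ rfl; exact y'a.symm)) (ntc (by rintro _ rfl _ rfl; exact yb.symm))
    (ntc (by rintro _ rfl _ rfl; exact yc.symm)) (ntc (by rintro _ rfl _ rfl; exact y'c.symm))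
    (ntc (by rintro _ rfl _ rfl; exact yd.symm)) (ntc (by rintro _ rfl _ rfl; exact y'd.symm))
    (ntc (by rintro _ rfl _ rfl; exact hy))

theorem im_fact {n : ℕ} {x y : ℕ → V} (h : IM D n x y) {i j : ℕ} (hi : i < n) (hj : j < n) :
    (i ≠ j → x i ≠ x j ∧ y i ≠ y j ∧ ¬ D.Adj (x i) (y j)) ∧ x i ≠ y j ∧ D.Adj (x i) (y i) ∧
      ¬ D.Adj (x i) (x j) ∧ ¬ D.Adj (y i) (y j) := by
  have h1 : D.Adj (x i) (y i) := (h i hi i hi).1.mpr rfl
  have h2 : D.Adj (x j) (y j) := (h j hj j hj).1.mpr rfl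
  refine ⟨fun hij => ⟨ne1 h1 fun h' => hij ((h j hj i hi).1.mp h').symm,
    ne1 h1.symm fun h' => hij ((h i hi j hj).1.mp h'.symm), fun h' => hij ((h i hi j hj).1.mp h')⟩,
    ?_, h1, (h i hi j hj).2.1, (h i hi j hj).2.2⟩
  by_cases hij : i = j
  · subst hij
    exact h1.ne
  · exact ne1 h1 (h j hj i hi).2.2

end oHKAux

open oHKAux

theorem oHK : S_HK := by
  intro hM V D hno
  refine ⟨⟨?_, ?_, ?_⟩, ?_, ?_, ?_, ?_⟩
  · intro a v ha hv hc
    have ia : ∀ i < 4, ∀ j < 4, i ≠ j → a i ≠ a j := fun i hi j hj hij =>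
      ne1 ((hc i (by omega) j (by omega)).mpr hij) fun h => (hc j (by omega) j (by omega)).mp h rfl
    have mi : ∀ i < 4, ¬ D.Adj (v i) (a i) := fun i hi h =>
      (hc i (by omega) i (by omega)).mp h.symm rfl
    have se : ∀ i < 4, ∀ j < 4, i ≠ j → D.Adj (v i) (a j) := fun i hi j hj hij =>
      ((hc j (by omega) i (by omega)).mpr hij.symm).symm
    exact hno (vx hM (y := v 0) (y' := v 1) (a := a 0) (b := a 1) (c := a 2) (d := a 3)
      (hv 0 (by omega) 1 (by omega) (by omega)) (ia 0 (by omega) 1 (by omega) (by omega))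
      (ia 0 (by omega) 2 (by omega) (by omega)) (ia 0 (by omega) 3 (by omega) (by omega))
      (ia 1 (by omega) 2 (by omega) (by omega)) (ia 1 (by omega) 3 (by omega) (by omega))
      (ia 2 (by omega) 3 (by omega) (by omega)) (ha 0 (by omega) 1 (by omega))
      (ha 0 (by omega) 2 (by omega)) (ha 0 (by omega) 3 (by omega)) (ha 1 (by omega) 2 (by omega))
      (ha 1 (by omega) 3 (by omega)) (ha 2 (by omega) 3 (by omega)) (mi 0 (by omega))
      (se 0 (by omega) 1 (by omega) (by omega)) (se 0 (by omega) 2 (by omega) (by omega))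
      (se 0 (by omega) 3 (by omega) (by omega)) (se 1 (by omega) 0 (by omega) (by omega))
      (mi 1 (by omega)) (se 1 (by omega) 2 (by omega) (by omega))
      (se 1 (by omega) 3 (by omega) (by omega)))
  · intro x y v him hv hc
    have F := fun (i j : ℕ) (hi : i < 8) (hj : j < 8) => im_fact him hi hj
    have C := fun (i j : ℕ) (hi : i < 8) (hj : j < 8) => hc i hi j hj
    exact hno (vx hM (y := v 1) (y' := v 3) (a := x 1) (b := y 2) (c := x 0) (d := y 4)
      (hv 1 (by omega) 3 (by omega) (by omega)) (F 1 2 (by omega) (by omega)).2.1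
      ((F 1 0 (by omega) (by omega)).1 (by omega)).1 (F 1 4 (by omega) (by omega)).2.1
      (F 0 2 (by omega) (by omega)).2.1.symm ((F 2 4 (by omega) (by omega)).1 (by omega)).2.1
      (F 0 4 (by omega) (by omega)).2.1 ((F 1 2 (by omega) (by omega)).1 (by omega)).2.2
      (F 1 0 (by omega) (by omega)).2.2.2.1 ((F 1 4 (by omega) (by omega)).1 (by omega)).2.2
      (fun h => ((F 0 2 (by omega) (by omega)).1 (by omega)).2.2 h.symm)
      (F 2 4 (by omega) (by omega)).2.2.2.2 ((F 0 4 (by omega) (by omega)).1 (by omega)).2.2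
      (fun h => absurd ((C 1 1 (by omega) (by omega)).1.mp h) (by omega))
      ((C 2 1 (by omega) (by omega)).2.mpr (by omega))
      ((C 0 1 (by omega) (by omega)).1.mpr (by omega))
      ((C 4 1 (by omega) (by omega)).2.mpr (by omega))
      ((C 1 3 (by omega) (by omega)).1.mpr (by omega))
      (fun h => absurd ((C 2 3 (by omega) (by omega)).2.mp h) (by omega))
      ((C 0 3 (by omega) (by omega)).1.mpr (by omega))
      ((C 4 3 (by omega) (by omega)).2.mpr (by omega)))
  · intro x y v him hv hc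
    have F := fun (i j : ℕ) (hi : i < 8) (hj : j < 8) => im_fact him hi hj
    have C := fun (i j : ℕ) (hi : i < 8) (hj : j < 8) => hc i hi j hj
    exact hno (vx hM (y := v 1) (y' := v 3) (a := x 1) (b := y 2) (c := x 0) (d := y 3)
      (hv 1 (by omega) 3 (by omega) (by omega)) (F 1 2 (by omega) (by omega)).2.1
      ((F 1 0 (by omega) (by omega)).1 (by omega)).1 (F 1 3 (by omega) (by omega)).2.1
      (F 0 2 (by omega) (by omega)).2.1.symm ((F 2 3 (by omega) (by omega)).1 (by omega)).2.1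
      (F 0 3 (by omega) (by omega)).2.1 ((F 1 2 (by omega) (by omega)).1 (by omega)).2.2
      (F 1 0 (by omega) (by omega)).2.2.2.1 ((F 1 3 (by omega) (by omega)).1 (by omega)).2.2
      (fun h => ((F 0 2 (by omega) (by omega)).1 (by omega)).2.2 h.symm)
      (F 2 3 (by omega) (by omega)).2.2.2.2 ((F 0 3 (by omega) (by omega)).1 (by omega)).2.2
      (fun h => absurd ((C 1 1 (by omega) (by omega)).1.mp h) (by omega))
      ((C 2 1 (by omega) (by omega)).2.mpr (by omega))
      ((C 0 1 (by omega) (by omega)).1.mpr (by omega))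
      ((C 3 1 (by omega) (by omega)).2.mpr (by omega))
      ((C 1 3 (by omega) (by omega)).1.mpr (by omega))
      (fun h => absurd ((C 2 3 (by omega) (by omega)).2.mp h) (by omega))
      ((C 0 3 (by omega) (by omega)).1.mpr (by omega))
      ((C 3 3 (by omega) (by omega)).2.mpr (by omega)))
  · -- hC
    intro v w p q e hvw hpq vp vq wp wq he ie hi
    have E := fun (i : ℕ) (h : i < 8) => hi i h
    have qe : ∀ i < 8, q ≠ e i := fun i h => (ne1 (D := D) (E i h).2.1.symm
      (fun h' => wq h'.symm)).symm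
    have pe : ∀ i < 8, p ≠ e i := fun i h => (ne1 (D := D) (E i h).1.symm
      (fun h' => vp h'.symm)).symm
    have ee : ∀ i < 8, ∀ j < 8, i ≠ j → e i ≠ e j := fun i h j h' hne h'' => hne (ie i h j h' h'')
    have pv : p ≠ v := (ne1 (E 0 (by omega)).1 fun h => (E 0 (by omega)).2.2.1 h.symm).symm
    have qw : q ≠ w := (ne1 (E 0 (by omega)).2.1 fun h => (E 0 (by omega)).2.2.2 h.symm).symm
    have s : ∀ v : V, Conn Dᶜ ({v} : Set V) := fun v => Conn.singleton _ _
    have pq := hpq.ne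
    have pe0 := pe 0 (by omega)
    have pe1 := pe 1 (by omega)
    have pe2 := pe 2 (by omega)
    have qe0 := qe 0 (by omega)
    have qe1 := qe 1 (by omega)
    have qe2 := qe 2 (by omega)
    have e01 := ee 0 (by omega) 1 (by omega) (by omega)
    have e02 := ee 0 (by omega) 2 (by omega) (by omega)
    have e12 := ee 1 (by omega) 2 (by omega) (by omega)
    have E0 := E 0 (by omega)
    have E1 := E 1 (by omega)
    have E2 := E 2 (by omega)
    have wpn := wp.ne.symm
    have vqn := vq.ne.symm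
    have a1 := E0.1.ne.symm
    have a2 := E0.2.1.ne.symm
    have a3 := E1.1.ne.symm
    have a4 := E1.2.1.ne.symm
    have a5 := E2.1.ne.symm
    have a6 := E2.2.1.ne.symm
    have vw := hvw.ne
    refine hno (hM V Dᶜ {p} {q, e 0} {e 1} {e 2} {v} {w} (s p)
      (Conn.pair ⟨qe0, fun h => E0.2.2.2 h.symm⟩) (s _) (s _) (s _) (s _)
      (dj ?_) (dj ?_) (dj ?_) (dj ?_) (dj ?_) (dj ?_) (dj ?_) (dj ?_) (dj ?_) (dj ?_) (dj ?_)
      (dj ?_) (dj ?_) (dj ?_) (dj ?_)
      (tc p (e 0) rfl (Or.inr rfl) pe0 fun h => E0.2.2.1 h.symm)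
      (tc p (e 1) rfl rfl pe1 fun h => E1.2.2.1 h.symm)
      (tc p (e 2) rfl rfl pe2 fun h => E2.2.2.1 h.symm)
      (tc (e 0) (e 1) (Or.inr rfl) rfl e01 (he 0 (by omega) 1 (by omega)))
      (tc (e 0) (e 2) (Or.inr rfl) rfl e02 (he 0 (by omega) 2 (by omega)))
      (tc (e 1) (e 2) rfl rfl e12 (he 1 (by omega) 2 (by omega)))
      (tc p v rfl rfl pv fun h => vp h.symm) (tc q w (Or.inl rfl) rfl qw fun h => wq h.symm)
      (ntc ?_) (ntc ?_) (ntc ?_) (ntc ?_) (ntc ?_) (ntc ?_) (ntc ?_))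
    · rintro _ rfl _ (rfl | rfl) <;> assumption
    · rintro _ rfl _ rfl; assumption
    · rintro _ rfl _ rfl; assumption
    · rintro _ rfl _ rfl; assumption
    · rintro _ rfl _ rfl; assumption
    · rintro _ (rfl | rfl) _ rfl <;> assumption
    · rintro _ (rfl | rfl) _ rfl <;> assumption
    · rintro _ (rfl | rfl) _ rfl <;> assumption
    · rintro _ (rfl | rfl) _ rfl <;> assumption
    · rintro _ rfl _ rfl; assumption
    · rintro _ rfl _ rfl; assumption
    · rintro _ rfl _ rfl; assumption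
    · rintro _ rfl _ rfl; assumption
    · rintro _ rfl _ rfl; assumption
    · rintro _ rfl _ rfl; assumption
    · rintro _ rfl _ rfl; exact wp.symm
    · rintro _ (rfl | rfl) _ rfl
      · exact vq.symm
      · exact E0.1.symm
    · rintro _ rfl _ rfl; exact E1.1.symm
    · rintro _ rfl _ rfl; exact E1.2.1.symm
    · rintro _ rfl _ rfl; exact E2.1.symm
    · rintro _ rfl _ rfl; exact E2.2.1.symm
    · rintro _ rfl _ rfl; exact hvw
  · -- hD
    intro p q u him hu hc
    have F := fun (i j : ℕ) (hi : i < 8) (hj : j < 8) => im_fact him hi hj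
    have C := fun (i j : ℕ) (hi : i < 8) (hj : j < 8) => hc i hi j hj
    exact hno (vx hM (y := u 0) (y' := u 1) (a := p 1) (b := p 0) (c := q 2) (d := q 3)
      (hu 0 (by omega) 1 (by omega) (by omega)) ((F 1 0 (by omega) (by omega)).1 (by omega)).1
      (F 1 2 (by omega) (by omega)).2.1 (F 1 3 (by omega) (by omega)).2.1
      (F 0 2 (by omega) (by omega)).2.1 (F 0 3 (by omega) (by omega)).2.1
      ((F 2 3 (by omega) (by omega)).1 (by omega)).2.1 (F 1 0 (by omega) (by omega)).2.2.2.1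
      ((F 1 2 (by omega) (by omega)).1 (by omega)).2.2
      ((F 1 3 (by omega) (by omega)).1 (by omega)).2.2
      ((F 0 2 (by omega) (by omega)).1 (by omega)).2.2
      ((F 0 3 (by omega) (by omega)).1 (by omega)).2.2 (F 2 3 (by omega) (by omega)).2.2.2.2
      (fun h => absurd ((C 0 1 (by omega) (by omega)).1.mp h) (by omega))
      ((C 0 0 (by omega) (by omega)).1.mpr rfl) ((C 0 2 (by omega) (by omega)).2)
      ((C 0 3 (by omega) (by omega)).2) ((C 1 1 (by omega) (by omega)).1.mpr rfl)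
      (fun h => absurd ((C 1 0 (by omega) (by omega)).1.mp h) (by omega))
      ((C 1 2 (by omega) (by omega)).2) ((C 1 3 (by omega) (by omega)).2))
  · -- hE
    intro p q u w z hpq hup huq hzw hi
    have F := fun (i j : ℕ) (hi : i < 8) (hj : j < 8) => im_fact hpq hi hj
    have F' := fun (i j : ℕ) (hi : i < 8) (hj : j < 8) => im_fact hup hi hj
    have E := fun (i : ℕ) (h : i < 8) => hi i h
    have s : ∀ v : V, Conn Dᶜ ({v} : Set V) := fun v => Conn.singleton _ _
    have b1 := (F 1 0 (by omega) (by omega)).2.1.symm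
    have b2 := (huq 2 (by omega) 0 (by omega)).ne.symm
    have b3 := (F 1 2 (by omega) (by omega)).2.1.symm
    have b4 := (huq 2 (by omega) 2 (by omega)).ne.symm
    have b5 := (F 2 0 (by omega) (by omega)).2.1.symm
    have b6 := (F 2 2 (by omega) (by omega)).2.1.symm
    have b7 := (F 0 0 (by omega) (by omega)).2.1.symm
    have b8 := (F 0 2 (by omega) (by omega)).2.1.symm
    have b9 : q 0 ≠ w := (ne1 (E 1 (by omega)).2.2.2.1 fun h =>
      ((F 1 0 (by omega) (by omega)).1 (by omega)).2.2 h.symm).symm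
    have b10 : q 2 ≠ w := (ne1 (E 1 (by omega)).2.2.2.1 fun h =>
      ((F 1 2 (by omega) (by omega)).1 (by omega)).2.2 h.symm).symm
    have b11 := (E 0 (by omega)).2.1.ne.symm
    have b12 := (E 2 (by omega)).2.1.ne.symm
    have b13 := ((F 1 2 (by omega) (by omega)).1 (by omega)).1
    have b14 := (F' 2 2 (by omega) (by omega)).2.1
    have b15 := ((F 1 0 (by omega) (by omega)).1 (by omega)).1
    have b16 := (F' 2 0 (by omega) (by omega)).2.1
    have b17 := (E 1 (by omega)).2.2.2.1.ne.symm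
    have b18 := (E 2 (by omega)).2.2.2.2.2.ne.symm
    have b19 := (E 1 (by omega)).1.ne.symm
    have b20 : u 2 ≠ z := (ne1 (E 0 (by omega)).1
      ((F' 2 0 (by omega) (by omega)).1 (by omega)).2.2).symm
    have b21 := ((F 2 0 (by omega) (by omega)).1 (by omega)).1
    have b22 := (E 2 (by omega)).2.2.2.1.ne.symm
    have b23 := (E 2 (by omega)).1.ne.symm
    have b24 := (E 0 (by omega)).2.2.2.1.ne.symm
    have b25 := (E 0 (by omega)).1.ne.symm
    have b26 := hzw.ne.symm
    refine hno (hM V Dᶜ {q 0, q 2} {p 1, u 2} {p 2} {p 0} {w} {z}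
      (Conn.pair ⟨((F 0 2 (by omega) (by omega)).1 (by omega)).2.1,
        (F 0 2 (by omega) (by omega)).2.2.2.2⟩)
      (Conn.pair ⟨(F' 2 1 (by omega) (by omega)).2.1.symm,
        fun h => ((F' 2 1 (by omega) (by omega)).1 (by omega)).2.2 h.symm⟩) (s _) (s _) (s _) (s _)
      (dj ?_) (dj ?_) (dj ?_) (dj ?_) (dj ?_) (dj ?_) (dj ?_) (dj ?_) (dj ?_) (dj ?_) (dj ?_)
      (dj ?_) (dj ?_) (dj ?_) (dj ?_)
      (tc (q 0) (p 1) (Or.inl rfl) (Or.inl rfl) b1
        fun h => ((F 1 0 (by omega) (by omega)).1 (by omega)).2.2 h.symm)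
      (tc (q 0) (p 2) (Or.inl rfl) rfl b5
        fun h => ((F 2 0 (by omega) (by omega)).1 (by omega)).2.2 h.symm)
      (tc (q 2) (p 0) (Or.inr rfl) rfl b8
        fun h => ((F 0 2 (by omega) (by omega)).1 (by omega)).2.2 h.symm)
      (tc (p 1) (p 2) (Or.inl rfl) rfl b13 (F 1 2 (by omega) (by omega)).2.2.2.1)
      (tc (p 1) (p 0) (Or.inl rfl) rfl b15 (F 1 0 (by omega) (by omega)).2.2.2.1)
      (tc (p 2) (p 0) rfl rfl b21 (F 2 0 (by omega) (by omega)).2.2.2.1)
      (tc (q 0) w (Or.inl rfl) rfl b9 fun h => (E 0 (by omega)).2.2.2.2.1 h.symm)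
      (tc (u 2) z (Or.inr rfl) rfl b20 fun h => (E 2 (by omega)).2.2.1 h.symm)
      (ntc ?_) (ntc ?_) (ntc ?_) (ntc ?_) (ntc ?_) (ntc ?_) (ntc ?_))
    · rintro _ (rfl | rfl) _ (rfl | rfl) <;> assumption
    · rintro _ (rfl | rfl) _ rfl <;> assumption
    · rintro _ (rfl | rfl) _ rfl <;> assumption
    · rintro _ (rfl | rfl) _ rfl <;> assumption
    · rintro _ (rfl | rfl) _ rfl <;> assumption
    · rintro _ (rfl | rfl) _ rfl <;> assumption
    · rintro _ (rfl | rfl) _ rfl <;> assumption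
    · rintro _ (rfl | rfl) _ rfl <;> assumption
    · rintro _ (rfl | rfl) _ rfl <;> assumption
    · rintro _ rfl _ rfl; assumption
    · rintro _ rfl _ rfl; assumption
    · rintro _ rfl _ rfl; assumption
    · rintro _ rfl _ rfl; assumption
    · rintro _ rfl _ rfl; assumption
    · rintro _ rfl _ rfl; assumption
    · rintro _ (rfl | rfl) _ rfl
      · exact (E 0 (by omega)).2.1.symm
      · exact (E 2 (by omega)).2.1.symm
    · rintro _ (rfl | rfl) _ rfl
      · exact (E 1 (by omega)).2.2.2.1.symm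
      · exact (E 2 (by omega)).2.2.2.2.2.symm
    · rintro _ rfl _ rfl; exact (E 2 (by omega)).2.2.2.1.symm
    · rintro _ rfl _ rfl; exact (E 2 (by omega)).1.symm
    · rintro _ rfl _ rfl; exact (E 0 (by omega)).2.2.2.1.symm
    · rintro _ rfl _ rfl; exact (E 0 (by omega)).1.symm
    · rintro _ rfl _ rfl; exact hzw.symm
  · -- hF
    intro e e' y y' g ee' nee hyy ye ye' y'e y'e' hg ig hi
    have E := fun (i : ℕ) (h : i < 8) => hi i h
    have eg : ∀ i < 8, e ≠ g i := fun i h => (ne1 (D := D) (E i h).1.symm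
      (fun h' => ye h'.symm)).symm
    have e'g : ∀ i < 8, e' ≠ g i := fun i h => (ne1 (D := D) (E i h).2.1.symm
      (fun h' => y'e' h'.symm)).symm
    exact hno (vx hM (y := y) (y' := y') (a := e) (b := e') (c := g 0) (d := g 1) hyy ee'
      (eg 0 (by omega)) (eg 1 (by omega)) (e'g 0 (by omega)) (e'g 1 (by omega))
      (fun h => absurd (ig 0 (by omega) 1 (by omega) h) (by omega)) nee
      (fun h => (E 0 (by omega)).2.2.1 h.symm) (fun h => (E 1 (by omega)).2.2.1 h.symm)
      (fun h => (E 0 (by omega)).2.2.2 h.symm) (fun h => (E 1 (by omega)).2.2.2 h.symm)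
      (hg 0 (by omega) 1 (by omega)) ye ye' (E 0 (by omega)).1 (E 1 (by omega)).1 y'e y'e'
      (E 0 (by omega)).2.1 (E 1 (by omega)).2.1)

end Pool.Agent.MPd439b2.ON
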