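import Pool.Agent.Lib.MP_d439b2_co.ON.Spec

/-!
# MP_d439b2_co, ON, JCE: the facts `FjC`, `FjD`, `FjE`
-/

set_option autoImplicit false

namespace Pool.Agent.MPd439b2.ON

open Pool.Agent.MPd439b2 Pool.Agent.MPd439b2.Rep Pool.Agent.MPd439b2.W Pool.Agent.MPd439b2.A0

namespace oJCEAux

variable {V : Type} {D : SimpleGraph V}

theorem tc {A B : Set V} (u w : V) (hu : u ∈ A) (hw : w ∈ B) (h1 : u ≠ w) (h2 : ¬ D.Adj u w) :
    Tch Dᶜ A B := ⟨u, hu, w, hw, h1, h2⟩

theorem ntc {A B : Set V} (h : ∀ u ∈ A, ∀ w ∈ B, D.Adj u w) : ¬ Tch Dᶜ A B := by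
  rintro ⟨a, ha, b, hb, h1⟩
  exact h1.2 (h a ha b hb)

/-- vertices with different neighbours are different -/
theorem ne1 {u w r : V} (h1 : D.Adj u r) (h2 : ¬ D.Adj w r) : u ≠ w := by
  rintro rfl
  exact h2 h1

/-- the builder with three sets -/
theorem mk (hJB : S_JB) {t : ℕ} (G : SimpleGraph V) (A B C : Set V) (Y Z : ℕ → Set V)
    (cA : Conn G A) (cB : Conn G B) (cC : Conn G C) (cYZ : ∀ i < t, Conn G (Y i) ∧ Conn G (Z i))
    (dAB : Disjoint A B) (dAC : Disjoint A C) (dBC : Disjoint B C)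
    (dA : ∀ i < t, Disjoint A (Y i) ∧ Disjoint A (Z i))
    (dB : ∀ i < t, Disjoint B (Y i) ∧ Disjoint B (Z i))
    (dC : ∀ i < t, Disjoint C (Y i) ∧ Disjoint C (Z i)) (dYZ : ∀ i < t, Disjoint (Y i) (Z i))
    (dYY : ∀ i < t, ∀ j < t, i ≠ j →
      Disjoint (Y i) (Y j) ∧ Disjoint (Y i) (Z j) ∧ Disjoint (Z i) (Z j))
    (nAB : ¬ Tch G A B) (nAC : ¬ Tch G A C) (tBC : Tch G B C)
    (tA : ∀ i < t, Tch G A (Y i) ∧ Tch G A (Z i)) (tB : ∀ i < t, Tch G B (Y i) ∧ Tch G B (Z i))
    (tC : ∀ i < t, Tch G C (Y i) ∧ Tch G C (Z i)) (nYZ : ∀ i < t, ¬ Tch G (Y i) (Z i))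
    (tYY : ∀ i < t, ∀ j < t, i ≠ j → Tch G (Y i) (Y j) ∧ Tch G (Y i) (Z j) ∧ Tch G (Z i) (Z j)) :
    IMS (JP t) G Set.univ := by
  refine hJB t V G (fun k => if k = 0 then A else if k = 1 then B else C) Y Z ?_ cYZ ?_ ?_ dYZ dYY
    nAB nAC tBC ?_ nYZ tYY
  · intro k hk
    interval_cases k
    · exact cA
    · exact cB
    · exact cC
  · intro k hk l hl hkl
    interval_cases k <;> interval_cases l <;>
      first
      | exact absurd rfl hkl
      | exact dAB
      | exact dAC
      | exact dBC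
      | exact dAB.symm
      | exact dAC.symm
      | exact dBC.symm
  · intro k hk i hi
    interval_cases k
    · exact dA i hi
    · exact dB i hi
    · exact dC i hi
  · intro k hk i hi
    interval_cases k
    · exact tA i hi
    · exact tB i hi
    · exact tC i hi

end oJCEAux

open oJCEAux

theorem oJCE : S_JCE := by
  intro hJB t V D hno
  have base : ∀ (p q u : ℕ → V), IM D (t + 2) p q → IM D (t + 2) u p →
      (∀ i < t + 2, ∀ j < t + 2, D.Adj (u i) (q j)) →
      ∀ i < t + 2, ∀ j < t + 2, (p i ≠ q j) ∧ (p i ≠ u j) ∧ (u i ≠ q j) ∧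
        (i ≠ j → p i ≠ p j ∧ q i ≠ q j ∧ u i ≠ u j) ∧ D.Adj (p i) (q i) ∧ D.Adj (u i) (p i) ∧
        (i ≠ j → ¬ D.Adj (p i) (q j) ∧ ¬ D.Adj (p i) (u j) ∧ ¬ D.Adj (u i) (p j)) ∧
        ¬ D.Adj (p i) (p j) ∧ ¬ D.Adj (q i) (q j) ∧ ¬ D.Adj (u i) (u j) := by
    intro p q u hpq hup huq i hi j hj
    have a1 : D.Adj (p i) (q i) := (hpq i hi i hi).1.mpr rfl
    have a2 : D.Adj (p j) (q j) := (hpq j hj j hj).1.mpr rfl
    have a3 : D.Adj (u i) (p i) := (hup i hi i hi).1.mpr rfl
    have a4 : D.Adj (u j) (p j) := (hup j hj j hj).1.mpr rfl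
    have b1 : i ≠ j → ¬ D.Adj (p i) (q j) := fun h h' => h ((hpq i hi j hj).1.mp h')
    have b2 : i ≠ j → ¬ D.Adj (u i) (p j) := fun h h' => h ((hup i hi j hj).1.mp h')
    have b3 : i ≠ j → ¬ D.Adj (p i) (u j) := fun h h' => h ((hup j hj i hi).1.mp h'.symm).symm
    have b4 : i ≠ j → ¬ D.Adj (p j) (q i) := fun h h' => h ((hpq j hj i hi).1.mp h').symm
    have c1 := (hpq i hi j hj).2.1
    have c2 := (hpq i hi j hj).2.2
    have c3 := (hup i hi j hj).2.1
    refine ⟨?_, ?_, ?_, ?_, a1, a3, fun h => ⟨b1 h, b3 h, b2 h⟩, c1, c2, c3⟩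
    · by_cases h : i = j
      · subst h
        exact a1.ne
      · exact fun h' => c2 (by rw [← h']; exact a1.symm)
    · by_cases h : i = j
      · subst h
        exact a3.ne.symm
      · exact fun h' => c3 (by rw [← h']; exact a3)
    · exact (huq i hi j hj).ne
    · exact fun h => ⟨ne1 a1 (b4 h), ne1 a1.symm fun h' => b1 h h'.symm,
        ne1 a3 fun h' => b3 h h'.symm⟩
  refine ⟨?_, ?_, ?_⟩
  · intro p q u w hpq hup huq hw
    have B := base p q u hpq hup huq
    have wq : ∀ j < t + 2, w ≠ q j := by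
      intro j hj
      by_cases h : j = 0
      · subst h
        exact ne1 (hw 1 (by omega)).1 fun h' => ((B 1 (by omega) 0 (by omega)).2.2.2.2.2.2.1
          (by omega)).1 h'.symm
      · exact ne1 (hw 0 (by omega)).1 fun h' => ((B 0 (by omega) j hj).2.2.2.2.2.2.1
          (by omega)).1 h'.symm
    have wu : ∀ j < t + 2, w ≠ u j := by
      intro j hj
      by_cases h : j = 0
      · subst h
        exact ne1 (hw 1 (by omega)).1 ((B 0 (by omega) 1 (by omega)).2.2.2.2.2.2.1
          (by omega)).2.2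
      · exact ne1 (hw 0 (by omega)).1 ((B j hj 0 (by omega)).2.2.2.2.2.2.1
          (by omega)).2.2
    have wp : ∀ j < t + 2, w ≠ p j := fun j hj => (hw j hj).1.ne
    apply hno
    refine hJB t V Dᶜ (fun k => if k = 0 then {p 0} else if k = 1 then {w, q 0} else {u 0})
      (fun i => {u (i + 1)}) (fun i => {p (i + 1)}) ?_ ?_ ?_ ?_ ?_ ?_ ?_ ?_ ?_ ?_ ?_ ?_
    · intro k hk
      interval_cases k
      · exact Conn.singleton _ _
      · exact Conn.pair ⟨wq 0 (by omega), (hw 0 (by omega)).2.1⟩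
      · exact Conn.singleton _ _
    · exact fun i _ => ⟨Conn.singleton _ _, Conn.singleton _ _⟩
    · have d1 : Disjoint ({p 0} : Set V) {w, q 0} := by
        rw [Set.disjoint_singleton_left]
        rintro (h | h)
        · exact wp 0 (by omega) h.symm
        · exact (B 0 (by omega) 0 (by omega)).1 h
      have d2 : Disjoint ({p 0} : Set V) {u 0} :=
        Set.disjoint_singleton.mpr (B 0 (by omega) 0 (by omega)).2.1
      have d3 : Disjoint ({w, q 0} : Set V) {u 0} := by
        rw [Set.disjoint_singleton_right]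
        rintro (h | h)
        · exact wu 0 (by omega) h.symm
        · exact (B 0 (by omega) 0 (by omega)).2.2.1 h
      intro k hk l hl hkl
      interval_cases k <;> interval_cases l <;>
        first
        | exact absurd rfl hkl
        | exact d1
        | exact d2
        | exact d3
        | exact d1.symm
        | exact d2.symm
        | exact d3.symm
    · intro k hk i hi
      have B0 := B 0 (by omega) (i + 1) (by omega)
      have B1 := B (i + 1) (by omega) 0 (by omega)
      interval_cases k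
      · exact ⟨Set.disjoint_singleton.mpr B0.2.1,
          Set.disjoint_singleton.mpr (B0.2.2.2.1 (by omega)).1⟩
      · constructor
        · show Disjoint ({w, q 0} : Set V) {u (i + 1)}
          rw [Set.disjoint_singleton_right]
          rintro (h | h)
          · exact wu _ (by omega) h.symm
          · exact B1.2.2.1 h
        · show Disjoint ({w, q 0} : Set V) {p (i + 1)}
          rw [Set.disjoint_singleton_right]
          rintro (h | h)
          · exact wp _ (by omega) h.symm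
          · exact B1.1 h
      · exact ⟨Set.disjoint_singleton.mpr (B0.2.2.2.1 (by omega)).2.2,
          Set.disjoint_singleton.mpr B1.2.1.symm⟩
    · exact fun i hi => Set.disjoint_singleton.mpr
        (B (i + 1) (by omega) (i + 1) (by omega)).2.1.symm
    · intro i hi j hj hij
      have B1 := B (i + 1) (by omega) (j + 1) (by omega)
      have B2 := B (j + 1) (by omega) (i + 1) (by omega)
      exact ⟨Set.disjoint_singleton.mpr (B1.2.2.2.1 (by omega)).2.2,
        Set.disjoint_singleton.mpr B2.2.1.symm,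
        Set.disjoint_singleton.mpr (B1.2.2.2.1 (by omega)).1⟩
    · show ¬ Tch Dᶜ ({p 0} : Set V) {w, q 0}
      refine ntc ?_
      rintro a rfl b (rfl | rfl)
      · exact (hw 0 (by omega)).1.symm
      · exact (B 0 (by omega) 0 (by omega)).2.2.2.2.1
    · show ¬ Tch Dᶜ ({p 0} : Set V) {u 0}
      refine ntc ?_
      rintro a rfl b rfl
      exact (B 0 (by omega) 0 (by omega)).2.2.2.2.2.1.symm
    · exact tc w (u 0) (Or.inl rfl) rfl (wu 0 (by omega)) (hw 0 (by omega)).2.2
    · intro k hk i hi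
      have B0 := B 0 (by omega) (i + 1) (by omega)
      have B1 := B (i + 1) (by omega) 0 (by omega)
      have hwi := hw (i + 1) (by omega)
      interval_cases k
      · exact ⟨tc _ _ rfl rfl B0.2.1 (B0.2.2.2.2.2.2.1 (by omega)).2.1,
          tc _ _ rfl rfl (B0.2.2.2.1 (by omega)).1 B0.2.2.2.2.2.2.2.1⟩
      · exact ⟨tc w (u (i + 1)) (Or.inl rfl) rfl (wu _ (by omega)) hwi.2.2,
          tc (q 0) (p (i + 1)) (Or.inr rfl) rfl B1.1.symm
            fun h => (B1.2.2.2.2.2.2.1 (by omega)).1 h.symm⟩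
      · exact ⟨tc _ _ rfl rfl (B0.2.2.2.1 (by omega)).2.2 B0.2.2.2.2.2.2.2.2.2,
          tc _ _ rfl rfl B1.2.1.symm (B0.2.2.2.2.2.2.1 (by omega)).2.2⟩
    · intro i hi
      refine ntc ?_
      rintro a rfl b rfl
      exact (B (i + 1) (by omega) (i + 1) (by omega)).2.2.2.2.2.1
    · intro i hi j hj hij
      have B1 := B (i + 1) (by omega) (j + 1) (by omega)
      have B2 := B (j + 1) (by omega) (i + 1) (by omega)
      exact ⟨tc _ _ rfl rfl (B1.2.2.2.1 (by omega)).2.2 B1.2.2.2.2.2.2.2.2.2,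
        tc _ _ rfl rfl B2.2.1.symm (B1.2.2.2.2.2.2.1 (by omega)).2.2,
        tc _ _ rfl rfl (B1.2.2.2.1 (by omega)).1 B1.2.2.2.2.2.2.2.1⟩
  · intro p q u z hpq hup huq hz
    have B := base p q u hpq hup huq
    have zp : ∀ j < t + 2, z ≠ p j := fun j hj => (hz j hj).1.ne
    have zq : ∀ j < t + 2, z ≠ q j := by
      intro j hj
      by_cases h : j = 0
      · subst h
        exact ne1 (hz 1 (by omega)).1 fun h' => ((B 1 (by omega) 0 (by omega)).2.2.2.2.2.2.1
          (by omega)).1 h'.symm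
      · exact ne1 (hz 0 (by omega)).1 fun h' => ((B 0 (by omega) j hj).2.2.2.2.2.2.1
          (by omega)).1 h'.symm
    have zu : ∀ j < t + 2, z ≠ u j := by
      intro j hj
      by_cases h : j = 0
      · subst h
        exact ne1 (hz 1 (by omega)).1 ((B 0 (by omega) 1 (by omega)).2.2.2.2.2.2.1
          (by omega)).2.2
      · exact ne1 (hz 0 (by omega)).1 ((B j hj 0 (by omega)).2.2.2.2.2.2.1
          (by omega)).2.2
    apply hno
    refine mk hJB Dᶜ {p 0} {u 0} {z} (fun i => {u (i + 1)}) (fun i => {p (i + 1), q (i + 2)})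
      (Conn.singleton _ _) (Conn.singleton _ _) (Conn.singleton _ _) ?_ ?_ ?_ ?_ ?_ ?_ ?_ ?_ ?_ ?_
      ?_ ?_ ?_ ?_ ?_ ?_ ?_
    · intro i hi
      have B1 := B (i + 1) (by omega) (i + 2) (by omega)
      exact ⟨Conn.singleton _ _, Conn.pair ⟨B1.1, (B1.2.2.2.2.2.2.1 (by omega)).1⟩⟩
    · exact Set.disjoint_singleton.mpr (B 0 (by omega) 0 (by omega)).2.1
    · exact Set.disjoint_singleton.mpr (zp 0 (by omega)).symm
    · exact Set.disjoint_singleton.mpr (zu 0 (by omega)).symm
    · intro i hi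
      have B0 := B 0 (by omega) (i + 1) (by omega)
      refine ⟨Set.disjoint_singleton.mpr B0.2.1, ?_⟩
      rw [Set.disjoint_singleton_left]
      rintro (h | h)
      · exact (B0.2.2.2.1 (by omega)).1 h
      · exact (B 0 (by omega) (i + 2) (by omega)).1 h
    · intro i hi
      have B0 := B 0 (by omega) (i + 1) (by omega)
      have B1 := B (i + 1) (by omega) 0 (by omega)
      refine ⟨Set.disjoint_singleton.mpr (B0.2.2.2.1 (by omega)).2.2, ?_⟩
      rw [Set.disjoint_singleton_left]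
      rintro (h | h)
      · exact B1.2.1 h.symm
      · exact (B 0 (by omega) (i + 2) (by omega)).2.2.1 h
    · intro i hi
      refine ⟨Set.disjoint_singleton.mpr (zu _ (by omega)), ?_⟩
      rw [Set.disjoint_singleton_left]
      rintro (h | h)
      · exact zp (i + 1) (by omega) h
      · exact zq (i + 2) (by omega) h
    · intro i hi
      have B1 := B (i + 1) (by omega) (i + 1) (by omega)
      rw [Set.disjoint_singleton_left]
      rintro (h | h)
      · exact B1.2.1 h.symm
      · exact (B (i + 1) (by omega) (i + 2) (by omega)).2.2.1 h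
    · intro i hi j hj hij
      have B1 := B (i + 1) (by omega) (j + 1) (by omega)
      have B2 := B (j + 1) (by omega) (i + 1) (by omega)
      refine ⟨Set.disjoint_singleton.mpr (B1.2.2.2.1 (by omega)).2.2, ?_, ?_⟩
      · rw [Set.disjoint_singleton_left]
        rintro (h | h)
        · exact B2.2.1 h.symm
        · exact (B (i + 1) (by omega) (j + 2) (by omega)).2.2.1 h
      · rw [Set.disjoint_left]
        rintro v (rfl | rfl) (h | h)
        · exact (B1.2.2.2.1 (by omega)).1 h
        · exact (B (i + 1) (by omega) (j + 2) (by omega)).1 h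
        · exact (B (j + 1) (by omega) (i + 2) (by omega)).1 h.symm
        · exact ((B (i + 2) (by omega) (j + 2) (by omega)).2.2.2.1 (by omega)).2.1 h
    · refine ntc ?_
      rintro a rfl b rfl
      exact (B 0 (by omega) 0 (by omega)).2.2.2.2.2.1.symm
    · refine ntc ?_
      rintro a rfl b rfl
      exact (hz 0 (by omega)).1.symm
    · exact tc _ _ rfl rfl (zu 0 (by omega)).symm fun h => (hz 0 (by omega)).2.2 h.symm
    · intro i hi
      have B0 := B 0 (by omega) (i + 1) (by omega)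
      exact ⟨tc _ _ rfl rfl B0.2.1 (B0.2.2.2.2.2.2.1 (by omega)).2.1,
        tc _ _ rfl (Or.inl rfl) (B0.2.2.2.1 (by omega)).1 B0.2.2.2.2.2.2.2.1⟩
    · intro i hi
      have B0 := B 0 (by omega) (i + 1) (by omega)
      have B1 := B (i + 1) (by omega) 0 (by omega)
      exact ⟨tc _ _ rfl rfl (B0.2.2.2.1 (by omega)).2.2 B0.2.2.2.2.2.2.2.2.2,
        tc _ _ rfl (Or.inl rfl) B1.2.1.symm (B0.2.2.2.2.2.2.1 (by omega)).2.2⟩
    · intro i hi
      exact ⟨tc _ _ rfl rfl (zu _ (by omega)) (hz (i + 1) (by omega)).2.2,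
        tc _ (q (i + 2)) rfl (Or.inr rfl) (zq _ (by omega)) (hz (i + 2) (by omega)).2.1⟩
    · intro i hi
      refine ntc ?_
      rintro a rfl b (rfl | rfl)
      · exact (B (i + 1) (by omega) (i + 1) (by omega)).2.2.2.2.2.1
      · exact huq (i + 1) (by omega) (i + 2) (by omega)
    · intro i hi j hj hij
      have B1 := B (i + 1) (by omega) (j + 1) (by omega)
      have B2 := B (j + 1) (by omega) (i + 1) (by omega)
      exact ⟨tc _ _ rfl rfl (B1.2.2.2.1 (by omega)).2.2 B1.2.2.2.2.2.2.2.2.2,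
        tc _ _ rfl (Or.inl rfl) B2.2.1.symm (B1.2.2.2.2.2.2.1 (by omega)).2.2,
        tc _ _ (Or.inl rfl) (Or.inl rfl) (B1.2.2.2.1 (by omega)).1 B1.2.2.2.2.2.2.2.1⟩
  · intro p q u w z hpq hup huq hzw nzw hz
    have B := base p q u hpq hup huq
    have zp : ∀ j < t + 2, z ≠ p j := fun j hj => (hz j hj).1.ne
    have zq : ∀ j < t + 2, z ≠ q j := fun j hj => (hz j hj).2.1.ne
    have wp : ∀ j < t + 2, w ≠ p j := fun j hj => (hz j hj).2.2.2.1.ne
    have wq : ∀ j < t + 2, w ≠ q j := by
      intro j hj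
      by_cases h : j = 0
      · subst h
        exact ne1 (hz 1 (by omega)).2.2.2.1 fun h' =>
          ((B 1 (by omega) 0 (by omega)).2.2.2.2.2.2.1 (by omega)).1 h'.symm
      · exact ne1 (hz 0 (by omega)).2.2.2.1 fun h' =>
          ((B 0 (by omega) j hj).2.2.2.2.2.2.1 (by omega)).1 h'.symm
    have zu0 : z ≠ u 0 := ne1 (hz 1 (by omega)).1
      ((B 0 (by omega) 1 (by omega)).2.2.2.2.2.2.1 (by omega)).2.2
    apply hno
    refine mk hJB Dᶜ {p 0} {q 0} {u 0, w, z} (fun i => {p (i + 1)}) (fun i => {q (i + 1)})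
      (Conn.singleton _ _) (Conn.singleton _ _) ?_ ?_ ?_ ?_ ?_ ?_ ?_ ?_ ?_ ?_
      ?_ ?_ ?_ ?_ ?_ ?_ ?_ ?_
    · have h1 : Conn Dᶜ ({w, z} : Set V) := Conn.pair ⟨hzw.symm, fun h => nzw h.symm⟩
      exact h1.insert ⟨z, Or.inr rfl, zu0, (hz 0 (by omega)).2.2.1⟩
    · exact fun i _ => ⟨Conn.singleton _ _, Conn.singleton _ _⟩
    · exact Set.disjoint_singleton.mpr (B 0 (by omega) 0 (by omega)).1
    · rw [Set.disjoint_singleton_left]
      rintro (h | h | h)
      · exact (B 0 (by omega) 0 (by omega)).2.1 h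
      · exact wp 0 (by omega) h.symm
      · exact zp 0 (by omega) h.symm
    · rw [Set.disjoint_singleton_left]
      rintro (h | h | h)
      · exact (B 0 (by omega) 0 (by omega)).2.2.1 h.symm
      · exact wq 0 (by omega) h.symm
      · exact zq 0 (by omega) h.symm
    · intro i hi
      have B0 := B 0 (by omega) (i + 1) (by omega)
      exact ⟨Set.disjoint_singleton.mpr (B0.2.2.2.1 (by omega)).1,
        Set.disjoint_singleton.mpr B0.1⟩
    · intro i hi
      have B0 := B 0 (by omega) (i + 1) (by omega)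
      have B1 := B (i + 1) (by omega) 0 (by omega)
      exact ⟨Set.disjoint_singleton.mpr B1.1.symm,
        Set.disjoint_singleton.mpr (B0.2.2.2.1 (by omega)).2.1⟩
    · intro i hi
      constructor
      · rw [Set.disjoint_singleton_right]
        rintro (h | h | h)
        · exact (B (i + 1) (by omega) 0 (by omega)).2.1 h
        · exact wp _ (by omega) h.symm
        · exact zp _ (by omega) h.symm
      · rw [Set.disjoint_singleton_right]
        rintro (h | h | h)
        · exact (B 0 (by omega) (i + 1) (by omega)).2.2.1 h.symm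
        · exact wq _ (by omega) h.symm
        · exact zq _ (by omega) h.symm
    · exact fun i hi => Set.disjoint_singleton.mpr (B (i + 1) (by omega) (i + 1) (by omega)).1
    · intro i hi j hj hij
      have B1 := B (i + 1) (by omega) (j + 1) (by omega)
      exact ⟨Set.disjoint_singleton.mpr (B1.2.2.2.1 (by omega)).1,
        Set.disjoint_singleton.mpr B1.1,
        Set.disjoint_singleton.mpr (B1.2.2.2.1 (by omega)).2.1⟩
    · refine ntc ?_
      rintro a rfl b rfl
      exact (B 0 (by omega) 0 (by omega)).2.2.2.2.1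
    · refine ntc ?_
      rintro a rfl b (rfl | rfl | rfl)
      · exact (B 0 (by omega) 0 (by omega)).2.2.2.2.2.1.symm
      · exact (hz 0 (by omega)).2.2.2.1.symm
      · exact (hz 0 (by omega)).1.symm
    · exact tc _ w rfl (Or.inr (Or.inl rfl)) (wq 0 (by omega)).symm
        fun h => (hz 0 (by omega)).2.2.2.2 h.symm
    · intro i hi
      have B0 := B 0 (by omega) (i + 1) (by omega)
      exact ⟨tc _ _ rfl rfl (B0.2.2.2.1 (by omega)).1 B0.2.2.2.2.2.2.2.1,
        tc _ _ rfl rfl B0.1 (B0.2.2.2.2.2.2.1 (by omega)).1⟩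
    · intro i hi
      have B0 := B 0 (by omega) (i + 1) (by omega)
      have B1 := B (i + 1) (by omega) 0 (by omega)
      exact ⟨tc _ _ rfl rfl B1.1.symm fun h => (B1.2.2.2.2.2.2.1 (by omega)).1 h.symm,
        tc _ _ rfl rfl (B0.2.2.2.1 (by omega)).2.1 B0.2.2.2.2.2.2.2.2.1⟩
    · intro i hi
      have B0 := B 0 (by omega) (i + 1) (by omega)
      have B1 := B (i + 1) (by omega) 0 (by omega)
      exact ⟨tc (u 0) _ (Or.inl rfl) rfl B1.2.1.symm (B0.2.2.2.2.2.2.1 (by omega)).2.2,
        tc w _ (Or.inr (Or.inl rfl)) rfl (wq _ (by omega)) (hz (i + 1) (by omega)).2.2.2.2⟩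
    · intro i hi
      refine ntc ?_
      rintro a rfl b rfl
      exact (B (i + 1) (by omega) (i + 1) (by omega)).2.2.2.2.1
    · intro i hi j hj hij
      have B1 := B (i + 1) (by omega) (j + 1) (by omega)
      exact ⟨tc _ _ rfl rfl (B1.2.2.2.1 (by omega)).1 B1.2.2.2.2.2.2.2.1,
        tc _ _ rfl rfl B1.1 (B1.2.2.2.2.2.2.1 (by omega)).1,
        tc _ _ rfl rfl (B1.2.2.2.1 (by omega)).2.1 B1.2.2.2.2.2.2.2.2.1⟩

end Pool.Agent.MPd439b2.ON
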