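import Pool.Agent.Lib.MP_d439b2_co.ON.Spec

/-!
# MP_d439b2_co, ON, JB: a builder for models of `J_t`
-/

set_option autoImplicit false

namespace Pool.Agent.MPd439b2.ON

open Pool.Agent.MPd439b2 Pool.Agent.MPd439b2.Rep Pool.Agent.MPd439b2.W Pool.Agent.MPd439b2.A0
open Pool.Agent.MPd439b2.F9

namespace oJBAux

/-- the leaves of the spider -/
abbrev Lf : Type := Σ i : Fin 3, Fin ((![0, 1, 1] : Fin 3 → ℕ) i)

/-- the first leaf -/
def l1 : Lf := ⟨1, ⟨0, by decide⟩⟩

/-- the second leaf -/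
def l2 : Lf := ⟨2, ⟨0, by decide⟩⟩

theorem lf : ∀ y : Lf, y = l1 ∨ y = l2 := by
  decide

theorem l12 : l1 ≠ l2 := by
  decide

/-- the vertices of `J_t` -/
theorem cas {t : ℕ} (P : Option Lf ⊕ (Fin t × Bool) → Prop) (h0 : P (Sum.inl none))
    (h1 : P (Sum.inl (some l1))) (h2 : P (Sum.inl (some l2)))
    (h3 : ∀ q, P (Sum.inr (q, false))) (h4 : ∀ q, P (Sum.inr (q, true))) : ∀ u, P u := by
  rintro ((_ | y) | ⟨q, _ | _⟩)
  · exact h0
  · rcases lf y with h | h
    · rw [h]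
      exact h1
    · rw [h]
      exact h2
  · exact h3 q
  · exact h4 q

/-- pairs of vertices -/
theorem cas2 {t : ℕ} (P : Option Lf ⊕ (Fin t × Bool) → Option Lf ⊕ (Fin t × Bool) → Prop)
    (hs : ∀ u v, P u v → P v u) (h01 : P (Sum.inl none) (Sum.inl (some l1)))
    (h02 : P (Sum.inl none) (Sum.inl (some l2)))
    (h12 : P (Sum.inl (some l1)) (Sum.inl (some l2)))
    (h0 : ∀ q b, P (Sum.inl none) (Sum.inr (q, b)))
    (h1 : ∀ q b, P (Sum.inl (some l1)) (Sum.inr (q, b)))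
    (h2 : ∀ q b, P (Sum.inl (some l2)) (Sum.inr (q, b)))
    (hq : ∀ q, P (Sum.inr (q, false)) (Sum.inr (q, true)))
    (hr : ∀ q r, q ≠ r → ∀ b c, P (Sum.inr (q, b)) (Sum.inr (r, c))) :
    ∀ u v, u ≠ v → P u v := by
  have hqq : ∀ q b r c, (Sum.inr (q, b) : Option Lf ⊕ (Fin t × Bool)) ≠ Sum.inr (r, c) →
      P (Sum.inr (q, b)) (Sum.inr (r, c)) := by
    intro q b r c hne
    by_cases h : q = r
    · subst h
      cases b <;> cases c
      · exact absurd rfl hne
      · exact hq q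
      · exact hs _ _ (hq q)
      · exact absurd rfl hne
    · exact hr q r h b c
  refine cas _ (cas _ ?_ ?_ ?_ (fun q => ?_) fun q => ?_) (cas _ ?_ ?_ ?_ (fun q => ?_) fun q => ?_)
    (cas _ ?_ ?_ ?_ (fun q => ?_) fun q => ?_)
    (fun r => cas _ ?_ ?_ ?_ (fun q => ?_) fun q => ?_)
    (fun r => cas _ ?_ ?_ ?_ (fun q => ?_) fun q => ?_) <;> intro hne
  · exact absurd rfl hne
  · exact h01
  · exact h02
  · exact h0 q false
  · exact h0 q true
  · exact hs _ _ h01
  · exact absurd rfl hne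
  · exact h12
  · exact h1 q false
  · exact h1 q true
  · exact hs _ _ h02
  · exact hs _ _ h12
  · exact absurd rfl hne
  · exact h2 q false
  · exact h2 q true
  · exact hs _ _ (h0 r false)
  · exact hs _ _ (h1 r false)
  · exact hs _ _ (h2 r false)
  · exact hqq _ _ _ _ hne
  · exact hqq _ _ _ _ hne
  · exact hs _ _ (h0 r true)
  · exact hs _ _ (h1 r true)
  · exact hs _ _ (h2 r true)
  · exact hqq _ _ _ _ hne
  · exact hqq _ _ _ _ hne

/-- the branch sets -/
def Br {t : ℕ} {V : Type} (X Y Z : ℕ → Set V) : Option Lf ⊕ (Fin t × Bool) → Set V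
  | Sum.inl none => X 0
  | Sum.inl (some y) => if y = l1 then X 1 else X 2
  | Sum.inr (q, false) => Y q.val
  | Sum.inr (q, true) => Z q.val

theorem br1 {t : ℕ} {V : Type} (X Y Z : ℕ → Set V) :
    Br (t := t) X Y Z (Sum.inl (some l1)) = X 1 := by
  show (if l1 = l1 then X 1 else X 2) = X 1
  rw [if_pos rfl]

theorem br2 {t : ℕ} {V : Type} (X Y Z : ℕ → Set V) :
    Br (t := t) X Y Z (Sum.inl (some l2)) = X 2 := by
  show (if l2 = l1 then X 1 else X 2) = X 2
  rw [if_neg l12.symm]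

end oJBAux

open oJBAux

theorem oJB : S_JB := by
  intro t V G X Y Z hX hYZ dX dXY dYZ dYY n01 n02 t12 tX nYZ tYY
  have key : ∀ u v : Option Lf ⊕ (Fin t × Bool), u ≠ v →
      Disjoint (Br X Y Z u) (Br X Y Z v) ∧ ((JP t).Adj u v ↔ Tch G (Br X Y Z u) (Br X Y Z v)) := by
    refine cas2 _ ?_ ?_ ?_ ?_ ?_ ?_ ?_ ?_ ?_
    · rintro u v ⟨h1, h2⟩
      exact ⟨h1.symm, by rw [SimpleGraph.adj_comm, h2]; exact ⟨Tch.symm, Tch.symm⟩⟩
    · rw [br1]
      exact ⟨dX 0 (by omega) 1 (by omega) (by omega), iff_of_false (fun h => h.2 rfl) n01⟩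
    · rw [br2]
      exact ⟨dX 0 (by omega) 2 (by omega) (by omega), iff_of_false (fun h => h.2 rfl) n02⟩
    · rw [br1, br2]
      refine ⟨dX 1 (by omega) 2 (by omega) (by omega), iff_of_true ⟨?_, ?_⟩ t12⟩
      · exact fun h => l12 (Option.some.inj h)
      · exact fun h => absurd (show (1 : Fin 3) = 2 from h.1) (by decide)
    · intro q b
      cases b
      · exact ⟨(dXY 0 (by omega) q q.2).1, iff_of_true trivial (tX 0 (by omega) q q.2).1⟩
      · exact ⟨(dXY 0 (by omega) q q.2).2, iff_of_true trivial (tX 0 (by omega) q q.2).2⟩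
    · intro q b
      rw [br1]
      cases b
      · exact ⟨(dXY 1 (by omega) q q.2).1, iff_of_true trivial (tX 1 (by omega) q q.2).1⟩
      · exact ⟨(dXY 1 (by omega) q q.2).2, iff_of_true trivial (tX 1 (by omega) q q.2).2⟩
    · intro q b
      rw [br2]
      cases b
      · exact ⟨(dXY 2 (by omega) q q.2).1, iff_of_true trivial (tX 2 (by omega) q q.2).1⟩
      · exact ⟨(dXY 2 (by omega) q q.2).2, iff_of_true trivial (tX 2 (by omega) q q.2).2⟩
    · intro q
      exact ⟨dYZ q q.2, iff_of_false (fun h => h rfl) (nYZ q q.2)⟩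
    · intro q r hqr b c
      have hv : q.val ≠ r.val := fun h => hqr (Fin.ext h)
      have h1 := dYY q q.2 r r.2 hv
      have h2 := dYY r r.2 q q.2 hv.symm
      have h3 := tYY q q.2 r r.2 hv
      have h4 := tYY r r.2 q q.2 hv.symm
      cases b <;> cases c
      · exact ⟨h1.1, iff_of_true hqr h3.1⟩
      · exact ⟨h1.2.1, iff_of_true hqr h3.2.1⟩
      · exact ⟨h2.2.1.symm, iff_of_true hqr h4.2.1.symm⟩
      · exact ⟨h1.2.2, iff_of_true hqr h3.2.2⟩
  refine ⟨Br X Y Z, fun _ => Set.subset_univ _, ?_, fun u v h => (key u v h).1,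
    fun u v h => (key u v h).2⟩
  refine cas _ (hX 0 (by omega)) ?_ ?_ (fun q => (hYZ q q.2).1) (fun q => (hYZ q q.2).2)
  · rw [br1]
    exact hX 1 (by omega)
  · rw [br2]
    exact hX 2 (by omega)

end Pool.Agent.MPd439b2.ON
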