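import Pool.Agent.Lib.MP_d439b2_co.ON.Spec
import Pool.Agent.Lib.MP_d439b2_co.ON.JCE

/-!
# MP_d439b2_co, ON, JFF: the fact `FjF`
-/

set_option autoImplicit false

namespace Pool.Agent.MPd439b2.ON

open Pool.Agent.MPd439b2 Pool.Agent.MPd439b2.Rep Pool.Agent.MPd439b2.W Pool.Agent.MPd439b2.A0

namespace oJFFAux

/-- the pairs of blocks which see each other -/
def See (t i j : ℕ) : Prop := (j = 0 ∧ i ≤ 1) ∨ (i = j + 1 ∧ 1 ≤ j ∧ j ≤ t)

variable {V : Type}

/-- the blocks of the first rail -/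
def A (t : ℕ) (a : ℕ → V) (i : ℕ) : Set V := {v | ∃ j < t + 3, ¬ See t i j ∧ v = a (i * (t + 3) + j)}

/-- the blocks of the second rail -/
def B (t : ℕ) (w : ℕ → V) (j : ℕ) : Set V := {v | ∃ i < t + 3, ¬ See t i j ∧ v = w (i * (t + 3) + j)}

theorem ix_lt {t i j : ℕ} (hi : i < t + 3) (hj : j < t + 3) : i * (t + 3) + j < (t + 3) ^ 2 := by
  have h1 : i * (t + 3) ≤ (t + 2) * (t + 3) := Nat.mul_le_mul_right _ (by omega)
  nlinarith

theorem ix_inj {t i j i' j' : ℕ} (hj : j < t + 3) (hj' : j' < t + 3)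
    (h : i * (t + 3) + j = i' * (t + 3) + j') : i = i' ∧ j = j' := by
  have h1 : (i * (t + 3) + j) % (t + 3) = j := by
    rw [Nat.add_comm, Nat.add_mul_mod_self_right, Nat.mod_eq_of_lt hj]
  have h2 : (i' * (t + 3) + j') % (t + 3) = j' := by
    rw [Nat.add_comm, Nat.add_mul_mod_self_right, Nat.mod_eq_of_lt hj']
  rw [h, h2] at h1
  subst h1
  refine ⟨?_, rfl⟩
  have h3 : i * (t + 3) = i' * (t + 3) := by omega
  exact Nat.eq_of_mul_eq_mul_right (by omega) h3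

theorem clq_conn {G : SimpleGraph V} {S : Set V} (hne : S.Nonempty)
    (h : ∀ u ∈ S, ∀ v ∈ S, u ≠ v → G.Adj u v) : Conn G S := by
  refine ⟨hne, fun C hC hCne hCS => ?_⟩
  obtain ⟨b, hb⟩ := hCne
  obtain ⟨c, hc, hcC⟩ : ∃ c ∈ S, c ∉ C := by
    by_contra hcon
    push Not at hcon
    exact hCS (Set.Subset.antisymm hC hcon)
  exact ⟨b, hb, c, ⟨hc, hcC⟩, h b (hC hb) c hc fun h' => hcC (h' ▸ hb)⟩

end oJFFAux

open oJFFAux

theorem oJFF : S_JFF := by
  intro hJB t V D hno a w ha hw hc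
  have n2 : 2 ≤ (t + 3) ^ 2 := by
    have h0 : 3 * 3 ≤ (t + 3) * (t + 3) := Nat.mul_le_mul (by omega) (by omega)
    rw [pow_two]
    omega
  have ia : ∀ k < (t + 3) ^ 2, ∀ l < (t + 3) ^ 2, a k = a l → k = l := by
    intro k hk l hl h
    by_contra hne
    have h1 := (hc k hk l hl).mpr hne
    rw [h] at h1
    exact (hc l hl l hl).mp h1 rfl
  have iw : ∀ k < (t + 3) ^ 2, ∀ l < (t + 3) ^ 2, w k = w l → k = l := by
    intro k hk l hl h
    by_contra hne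
    have h1 := (hc k hk l hl).mpr hne
    rw [← h] at h1
    exact (hc k hk k hk).mp h1 rfl
  have iaw : ∀ k < (t + 3) ^ 2, ∀ l < (t + 3) ^ 2, a k ≠ w l := by
    intro k hk l hl h
    obtain ⟨r, hr, hkr⟩ : ∃ r < (t + 3) ^ 2, k ≠ r := by
      by_cases h0 : k = 0
      · exact ⟨1, by omega, by omega⟩
      · exact ⟨0, by omega, h0⟩
    have h1 := (hc k hk r hr).mpr hkr
    rw [h] at h1
    exact hw l hl r hr h1
  have dAA : ∀ i < t + 3, ∀ i' < t + 3, i ≠ i' → Disjoint (A t a i) (A t a i') := by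
    intro i hi i' hi' hne
    rw [Set.disjoint_left]
    rintro v ⟨j, hj, -, rfl⟩ ⟨j', hj', -, h⟩
    exact hne (ix_inj hj hj' (ia _ (ix_lt hi hj) _ (ix_lt hi' hj') h)).1
  have dBB : ∀ j < t + 3, ∀ j' < t + 3, j ≠ j' → Disjoint (B t w j) (B t w j') := by
    intro j hj j' hj' hne
    rw [Set.disjoint_left]
    rintro v ⟨i, hi, -, rfl⟩ ⟨i', hi', -, h⟩
    exact hne (ix_inj hj hj' (iw _ (ix_lt hi hj) _ (ix_lt hi' hj') h)).2
  have dAB : ∀ i < t + 3, ∀ j < t + 3, Disjoint (A t a i) (B t w j) := by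
    intro i hi j hj
    rw [Set.disjoint_left]
    rintro v ⟨j', hj', -, rfl⟩ ⟨i', hi', -, h⟩
    exact iaw _ (ix_lt hi hj') _ (ix_lt hi' hj) h
  have mA : ∀ i < t + 3, a (i * (t + 3) + (t + 1)) ∈ A t a i := fun i _ =>
    ⟨t + 1, by omega, by unfold See; omega, rfl⟩
  have mB : ∀ j ≤ t, w ((t + 2) * (t + 3) + j) ∈ B t w j := fun j hj =>
    ⟨t + 2, by omega, by unfold See; omega, rfl⟩
  have cA : ∀ i < t + 3, Conn Dᶜ (A t a i) := by
    intro i hi
    refine clq_conn ⟨_, mA i hi⟩ ?_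
    rintro u ⟨j, hj, -, rfl⟩ v ⟨j', hj', -, rfl⟩ hne
    exact ⟨hne, ha _ (ix_lt hi hj) _ (ix_lt hi hj')⟩
  have cB : ∀ j ≤ t, Conn Dᶜ (B t w j) := by
    intro j hj
    refine clq_conn ⟨_, mB j hj⟩ ?_
    rintro u ⟨i, hi, -, rfl⟩ v ⟨i', hi', -, rfl⟩ hne
    exact ⟨hne, hw _ (ix_lt hi (by omega)) _ (ix_lt hi' (by omega))⟩
  have tAA : ∀ i < t + 3, ∀ i' < t + 3, i ≠ i' → Tch Dᶜ (A t a i) (A t a i') := by
    intro i hi i' hi' hne
    refine ⟨_, mA i hi, _, mA i' hi', fun h => hne ?_, ha _ (ix_lt hi (by omega)) _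
      (ix_lt hi' (by omega))⟩
    exact (ix_inj (by omega) (by omega) (ia _ (ix_lt hi (by omega)) _
      (ix_lt hi' (by omega)) h)).1
  have tBB : ∀ j ≤ t, ∀ j' ≤ t, j ≠ j' → Tch Dᶜ (B t w j) (B t w j') := by
    intro j hj j' hj' hne
    refine ⟨_, mB j hj, _, mB j' hj', fun h => hne ?_, hw _ (ix_lt (by omega) (by omega)) _
      (ix_lt (by omega) (by omega))⟩
    exact (ix_inj (by omega) (by omega) (iw _ (ix_lt (by omega) (by omega)) _
      (ix_lt (by omega) (by omega)) h)).2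
  have tAB : ∀ i < t + 3, ∀ j < t + 3, ¬ See t i j → Tch Dᶜ (A t a i) (B t w j) := by
    intro i hi j hj hs
    refine ⟨_, ⟨j, hj, hs, rfl⟩, _, ⟨i, hi, hs, rfl⟩, iaw _ (ix_lt hi hj) _ (ix_lt hi hj), ?_⟩
    exact fun h => (hc _ (ix_lt hi hj) _ (ix_lt hi hj)).mp h rfl
  have nAB : ∀ i < t + 3, ∀ j < t + 3, See t i j → ¬ Tch Dᶜ (A t a i) (B t w j) := by
    rintro i hi j hj hs ⟨u, ⟨j', hj', hs', rfl⟩, v, ⟨i', hi', hs'', rfl⟩, h⟩
    refine h.2 ((hc _ (ix_lt hi hj') _ (ix_lt hi' hj)).mpr fun h' => hs' ?_)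
    obtain ⟨h1, h2⟩ := ix_inj hj' hj h'
    rw [h2]
    exact hs
  apply hno
  refine oJCEAux.mk hJB Dᶜ (B t w 0) (A t a 0) (A t a 1) (fun k => A t a (k + 2))
    (fun k => B t w (k + 1)) (cB 0 (by omega)) (cA 0 (by omega)) (cA 1 (by omega)) ?_ ?_ ?_ ?_ ?_ ?_
    ?_ ?_ ?_ ?_ ?_ ?_ ?_ ?_ ?_ ?_ ?_
  · exact fun i hi => ⟨cA _ (by omega), cB _ (by omega)⟩
  · exact (dAB 0 (by omega) 0 (by omega)).symm
  · exact (dAB 1 (by omega) 0 (by omega)).symm
  · exact dAA 0 (by omega) 1 (by omega) (by omega)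
  · exact fun i hi => ⟨(dAB (i + 2) (by omega) 0 (by omega)).symm,
      dBB 0 (by omega) (i + 1) (by omega) (by omega)⟩
  · exact fun i hi => ⟨dAA 0 (by omega) (i + 2) (by omega) (by omega),
      dAB 0 (by omega) (i + 1) (by omega)⟩
  · exact fun i hi => ⟨dAA 1 (by omega) (i + 2) (by omega) (by omega),
      dAB 1 (by omega) (i + 1) (by omega)⟩
  · exact fun i hi => dAB (i + 2) (by omega) (i + 1) (by omega)
  · exact fun i hi j hj hij => ⟨dAA (i + 2) (by omega) (j + 2) (by omega) (by omega),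
      dAB (i + 2) (by omega) (j + 1) (by omega), dBB (i + 1) (by omega) (j + 1) (by omega)
        (by omega)⟩
  · exact fun h => nAB 0 (by omega) 0 (by omega) (by unfold See; omega) h.symm
  · exact fun h => nAB 1 (by omega) 0 (by omega) (by unfold See; omega) h.symm
  · exact tAA 0 (by omega) 1 (by omega) (by omega)
  · exact fun i hi => ⟨(tAB (i + 2) (by omega) 0 (by omega) (by unfold See; omega)).symm,
      tBB 0 (by omega) (i + 1) (by omega) (by omega)⟩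
  · exact fun i hi => ⟨tAA 0 (by omega) (i + 2) (by omega) (by omega),
      tAB 0 (by omega) (i + 1) (by omega) (by unfold See; omega)⟩
  · exact fun i hi => ⟨tAA 1 (by omega) (i + 2) (by omega) (by omega),
      tAB 1 (by omega) (i + 1) (by omega) (by unfold See; omega)⟩
  · exact fun i hi => nAB (i + 2) (by omega) (i + 1) (by omega) (by unfold See; omega)
  · exact fun i hi j hj hij => ⟨tAA (i + 2) (by omega) (j + 2) (by omega) (by omega),
      tAB (i + 2) (by omega) (j + 1) (by omega) (by unfold See; omega),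
      tBB (i + 1) (by omega) (j + 1) (by omega) (by omega)⟩

end Pool.Agent.MPd439b2.ON
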