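import Pool.Agent.Lib.MP_d439b2_co.ON.Spec

/-!
# MP_d439b2_co, ON/LS (task of helper23, by helper77)
-/

set_option autoImplicit false

namespace Pool.Agent.MPd439b2.ON

open Pool.Agent.MPd439b2
open Pool.Agent.MPd439b2.Rep
open Pool.Agent.MPd439b2.W
open Pool.Agent.MPd439b2.A0

namespace oLSAux

/-- a finite set with at most `k` elements has at most `k` types -/
theorem ty {V : Type} [Finite V] (D : SimpleGraph V) (k : ℕ) (A : Set V) (hA : A.ncard ≤ k) :
    (Types D A).encard ≤ k := by
  have h0 : Types D A ⊆ (fun a => D.neighborSet a \ A) '' A := by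
    rintro T ⟨-, a, ha, rfl⟩
    exact ⟨a, ha, rfl⟩
  have h1 : (Types D A).encard ≤ A.encard :=
    (Set.encard_le_encard h0).trans (Set.encard_image_le _ _)
  refine h1.trans ?_
  rw [← (Set.toFinite A).cast_ncard_eq]
  exact_mod_cast hA

end oLSAux

/-- **LS.** Small sets have layouts. -/
theorem oLS : S_LS := by
  intro k V _ D A hA
  have key : ∀ m : ℕ, ∀ A : Set V, A.ncard = m → A.ncard ≤ k → Lay D k A := by
    intro m
    induction m with
    | zero =>
      intro A h1 _
      rw [Set.ncard_eq_zero (Set.toFinite A)] at h1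
      rw [h1]
      exact Lay.empty
    | succ m ih =>
      intro A h1 h2
      have hne : A.Nonempty := by
        rw [← Set.ncard_pos (Set.toFinite A)]
        omega
      obtain ⟨a, ha⟩ := hne
      have e1 : A = {a} ∪ (A \ {a}) := by
        rw [Set.union_diff_cancel (Set.singleton_subset_iff.2 ha)]
      have h3 : (A \ {a}).ncard = m := by
        rw [Set.ncard_diff_singleton_of_mem ha]
        omega
      rw [e1]
      refine Lay.union (Lay.single a (oLSAux.ty D k {a} ?_)) (ih _ h3 (by omega))
        Set.disjoint_sdiff_right (oLSAux.ty D k _ ?_)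
      · rw [Set.ncard_singleton]
        omega
      · rw [← e1]
        exact h2
  exact key _ A rfl hA

end Pool.Agent.MPd439b2.ON
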