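import Pool.Agent.Lib.MP_d439b2_co.ON.Spec

/-!
# MP_d439b2_co, ON/LX: extension of layouts
-/

set_option autoImplicit false

namespace Pool.Agent.MPd439b2.ON

open Pool.Agent.MPd439b2
open Pool.Agent.MPd439b2.Rep
open Pool.Agent.MPd439b2.W
open Pool.Agent.MPd439b2.A0

namespace LXAux

theorem hat_compl {V : Type} {S : Set V} {π : V → V} (hπ : ∀ v ∉ S, π v ∈ S) {A A' : Set V}
    (h : Pt S A A') : (hat S π A)ᶜ = hat S π A' := by
  ext x
  constructor
  · intro hx
    by_cases hS : x ∈ S
    · left
      have h1 : x ∈ A ∪ A' := by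
        rw [h.1]
        exact hS
      rcases h1 with h1 | h1
      · exact (hx (Or.inl h1)).elim
      · exact h1
    · right
      refine ⟨hS, ?_⟩
      have h1 : π x ∈ A ∪ A' := by
        rw [h.1]
        exact hπ x hS
      rcases h1 with h1 | h1
      · exact (hx (Or.inr ⟨hS, h1⟩)).elim
      · exact h1
  · intro hx hx'
    have hA : A ⊆ S := by
      rw [← h.1]
      exact Set.subset_union_left
    have hA' : A' ⊆ S := by
      rw [← h.1]
      exact Set.subset_union_right
    rcases hx with hx | ⟨hx, hx2⟩
    · rcases hx' with hx' | ⟨hx', -⟩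
      · exact Set.disjoint_left.mp h.2 hx' hx
      · exact hx' (hA' hx)
    · rcases hx' with hx' | ⟨-, hx2'⟩
      · exact hx (hA hx')
      · exact Set.disjoint_left.mp h.2 hx2' hx2

theorem hat_union {V : Type} (S : Set V) (π : V → V) (A B : Set V) :
    hat S π (A ∪ B) = hat S π A ∪ hat S π B := by
  ext x
  constructor
  · rintro ((h | h) | ⟨h, h' | h'⟩)
    · exact Or.inl (Or.inl h)
    · exact Or.inr (Or.inl h)
    · exact Or.inl (Or.inr ⟨h, h'⟩)
    · exact Or.inr (Or.inr ⟨h, h'⟩)
  · rintro ((h | ⟨h, h'⟩) | (h | ⟨h, h'⟩))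
    · exact Or.inl (Or.inl h)
    · exact Or.inr ⟨h, Or.inl h'⟩
    · exact Or.inl (Or.inr h)
    · exact Or.inr ⟨h, Or.inr h'⟩

theorem pt_val {V : Type} {S : Set V} (B : Set S) :
    Pt S (Subtype.val '' B) (Subtype.val '' Bᶜ) := by
  constructor
  · rw [← Set.image_union, Set.union_compl_self, Set.image_univ, Subtype.range_coe]
  · rw [Set.disjoint_image_iff Subtype.val_injective]
    exact disjoint_compl_right

end LXAux

open LXAux in
theorem oLX : S_LX := by
  intro hRI k k' g V _ D S π hπ hf hcut hlay
  have claim : ∀ B : Set S, Lay (D.induce S) k B →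
      Lay D (2 ^ g + k') (hat S π (Subtype.val '' B)) := by
    intro B hB
    induction hB with
    | empty =>
      have h0 : hat S π (Subtype.val '' (∅ : Set S)) = ∅ := by
        rw [Set.image_empty]
        ext x
        constructor
        · rintro (h | ⟨-, h⟩)
          · exact h
          · exact h.elim
        · exact fun h => h.elim
      rw [h0]
      exact Lay.empty
    | single v h =>
      rw [Set.image_singleton]
      exact (hf v.1 v.2).mono (Nat.le_add_left _ _)
    | @union A B hA hB hd ht ihA ihB =>
      rw [Set.image_union, hat_union]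
      refine Lay.union ihA ihB ?_ ?_
      · have hdv : Disjoint (Subtype.val '' A) (Subtype.val '' B) :=
          (Set.disjoint_image_iff Subtype.val_injective).2 hd
        rw [Set.disjoint_left]
        rintro x (hx | ⟨hx, hx2⟩) hx'
        · rcases hx' with hx' | ⟨hx', -⟩
          · exact Set.disjoint_left.mp hdv hx hx'
          · obtain ⟨y, -, rfl⟩ := hx
            exact hx' y.2
        · rcases hx' with hx' | ⟨-, hx2'⟩
          · obtain ⟨y, -, rfl⟩ := hx'
            exact hx y.2
          · exact Set.disjoint_left.mp hdv hx2 hx2'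
      · have hcr : LK.cr (D.induce S) (A ∪ B) ≤ k := cr_types _ ht
        unfold LK.cr at hcr
        rw [hRI] at hcr
        have hg := hcut _ _ (pt_val (A ∪ B)) hcr
        rw [← hat_compl hπ (pt_val (A ∪ B))] at hg
        have h3 := LK.a3 V D (hat S π (Subtype.val '' (A ∪ B)))
        rw [← hat_union, ← Set.image_union]
        refine h3.trans ?_
        have h4 : 2 ^ LK.cr D (hat S π (Subtype.val '' (A ∪ B))) ≤ 2 ^ g + k' :=
          (Nat.pow_le_pow_right (by norm_num) hg).trans (Nat.le_add_right _ _)
        exact_mod_cast h4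
  have h := claim Set.univ hlay
  have huniv : hat S π (Subtype.val '' (Set.univ : Set S)) = Set.univ := by
    rw [Set.image_univ, Subtype.range_coe]
    ext x
    refine iff_of_true ?_ (Set.mem_univ _)
    by_cases hS : x ∈ S
    · exact Or.inl hS
    · exact Or.inr ⟨hS, hπ x hS⟩
  rw [huniv] at h
  exact h

end Pool.Agent.MPd439b2.ON
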