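import Pool.Agent.Lib.MP_d439b2_co.ON.Spec

/-!
# MP_d439b2_co, ON/RI: the rank in an induced subgraph
-/

set_option autoImplicit false

namespace Pool.Agent.MPd439b2.ON

open Pool.Agent.MPd439b2
open Pool.Agent.MPd439b2.Rep
open Pool.Agent.MPd439b2.W
open Pool.Agent.MPd439b2.A0

theorem oRI : S_RI := by
  classical
  intro V _ D S A B
  -- extension by zero
  let ext0 : (S → ZMod 2) →ₗ[ZMod 2] (V → ZMod 2) :=
    { toFun := fun g v => if h : v ∈ S then g ⟨v, h⟩ else 0
      map_add' := by
        intro g g'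
        funext v
        by_cases h : v ∈ S
        · simp [h]
        · simp [h]
      map_smul' := by
        intro c g
        funext v
        by_cases h : v ∈ S
        · simp [h]
        · simp [h] }
  have hinj : Function.Injective ext0 := by
    intro g g' h
    funext v
    have h1 := congrFun h v.1
    change (if h : v.1 ∈ S then g ⟨v.1, h⟩ else 0) = if h : v.1 ∈ S then g' ⟨v.1, h⟩ else 0 at h1
    rw [dif_pos v.2, dif_pos v.2] at h1
    exact h1
  have hrow : ∀ a : S, ext0 (LK.row (D.induce S) B a) = LK.row D (Subtype.val '' B) a.1 := by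
    intro a
    funext v
    change (if h : v ∈ S then LK.row (D.induce S) B a ⟨v, h⟩ else 0) = _
    unfold LK.row
    by_cases h : v ∈ S
    · rw [dif_pos h]
      have hiff : ((⟨v, h⟩ : S) ∈ B ∧ (D.induce S).Adj a ⟨v, h⟩) ↔
          (v ∈ Subtype.val '' B ∧ D.Adj a.1 v) := by
        constructor
        · rintro ⟨h1, h2⟩
          exact ⟨⟨⟨v, h⟩, h1, rfl⟩, h2⟩
        · rintro ⟨⟨w, hw, hwv⟩, h2⟩
          subst hwv
          exact ⟨hw, h2⟩
      by_cases h3 : (⟨v, h⟩ : S) ∈ B ∧ (D.induce S).Adj a ⟨v, h⟩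
      · rw [if_pos h3, if_pos (hiff.1 h3)]
      · rw [if_neg h3, if_neg (fun h4 => h3 (hiff.2 h4))]
    · rw [dif_neg h, if_neg]
      rintro ⟨⟨w, hw, hwv⟩, -⟩
      exact h (hwv ▸ w.2)
  have himg : LK.row D (Subtype.val '' B) '' (Subtype.val '' A) =
      ext0 '' (LK.row (D.induce S) B '' A) := by
    rw [Set.image_image, Set.image_image]
    exact Set.image_congr fun a _ => (hrow a).symm
  unfold LK.rk
  rw [himg, Submodule.span_image]
  exact (LinearEquiv.finrank_eq (Submodule.equivMapOfInjective ext0 hinj _))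

end Pool.Agent.MPd439b2.ON
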