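import Pool.Agent.Lib.MP_d439b2_co.ON.Spec

/-!
# MP_d439b2_co, ON: no large matching of missed pairs (helper23)
-/

set_option autoImplicit false

namespace Pool.Agent.MPd439b2.ON

open Pool.Agent.MPd439b2
open Pool.Agent.MPd439b2.Rep
open Pool.Agent.MPd439b2.W
open Pool.Agent.MPd439b2.A0

namespace BaAux

variable {V : Type} {D : SimpleGraph V}

theorem im_sub {m M : ℕ} {a b : ℕ → V} {σ : ℕ → ℕ} (h : IM D M a b) (hσ : ∀ i < m, σ i < M)
    (hi' : ∀ i < m, ∀ j < m, σ i = σ j → i = j) : IM D m (fun i => a (σ i)) (fun i => b (σ i)) := by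
  intro i hi j hj
  have h1 := h (σ i) (hσ i hi) (σ j) (hσ j hj)
  refine ⟨?_, h1.2⟩
  rw [h1.1]
  exact ⟨hi' i hi j hj, fun e => by rw [e]⟩

theorem sy_sub {U : Set V} {m M : ℕ} {a b : ℕ → V} {σ : ℕ → ℕ} (h : Sy D U M a b)
    (hσ : ∀ i < m, σ i < M) (hi' : ∀ i < m, ∀ j < m, σ i = σ j → i = j) :
    Sy D U m (fun i => a (σ i)) (fun i => b (σ i)) :=
  ⟨im_sub h.1 hσ hi', fun i hi => h.2 _ (hσ i hi)⟩

/-- nothing is outside `U` for `t = 0` -/
theorem tpos {t n : ℕ} {U : Set V} (up : UP D t n U) {v : V} (hv : v ∉ U) : 1 ≤ t := by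
  rcases Nat.eq_zero_or_pos t with h | h
  · subst h
    obtain ⟨i, hi, _⟩ := up.big v hv (fun _ => v) (fun _ => v)
      ⟨fun i hi => absurd hi (by omega), fun i hi => absurd hi (by omega)⟩
    omega
  · exact h

/-- the homogeneous situation -/
structure Hm (D : SimpleGraph V) (m : ℕ) (x y v : ℕ → V) (e h a a' b b' : Bool) : Prop where
  he : ∀ i j, i < j → j < m → (v i = v j ↔ e = true)
  hh : ∀ i j, i < j → j < m → (D.Adj (v i) (v j) ↔ h = true)
  ha : ∀ i j, i < j → j < m → (D.Adj (v j) (x i) ↔ a = true)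
  ha' : ∀ i j, i < j → j < m → (D.Adj (v j) (y i) ↔ a' = true)
  hb : ∀ i j, i < j → j < m → (D.Adj (v i) (x j) ↔ b = true)
  hb' : ∀ i j, i < j → j < m → (D.Adj (v i) (y j) ↔ b' = true)

theorem hm_exists (ram : W.S_RamC) (m : ℕ) : ∃ M : ℕ, ∀ (V : Type) (D : SimpleGraph V)
    (x y v : ℕ → V), ∃ s : ℕ → ℕ, Incr m M s ∧ ∃ e h a a' b b' : Bool,
      Hm D m (x ∘ s) (y ∘ s) (v ∘ s) e h a a' b b' := by
  classical
  obtain ⟨M, hM⟩ := ram (Bool × Bool × Bool × Bool × Bool × Bool) m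
  refine ⟨M, fun V D x y v => ?_⟩
  obtain ⟨s, c, hs1, hs2, hs3⟩ := hM (fun i j => (decide (v i = v j), decide (D.Adj (v i) (v j)),
    decide (D.Adj (v j) (x i)), decide (D.Adj (v j) (y i)), decide (D.Adj (v i) (x j)),
    decide (D.Adj (v i) (y j))))
  obtain ⟨e, h, a, a', b, b'⟩ := c
  refine ⟨s, ⟨hs1, hs2⟩, e, h, a, a', b, b', ?_⟩
  have key : ∀ i j, i < j → j < m → _ := hs3
  simp only [Prod.mk.injEq] at key
  constructor
  · intro i j hij hj
    rw [← (key i j hij hj).1, decide_eq_true_iff]; rfl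
  · intro i j hij hj
    rw [← (key i j hij hj).2.1, decide_eq_true_iff]; rfl
  · intro i j hij hj
    rw [← (key i j hij hj).2.2.1, decide_eq_true_iff]; rfl
  · intro i j hij hj
    rw [← (key i j hij hj).2.2.2.1, decide_eq_true_iff]; rfl
  · intro i j hij hj
    rw [← (key i j hij hj).2.2.2.2.1, decide_eq_true_iff]; rfl
  · intro i j hij hj
    rw [← (key i j hij hj).2.2.2.2.2, decide_eq_true_iff]; rfl

variable {m : ℕ} {x y v : ℕ → V} {e h a a' b b' : Bool}

theorem Hm.swap (H : Hm D m x y v e h a a' b b') : Hm D m y x v e h a' a b' b :=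
  ⟨H.he, H.hh, H.ha', H.ha, H.hb', H.hb⟩

theorem Hm.ind (H : Hm D m x y v e h a a' b b') (hh : h = false) : Ind D m v := by
  intro i hi j hj
  rcases Nat.lt_trichotomy i j with h1 | h1 | h1
  · rw [H.hh i j h1 hj, hh]; simp
  · subst h1; exact D.irrefl
  · rw [SimpleGraph.adj_comm, H.hh j i h1 hi, hh]; simp

theorem Hm.clq (H : Hm D m x y v e h a a' b b') (hh : h = true) : Clq D m v := by
  intro i hi j hj hij
  rcases Nat.lt_or_ge i j with h1 | h1
  · rw [H.hh i j h1 hj]; exact hh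
  · rw [SimpleGraph.adj_comm, H.hh j i (by omega) hi]; exact hh

/-- (c) -/
theorem Hm.c {t N : ℕ} (H : Hm D m x y v e h a a' b b') (jf : JF D t) (hf : HB D N)
    (hm : (t + 3) ^ 2 + N ≤ m) (hx : Ind D m x) (hd : ∀ i < m, ¬ D.Adj (v i) (x i))
    (h1 : a = true) (h2 : b = true) : False := by
  have hC : Cam D m x v := by
    intro i hi j hj
    rcases Nat.lt_trichotomy i j with h3 | h3 | h3
    · rw [SimpleGraph.adj_comm, H.ha i j h3 hj]
      exact iff_of_true h1 (by omega)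
    · subst h3
      exact iff_of_false (fun e => hd i hi e.symm) (by simp)
    · rw [SimpleGraph.adj_comm, H.hb j i h3 hi]
      exact iff_of_true h2 (by omega)
  cases hh : h with
  | true =>
    have := H.clq hh
    exact hf.hS x v (fun i hi j hj => hx i (by omega) j (by omega))
      (fun i hi j hj => this i (by omega) j (by omega))
      (fun i hi j hj => hC i (by omega) j (by omega))
  | false =>
    have := H.ind hh
    exact jf.jF x v (fun i hi j hj => hx i (by omega) j (by omega))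
      (fun i hi j hj => this i (by omega) j (by omega))
      (fun i hi j hj => hC i (by omega) j (by omega))

/-- (b), first part -/
theorem Hm.last {t n : ℕ} {U : Set V} (H : Hm D m x y v e h a a' b b') (up : UP D t n U)
    (hs : Sy D U m x y) (hm : t + 1 ≤ m) (hv : ∀ i < m, v i ∉ U) (h1 : a = false)
    (h2 : a' = false) : False := by
  obtain ⟨i, hi, h3⟩ := up.big (v (m - 1)) (hv _ (by omega)) (fun i => x i) (fun i => y i)
    (sy_sub (σ := fun i => i) hs (fun i hi => by omega) (fun i _ j _ e => e))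
  rcases h3 with h3 | h3
  · rw [H.ha i (m - 1) (by omega) (by omega), h1] at h3; simp at h3
  · rw [H.ha' i (m - 1) (by omega) (by omega), h2] at h3; simp at h3

/-- (b), second part -/
theorem Hm.first {t n : ℕ} {U : Set V} (H : Hm D m x y v e h a a' b b') (up : UP D t n U)
    (hs : Sy D U m x y) (hm : t + 1 ≤ m) (hv : ∀ i < m, v i ∉ U) (h1 : b = false)
    (h2 : b' = false) : False := by
  obtain ⟨i, hi, h3⟩ := up.big (v 0) (hv _ (by omega)) (fun i => x (i + 1)) (fun i => y (i + 1))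
    (sy_sub (σ := fun i => i + 1) hs (fun i hi => by omega) (fun i _ j _ e => by omega))
  rcases h3 with h3 | h3
  · rw [H.hb 0 (i + 1) (by omega) (by omega), h1] at h3; simp at h3
  · rw [H.hb' 0 (i + 1) (by omega) (by omega), h2] at h3; simp at h3

/-- the model for (d) with independent `v` -/
theorem halfJ {t : ℕ} (jf : JF D t) (hxy : IM D m x y) (hm : t + 3 ≤ m)
    (h1 : ∀ i j, i < j → j < m → D.Adj (v j) (x i))
    (h2 : ∀ i, 2 ≤ i → i < t + 2 → ¬ D.Adj (v 2) (x i))
    (h3 : ∀ i, 2 ≤ i → i < t + 2 → ¬ D.Adj (v (t + 2)) (y i))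
    (h4 : v 2 ≠ v (t + 2)) (h5 : ¬ D.Adj (v 2) (v (t + 2))) : False := by
  have h01 : x 0 ≠ x 1 := by
    intro e
    have h6 := (hxy 0 (by omega) 0 (by omega)).1.2 rfl
    rw [e] at h6
    have := (hxy 1 (by omega) 0 (by omega)).1.1 h6
    omega
  refine jf.jB (x 0) (v 2) (v (t + 2)) (x 1) (fun i => x (i + 2)) (fun i => y (i + 2))
    (im_sub (σ := fun i => i + 2) hxy (fun i hi => by omega) (fun i _ j _ e => by omega)) h4 h5
    (h1 0 2 (by omega) (by omega)) (h1 1 2 (by omega) (by omega))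
    (h1 0 (t + 2) (by omega) (by omega)) (h1 1 (t + 2) (by omega) (by omega)) h01
    (hxy 0 (by omega) 1 (by omega)).2.1 (fun i hi => ?_)
  refine ⟨(hxy 0 (by omega) (i + 2) (by omega)).2.1, ?_, (hxy 1 (by omega) (i + 2) (by omega)).2.1,
    ?_, Or.inl (h2 (i + 2) (by omega) (by omega)), Or.inr (h3 (i + 2) (by omega) (by omega))⟩
  · rw [(hxy 0 (by omega) (i + 2) (by omega)).1]; omega
  · rw [(hxy 1 (by omega) (i + 2) (by omega)).1]; omega

/-- (d) of Ba -/
theorem Hm.d {t N n : ℕ} {U : Set V} (H : Hm D m x y v e h a a' b b') (jf : JF D t) (hf : HB D N)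
    (up : UP D t n U) (hs : Sy D U m x y) (hm : t + 3 + N ≤ m) (hv : ∀ i < m, v i ∉ U)
    (hdx : ∀ i < m, ¬ D.Adj (v i) (x i)) (hdy : ∀ i < m, ¬ D.Adj (v i) (y i))
    (he : e = false) (h1 : a = true) (h2 : b = false) (h3 : a' = false) (h4 : b' = true) :
    False := by
  have hX : ∀ i < m, ∀ j < m, (D.Adj (v j) (x i) ↔ i < j) := by
    intro i hi j hj
    rcases Nat.lt_trichotomy i j with h5 | h5 | h5
    · rw [H.ha i j h5 hj]; exact iff_of_true h1 h5
    · subst h5; exact iff_of_false (hdx i hi) (by omega)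
    · rw [H.hb j i h5 hi, h2]; exact iff_of_false (by simp) (by omega)
  have hY : ∀ i < m, ∀ j < m, (D.Adj (v j) (y i) ↔ j < i) := by
    intro i hi j hj
    rcases Nat.lt_trichotomy i j with h5 | h5 | h5
    · rw [H.ha' i j h5 hj, h3]; exact iff_of_false (by simp) (by omega)
    · subst h5; exact iff_of_false (hdy i hi) (by omega)
    · rw [H.hb' j i h5 hi]; exact iff_of_true h4 h5
  cases hh : h with
  | true =>
    have hC := H.clq hh
    exact hf.hA x y v (fun i hi j hj => hs.1 i (by omega) j (by omega))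
      (fun i hi j hj => hC i (by omega) j (by omega))
      (fun i hi j hj => ⟨hX i (by omega) j (by omega), hY i (by omega) j (by omega)⟩)
  | false =>
    have ht := tpos up (hv 0 (by omega))
    refine halfJ jf hs.1 (by omega) (fun i j hij hj => (hX i (by omega) j hj).2 hij)
      (fun i h6 h7 => ?_) (fun i h6 h7 => ?_) ?_ ?_
    · rw [hX i (by omega) 2 (by omega)]; omega
    · rw [hY i (by omega) (t + 2) (by omega)]; omega
    · rw [Ne, H.he 2 (t + 2) (by omega) (by omega), he]; simp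
    · exact H.ind hh 2 (by omega) (t + 2) (by omega)

end BaAux

open BaAux

theorem oBa : S_Ba := by
  intro ram t N
  obtain ⟨M, hM⟩ := hm_exists ram ((t + 3) ^ 2 + N + 5)
  refine ⟨M, fun V D jf hf n U up x y v hs hv => ?_⟩
  have hsq : t + 3 ≤ (t + 3) ^ 2 := Nat.le_self_pow (by norm_num) _
  obtain ⟨s, hsi, e, h, a, a', b, b', H⟩ := hM V D x y v
  have hs' : Sy D U ((t + 3) ^ 2 + N + 5) (x ∘ s) (y ∘ s) := sy_sub (σ := s) hs hsi.2 (by
    intro i hi j hj hij
    rcases Nat.lt_trichotomy i j with h1 | h1 | h1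
    · have := hsi.1 i j h1 hj; omega
    · exact h1
    · have := hsi.1 j i h1 hi; omega)
  have hv' : ∀ i < (t + 3) ^ 2 + N + 5, (v ∘ s) i ∉ U := fun i hi => (hv _ (hsi.2 i hi)).1
  have hdx : ∀ i < (t + 3) ^ 2 + N + 5, ¬ D.Adj ((v ∘ s) i) ((x ∘ s) i) := fun i hi =>
    (hv _ (hsi.2 i hi)).2.1
  have hdy : ∀ i < (t + 3) ^ 2 + N + 5, ¬ D.Adj ((v ∘ s) i) ((y ∘ s) i) := fun i hi =>
    (hv _ (hsi.2 i hi)).2.2
  have hIx : Ind D ((t + 3) ^ 2 + N + 5) (x ∘ s) := fun i hi j hj => (hs'.1 i hi j hj).2.1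
  have hIy : Ind D ((t + 3) ^ 2 + N + 5) (y ∘ s) := fun i hi j hj => (hs'.1 i hi j hj).2.2
  -- (a)
  have he : e = false := by
    by_contra hc
    have hc' : e = true := by simpa using hc
    obtain ⟨i, hi, h3⟩ := up.big ((v ∘ s) 0) (hv' 0 (by omega)) (fun i => (x ∘ s) i)
      (fun i => (y ∘ s) i) (sy_sub (σ := fun i => i) hs' (fun i hi => by omega) (fun i _ j _ e => e))
    have h0 : (v ∘ s) 0 = (v ∘ s) i := by
      rcases Nat.eq_zero_or_pos i with h1 | h1
      · rw [h1]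
      · exact (H.he 0 i h1 (by omega)).2 hc'
    rw [h0] at h3
    rcases h3 with h3 | h3
    · exact hdx i (by omega) h3
    · exact hdy i (by omega) h3
  have hcx : ¬ (a = true ∧ b = true) := fun hc =>
    H.c jf hf (by omega) hIx hdx hc.1 hc.2
  have hcy : ¬ (a' = true ∧ b' = true) := fun hc =>
    H.swap.c jf hf (by omega) hIy hdy hc.1 hc.2
  have hl : ¬ (a = false ∧ a' = false) := fun hc =>
    H.last up hs' (by omega) hv' hc.1 hc.2
  have hr : ¬ (b = false ∧ b' = false) := fun hc =>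
    H.first up hs' (by omega) hv' hc.1 hc.2
  have hsw : Sy D U ((t + 3) ^ 2 + N + 5) (y ∘ s) (x ∘ s) := by
    refine ⟨fun i hi j hj => ⟨?_, hIy i hi j hj, hIx i hi j hj⟩, fun i hi =>
      ⟨(hs'.2 i hi).2, (hs'.2 i hi).1⟩⟩
    rw [SimpleGraph.adj_comm, (hs'.1 j hj i hi).1]
    exact eq_comm
  cases ha : a <;> cases hb : b <;> cases ha' : a' <;> cases hb' : b' <;>
    first
      | exact hcx ⟨ha, hb⟩
      | exact hcy ⟨ha', hb'⟩
      | exact hl ⟨ha, ha'⟩
      | exact hr ⟨hb, hb'⟩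
      | exact H.d jf hf up hs' (by omega) hv' hdx hdy he ha hb ha' hb'
      | exact H.swap.d jf hf up hsw (by omega) hv' hdy hdx he ha' hb' ha hb

end Pool.Agent.MPd439b2.ON
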