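import Pool.Agent.Lib.MP_d439b2_co.ON.Spec

/-!
# MP_d439b2_co, ON/CN: the main estimate
-/

set_option autoImplicit false

namespace Pool.Agent.MPd439b2.ON

open Pool.Agent.MPd439b2 Pool.Agent.MPd439b2.Rep Pool.Agent.MPd439b2.W Pool.Agent.MPd439b2.A0

theorem oCN : S_CN := by
  classical
  intro hRam hTR hF0 hF5 c
  obtain ⟨G₁, hG₁⟩ := hRam (Prop × Prop) (2 ^ c + 5)
  refine ⟨G₁, fun t N n V _ D hEnv A A' hrk l U r e f hGd hU he hdat => ?_⟩
  by_contra hl
  push Not at hl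
  obtain ⟨s, col, hs1, hs2, hs3⟩ := hG₁ (fun i j => (D.Adj (r i) (e j), D.Adj (r j) (e i)))
  have hlt : ∀ k < 2 ^ c + 5, s k < l := fun k hk => (hs2 k hk).trans hl
  have hP : ∀ i j, i < j → j < 2 ^ c + 5 → (D.Adj (r (s i)) (e (s j)) ↔ col.1) :=
    fun i j hij hj => (congrArg Prod.fst (hs3 i j hij hj)).to_iff
  have hQ : ∀ i j, i < j → j < 2 ^ c + 5 → (D.Adj (r (s j)) (e (s i)) ↔ col.2) :=
    fun i j hij hj => (congrArg Prod.snd (hs3 i j hij hj)).to_iff
  have hself : ∀ i < l, ¬ D.Adj (r i) (e i) := by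
    intro i hi hadj
    obtain ⟨⟨e', he'⟩, hfp, hne, -, -⟩ := hdat i hi
    have h1 : e i = e' := he'.2.2.2.2 (e i) hfp.1 hadj.symm
    rw [← h1] at he'
    exact hne ((hF0 t n V D (U i) (hGd i hi).1).2.1 (e i) (f i) (r i) hfp he')
  by_cases hcol : col.1 ∨ col.2
  · -- many traces
    have hdist : ∀ i j, i < j → j < 2 ^ c + 5 →
        ({b | b ∈ A' ∧ D.Adj (r (s i)) b} : Set V) ≠ {b | b ∈ A' ∧ D.Adj (r (s j)) b} := by
      intro i j hij hj h
      rcases hcol with h1 | h1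
      · have h2 : e (s j) ∈ ({b | b ∈ A' ∧ D.Adj (r (s i)) b} : Set V) :=
          ⟨(hdat _ (hlt j hj)).2.2.2.2, (hP i j hij hj).2 h1⟩
        rw [h] at h2
        exact hself _ (hlt j hj) h2.2
      · have h2 : e (s i) ∈ ({b | b ∈ A' ∧ D.Adj (r (s j)) b} : Set V) :=
          ⟨(hdat _ (hlt i (by omega))).2.2.2.2, (hQ i j hij hj).2 h1⟩
        rw [← h] at h2
        exact hself _ (hlt i (by omega)) h2.2
    have hinj : Set.InjOn (fun i => ({b | b ∈ A' ∧ D.Adj (r (s i)) b} : Set V))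
        (Finset.range (2 ^ c + 5) : Set ℕ) := by
      intro i hi j hj h
      have hi' := Finset.mem_range.mp hi
      have hj' := Finset.mem_range.mp hj
      rcases lt_trichotomy i j with h1 | h1 | h1
      · exact absurd h (hdist i j h1 hj')
      · exact h1
      · exact absurd h.symm (hdist j i h1 hi')
    have hsub : (fun i => ({b | b ∈ A' ∧ D.Adj (r (s i)) b} : Set V)) ''
        (Finset.range (2 ^ c + 5) : Set ℕ) ⊆ Tr D A A' := by
      rintro _ ⟨i, hi, rfl⟩
      exact ⟨r (s i), (hdat _ (hlt i (Finset.mem_range.mp hi))).2.2.2.1, rfl⟩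
    have h1 := Set.encard_le_encard hsub
    rw [hinj.encard_image, Set.encard_coe_eq_coe_finsetCard, Finset.card_range] at h1
    have h2 := h1.trans (hTR V D A A')
    have h3 : 2 ^ c + 5 ≤ 2 ^ LK.rk D A A' := by exact_mod_cast h2
    have h4 : 2 ^ LK.rk D A A' ≤ 2 ^ c := Nat.pow_le_pow_right (by norm_num) hrk
    omega
  · push Not at hcol
    have hpos : 0 < 2 ^ c := Nat.two_pow_pos c
    have hno : ∀ i < 2 ^ c + 5, ∀ j < 2 ^ c + 5, ¬ D.Adj (r (s i)) (e (s j)) := by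
      intro i hi j hj h
      rcases lt_trichotomy i j with h1 | h1 | h1
      · exact hcol.1 ((hP i j h1 hj).1 h)
      · subst h1
        exact hself _ (hlt i hi) h
      · exact hcol.2 ((hQ j i h1 hi).1 h)
    have hmem : ∀ i < 2 ^ c + 5, ∀ j < 2 ^ c + 5, e (s j) ∈ U (s i) := by
      intro i hi j hj
      by_contra hnot
      obtain ⟨⟨e', he'⟩, -⟩ := hdat (s i) (hlt i hi)
      exact hno i hi j hj (he'.2.2.2.1 _ hnot).symm
    have hne : ∀ i j, i < j → j < 2 ^ c + 5 → U (s i) ≠ U (s j) := by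
      intro i j hij hj h
      have h1 := hU _ (hlt i (by omega)) _ (hlt j hj) h
      have h2 := hs1 i j hij hj
      omega
    have hene : e (s 0) ≠ e (s 1) := by
      intro h
      have h1 := he _ (hlt 0 (by omega)) _ (hlt 1 (by omega)) h
      have h2 := hs1 0 1 (by omega) (by omega)
      omega
    exact hF5 t N n V D hEnv (U (s 0)) (U (s 1)) (U (s 2)) (hGd _ (hlt 0 (by omega)))
      (hGd _ (hlt 1 (by omega))) (hGd _ (hlt 2 (by omega))) (hne 0 1 (by omega) (by omega))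
      (hne 0 2 (by omega) (by omega)) (hne 1 2 (by omega) (by omega)) (e (s 0))
      ⟨f (s 0), (hdat _ (hlt 0 (by omega))).2.1⟩ (e (s 1)) ⟨f (s 1), (hdat _ (hlt 1 (by omega))).2.1⟩
      hene (hmem 1 (by omega) 0 (by omega)) (hmem 2 (by omega) 0 (by omega))
      (hmem 0 (by omega) 1 (by omega)) (hmem 2 (by omega) 1 (by omega))

end Pool.Agent.MPd439b2.ON
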