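import Pool.Agent.Lib.MP_d439b2_co.ON.Ba

/-!
# MP_d439b2_co, ON: many missed vertices give one vertex which misses many (helper23)
-/

set_option autoImplicit false

namespace Pool.Agent.MPd439b2.ON

open Pool.Agent.MPd439b2
open Pool.Agent.MPd439b2.Rep
open Pool.Agent.MPd439b2.W
open Pool.Agent.MPd439b2.A0

namespace ChAux

open BaAux

variable {V : Type} {D : SimpleGraph V}
variable {m : ℕ} {x y v : ℕ → V}

/-- (d) of Ch -/
theorem half {t N : ℕ} (jf : JF D t) (hf : HB D N) (ht : 1 ≤ t) (hs : IM D m x y)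
    (hm : t + 3 + N ≤ m) (hX : ∀ i < m, ∀ j < m, (D.Adj (v j) (x i) ↔ i < j))
    (hY : ∀ i < m, ∀ j < m, (D.Adj (v j) (y i) ↔ j ≤ i))
    (hne : v 2 ≠ v (t + 2)) (hv : Ind D m v ∨ Clq D m v) : False := by
  rcases hv with hv | hv
  · refine halfJ jf hs (by omega) (fun i j hij hj => (hX i (by omega) j hj).2 hij)
      (fun i h6 h7 => ?_) (fun i h6 h7 => ?_) hne (hv 2 (by omega) (t + 2) (by omega))
    · rw [hX i (by omega) 2 (by omega)]; omega
    · rw [hY i (by omega) (t + 2) (by omega)]; omega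
  · exact hf.hB x y v (fun i hi j hj => hs i (by omega) j (by omega))
      (fun i hi j hj => hv i (by omega) j (by omega))
      (fun i hi j hj => ⟨hX i (by omega) j (by omega), hY i (by omega) j (by omega)⟩)

end ChAux

open BaAux ChAux

theorem oCh : S_Ch := by
  intro ram t N m
  obtain ⟨M, hM⟩ := hm_exists ram ((t + 3) ^ 2 + N + 5 + m)
  refine ⟨M, fun V D jf hf n U up x y v hs hv => ?_⟩
  have hsq : t + 3 ≤ (t + 3) ^ 2 := Nat.le_self_pow (by norm_num) _
  obtain ⟨s, hsi, e, h, a, a', b, b', H⟩ := hM V D x y v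
  set K := (t + 3) ^ 2 + N + 5 + m with hK
  have hs' : Sy D U K (x ∘ s) (y ∘ s) := sy_sub (σ := s) hs hsi.2 (by
    intro i hi j hj hij
    rcases Nat.lt_trichotomy i j with h1 | h1 | h1
    · have := hsi.1 i j h1 hj; omega
    · exact h1
    · have := hsi.1 j i h1 hi; omega)
  have hv' : ∀ i < K, (v ∘ s) i ∉ U := fun i hi => (hv _ (hsi.2 i hi)).1
  have hdx : ∀ i < K, ¬ D.Adj ((v ∘ s) i) ((x ∘ s) i) := fun i hi =>
    (hv _ (hsi.2 i hi)).2.1
  have hdy : ∀ i < K, D.Adj ((v ∘ s) i) ((y ∘ s) i) := fun i hi =>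
    (hv _ (hsi.2 i hi)).2.2
  have hIx : Ind D K (x ∘ s) := fun i hi j hj => (hs'.1 i hi j hj).2.1
  have ht : 1 ≤ t := tpos up (hv' 0 (by omega))
  have hsm : Incr m M s := ⟨fun k l hkl hl => hsi.1 k l hkl (by omega), fun k hk =>
    hsi.2 k (by omega)⟩
  -- (a)
  cases he : e with
  | true =>
    refine ⟨s 0, s, hsi.2 0 (by omega), hsm, fun k hk => ?_⟩
    have h0 : v (s 0) = v (s k) := by
      rcases Nat.eq_zero_or_pos k with h1 | h1
      · rw [h1]
      · exact (H.he 0 k h1 (by omega)).2 he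
    rw [h0]
    exact ⟨hdx k (by omega), hdy k (by omega)⟩
  | false =>
    have hcx : ¬ (a = true ∧ b = true) := fun hc =>
      H.c jf hf (by omega) hIx hdx hc.1 hc.2
    have hl : ¬ (a = false ∧ a' = false) := fun hc =>
      H.last up hs' (by omega) hv' hc.1 hc.2
    have hr : ¬ (b = false ∧ b' = false) := fun hc =>
      H.first up hs' (by omega) hv' hc.1 hc.2
    have hvv : Ind D K (v ∘ s) ∨ Clq D K (v ∘ s) := by
      cases hh : h with
      | true => exact Or.inr (H.clq hh)
      | false => exact Or.inl (H.ind hh)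
    have hne : ∀ i < K, ∀ j < K, i ≠ j → (v ∘ s) i ≠ (v ∘ s) j := by
      intro i hi j hj hij
      rcases Nat.lt_or_ge i j with h1 | h1
      · rw [Ne, H.he i j h1 hj, he]; simp
      · rw [ne_comm, Ne, H.he j i (by omega) hi, he]; simp
    -- (d)
    have hd : ¬ (a = true ∧ b = false ∧ a' = false ∧ b' = true) := by
      rintro ⟨h1, h2, h3, h4⟩
      refine half jf hf ht hs'.1 (by omega) ?_ ?_ (hne 2 (by omega) (t + 2) (by omega) (by omega))
        hvv
      · intro i hi j hj
        rcases Nat.lt_trichotomy i j with h5 | h5 | h5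
        · rw [H.ha i j h5 hj]; exact iff_of_true h1 h5
        · subst h5; exact iff_of_false (hdx i hi) (by omega)
        · rw [H.hb j i h5 hi, h2]; exact iff_of_false (by simp) (by omega)
      · intro i hi j hj
        rcases Nat.lt_trichotomy i j with h5 | h5 | h5
        · rw [H.ha' i j h5 hj, h3]; exact iff_of_false (by simp) (by omega)
        · subst h5; exact iff_of_true (hdy i hi) (by omega)
        · rw [H.hb' j i h5 hi]; exact iff_of_true h4 (by omega)
    -- (e)
    have hd' : ¬ (a = false ∧ b = true ∧ a' = true ∧ b' = false) := by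
      rintro ⟨h1, h2, h3, h4⟩
      refine half (m := K) (x := fun i => (x ∘ s) (K - 1 - i)) (y := fun i => (y ∘ s) (K - 1 - i))
        (v := fun i => (v ∘ s) (K - 1 - i)) jf hf ht
        (im_sub (σ := fun i => K - 1 - i) hs'.1 (fun i hi => by omega)
          (fun i hi j hj e => by
            have e' : K - 1 - i = K - 1 - j := e
            omega)) (by omega) ?_ ?_
        (hne _ (by omega) _ (by omega) (by omega)) ?_
      · intro i hi j hj
        show D.Adj ((v ∘ s) (K - 1 - j)) ((x ∘ s) (K - 1 - i)) ↔ i < j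
        rcases Nat.lt_trichotomy i j with h5 | h5 | h5
        · rw [H.hb (K - 1 - j) (K - 1 - i) (by omega) (by omega)]; exact iff_of_true h2 h5
        · subst h5; exact iff_of_false (hdx _ (by omega)) (by omega)
        · rw [H.ha (K - 1 - i) (K - 1 - j) (by omega) (by omega), h1]
          exact iff_of_false (by simp) (by omega)
      · intro i hi j hj
        show D.Adj ((v ∘ s) (K - 1 - j)) ((y ∘ s) (K - 1 - i)) ↔ j ≤ i
        rcases Nat.lt_trichotomy i j with h5 | h5 | h5
        · rw [H.hb' (K - 1 - j) (K - 1 - i) (by omega) (by omega), h4]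
          exact iff_of_false (by simp) (by omega)
        · subst h5; exact iff_of_true (hdy _ (by omega)) (by omega)
        · rw [H.ha' (K - 1 - i) (K - 1 - j) (by omega) (by omega)]
          exact iff_of_true h3 (by omega)
      · rcases hvv with hvv | hvv
        · exact Or.inl fun i hi j hj => hvv _ (by omega) _ (by omega)
        · exact Or.inr fun i hi j hj hij => hvv _ (by omega) _ (by omega) (by omega)
    -- (f)
    have hf1 : ∀ k₀ < K, (∀ k < K, ¬ D.Adj ((v ∘ s) k₀) ((x ∘ s) k)) → a' = true → b' = true →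
        ∃ (k₀ : ℕ) (σ : ℕ → ℕ), k₀ < M ∧ Incr m M σ ∧
          ∀ k < m, ¬ D.Adj (v k₀) (x (σ k)) ∧ D.Adj (v k₀) (y (σ k)) := by
      intro k₀ hk₀ hk h1 h2
      refine ⟨s k₀, s, hsi.2 _ hk₀, hsm, fun k hk' => ⟨hk k (by omega), ?_⟩⟩
      rcases Nat.lt_trichotomy k k₀ with h5 | h5 | h5
      · exact (H.ha' k k₀ h5 hk₀).2 h1
      · subst h5; exact hdy k (by omega)
      · exact (H.hb' k₀ k h5 (by omega)).2 h2
    have hf2 : b = false → a' = true → b' = true → ∃ (k₀ : ℕ) (σ : ℕ → ℕ), k₀ < M ∧ Incr m M σ ∧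
          ∀ k < m, ¬ D.Adj (v k₀) (x (σ k)) ∧ D.Adj (v k₀) (y (σ k)) := by
      intro h0
      refine hf1 0 (by omega) fun k hk => ?_
      rcases Nat.eq_zero_or_pos k with h5 | h5
      · subst h5; exact hdx 0 (by omega)
      · rw [H.hb 0 k h5 hk, h0]; simp
    have hf3 : a = false → a' = true → b' = true → ∃ (k₀ : ℕ) (σ : ℕ → ℕ), k₀ < M ∧ Incr m M σ ∧
          ∀ k < m, ¬ D.Adj (v k₀) (x (σ k)) ∧ D.Adj (v k₀) (y (σ k)) := by
      intro h0
      refine hf1 (K - 1) (by omega) fun k hk => ?_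
      rcases Nat.lt_or_ge k (K - 1) with h5 | h5
      · rw [H.ha k (K - 1) h5 (by omega), h0]; simp
      · have h6 : k = K - 1 := by omega
        rw [h6]
        exact hdx _ (by omega)
    cases ha : a <;> cases hb : b <;> cases ha' : a' <;> cases hb' : b' <;>
      first
        | exact (hcx ⟨ha, hb⟩).elim
        | exact (hl ⟨ha, ha'⟩).elim
        | exact (hr ⟨hb, hb'⟩).elim
        | exact (hd ⟨ha, hb, ha', hb'⟩).elim
        | exact (hd' ⟨ha, hb, ha', hb'⟩).elim
        | exact hf2 hb ha' hb'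
        | exact hf3 ha ha' hb'

end Pool.Agent.MPd439b2.ON
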