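import Pool.Agent.Lib.MP_d439b2_co.ON.Spec

/-!
# MP_d439b2_co, ON: the matching of the exceptional vertices is not `OPP` (helper23)
-/

set_option autoImplicit false

namespace Pool.Agent.MPd439b2.ON

open Pool.Agent.MPd439b2
open Pool.Agent.MPd439b2.Rep
open Pool.Agent.MPd439b2.W
open Pool.Agent.MPd439b2.A0

namespace ClAux

variable {V : Type} {D : SimpleGraph V}

theorem incr_inj {m M : ℕ} {σ : ℕ → ℕ} (h : Incr m M σ) {i j : ℕ} (hi : i < m) (hj : j < m)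
    (e : σ i = σ j) : i = j := by
  rcases Nat.lt_trichotomy i j with h1 | h1 | h1
  · have := h.1 i j h1 hj; omega
  · exact h1
  · have := h.1 j i h1 hi; omega

theorem im_sub {m M : ℕ} {a b : ℕ → V} {σ : ℕ → ℕ} (h : IM D M a b) (hσ : Incr m M σ) :
    IM D m (a ∘ σ) (b ∘ σ) := by
  intro i hi j hj
  have h1 := h (σ i) (hσ.2 i hi) (σ j) (hσ.2 j hj)
  refine ⟨?_, h1.2⟩
  show D.Adj (a (σ i)) (b (σ j)) ↔ i = j
  rw [h1.1]
  exact ⟨incr_inj hσ hi hj, fun e => by rw [e]⟩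

/-- one half of the indices -/
theorem half_sel (A : ℕ → Prop) (m : ℕ) : ∃ τ : ℕ → ℕ, Incr m (2 * m) τ ∧
    ((∀ k < m, A (τ k)) ∨ ∀ k < m, ¬ A (τ k)) := by
  classical
  have key : ∀ (B : ℕ → Prop) [DecidablePred B], m ≤ ((Finset.range (2 * m)).filter B).card →
      ∃ τ : ℕ → ℕ, Incr m (2 * m) τ ∧ ∀ k < m, B (τ k) := by
    intro B _ hB
    let f := Finset.orderEmbOfCardLe _ hB
    refine ⟨fun k => if h : k < m then f ⟨k, h⟩ else 0, ⟨fun k l hkl hl => ?_, fun k hk => ?_⟩,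
      fun k hk => ?_⟩
    · simp only [hl, (by omega : k < m), dif_pos]
      exact f.strictMono (by simpa using hkl)
    · simp only [hk, dif_pos]
      have := Finset.orderEmbOfCardLe_mem _ hB ⟨k, hk⟩
      simp only [Finset.mem_filter, Finset.mem_range] at this
      exact this.1
    · simp only [hk, dif_pos]
      have := Finset.orderEmbOfCardLe_mem _ hB ⟨k, hk⟩
      simp only [Finset.mem_filter, Finset.mem_range] at this
      exact this.2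
  have hc := Finset.card_filter_add_card_filter_not (s := Finset.range (2 * m)) A
  rw [Finset.card_range] at hc
  by_cases h : m ≤ ((Finset.range (2 * m)).filter A).card
  · obtain ⟨τ, h1, h2⟩ := key A h
    exact ⟨τ, h1, Or.inl h2⟩
  · obtain ⟨τ, h1, h2⟩ := key (fun k => ¬ A k) (by omega)
    exact ⟨τ, h1, Or.inr h2⟩

theorem incr_comp {m M K : ℕ} {σ τ : ℕ → ℕ} (hσ : Incr m M σ) (hτ : Incr K m τ) :
    Incr K M (σ ∘ τ) :=
  ⟨fun k l hkl hl => hσ.1 _ _ (hτ.1 k l hkl hl) (hτ.2 l hl), fun k hk => hσ.2 _ (hτ.2 k hk)⟩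

/-- the main part: data `z`, `y` -/
theorem main {t N n M₁ m₁ : ℕ} (hm₁ : m₁ = 2 * (t + 2 + N)) (jf : JF D t) (hf : HF D N)
    (hty : ∀ (U : Set V) (w : V) (P Q u : ℕ → V), Sy D U M₁ P Q →
      (∀ k < M₁, GC D U (P k)) → (∀ k < M₁, D.Adj w (P k) ∧ ¬ D.Adj w (Q k)) →
      (∀ k < M₁, u k ∉ U) → (∀ k < M₁, ∀ j < M₁, (D.Adj (u k) (P j) ↔ k = j)) →
      ∃ σ : ℕ → ℕ, Incr m₁ M₁ σ ∧ FD D U w m₁ (P ∘ σ) (Q ∘ σ) (u ∘ σ))
    {U U' : Set V} {w : V} {P Q u : ℕ → V} (fd : FD D U w (M₁ + 2) P Q u) (up' : UP D t n U')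
    (hU' : ∀ k < M₁ + 2, u k ∈ U' ∧ P k ∈ U') (z : V) (y : ℕ → V) (hz : z ∉ U')
    (hgc : ∀ k < M₁ + 2, GC D U' (u k))
    (hy : ∀ k < M₁ + 2, Cp D U' (u k) (y k) ∧ y k ≠ P k ∧ ¬ D.Adj z (y k)) : False := by
  have hPu : ∀ k < M₁ + 2, D.Adj (u k) (P k) := fun k hk => (fd.up k hk k hk).1.2 rfl
  have hzP : ∀ k < M₁ + 2, D.Adj z (P k) := by
    intro k hk
    rcases hgc k hk z hz (y k) (P k) (hy k hk).1 ⟨(hU' k hk).2, Or.inr (hPu k hk).symm⟩
      (hy k hk).2.1 with h | h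
    · exact absurd h (hy k hk).2.2
    · exact h
  have hyP : ∀ k < M₁ + 2, D.Adj (y k) (P k) := by
    intro k hk
    rcases (hy k hk).1.2 with h | h
    · rw [h]; exact hPu k hk
    · exact up'.p3 _ (hy k hk).1.1 _ (hU' k hk).1 _ (hU' k hk).2 h (hPu k hk) (hy k hk).2.1
  have hne : ∀ k < M₁ + 2, ∀ j < M₁ + 2, k ≠ j → P k ≠ P j := by
    intro k hk j hj hkj e
    have h1 := hPu k hk
    rw [e, (fd.up k hk j hj).1] at h1
    exact hkj h1
  -- (1)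
  have hyU : ∀ k < M₁ + 2, y k ∉ U := by
    intro k hk hyk
    obtain ⟨l, hl, hlk⟩ : ∃ l < M₁ + 2, l ≠ k := by
      rcases Nat.eq_zero_or_pos k with h | h
      · exact ⟨1, by omega, by omega⟩
      · exact ⟨0, by omega, by omega⟩
    have h1 : ¬ D.Adj (u l) (P k) := by
      rw [(fd.up l hl k hk).1]; exact hlk
    have hPkU : P k ∈ U := (fd.pq.2 k hk).1
    rcases fd.gc k hk (u l) (fd.uU l hl) (P k) (y k) ⟨hPkU, Or.inl rfl⟩
      ⟨hyk, Or.inr (hyP k hk)⟩ (hy k hk).2.1.symm with h | h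
    · exact h1 h
    · exact h1 (up'.p3 _ (hU' l hl).1 _ (hy k hk).1.1 _ (hU' k hk).2 h (hyP k hk)
        (fun e => fd.uU l hl (e ▸ hPkU)))
  -- (2)
  have hrel : ∀ k < M₁ + 2, ∀ j < M₁ + 2, (D.Adj (y k) (P j) ↔ k = j) := by
    intro k hk j hj
    constructor
    · intro h
      by_contra hkj
      exact (fd.pq.1 k hk j hj).2.1 (up'.p3 _ (hU' k hk).2 _ (hy k hk).1.1 _ (hU' j hj).2
        (hyP k hk).symm h (hne k hk j hj hkj))
    · rintro rfl; exact hyP k hk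
  obtain ⟨σ, hσ, fd2⟩ := hty U w P Q y ⟨fun i hi j hj => fd.pq.1 i (by omega) j (by omega),
    fun i hi => fd.pq.2 i (by omega)⟩ (fun k hk => fd.gc k (by omega))
    (fun k hk => ⟨(fd.wd k (by omega)).1, (fd.wd k (by omega)).2.1⟩)
    (fun k hk => hyU k (by omega)) (fun k hk j hj => hrel k (by omega) j (by omega))
  subst hm₁
  obtain ⟨τ, hτ, h | h⟩ := half_sel (fun k => D.Adj z ((Q ∘ σ) k)) (t + 2 + N)
  · have i1 := im_sub fd2.pq.1 hτ
    have i2 := im_sub fd2.up hτ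
    have huq : ∀ i < t + 2 + N, ∀ j < t + 2 + N,
        D.Adj (((y ∘ σ) ∘ τ) i) (((Q ∘ σ) ∘ τ) j) := fun i hi j hj =>
      fd2.uq _ (hτ.2 i hi) _ (hτ.2 j hj)
    have hall : ∀ i < t + 2 + N, D.Adj z (((P ∘ σ) ∘ τ) i) ∧ ¬ D.Adj z (((y ∘ σ) ∘ τ) i) := by
      intro i hi
      have := hσ.2 _ (hτ.2 i hi)
      exact ⟨hzP _ (by omega), (hy _ (by omega)).2.2⟩
    have hwd := fun i (hi : i < t + 2 + N) => fd2.wd _ (hτ.2 i hi)
    by_cases hzw : D.Adj z w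
    · exact hf.hE ((P ∘ σ) ∘ τ) ((Q ∘ σ) ∘ τ) ((y ∘ σ) ∘ τ) w z
        (fun i hi j hj => i1 i (by omega) j (by omega))
        (fun i hi j hj => i2 i (by omega) j (by omega))
        (fun i hi j hj => huq i (by omega) j (by omega)) hzw
        (fun i hi => ⟨(hall i (by omega)).1, h i (by omega), (hall i (by omega)).2,
          (hwd i (by omega)).1, (hwd i (by omega)).2.1, (hwd i (by omega)).2.2⟩)
    · refine jf.jE ((P ∘ σ) ∘ τ) ((Q ∘ σ) ∘ τ) ((y ∘ σ) ∘ τ) w z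
        (fun i hi j hj => i1 i (by omega) j (by omega))
        (fun i hi j hj => i2 i (by omega) j (by omega))
        (fun i hi j hj => huq i (by omega) j (by omega)) ?_ hzw
        (fun i hi => ⟨(hall i (by omega)).1, h i (by omega), (hall i (by omega)).2,
          (hwd i (by omega)).1, (hwd i (by omega)).2.1⟩)
      intro e
      have h1 := (hwd 0 (by omega)).2.2
      rw [← e] at h1
      exact (hall 0 (by omega)).2 h1
  · have i1 := im_sub fd2.pq.1 hτ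
    have i2 := im_sub fd2.up hτ
    refine jf.jD ((P ∘ σ) ∘ τ) ((Q ∘ σ) ∘ τ) ((y ∘ σ) ∘ τ) z
      (fun i hi j hj => i1 i (by omega) j (by omega))
      (fun i hi j hj => i2 i (by omega) j (by omega))
      (fun i hi j hj => fd2.uq _ (hτ.2 i (by omega)) _ (hτ.2 j (by omega)))
      (fun i hi => ?_)
    have := hσ.2 _ (hτ.2 i (by omega))
    exact ⟨hzP _ (by omega), h i (by omega), (hy _ (by omega)).2.2⟩

end ClAux

open ClAux

theorem oCl : S_Cl := by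
  intro ram ba pr opp ty t N ht
  obtain ⟨M₁, hM₁⟩ := ty ram t N (2 * (t + 2 + N))
  obtain ⟨M, hM⟩ := opp ram ba pr t N (2 * (M₁ + 2)) ht
  refine ⟨M, fun V D jf hf n U U' w P Q u fd up' hU' hO => ?_⟩
  obtain ⟨v', w', σ, p', q', hv', hw', hσ, hpq⟩ := hM V D jf hf n U' up' hO u P ⟨fd.up, hU'⟩
  obtain ⟨τ, hτ, hsel⟩ := half_sel (fun k => p' k ≠ P (σ k)) (M₁ + 2)
  have hρ := incr_comp hσ hτ
  have fd' : FD D U w (M₁ + 2) (P ∘ (σ ∘ τ)) (Q ∘ (σ ∘ τ)) (u ∘ (σ ∘ τ)) :=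
    { pq := ⟨im_sub fd.pq.1 hρ, fun i hi => fd.pq.2 _ (hρ.2 i hi)⟩
      up := im_sub fd.up hρ
      uU := fun k hk => fd.uU _ (hρ.2 k hk)
      uq := fun k hk j hj => fd.uq _ (hρ.2 k hk) _ (hρ.2 j hj)
      gc := fun k hk => fd.gc _ (hρ.2 k hk)
      wd := fun k hk => fd.wd _ (hρ.2 k hk) }
  rcases hsel with h | h
  · exact main rfl jf hf (fun U w P Q u => hM₁ V D jf hf.hS hf.hD U w P Q u) fd' up'
      (fun k hk => hU' _ (hρ.2 k hk)) v' (p' ∘ τ) hv' (fun k hk => (hpq _ (hτ.2 k hk)).1)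
      (fun k hk => ⟨(hpq _ (hτ.2 k hk)).2.1, h k hk, (hpq _ (hτ.2 k hk)).2.2.2.2.1⟩)
  · refine main rfl jf hf (fun U w P Q u => hM₁ V D jf hf.hS hf.hD U w P Q u) fd' up'
      (fun k hk => hU' _ (hρ.2 k hk)) w' (q' ∘ τ) hw' (fun k hk => (hpq _ (hτ.2 k hk)).1)
      (fun k hk => ⟨(hpq _ (hτ.2 k hk)).2.2.1, ?_, (hpq _ (hτ.2 k hk)).2.2.2.2.2.2.2⟩)
    have h1 : p' (τ k) = P (σ (τ k)) := not_not.1 (h k hk)
    intro e
    exact (hpq _ (hτ.2 k hk)).2.2.2.1 (h1.trans e.symm)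

end Pool.Agent.MPd439b2.ON
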