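import Pool.Agent.Lib.MP_d439b2_co.ON.Spec

/-!
# MP_d439b2_co, ON/Co: the columns of the removed vertices
-/

set_option autoImplicit false

namespace Pool.Agent.MPd439b2.ON

open Pool.Agent.MPd439b2
open Pool.Agent.MPd439b2.Rep
open Pool.Agent.MPd439b2.W
open Pool.Agent.MPd439b2.A0

namespace CoAux

theorem row_eq {V : Type} (D : SimpleGraph V) {X : Set V} {f g : V}
    (h : ∀ z ∈ X, (D.Adj z f ↔ D.Adj z g)) : LK.row D X f = LK.row D X g := by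
  funext y
  unfold LK.row
  have hiff : (y ∈ X ∧ D.Adj f y) ↔ (y ∈ X ∧ D.Adj g y) := by
    constructor
    · rintro ⟨h1, h2⟩
      exact ⟨h1, ((h y h1).1 h2.symm).symm⟩
    · rintro ⟨h1, h2⟩
      exact ⟨h1, ((h y h1).2 h2.symm).symm⟩
  by_cases h2 : y ∈ X ∧ D.Adj f y
  · rw [if_pos h2, if_pos (hiff.1 h2)]
  · rw [if_neg h2, if_neg (fun h3 => h2 (hiff.2 h3))]

theorem rk_rows {V : Type} (D : SimpleGraph V) {A Z X : Set V}
    (h : ∀ f ∈ Z, ∃ g ∈ A, ∀ z ∈ X, (D.Adj z f ↔ D.Adj z g)) :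
    LK.rk D (A ∪ Z) X = LK.rk D A X := by
  have himg : LK.row D X '' (A ∪ Z) = LK.row D X '' A := by
    apply Set.Subset.antisymm
    · rintro _ ⟨f, hf | hf, rfl⟩
      · exact ⟨f, hf, rfl⟩
      · obtain ⟨g, hg, hgf⟩ := h f hf
        exact ⟨g, hg, (row_eq D hgf).symm⟩
    · exact Set.image_mono Set.subset_union_left
  unfold LK.rk
  rw [himg]

end CoAux

open CoAux in
theorem oCo : S_Co := by
  intro _ t N n V _ D _ r₁ r₂ π hRp hPi hes A A' hPt X hX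
  have hdis := hPt.2
  have hA'S : A' ⊆ Sg D t n r₁ r₂ := by
    rw [← hPt.1]
    exact Set.subset_union_right
  set Hh := Hs D t n r₁ A A' with hHh
  set X' := X \ Hh with hX'
  -- elements of X'
  have hXA : ∀ z ∈ X', z ∈ Sg D t n r₁ r₂ → z ∈ A := by
    intro z hz hzS
    rcases hX hz.1 with h | h
    · exact h
    · exact (h.1 hzS).elim
  have key : ∀ f ∈ hat (Sg D t n r₁ r₂) π A', f ∉ A' → ∃ U e, Gd D t n U ∧ FP D U e f ∧
      (r₁ U ∈ A' ∨ (e ∈ A' ∧ ¬ Hv D t n e)) ∧ ∀ z ∈ X', (D.Adj z f ↔ z ∉ U) := by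
    intro f hf hfA'
    rcases hf with hf | ⟨hfS, hfπ⟩
    · exact (hfA' hf).elim
    obtain ⟨U, e, hU, hFP⟩ := hPi.1 f hfS
    obtain ⟨hπ1, hπ2⟩ := hPi.2 f hfS U e hU hFP
    have hor : (Hv D t n e ∧ r₁ U ∈ A') ∨ (e ∈ A' ∧ ¬ Hv D t n e) := by
      by_cases hH : Hv D t n e
      · left
        rw [← hπ1 hH]
        exact ⟨hH, hfπ⟩
      · right
        rw [hπ2 hH] at hfπ
        exact ⟨hfπ, hH⟩
    refine ⟨U, e, hU, hFP, hor.imp (fun h => h.2) id, fun z hz => ?_⟩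
    have hze : z ≠ e := by
      intro hze
      have heS : e ∈ Sg D t n r₁ r₂ := hes U hU e ⟨f, hFP⟩
      have heA : e ∈ A := by
        rw [hze] at hz
        exact hXA e hz heS
      rcases hor with ⟨hH, hr⟩ | ⟨he, -⟩
      · apply hz.2
        rw [hze]
        exact ⟨heA, hH, U, hU, ⟨f, hFP⟩, hr⟩
      · exact Set.disjoint_left.mp hdis heA he
    obtain ⟨_, _, _, hout, hin⟩ := hFP
    constructor
    · intro hzf hzU
      exact hze (hin z hzU hzf)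
    · exact hout z
  have hcov : hat (Sg D t n r₁ r₂) π A' ⊆
      (A' ∪ {f | ∃ g ∈ A', ∀ z ∈ X', (D.Adj z f ↔ D.Adj z g)}) ∪
        {f | ∃ U ∈ Bd D t n r₁ r₂ A A', ∀ z ∈ X', (D.Adj z f ↔ z ∉ U)} := by
    intro f hf
    by_cases hfA' : f ∈ A'
    · exact Or.inl (Or.inl hfA')
    obtain ⟨U, e, hU, hFP, hor, hz⟩ := key f hf hfA'
    by_cases hBd : U ∈ Bd D t n r₁ r₂ A A'
    · exact Or.inr ⟨U, hBd, hz⟩
    left; right
    have hall : r₁ U ∈ A' ∧ r₂ U ∈ A' ∧ ∀ e ∈ ES D U, ¬ Hv D t n e → e ∈ A' := by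
      by_contra hcon
      have hA : r₁ U ∈ A ∧ r₂ U ∈ A ∧ ∀ e ∈ ES D U, ¬ Hv D t n e → e ∈ A := by
        by_contra hcon2
        exact hBd ⟨hU, hcon2, hcon⟩
      rcases hor with h | ⟨h, hH⟩
      · exact Set.disjoint_left.mp hdis hA.1 h
      · exact Set.disjoint_left.mp hdis (hA.2.2 e ⟨f, hFP⟩ hH) h
    obtain ⟨_, ⟨e₁, hFP₁, hH₁⟩, _⟩ := hRp U hU
    have he₁ : e₁ ∈ A' := hall.2.2 e₁ ⟨_, hFP₁⟩ hH₁
    refine ⟨r₁ U, hall.1, fun z hzX => ?_⟩
    rw [hz z hzX]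
    obtain ⟨_, _, _, hout, hin⟩ := hFP₁
    constructor
    · exact hout z
    · intro hadj hzU
      have hze := hin z hzU hadj
      rw [hze] at hzX
      exact Set.disjoint_left.mp hdis (hXA e₁ hzX (hA'S he₁)) he₁
  -- the rank
  have h1 : LK.rk D X (hat (Sg D t n r₁ r₂) π A') ≤
      LK.rk D X' (hat (Sg D t n r₁ r₂) π A') + Hh.ncard := by
    have hsub : X ⊆ X' ∪ Hh := by
      intro z hz
      by_cases h : z ∈ Hh
      · exact Or.inr h
      · exact Or.inl ⟨hz, h⟩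
    refine (rk_mono D hsub (Set.Subset.refl _)).trans ((rk_union D X' Hh _).trans ?_)
    exact Nat.add_le_add_left (rk_card D Hh _) _
  have h2 : LK.rk D (hat (Sg D t n r₁ r₂) π A') X' ≤
      LK.rk D A' X' + (Bd D t n r₁ r₂ A A').ncard := by
    refine (rk_mono D hcov (Set.Subset.refl _)).trans ((rk_union D _ _ _).trans ?_)
    rw [rk_rows D (A := A') (Z := {f | ∃ g ∈ A', ∀ z ∈ X', (D.Adj z f ↔ D.Adj z g)})
      (fun f hf => hf)]
    apply Nat.add_le_add_left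
    refine ((LK.a1 V D).2.2.2.2.2 _ X'
      ((fun U : Set V => {b | b ∈ X' ∧ b ∉ U}) '' Bd D t n r₁ r₂ A A') ?_).trans
      (Set.ncard_image_le (Set.toFinite _))
    rintro f ⟨U, hU, hz⟩
    left
    refine ⟨U, hU, ?_⟩
    ext b
    constructor
    · rintro ⟨hb, hbU⟩
      exact ⟨hb, ((hz b hb).2 hbU).symm⟩
    · rintro ⟨hb, hbf⟩
      exact ⟨hb, (hz b hb).1 hbf.symm⟩
  have h3 : LK.rk D A' X' ≤ LK.rk D X A' := by
    rw [rk_symm]
    exact rk_mono D (fun z hz => hz.1) (Set.Subset.refl _)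
  rw [rk_symm D X'] at h1
  omega

end Pool.Agent.MPd439b2.ON
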