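import Pool.Agent.Lib.MP_d439b2_co.ON.Spec

/-!
# MP_d439b2_co, ON/Cu: the cut lemma
-/

set_option autoImplicit false

namespace Pool.Agent.MPd439b2.ON

open Pool.Agent.MPd439b2
open Pool.Agent.MPd439b2.Rep
open Pool.Agent.MPd439b2.W
open Pool.Agent.MPd439b2.A0

theorem oCu : S_Cu := by
  intro hF0 hF2 hF4 hCN hBN hHN hCo c
  obtain ⟨G₁, hG₁⟩ := hCN c
  refine ⟨c + 10 * G₁ + 8, fun t N n V _ D hEnv r₁ r₂ π hRp hPi A A' hPt hrk => ?_⟩
  have hes : ∀ U, Gd D t n U → ∀ e ∈ ES D U, e ∈ Sg D t n r₁ r₂ := by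
    intro U hU e he U' hU' heU'
    exfalso
    by_cases hUU : U = U'
    · subst hUU
      exact ((hF0 t n V D U hU.1).2.2 hEnv.toEnvB.tw).1 e he heU'
    · obtain ⟨f, hf⟩ := he
      exact hF2 t t N n V D hEnv.toEnvB U U' hU hU' hUU e heU' hf.1
  have hr : ∀ U, Gd D t n U → r₁ U ∈ Sg D t n r₁ r₂ ∧ r₂ U ∈ Sg D t n r₁ r₂ := by
    intro U hU
    obtain ⟨-, ⟨e, he, -⟩, ⟨e', he', -⟩⟩ := hRp U hU
    constructor
    · intro U' hU' hfr
      by_cases hUU : U = U'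
      · subst hUU
        exact Or.inl rfl
      · exact (hF2 t t N n V D hEnv.toEnvB U U' hU hU' hUU _ hfr he.2.1).elim
    · intro U' hU' hfr
      by_cases hUU : U = U'
      · subst hUU
        exact Or.inr rfl
      · exact (hF2 t t N n V D hEnv.toEnvB U U' hU hU' hUU _ hfr he'.2.1).elim
  have hPt' : Pt (Sg D t n r₁ r₂) A' A := ⟨by rw [Set.union_comm]; exact hPt.1, hPt.2.symm⟩
  have hrk' : LK.rk D A' A ≤ c := by
    rw [rk_symm]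
    exact hrk
  have b1 := hBN hF0 hF4 c G₁ hG₁ t N n V D hEnv r₁ r₂ hRp hes hr A A' hPt hrk
  have b2 := hBN hF0 hF4 c G₁ hG₁ t N n V D hEnv r₁ r₂ hRp hes hr A' A hPt' hrk'
  have s1 := hHN hF0 hF4 c G₁ hG₁ t N n V D hEnv r₁ r₂ hRp A A' hrk
  have s2 := hHN hF0 hF4 c G₁ hG₁ t N n V D hEnv r₁ r₂ hRp A' A hrk'
  have c1 := hCo hF0 t N n V D hEnv r₁ r₂ π hRp hPi hes A A' hPt
    (hat (Sg D t n r₁ r₂) π A) (Set.Subset.refl _)
  have c2 := hCo hF0 t N n V D hEnv r₁ r₂ π hRp hPi hes A' A hPt' A' Set.subset_union_left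
  rw [rk_symm D (hat (Sg D t n r₁ r₂) π A) A'] at c1
  omega

end Pool.Agent.MPd439b2.ON
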