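import Pool.Agent.Lib.MP_d439b2_co.ON.Spec

/-!
# MP_d439b2_co, ON: elementary facts about free pairs
-/

set_option autoImplicit false

namespace Pool.Agent.MPd439b2.ON

open Pool.Agent.MPd439b2 Pool.Agent.MPd439b2.Rep Pool.Agent.MPd439b2.W Pool.Agent.MPd439b2.A0

theorem oF0 : S_F0 := by
  intro t n V D U hU
  have h3 : TwF D → ∀ e ∈ ES D U, e ∉ FS D U := by
    rintro tw e ⟨f, e1, f1, ef, ff, fu⟩ ⟨e', e1', e2', ee', fe, ue⟩
    have hf : f = e' := ue f f1 ef.symm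
    subst hf
    refine tw e f ef ?_
    intro z hze hzf
    by_cases hz : z ∈ U
    · constructor
      · intro h
        exact absurd (ue z hz h.symm) hzf
      · intro h
        exact absurd (fu z hz h.symm) hze
    · exact ⟨fun _ => (ff z hz).symm, fun _ => (fe z hz).symm⟩
  refine ⟨?_, ?_, ?_⟩
  · rintro e e' f ⟨-, -, -, -, fu⟩ ⟨e1', -, ef', -, -⟩
    exact (fu e' e1' ef').symm
  · rintro e f f' ⟨e1, f1, ef, -, -⟩ ⟨-, f1', ef', -, fu'⟩
    by_contra hne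
    have h1 := hU.p3 f f1 e e1 f' f1' ef.symm ef' hne
    have h2 := fu' f f1 h1
    rw [h2] at ef
    exact D.irrefl ef
  · intro tw
    refine ⟨h3 tw, ?_⟩
    rintro f ⟨e, hf⟩ f' ⟨e', hf'⟩ hff
    have h1 : f' = e := hf.2.2.2.2 f' hf'.2.1 hff.symm
    subst h1
    exact h3 tw f' ⟨f, hf⟩ ⟨e', hf'⟩

end Pool.Agent.MPd439b2.ON
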