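import Pool.Agent.Lib.MP_d439b2_co.ON.Spec

/-!
# MP_d439b2_co, ON, F2: free vertices of another class are outside
-/

set_option autoImplicit false

namespace Pool.Agent.MPd439b2.ON

open Pool.Agent.MPd439b2 Pool.Agent.MPd439b2.Rep Pool.Agent.MPd439b2.W Pool.Agent.MPd439b2.A0

theorem oF2 : S_F2 := by
  intro hF0 t h₀ N n V D hE U U' hU hU' hne f hf hfU
  obtain ⟨e, g, hg, hfp⟩ := hE.mf U hU
  have hnad := ((hF0 t n V D U hU.1).2.2 hE.tw).2
  have hgF : ∀ i < N + 6, g i ∈ FS D U := fun i hi => ⟨e i, hfp i hi⟩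
  -- at most one of the free vertices is in `U'`
  have h1 : ∀ i < N + 6, ∀ j < N + 6, i ≠ j → g i ∈ U' → g j ∉ U' := by
    intro i hi j hj hij hi' hj'
    apply hne
    refine (hE.sub U U' hU hU' fun z hz => ?_).symm
    by_contra hzU
    have a1 : D.Adj z (g i) := (hfp i hi).2.2.2.1 z hzU
    have a2 : D.Adj z (g j) := (hfp j hj).2.2.2.1 z hzU
    exact hnad _ (hgF i hi) _ (hgF j hj) (hU'.1.p3 _ hi' z hz _ hj' a1.symm a2
      fun h => hij (hg i hi j hj h))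
  obtain ⟨i, hi, j, hj, hij, hiU, hjU⟩ : ∃ i < N + 6, ∃ j < N + 6, i ≠ j ∧ g i ∉ U' ∧ g j ∉ U' := by
    by_cases h0 : g 0 ∈ U'
    · exact ⟨1, by omega, 2, by omega, by omega, h1 0 (by omega) 1 (by omega) (by omega) h0,
        h1 0 (by omega) 2 (by omega) (by omega) h0⟩
    · by_cases h2 : g 1 ∈ U'
      · exact ⟨0, by omega, 2, by omega, by omega, h0, h1 1 (by omega) 2 (by omega) (by omega) h2⟩
      · exact ⟨0, by omega, 1, by omega, by omega, h0, h2⟩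
  obtain ⟨e', he'⟩ := hf
  have a1 : D.Adj (g i) f := he'.2.2.2.1 _ hiU
  have a2 : D.Adj (g j) f := he'.2.2.2.1 _ hjU
  exact hnad _ (hgF i hi) _ (hgF j hj) (hU.1.p3 _ (hfp i hi).2.1 f hfU _ (hfp j hj).2.1 a1 a2.symm
    fun h => hij (hg i hi j hj h))

end Pool.Agent.MPd439b2.ON
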