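import Pool.Agent.Lib.MP_d439b2_co.ON.Spec

/-!
# MP_d439b2_co, ON, F3: triples of classes
-/

set_option autoImplicit false

namespace Pool.Agent.MPd439b2.ON

open Pool.Agent.MPd439b2 Pool.Agent.MPd439b2.Rep Pool.Agent.MPd439b2.W Pool.Agent.MPd439b2.A0

namespace oF3Aux

variable {V : Type} {D : SimpleGraph V}

/-- different free vertices have different partners -/
theorem one (hF0 : S_F0) {t N n : ℕ} {U : Set V} (hU : UP D t n U) {e f : ℕ → V} {i j : ℕ}
    (hg : Inj (N + 6) f) (hf : ∀ i < N + 6, FP D U (e i) (f i)) (hi : i < N + 6) (hj : j < N + 6)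
    {x : V} (hx : x ∈ U) (h1 : D.Adj (f i) x) (h2 : D.Adj (f j) x) : i = j := by
  have e1 : x = e i := (hf i hi).2.2.2.2 x hx h1.symm
  have e2 : x = e j := (hf j hj).2.2.2.2 x hx h2.symm
  have h3 := hf j hj
  rw [← e2, e1] at h3
  exact hg i hi j hj ((hF0 t n V D U hU).2.1 _ _ _ (hf i hi) h3)

/-- the vertex `y` -/
theorem ex (hF0 : S_F0) {t N n : ℕ} (hE : Env D t N n) {U : Set V} (hU : Gd D t n U) {e e' : V}
    (he : e ∈ U) (hne : e ≠ e') (he' : e' ∉ U ∨ e' ∈ ES D U) :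
    ∃ y ∈ FS D U, D.Adj y e' ∧ ¬ D.Adj y e := by
  rcases he' with h | ⟨f, hf⟩
  · obtain ⟨e0, g, hg, hfp⟩ := hE.mf U hU
    have hs : ∀ i < N + 6, D.Adj (g i) e' := fun i hi => ((hfp i hi).2.2.2.1 e' h).symm
    by_cases h0 : D.Adj (g 0) e
    · refine ⟨g 1, ⟨e0 1, hfp 1 (by omega)⟩, hs 1 (by omega), fun h1 => ?_⟩
      exact absurd (one hF0 hU.1 hg hfp (i := 0) (j := 1) (by omega) (by omega) he h0 h1)
        (by omega)
    · exact ⟨g 0, ⟨e0 0, hfp 0 (by omega)⟩, hs 0 (by omega), h0⟩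
  · exact ⟨f, ⟨e', hf⟩, hf.2.2.1.symm, fun h => hne (hf.2.2.2.2 e he h.symm)⟩

end oF3Aux

open oF3Aux

theorem oF3 : S_F3 := by
  classical
  intro hF0 hF2 t N n V D hE U U₁ U₂ hU hU₁ hU₂ h01 h02 h12 e e' he he' hne nad he1 he'1 he'2 he2
  obtain ⟨y, hy, ye', ye⟩ := ex hF0 hE hU₁ he1 hne he'1
  obtain ⟨y', hy', y'e, y'e'⟩ := ex hF0 hE hU₂ he'2 hne.symm he2
  have hyU : y ∉ U := hF2 hF0 t t N n V D hE.toEnvB U U₁ hU hU₁ h01 y hy
  have hy'U : y' ∉ U := hF2 hF0 t t N n V D hE.toEnvB U U₂ hU hU₂ h02 y' hy'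
  have hyU₂ : y ∉ U₂ := hF2 hF0 t t N n V D hE.toEnvB U₂ U₁ hU₂ hU₁ h12.symm y hy
  have hyy : D.Adj y y' := by
    obtain ⟨e0, h0⟩ := hy'
    exact h0.2.2.2.1 y hyU₂
  obtain ⟨e0, g, hg, hfp⟩ := hE.mf U hU
  have hnad := ((hF0 t n V D U hU.1).2.2 hE.tw).2
  let S : Finset ℕ := (Finset.range (N + 6)).filter fun i => ¬ (D.Adj (g i) e ∨ D.Adj (g i) e')
  have hbad : ∀ x ∈ U, ((Finset.range (N + 6)).filter fun i => D.Adj (g i) x).card ≤ 1 := by
    intro x hx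
    rw [Finset.card_le_one]
    intro i hi j hj
    rw [Finset.mem_filter, Finset.mem_range] at hi hj
    exact one hF0 hU.1 hg hfp hi.1 hj.1 hx hi.2 hj.2
  have hS : N ≤ S.card := by
    have h1 := Finset.card_filter_add_card_filter_not (s := Finset.range (N + 6))
      (fun i => D.Adj (g i) e ∨ D.Adj (g i) e')
    rw [Finset.card_range] at h1
    have h2 : ((Finset.range (N + 6)).filter fun i => D.Adj (g i) e ∨ D.Adj (g i) e').card ≤ 2 := by
      rw [Finset.filter_or]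
      exact (Finset.card_union_le _ _).trans (Nat.add_le_add (hbad e he) (hbad e' he'))
    have h3 : S.card = ((Finset.range (N + 6)).filter fun i =>
      ¬ (D.Adj (g i) e ∨ D.Adj (g i) e')).card := rfl
    omega
  let σ : ℕ → ℕ := fun k => if h : k < S.card then S.orderEmbOfFin rfl ⟨k, h⟩ else 0
  have hσ : ∀ k < N, σ k ∈ S := by
    intro k hk
    have h1 : k < S.card := by omega
    simp only [σ, dif_pos h1]
    exact Finset.orderEmbOfFin_mem _ _ _
  have hσi : ∀ k < N, ∀ l < N, σ k = σ l → k = l := by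
    intro k hk l hl h
    have h1 : k < S.card := by omega
    have h2 : l < S.card := by omega
    simp only [σ, dif_pos h1, dif_pos h2] at h
    have h3 := (S.orderEmbOfFin rfl).injective h
    exact congrArg Fin.val h3
  have hσm : ∀ k < N, σ k < N + 6 ∧ ¬ D.Adj (g (σ k)) e ∧ ¬ D.Adj (g (σ k)) e' := by
    intro k hk
    have := hσ k hk
    rw [Finset.mem_filter, Finset.mem_range, not_or] at this
    exact this
  refine hE.hf.hF e e' y y' (fun k => g (σ k)) hne nad hyy ye ye' y'e y'e' ?_ ?_ ?_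
  · intro i hi j hj
    exact hnad _ ⟨_, hfp _ (hσm i hi).1⟩ _ ⟨_, hfp _ (hσm j hj).1⟩
  · intro i hi j hj h
    exact hσi i hi j hj (hg _ (hσm i hi).1 _ (hσm j hj).1 h)
  · intro i hi
    exact ⟨(hfp _ (hσm i hi).1).2.2.2.1 y hyU, (hfp _ (hσm i hi).1).2.2.2.1 y' hy'U,
      (hσm i hi).2.1, (hσm i hi).2.2⟩

end Pool.Agent.MPd439b2.ON
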