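import Pool.Agent.Lib.MP_d439b2_co.ON.Spec

/-!
# MP_d439b2_co, ON/F4: every class has at most one heavy partner (helper37)
-/

set_option autoImplicit false

namespace Pool.Agent.MPd439b2.ON

open Pool.Agent.MPd439b2
open Pool.Agent.MPd439b2.Rep
open Pool.Agent.MPd439b2.W
open Pool.Agent.MPd439b2.A0

namespace oF4Aux

variable {V : Type} {D : SimpleGraph V}

/-- two of three different classes are different from a fourth one -/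
theorem two {t n : ℕ} {e : V} (U : Set V) (h : Hv D t n e) :
    ∃ A B : Set V, Gd D t n A ∧ Gd D t n B ∧ A ≠ B ∧ A ≠ U ∧ B ≠ U ∧ e ∈ ES D A ∧ e ∈ ES D B := by
  obtain ⟨U₁, U₂, U₃, g1, g2, g3, h12, h13, h23, e1, e2, e3⟩ := h
  by_cases h1 : U₁ = U
  · exact ⟨U₂, U₃, g2, g3, h23, fun h => h12 (h1.trans h.symm), fun h => h13 (h1.trans h.symm),
      e2, e3⟩
  by_cases h2 : U₂ = U
  · exact ⟨U₁, U₃, g1, g3, h13, h1, fun h => h23 (h2.trans h.symm), e1, e3⟩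
  exact ⟨U₁, U₂, g1, g2, h12, h1, h2, e1, e2⟩

end oF4Aux

open oF4Aux

theorem oF4 : S_F4 := by
  intro hF0 hF3 t N n V D hE U hU e he e' he' hv hv'
  by_contra hne
  have hES : ∀ (W : Set V) (u : V), u ∈ ES D W → u ∈ W := fun W u hu => by
    obtain ⟨f, hf⟩ := hu
    exact hf.1
  have heU := hES U e he
  have heU' := hES U e' he'
  obtain ⟨-, -, h0⟩ := hF0 t n V D U hU.1
  obtain ⟨h03, -⟩ := h0 hE.tw
  have hnadj : ¬ D.Adj e e' := by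
    intro hadj
    obtain ⟨f, hf⟩ := he
    have hfe : f ≠ e' := by
      rintro rfl
      exact h03 _ he' ⟨e, hf⟩
    have h1 : D.Adj f e' := hU.1.p3 f hf.2.1 e heU e' heU' hf.2.2.1.symm hadj hfe
    exact hne (hf.2.2.2.2 e' heU' h1.symm).symm
  obtain ⟨U₁, U₂, g1, g2, h12, n1, n2, e1, e2⟩ := two U hv
  obtain ⟨A, B, gA, gB, hAB, nA, nB, eA, eB⟩ := two U hv'
  -- types
  have hT : ∀ W₁ W₂ : Set V, Gd D t n W₁ → Gd D t n W₂ → W₁ ≠ U → W₂ ≠ U → W₁ ≠ W₂ →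
      (e ∈ W₁ ∧ (e' ∉ W₁ ∨ e' ∈ ES D W₁)) → (e' ∈ W₂ ∧ (e ∉ W₂ ∨ e ∈ ES D W₂)) → False :=
    fun W₁ W₂ k1 k2 k3 k4 k5 k6 k7 =>
      hF3 t N n V D hE U W₁ W₂ hU k1 k2 k3.symm k4.symm k5 e e' heU heU' hne hnadj k6.1 k6.2
        k7.1 k7.2
  by_cases c1 : e' ∈ U₁
  · -- U₁ is of type 2
    have t1 : e' ∈ U₁ ∧ (e ∉ U₁ ∨ e ∈ ES D U₁) := ⟨c1, Or.inr e1⟩
    -- U₂ is not of type 1, so it is of type 2
    have c2 : e' ∈ U₂ := by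
      by_contra c2
      exact hT U₂ U₁ g2 g1 n2 n1 h12.symm ⟨hES _ _ e2, Or.inl c2⟩ t1
    have t2 : e' ∈ U₂ ∧ (e ∉ U₂ ∨ e ∈ ES D U₂) := ⟨c2, Or.inr e2⟩
    have cA : e ∉ A := by
      intro cA
      have tA : e ∈ A ∧ (e' ∉ A ∨ e' ∈ ES D A) := ⟨cA, Or.inr eA⟩
      by_cases hA : A = U₁
      · exact hT A U₂ gA g2 nA n2 (fun h => h12 (hA.symm.trans h)) tA t2
      · exact hT A U₁ gA g1 nA n1 hA tA t1
    have hAU : U₁ ≠ A := fun h => cA (h ▸ hES _ _ e1)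
    exact hF3 t N n V D hE U₁ U A g1 hU gA n1 hAU nA.symm e e' (hES _ _ e1) c1 hne hnadj heU
      (Or.inr he') (hES _ _ eA) (Or.inl cA)
  · -- U₁ is of type 1
    have t1 : e ∈ U₁ ∧ (e' ∉ U₁ ∨ e' ∈ ES D U₁) := ⟨hES _ _ e1, Or.inl c1⟩
    have c2 : e' ∉ U₂ := fun c2 => hT U₁ U₂ g1 g2 n1 n2 h12 t1 ⟨c2, Or.inr e2⟩
    have t2 : e ∈ U₂ ∧ (e' ∉ U₂ ∨ e' ∈ ES D U₂) := ⟨hES _ _ e2, Or.inl c2⟩
    have cA : e ∈ A := by
      by_contra cA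
      have tA : e' ∈ A ∧ (e ∉ A ∨ e ∈ ES D A) := ⟨hES _ _ eA, Or.inl cA⟩
      by_cases hA : U₁ = A
      · exact hT U₂ A g2 gA n2 nA (fun h => h12 (hA.trans h.symm)) t2 tA
      · exact hT U₁ A g1 gA n1 nA hA t1 tA
    have hAU : A ≠ U₁ := fun h => c1 (h ▸ hES _ _ eA)
    exact hF3 t N n V D hE A U₁ U gA g1 hU hAU nA n1 e e' cA (hES _ _ eA) hne hnadj
      (hES _ _ e1) (Or.inl c1) heU' (Or.inr he)

end Pool.Agent.MPd439b2.ON
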