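import Pool.Agent.Lib.MP_d439b2_co.ON.Spec

/-!
# MP_d439b2_co, ON: two partners in each other's classes (helper25)
-/

set_option autoImplicit false

namespace Pool.Agent.MPd439b2.ON

open Pool.Agent.MPd439b2 Pool.Agent.MPd439b2.Rep Pool.Agent.MPd439b2.W Pool.Agent.MPd439b2.A0

/-- **F5.** -/
theorem oF5 : S_F5 := by
  intro hF0 hF2 hF3 t N n V D hE U₁ U₂ U₃ g₁ g₂ g₃ h12 h13 h23 e₁ he₁ e₂ he₂ hne h1 h2 h3 h4
  obtain ⟨f₁, a1, a2, a3, _, a5⟩ := he₁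
  have hna : ¬ D.Adj e₂ e₁ := by
    intro hadj
    by_cases hf : e₂ = f₁
    · obtain ⟨f₂, b1, _⟩ := he₂
      exact hF2 hF0 t t N n V D hE.toEnvB U₂ U₁ g₂ g₁ h12.symm e₂ ⟨e₁, by
        rw [hf]
        exact ⟨a1, a2, a3, by assumption, a5⟩⟩ b1
    · exact hne (a5 e₂ h3 (g₁.1.p3 e₂ h3 e₁ a1 f₁ a2 hadj a3 hf)).symm
  exact hF3 hF0 hF2 t N n V D hE U₃ U₁ U₂ g₃ g₁ g₂ h13.symm h23.symm h12 e₂ e₁ h4 h2 hne.symm hna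
    h3 (Or.inr ⟨f₁, a1, a2, a3, by assumption, a5⟩) h1 (Or.inr he₂)

end Pool.Agent.MPd439b2.ON
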