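import Pool.Agent.Lib.MP_d439b2_co.ON.Spec

/-!
# MP_d439b2_co, ON/FF (task of helper23, by helper77)
-/

set_option autoImplicit false

namespace Pool.Agent.MPd439b2.ON

open Pool.Agent.MPd439b2
open Pool.Agent.MPd439b2.Rep
open Pool.Agent.MPd439b2.W
open Pool.Agent.MPd439b2.A0

namespace oFFAux

/-- a subset of `range M` with at least `b` elements contains a sequence of length `b` -/
theorem enum (b : ℕ) (S : Finset ℕ) (hS : b ≤ S.card) :
    ∃ σ : ℕ → ℕ, (∀ k < b, σ k ∈ S) ∧ ∀ k < b, ∀ l < b, σ k = σ l → k = l := by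
  obtain ⟨T, hTS, hT⟩ := Finset.exists_subset_card_eq hS
  refine ⟨fun k => if h : k < b then T.orderEmbOfFin hT ⟨k, h⟩ else 0, ?_, ?_⟩
  · intro k hk
    simp only [hk, dif_pos]
    exact hTS (Finset.orderEmbOfFin_mem T hT _)
  · intro k hk l hl h
    simp only [hk, hl, dif_pos] at h
    have := (T.orderEmbOfFin hT).injective h
    exact congrArg Fin.val this

end oFFAux

/-- **FF.** A large matching in `S` whose class is not `OPP` is impossible. -/
theorem oFF : S_FF := by
  classical
  intro b t n V D r₁ r₂ U hG hb x y hxy h1 h2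
  set P : ℕ → Prop := fun k => FP D U (x k) (y k) ∨ FP D U (y k) (x k) with hP
  set F := (Finset.range (b + 3)).filter P with hF
  set N := (Finset.range (b + 3)).filter (fun k => ¬ P k) with hN
  have hIM := hxy.1
  have nxx : ∀ i < b + 3, ∀ j < b + 3, i ≠ j → x i ≠ x j := by
    intro i hi j hj hij hh
    have h3 := (hIM i hi i hi).1.2 rfl
    rw [hh] at h3
    exact hij ((hIM j hj i hi).1.1 h3).symm
  have nyy : ∀ i < b + 3, ∀ j < b + 3, i ≠ j → y i ≠ y j := by
    intro i hi j hj hij hh
    have h3 := (hIM i hi i hi).1.2 rfl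
    rw [hh] at h3
    exact hij ((hIM i hi j hj).1.1 h3)
  have nxy : ∀ i < b + 3, ∀ j < b + 3, x i ≠ y j := by
    intro i hi j hj hh
    have h3 := (hIM j hj j hj).1.2 rfl
    rw [← hh] at h3
    exact (hIM j hj i hi).2.1 h3
  -- at most two free pairs
  have hFc : F.card ≤ 2 := by
    set fr : ℕ → V := fun k => if FP D U (x k) (y k) then y k else x k with hfr
    have hfrS : ∀ k ∈ F, fr k ∈ ({r₁ U, r₂ U} : Finset V) := by
      intro k hk
      rw [hF, Finset.mem_filter, Finset.mem_range] at hk
      by_cases hk1 : FP D U (x k) (y k)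
      · have e1 : fr k = y k := if_pos hk1
        rw [e1]
        have := h1 k hk.1 hk1 U hG ⟨_, hk1⟩
        rw [Finset.mem_insert, Finset.mem_singleton]
        exact this
      · have e1 : fr k = x k := if_neg hk1
        rw [e1]
        have hk2 := hk.2.resolve_left hk1
        have := h2 k hk.1 hk2 U hG ⟨_, hk2⟩
        rw [Finset.mem_insert, Finset.mem_singleton]
        exact this
    have hinj : Set.InjOn fr F := by
      intro i hi j hj hij
      have hi' := Finset.mem_range.1 (Finset.mem_filter.1 hi).1
      have hj' := Finset.mem_range.1 (Finset.mem_filter.1 hj).1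
      by_contra hne
      by_cases hi1 : FP D U (x i) (y i)
      · have e1 : fr i = y i := if_pos hi1
        by_cases hj1 : FP D U (x j) (y j)
        · have e2 : fr j = y j := if_pos hj1
          rw [e1, e2] at hij
          exact nyy i hi' j hj' hne hij
        · have e2 : fr j = x j := if_neg hj1
          rw [e1, e2] at hij
          exact nxy j hj' i hi' hij.symm
      · have e1 : fr i = x i := if_neg hi1
        by_cases hj1 : FP D U (x j) (y j)
        · have e2 : fr j = y j := if_pos hj1
          rw [e1, e2] at hij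
          exact nxy i hi' j hj' hij
        · have e2 : fr j = x j := if_neg hj1
          rw [e1, e2] at hij
          exact nxx i hi' j hj' hne hij
    calc F.card ≤ ({r₁ U, r₂ U} : Finset V).card :=
          Finset.card_le_card_of_injOn fr hfrS hinj
      _ ≤ 2 := Finset.card_le_two
  have hsum : F.card + N.card = b + 3 := by
    have := Finset.card_filter_add_card_filter_not (s := Finset.range (b + 3)) P
    rw [Finset.card_range] at this
    exact this
  obtain ⟨σ, hσ, hσi⟩ := oFFAux.enum b N (by omega)
  have hσlt : ∀ k < b, σ k < b + 3 := fun k hk =>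
    Finset.mem_range.1 (Finset.mem_filter.1 (hσ k hk)).1
  obtain ⟨k, hk, hk'⟩ := hb (fun k => x (σ k)) (fun k => y (σ k)) ⟨by
    intro i hi j hj
    refine ⟨?_, (hIM _ (hσlt i hi) _ (hσlt j hj)).2⟩
    rw [(hIM _ (hσlt i hi) _ (hσlt j hj)).1]
    exact ⟨hσi i hi j hj, fun h => congrArg σ h⟩, fun i hi => hxy.2 _ (hσlt i hi)⟩
  exact (Finset.mem_filter.1 (hσ k hk)).2 hk'

end Pool.Agent.MPd439b2.ON
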