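import Pool.Agent.Lib.MP_d439b2_co.ON.Spec

/-!
# MP_d439b2_co, ON/HN: few heavy vertices are cut off
-/

set_option autoImplicit false

namespace Pool.Agent.MPd439b2.ON

open Pool.Agent.MPd439b2
open Pool.Agent.MPd439b2.Rep
open Pool.Agent.MPd439b2.W
open Pool.Agent.MPd439b2.A0

private theorem hn_enum {V : Type} [Finite V] {s : Set V} {l : ℕ} (hl : 1 ≤ l) (h : l ≤ s.ncard) :
    ∃ e : ℕ → V, (∀ i < l, e i ∈ s) ∧ ∀ i < l, ∀ j < l, e i = e j → i = j := by
  classical
  have hne : s.Nonempty := by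
    rw [Set.nonempty_iff_ne_empty]
    rintro rfl
    rw [Set.ncard_empty] at h
    omega
  obtain ⟨v₀, hv₀⟩ := hne
  have hcard : Nat.card s = s.ncard := Nat.card_coe_set_eq s
  refine ⟨fun i => if h : i < Nat.card s then ((Finite.equivFin s).symm ⟨i, h⟩ : V) else v₀, ?_, ?_⟩
  · intro i hi
    have hi' : i < Nat.card s := by omega
    simp only [dif_pos hi']
    exact ((Finite.equivFin s).symm ⟨i, hi'⟩).2
  · intro i hi j hj hij
    have hi' : i < Nat.card s := by omega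
    have hj' : j < Nat.card s := by omega
    simp only [dif_pos hi', dif_pos hj'] at hij
    have h1 := (Finite.equivFin s).symm.injective (Subtype.ext hij)
    exact Fin.mk.inj_iff.1 h1

theorem oHN : S_HN := by
  intro hF0 hF4 c G₁ hCN t N n V _ D hEnv r₁ r₂ hRp A A' hrk
  by_contra hcon
  push Not at hcon
  obtain ⟨e, he, hinj⟩ := hn_enum (l := G₁ + 1) (by omega) hcon
  have hex : ∀ i, ∃ U : Set V, i < G₁ + 1 → (Gd D t n U ∧ e i ∈ ES D U ∧ r₁ U ∈ A') := by
    intro i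
    by_cases hi : i < G₁ + 1
    · obtain ⟨-, -, U, hU⟩ := he i hi
      exact ⟨U, fun _ => hU⟩
    · exact ⟨∅, fun h => (hi h).elim⟩
  choose U hU using hex
  have hexf : ∀ i, ∃ f : V, i < G₁ + 1 → FP D (U i) (e i) f := by
    intro i
    by_cases hi : i < G₁ + 1
    · obtain ⟨f, hf⟩ := (hU i hi).2.1
      exact ⟨f, fun _ => hf⟩
    · exact ⟨e 0, fun h => (hi h).elim⟩
  choose f hf using hexf
  have hbound := hCN t N n V D hEnv A' A (by rw [rk_symm]; exact hrk) (G₁ + 1) U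
    (fun i => r₁ (U i)) e f (fun i hi => (hU i hi).1) ?_ hinj ?_
  · omega
  · intro i hi j hj hij
    apply hinj i hi j hj
    refine hF4 t N n V D hEnv (U i) (hU i hi).1 (e i) (hU i hi).2.1 (e j) ?_ (he i hi).2.1
      (he j hj).2.1
    rw [hij]
    exact (hU j hj).2.1
  · intro i hi
    obtain ⟨-, ⟨e', hFP', hH'⟩, -⟩ := hRp (U i) (hU i hi).1
    refine ⟨⟨e', hFP'⟩, hf i hi, ?_, (hU i hi).2.2, (he i hi).1⟩
    intro hfr
    have h1 := hf i hi
    rw [hfr] at h1
    have h2 := (hF0 t n V D (U i) (hU i hi).1.1).1 _ _ _ h1 hFP'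
    apply hH'
    rw [← h2]
    exact (he i hi).2.1

end Pool.Agent.MPd439b2.ON
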