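import Pool.Agent.Lib.MP_d439b2_co.ON.Sel

/-!
# MP_d439b2_co, ON: no half graph (helper23)
-/

set_option autoImplicit false

namespace Pool.Agent.MPd439b2.ON

open Pool.Agent.MPd439b2
open Pool.Agent.MPd439b2.Rep
open Pool.Agent.MPd439b2.W
open Pool.Agent.MPd439b2.A0

open SelAux

theorem oHa : S_Ha := by
  classical
  intro pr t N ht
  refine ⟨(t + (N + 2)) + (t + (N + 2)), fun V D jf hf n U S v w m x p q u z κ od pd hκ => ?_⟩
  -- the final step
  have core : ∀ (o : V) (Q : ℕ → V) (τ : ℕ → ℕ), o ∉ U →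
      Incr (t + (N + 2)) ((t + (N + 2)) + (t + (N + 2))) τ →
      (∀ k < t + (N + 2), Cp D U (x (κ (τ k))) (Q (τ k)) ∧ Q (τ k) ≠ z (τ k) ∧
        ¬ D.Adj o (Q (τ k))) → False := by
    intro o Q τ ho hτ hQ
    have hb := hτ.2
    have hxU : ∀ k < t + (N + 2), x (κ (τ k)) ∈ U := fun k hk => od.xU _ (pd.km _ (hb k hk))
    have hoz : ∀ k < t + (N + 2), D.Adj o (z (τ k)) := by
      intro k hk
      rcases od.gc _ (pd.km _ (hb k hk)) o ho _ _ (hQ k hk).1 (pd.zc _ (hb k hk)) (hQ k hk).2.1
        with h | h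
      · exact absurd h (hQ k hk).2.2
      · exact h
    have hsep : ∀ i < t + (N + 2), ∀ j < t + (N + 2), i ≠ j → ∀ a b, Cp D U (x (κ (τ i))) a →
        Cp D U (x (κ (τ j))) b → ¬ D.Adj a b ∧ a ≠ b := by
      intro i hi j hj hij a b ha hb'
      have hne : κ (τ i) ≠ κ (τ j) := fun e =>
        hij (incr_inj hτ hi hj (hκ _ (hb i hi) _ (hb j hj) e))
      exact sep od.up (hxU i hi) (hxU j hj) (od.xI _ (pd.km _ (hb i hi)) _ (pd.km _ (hb j hj)))
        (fun e => hne (od.xJ _ (pd.km _ (hb i hi)) _ (pd.km _ (hb j hj)) e)) ha hb'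
    have hcU : u (τ t) ∉ U := pd.uU _ (hb t (by omega))
    have hcz : ∀ i < t, ¬ D.Adj (u (τ t)) (z (τ i)) := by
      intro i hi
      rw [pd.rel _ (hb t (by omega)) _ (hb i (by omega))]
      have := hτ.1 i t hi (by omega)
      omega
    have hcQ : ∀ i < t, D.Adj (u (τ t)) (Q (τ i)) := by
      intro i hi
      rcases od.gc _ (pd.km _ (hb i (by omega))) _ hcU _ _ (hQ i (by omega)).1
        (pd.zc _ (hb i (by omega))) (hQ i (by omega)).2.1 with h | h
      · exact h
      · exact absurd h (hcz i hi)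
    have hce : ∀ i < N + 2, D.Adj (u (τ t)) (z (τ (t + i))) := by
      intro i hi
      rw [pd.rel _ (hb t (by omega)) _ (hb (t + i) (by omega))]
      rcases Nat.eq_zero_or_pos i with h | h
      · subst h; exact le_rfl
      · exact (hτ.1 t (t + i) (by omega) (by omega)).le
    refine pr t N V D ht jf hf (u (τ t)) o (fun i => z (τ i)) (fun i => Q (τ i))
      (fun i => z (τ (t + i))) ?_ ?_ (fun i hi => ⟨hcz i hi, hcQ i hi, hoz i (by omega),
        (hQ i (by omega)).2.2⟩) ?_ ?_ (fun i hi => ⟨hce i hi, hoz _ (by omega)⟩) ?_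
    · intro e
      have h1 := hoz 0 (by omega)
      rw [← e] at h1
      exact hcz 0 (by omega) h1
    · intro i hi j hj
      refine ⟨⟨fun h => ?_, ?_⟩, ?_, ?_⟩
      · by_contra hij
        exact (hsep i (by omega) j (by omega) hij _ _ (pd.zc _ (hb i (by omega)))
          (hQ j (by omega)).1).1 h
      · rintro rfl
        exact comp_adj od.up (hxU i (by omega)) (pd.zc _ (hb i (by omega))) (hQ i (by omega)).1
          (hQ i (by omega)).2.1.symm
      · by_cases hij : i = j
        · subst hij; exact D.irrefl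
        · exact (hsep i (by omega) j (by omega) hij _ _ (pd.zc _ (hb i (by omega)))
            (pd.zc _ (hb j (by omega)))).1
      · by_cases hij : i = j
        · subst hij; exact D.irrefl
        · exact (hsep i (by omega) j (by omega) hij _ _ (hQ i (by omega)).1
            (hQ j (by omega)).1).1
    · intro i hi j hj
      by_cases hij : i = j
      · subst hij; exact D.irrefl
      · exact (hsep (t + i) (by omega) (t + j) (by omega) (by omega) _ _
          (pd.zc _ (hb (t + i) (by omega))) (pd.zc _ (hb (t + j) (by omega)))).1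
    · intro i hi j hj e
      by_contra hij
      exact (hsep (t + i) (by omega) (t + j) (by omega) (by omega) _ _
          (pd.zc _ (hb (t + i) (by omega))) (pd.zc _ (hb (t + j) (by omega)))).2 e
    · intro i hi j hj
      exact ⟨(hsep (t + i) (by omega) j (by omega) (by omega) _ _
          (pd.zc _ (hb (t + i) (by omega))) (pd.zc _ (hb j (by omega)))).1,
        (hsep (t + i) (by omega) j (by omega) (by omega) _ _
          (pd.zc _ (hb (t + i) (by omega))) (hQ j (by omega)).1).1⟩
  rcases split (fun k => z k ≠ p (κ k)) (t + (N + 2)) (t + (N + 2)) with ⟨τ, hτ, h⟩ | ⟨τ, hτ, h⟩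
  · refine core v (fun k => p (κ k)) τ od.vU hτ (fun k hk => ?_)
    have hk' := pd.km (τ k) (hτ.2 k hk)
    exact ⟨(od.cp _ hk').1, (h k hk).symm, (od.vw _ hk').1⟩
  · refine core w (fun k => q (κ k)) τ od.wU hτ (fun k hk => ?_)
    have hk' := pd.km (τ k) (hτ.2 k hk)
    have h1 : z (τ k) = p (κ (τ k)) := not_not.1 (h k hk)
    exact ⟨(od.cp _ hk').2.1, fun e => (od.cp _ hk').2.2 (h1.symm.trans e.symm),
      (od.vw _ hk').2.2.2⟩

end Pool.Agent.MPd439b2.ON
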