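import Pool.Agent.Lib.MP_d439b2_co.ON.Sel

/-!
# MP_d439b2_co, ON: from the pattern `i = j` to `FD` (helper23)
-/

set_option autoImplicit false

namespace Pool.Agent.MPd439b2.ON

open Pool.Agent.MPd439b2
open Pool.Agent.MPd439b2.Rep
open Pool.Agent.MPd439b2.W
open Pool.Agent.MPd439b2.A0

open SelAux

theorem oId : S_Id := by
  classical
  intro ram ty t N m'
  obtain ⟨M₀, hM₀⟩ := ty ram t N m'
  refine ⟨M₀ + M₀ + 3, fun V D jf hf n U S v w m x p q u z κ od pd => ?_⟩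
  -- `κ` is injective
  have hzne : ∀ i < M₀ + M₀ + 3, ∀ j < M₀ + M₀ + 3, i ≠ j → z i ≠ z j := by
    intro i hi j hj hij e
    have h1 := (pd.rel i hi i hi).2 rfl
    rw [e] at h1
    exact hij ((pd.rel i hi j hj).1 h1)
  have hκ : ∀ i < M₀ + M₀ + 3, ∀ j < M₀ + M₀ + 3, κ i = κ j → i = j := by
    intro i hi j hj hij
    by_contra hne
    obtain ⟨l, hl, h1, h2⟩ : ∃ l < M₀ + M₀ + 3, l ≠ i ∧ l ≠ j := by
      by_cases h0 : i = 0 ∨ j = 0
      · by_cases h1 : i = 1 ∨ j = 1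
        · exact ⟨2, by omega, by omega, by omega⟩
        · exact ⟨1, by omega, by omega, by omega⟩
      · exact ⟨0, by omega, by omega, by omega⟩
    have hzj := pd.zc j hj
    rw [← hij] at hzj
    rcases od.gc _ (pd.km i hi) (u l) (pd.uU l hl) _ _ (pd.zc i hi) hzj (hzne i hi j hj hne)
      with h | h
    · exact h1 ((pd.rel l hl i hi).1 h)
    · exact h2 ((pd.rel l hl j hj).1 h)
  -- the final step
  have core : ∀ (o : V) (Q : ℕ → V) (τ : ℕ → ℕ), o ∉ U → Incr M₀ (M₀ + M₀) τ →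
      (∀ k < M₀, Cp D U (x (κ (τ k))) (Q (τ k)) ∧ Q (τ k) ≠ z (τ k) ∧ ¬ D.Adj o (Q (τ k))) →
      ∃ (o : V) (P Q u' : ℕ → V), FD D U o m' P Q u' ∧ ∀ k < m', u' k ∈ S ∧ P k ∈ S := by
    intro o Q τ ho hτ hQ
    have hb : ∀ k < M₀, τ k < M₀ + M₀ + 3 := fun k hk => (hτ.2 k hk).trans_le (by omega)
    have hxU : ∀ k < M₀, x (κ (τ k)) ∈ U := fun k hk => od.xU _ (pd.km _ (hb k hk))
    have hoz : ∀ k < M₀, D.Adj o (z (τ k)) := by
      intro k hk
      rcases od.gc _ (pd.km _ (hb k hk)) o ho _ _ (hQ k hk).1 (pd.zc _ (hb k hk)) (hQ k hk).2.1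
        with h | h
      · exact absurd h (hQ k hk).2.2
      · exact h
    have hsep : ∀ i < M₀, ∀ j < M₀, i ≠ j → ∀ a b, Cp D U (x (κ (τ i))) a →
        Cp D U (x (κ (τ j))) b → ¬ D.Adj a b ∧ a ≠ b := by
      intro i hi j hj hij a b ha hb'
      have hne : κ (τ i) ≠ κ (τ j) := fun e =>
        hij (incr_inj hτ hi hj (hκ _ (hb i hi) _ (hb j hj) e))
      exact sep od.up (hxU i hi) (hxU j hj) (od.xI _ (pd.km _ (hb i hi)) _ (pd.km _ (hb j hj)))
        (fun e => hne (od.xJ _ (pd.km _ (hb i hi)) _ (pd.km _ (hb j hj)) e)) ha hb'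
    obtain ⟨σ, hσ, fd⟩ := hM₀ V D jf hf.hS hf.hD U o (z ∘ τ) (Q ∘ τ) (u ∘ τ)
      (by
        refine ⟨fun i hi j hj => ⟨?_, ?_, ?_⟩, fun i hi =>
          ⟨(pd.zc _ (hb i hi)).1, (hQ i hi).1.1⟩⟩
        · constructor
          · intro h
            by_contra hij
            exact (hsep i hi j hj hij _ _ (pd.zc _ (hb i hi)) (hQ j hj).1).1 h
          · rintro rfl
            exact comp_adj od.up (hxU i hi) (pd.zc _ (hb i hi)) (hQ i hi).1 (hQ i hi).2.1.symm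
        · by_cases hij : i = j
          · subst hij; exact D.irrefl
          · exact (hsep i hi j hj hij _ _ (pd.zc _ (hb i hi)) (pd.zc _ (hb j hj))).1
        · by_cases hij : i = j
          · subst hij; exact D.irrefl
          · exact (hsep i hi j hj hij _ _ (hQ i hi).1 (hQ j hj).1).1)
      (by
        intro k hk v' hv' a b ha hb' hab
        exact od.gc _ (pd.km _ (hb k hk)) v' hv' a b
          (comp_trans od.up (hxU k hk) (pd.zc _ (hb k hk)) ha)
          (comp_trans od.up (hxU k hk) (pd.zc _ (hb k hk)) hb') hab)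
      (fun k hk => ⟨hoz k hk, (hQ k hk).2.2⟩) (fun k hk => pd.uU _ (hb k hk))
      (by
        intro k hk j hj
        show D.Adj (u (τ k)) (z (τ j)) ↔ k = j
        rw [pd.rel _ (hb k hk) _ (hb j hj)]
        exact ⟨fun e => incr_inj hτ hk hj e, fun e => by rw [e]⟩)
    exact ⟨o, _, _, _, fd, fun k hk => ⟨pd.uS _ (hb _ (hσ.2 k hk)), pd.zS _ (hb _ (hσ.2 k hk))⟩⟩
  rcases split (fun k => z k ≠ p (κ k)) M₀ M₀ with ⟨τ, hτ, h⟩ | ⟨τ, hτ, h⟩
  · refine core v (fun k => p (κ k)) τ od.vU hτ (fun k hk => ?_)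
    have hk' := pd.km (τ k) ((hτ.2 k hk).trans_le (by omega))
    exact ⟨(od.cp _ hk').1, (h k hk).symm, (od.vw _ hk').1⟩
  · refine core w (fun k => q (κ k)) τ od.wU hτ (fun k hk => ?_)
    have hk' := pd.km (τ k) ((hτ.2 k hk).trans_le (by omega))
    have h1 : z (τ k) = p (κ (τ k)) := not_not.1 (h k hk)
    exact ⟨(od.cp _ hk').2.1, fun e => (od.cp _ hk').2.2 (h1.symm.trans e.symm),
      (od.vw _ hk').2.2.2⟩

end Pool.Agent.MPd439b2.ON
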