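import Pool.Agent.Lib.MP_d439b2_co.ON.Spec

/-!
# MP_d439b2_co, ON, JAB: the facts `FjA`, `FjB`
-/

set_option autoImplicit false

namespace Pool.Agent.MPd439b2.ON

open Pool.Agent.MPd439b2 Pool.Agent.MPd439b2.Rep Pool.Agent.MPd439b2.W Pool.Agent.MPd439b2.A0

namespace oJABAux

variable {V : Type} {D : SimpleGraph V}

theorem tc {A B : Set V} {u w : V} (hu : u ∈ A) (hw : w ∈ B) (h1 : u ≠ w) (h2 : ¬ D.Adj u w) :
    Tch Dᶜ A B := ⟨u, hu, w, hw, h1, h2⟩

theorem ntc {u w : V} (h : D.Adj u w) : ¬ Tch Dᶜ {u} {w} := by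
  rintro ⟨a, rfl, b, rfl, h1⟩
  exact h1.2 h

/-- vertices with different neighbours are different -/
theorem ne1 {u w r : V} (h1 : D.Adj u r) (h2 : ¬ D.Adj w r) : u ≠ w := by
  rintro rfl
  exact h2 h1

/-- a low vertex is different from the ends of the edges -/
theorem low {t : ℕ} {x y : ℕ → V} (h : IM D t x y) {i : ℕ} (hi : i < t) {u : V}
    (h1 : ¬ D.Adj u (x i)) (h2 : ¬ D.Adj u (y i)) : u ≠ x i ∧ u ≠ y i := by
  have h3 : D.Adj (x i) (y i) := (h i hi i hi).1.mpr rfl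
  exact ⟨(ne1 h3 h2).symm, (ne1 h3.symm h1).symm⟩

theorem im_ne {t : ℕ} {x y : ℕ → V} (h : IM D t x y) {i j : ℕ} (hi : i < t) (hj : j < t)
    (hij : i ≠ j) : x i ≠ x j ∧ x i ≠ y j ∧ y i ≠ y j := by
  have h1 : D.Adj (x i) (y i) := (h i hi i hi).1.mpr rfl
  refine ⟨ne1 h1 fun h' => hij ((h j hj i hi).1.mp h').symm, ?_, ?_⟩
  · exact ne1 h1 (h j hj i hi).2.2
  · exact ne1 h1.symm fun h' => hij ((h i hi j hj).1.mp h'.symm)

end oJABAux

open oJABAux

theorem oJAB : S_JAB := by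
  intro hJB t V D hno
  have mdl : ∀ (X : Set V) (a b : V) (x y : ℕ → V), IM D t x y → Conn Dᶜ X → a ≠ b →
      ¬ D.Adj a b → (∀ v ∈ X, D.Adj v a ∧ D.Adj v b ∧ ∀ i < t, v ≠ x i ∧ v ≠ y i) →
      (∀ i < t, ¬ D.Adj a (x i) ∧ ¬ D.Adj a (y i) ∧ ¬ D.Adj b (x i) ∧ ¬ D.Adj b (y i) ∧
        (∃ v ∈ X, ¬ D.Adj v (x i)) ∧ ∃ v ∈ X, ¬ D.Adj v (y i)) → False := by
    intro X a b x y him hX hab nab hv hlow
    apply hno
    have ha : ∀ i < t, a ≠ x i ∧ a ≠ y i := fun i hi => low him hi (hlow i hi).1 (hlow i hi).2.1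
    have hb : ∀ i < t, b ≠ x i ∧ b ≠ y i := fun i hi =>
      low him hi (hlow i hi).2.2.1 (hlow i hi).2.2.2.1
    have hXa : a ∉ X := fun h => (hv a h).1.ne rfl
    have hXb : b ∉ X := fun h => (hv b h).2.1.ne rfl
    refine hJB t V Dᶜ (fun k => if k = 0 then X else if k = 1 then {a} else {b})
      (fun i => {x i}) (fun i => {y i}) ?_ ?_ ?_ ?_ ?_ ?_ ?_ ?_ ?_ ?_ ?_ ?_
    · intro k hk
      interval_cases k
      · exact hX
      · exact Conn.singleton _ _
      · exact Conn.singleton _ _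
    · exact fun i _ => ⟨Conn.singleton _ _, Conn.singleton _ _⟩
    · intro k hk l hl hkl
      interval_cases k <;> interval_cases l <;>
        first
        | exact absurd rfl hkl
        | exact Set.disjoint_singleton_right.mpr hXa
        | exact Set.disjoint_singleton_right.mpr hXb
        | exact Set.disjoint_singleton_left.mpr hXa
        | exact Set.disjoint_singleton_left.mpr hXb
        | exact Set.disjoint_singleton.mpr hab
        | exact Set.disjoint_singleton.mpr hab.symm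
    · intro k hk i hi
      interval_cases k
      · exact ⟨Set.disjoint_singleton_right.mpr fun h => ((hv _ h).2.2 i hi).1 rfl,
          Set.disjoint_singleton_right.mpr fun h => ((hv _ h).2.2 i hi).2 rfl⟩
      · exact ⟨Set.disjoint_singleton.mpr (ha i hi).1, Set.disjoint_singleton.mpr (ha i hi).2⟩
      · exact ⟨Set.disjoint_singleton.mpr (hb i hi).1, Set.disjoint_singleton.mpr (hb i hi).2⟩
    · exact fun i hi => Set.disjoint_singleton.mpr ((him i hi i hi).1.mpr rfl).ne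
    · intro i hi j hj hij
      obtain ⟨h1, h2, h3⟩ := im_ne him hi hj hij
      exact ⟨Set.disjoint_singleton.mpr h1, Set.disjoint_singleton.mpr h2,
        Set.disjoint_singleton.mpr h3⟩
    · rintro ⟨u, hu, w, rfl, h1⟩
      exact h1.2 (hv u hu).1
    · rintro ⟨u, hu, w, rfl, h1⟩
      exact h1.2 (hv u hu).2.1
    · exact tc rfl rfl hab nab
    · intro k hk i hi
      obtain ⟨h1, h2, h3, h4, ⟨v, hvX, h5⟩, w, hwX, h6⟩ := hlow i hi
      interval_cases k
      · exact ⟨tc hvX rfl ((hv v hvX).2.2 i hi).1 h5, tc hwX rfl ((hv w hwX).2.2 i hi).2 h6⟩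
      · exact ⟨tc rfl rfl (ha i hi).1 h1, tc rfl rfl (ha i hi).2 h2⟩
      · exact ⟨tc rfl rfl (hb i hi).1 h3, tc rfl rfl (hb i hi).2 h4⟩
    · exact fun i hi => ntc ((him i hi i hi).1.mpr rfl)
    · intro i hi j hj hij
      obtain ⟨h1, h2, h3⟩ := im_ne him hi hj hij
      exact ⟨tc rfl rfl h1 (him i hi j hj).2.1,
        tc rfl rfl h2 fun h => hij ((him i hi j hj).1.mp h),
        tc rfl rfl h3 (him i hi j hj).2.2⟩
  constructor
  · intro a v b x y him hva hvb hab nab hlow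
    refine mdl {v} a b x y him (Conn.singleton _ _) hab nab ?_ ?_
    · rintro u rfl
      exact ⟨hva, hvb, fun i hi => low him hi (hlow i hi).2.2.1 (hlow i hi).2.2.2.1⟩
    · intro i hi
      obtain ⟨h1, h2, h3, h4, h5, h6⟩ := hlow i hi
      exact ⟨h1, h2, h5, h6, ⟨v, rfl, h3⟩, v, rfl, h4⟩
  · intro a v w b x y him hvw nvw hva hvb hwa hwb hab nab hlow
    refine mdl {v, w} a b x y him (Conn.pair ⟨hvw, nvw⟩) hab nab ?_ ?_
    · rintro u (rfl | rfl)
      · exact ⟨hva, hvb, fun i hi => ⟨ne1 hva fun h => (hlow i hi).1 h.symm,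
          ne1 hva fun h => (hlow i hi).2.1 h.symm⟩⟩
      · exact ⟨hwa, hwb, fun i hi => ⟨ne1 hwa fun h => (hlow i hi).1 h.symm,
          ne1 hwa fun h => (hlow i hi).2.1 h.symm⟩⟩
    · intro i hi
      obtain ⟨h1, h2, h3, h4, h5, h6⟩ := hlow i hi
      refine ⟨h1, h2, h3, h4, ?_, ?_⟩
      · rcases h5 with h | h
        · exact ⟨v, Or.inl rfl, h⟩
        · exact ⟨w, Or.inr rfl, h⟩
      · rcases h6 with h | h
        · exact ⟨v, Or.inl rfl, h⟩
        · exact ⟨w, Or.inr rfl, h⟩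

end Pool.Agent.MPd439b2.ON
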