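import Pool.Agent.Lib.MP_d439b2_co.ON.Spec

/-!
# MP_d439b2_co, ON/KX: extension of `Link`
-/

set_option autoImplicit false

namespace Pool.Agent.MPd439b2.ON

open Pool.Agent.MPd439b2
open Pool.Agent.MPd439b2.Rep
open Pool.Agent.MPd439b2.W
open Pool.Agent.MPd439b2.A0

namespace KXx

variable {V : Type}

theorem hat_compl {S A A' : Set V} {π : V → V} (hπ : ∀ v ∉ S, π v ∈ S) (h : Pt S A A') :
    (hat S π A)ᶜ = hat S π A' := by
  obtain ⟨h1, h2⟩ := h
  ext v
  constructor
  · intro hv
    by_cases hS : v ∈ S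
    · rw [← h1] at hS
      rcases hS with hS | hS
      · exact absurd (Or.inl hS) hv
      · exact Or.inl hS
    · have h3 := hπ v hS
      rw [← h1] at h3
      rcases h3 with h3 | h3
      · exact absurd (Or.inr ⟨hS, h3⟩) hv
      · exact Or.inr ⟨hS, h3⟩
  · intro hv hv'
    rcases hv with hv | ⟨hv, hv2⟩
    · rcases hv' with hv' | ⟨hv', -⟩
      · exact Set.disjoint_left.1 h2 hv' hv
      · apply hv'
        rw [← h1]
        exact Or.inr hv
    · rcases hv' with hv' | ⟨-, hv'⟩
      · apply hv
        rw [← h1]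
        exact Or.inl hv'
      · exact Set.disjoint_left.1 h2 hv' hv2

theorem pt_val {S : Set V} (X : Set S) : Pt S (Subtype.val '' X) (Subtype.val '' Xᶜ) := by
  refine ⟨?_, ?_⟩
  · rw [← Set.image_union, Set.union_compl_self, Set.image_univ, Subtype.range_coe]
  · rw [Set.disjoint_image_iff Subtype.val_injective]
    exact disjoint_compl_right

end KXx

theorem oKX : S_KX := by
  intro hRI g β c' c₀ V _ D S π hπ hg hrk hL c hc X hX
  have hpt := KXx.pt_val X
  have h1 : LK.rk D (Subtype.val '' X) (Subtype.val '' Xᶜ) ≤ c := by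
    rw [← hRI V D S X Xᶜ]
    exact hX
  have h2 := hrk c hc _ _ hpt h1
  have h3 : LK.cr D (hat S π (Subtype.val '' X)) ≤ g c := by
    unfold LK.cr
    rw [KXx.hat_compl hπ hpt]
    exact h2
  have h4 := hL (g c) (hg c hc) (hat S π (Subtype.val '' X)) h3
  rcases h4 with h4 | h4
  · left
    refine le_trans ?_ h4
    rw [← Set.ncard_image_of_injective X Subtype.val_injective]
    exact Set.ncard_le_ncard Set.subset_union_left (Set.toFinite _)
  · right
    rw [KXx.hat_compl hπ hpt] at h4
    refine le_trans ?_ h4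
    rw [← Set.ncard_image_of_injective Xᶜ Subtype.val_injective]
    exact Set.ncard_le_ncard Set.subset_union_left (Set.toFinite _)

end Pool.Agent.MPd439b2.ON
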