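import Pool.Agent.Lib.MP_d439b2_co.ON.Spec

/-!
# MP_d439b2_co, ON/Mf: there are many free pairs
-/

set_option autoImplicit false

namespace Pool.Agent.MPd439b2.ON

open Pool.Agent.MPd439b2
open Pool.Agent.MPd439b2.Rep
open Pool.Agent.MPd439b2.W
open Pool.Agent.MPd439b2.A0

private theorem Mf_apart {V : Type} {D : SimpleGraph V} {n : ℕ} {x y : ℕ → V} (h : IM D n x y)
    {i j : ℕ} (hi : i < n) (hj : j < n) (hij : i ≠ j) {a b : V} (ha : a = x i ∨ a = y i)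
    (hb : b = x j ∨ b = y j) : a ≠ b ∧ ¬ D.Adj a b := by
  have hii := (h i hi i hi).1.2 rfl
  obtain ⟨h1, h2, h3⟩ := h i hi j hj
  obtain ⟨h4, h5, h6⟩ := h j hj i hi
  have n1 : ¬ D.Adj (x i) (y j) := fun h' => hij (h1.1 h')
  have n2 : ¬ D.Adj (x j) (y i) := fun h' => hij (h4.1 h').symm
  rcases ha with rfl | rfl <;> rcases hb with rfl | rfl
  · exact ⟨fun e => n2 (e ▸ hii), h2⟩
  · refine ⟨fun e => ?_, n1⟩
    rw [e] at hii
    exact h6 hii
  · refine ⟨fun e => ?_, fun h' => n2 h'.symm⟩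
    rw [e] at hii
    exact h2 hii
  · exact ⟨fun e => n1 (e ▸ hii), h3⟩

private theorem Mf_enum (S : Finset ℕ) (m : ℕ) (h : m ≤ S.card) : ∃ τ : ℕ → ℕ,
    (∀ i < m, τ i ∈ S) ∧ ∀ i < m, ∀ j < m, τ i = τ j → i = j := by
  refine ⟨fun i => if hi : i < S.card then S.orderEmbOfFin rfl ⟨i, hi⟩ else 0, ?_, ?_⟩
  · intro i hi
    dsimp only
    rw [dif_pos (lt_of_lt_of_le hi h)]
    exact Finset.orderEmbOfFin_mem _ _ _
  · intro i hi j hj hij
    dsimp only at hij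
    rw [dif_pos (lt_of_lt_of_le hi h), dif_pos (lt_of_lt_of_le hj h)] at hij
    have := (S.orderEmbOfFin rfl).injective hij
    simpa using this

private theorem Mf_sys {V : Type} {D : SimpleGraph V} {U : Set V} {n m : ℕ} {x y : ℕ → V}
    (h : Sy D U n x y) {τ : ℕ → ℕ} (h1 : ∀ i < m, τ i < n)
    (h2 : ∀ i < m, ∀ j < m, τ i = τ j → i = j) :
    Sy D U m (fun i => x (τ i)) (fun i => y (τ i)) := by
  refine ⟨fun i hi j hj => ?_, fun i hi => h.2 _ (h1 i hi)⟩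
  obtain ⟨a1, a2, a3⟩ := h.1 (τ i) (h1 i hi) (τ j) (h1 j hj)
  exact ⟨a1.trans ⟨fun e => h2 i hi j hj e, fun e => by rw [e]⟩, a2, a3⟩

theorem oMf : S_Mf := by
  classical
  intro hU2 hFr t N h
  obtain ⟨b, hb⟩ := hFr t N h
  refine ⟨b + N + 6 + t + 1, fun n hn V D hJ hH hT => ⟨hT, ?_, ?_⟩⟩
  · intro U hU
    obtain ⟨x, y, hs⟩ := hU.1.sys
    set P : ℕ → Prop := fun k => FP D U (x k) (y k) ∨ FP D U (y k) (x k) with hP
    have hcard : N + 6 ≤ ((Finset.range n).filter P).card := by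
      by_contra hcon
      have h1 := Finset.card_filter_add_card_filter_not (s := Finset.range n) P
      rw [Finset.card_range] at h1
      have h2 : b ≤ ((Finset.range n).filter fun k => ¬ P k).card := by omega
      obtain ⟨τ, ht1, ht2⟩ := Mf_enum _ b h2
      have ht3 : ∀ i < b, τ i < n := fun i hi =>
        Finset.mem_range.1 (Finset.mem_filter.1 (ht1 i hi)).1
      obtain ⟨k, hk, hk'⟩ := hb V D hJ hH hT n U hU.1 hU.2 _ _ (Mf_sys hs ht3 ht2)
      exact (Finset.mem_filter.1 (ht1 k hk)).2 hk'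
    obtain ⟨τ, ht1, ht2⟩ := Mf_enum _ (N + 6) hcard
    have ht3 : ∀ i < N + 6, τ i < n := fun i hi =>
      Finset.mem_range.1 (Finset.mem_filter.1 (ht1 i hi)).1
    have hpair : ∀ i < N + 6, ∃ p : V × V, FP D U p.1 p.2 ∧ (p.2 = x (τ i) ∨ p.2 = y (τ i)) := by
      intro i hi
      rcases (Finset.mem_filter.1 (ht1 i hi)).2 with h1 | h1
      · exact ⟨(x (τ i), y (τ i)), h1, Or.inr rfl⟩
      · exact ⟨(y (τ i), x (τ i)), h1, Or.inl rfl⟩
    haveI : Nonempty V := ⟨x 0⟩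
    choose! p hp using hpair
    refine ⟨fun i => (p i).1, fun i => (p i).2, ?_, fun i hi => (hp i hi).1⟩
    intro i hi j hj hij
    by_contra hne
    have hne' : τ i ≠ τ j := fun e => hne (ht2 i hi j hj e)
    exact (Mf_apart hs.1 (ht3 i hi) (ht3 j hj) hne' (hp i hi).2 (hp j hj).2).1 hij
  · intro U U' hU hU' hsub
    obtain ⟨x, y, hs⟩ := hU'.1.sys
    have h1 : Sy D U' (t + 1) x y := ⟨fun i hi j hj => hs.1 i (by omega) j (by omega),
      fun i hi => hs.2 i (by omega)⟩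
    have h2 : Sy D U (t + 1) x y := ⟨h1.1, fun i hi => ⟨hsub (h1.2 i hi).1, hsub (h1.2 i hi).2⟩⟩
    exact (hU2 t n V D U U' hU.1 hU'.1 x y h2 h1).symm

end Pool.Agent.MPd439b2.ON
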