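import Pool.Agent.Lib.MP_d439b2_co.ON.Spec

/-!
# MP_d439b2_co, ON: there is no large matching in `Sg` (helper23)
-/

set_option autoImplicit false

namespace Pool.Agent.MPd439b2.ON

open Pool.Agent.MPd439b2
open Pool.Agent.MPd439b2.Rep
open Pool.Agent.MPd439b2.W
open Pool.Agent.MPd439b2.A0

namespace NMAux

variable {V : Type} {D : SimpleGraph V}

theorem im_mono {m M : ℕ} {a b : ℕ → V} (h : IM D M a b) (hm : m ≤ M) : IM D m a b :=
  fun i hi j hj => h i (by omega) j (by omega)

theorem im_comp {m M : ℕ} {a b : ℕ → V} {σ : ℕ → ℕ} (h : IM D M a b) (hσ : Incr m M σ) :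
    IM D m (a ∘ σ) (b ∘ σ) := by
  intro i hi j hj
  have h1 := h (σ i) (hσ.2 i hi) (σ j) (hσ.2 j hj)
  refine ⟨?_, h1.2⟩
  simp only [Function.comp]
  rw [h1.1]
  constructor
  · intro he
    rcases Nat.lt_trichotomy i j with hij | hij | hij
    · have := hσ.1 i j hij hj; omega
    · exact hij
    · have := hσ.1 j i hij hi; omega
  · rintro rfl; rfl

theorem inj_of_im {m : ℕ} {a b : ℕ → V} (h : IM D m a b) : Inj m a := by
  intro i hi j hj hij
  have h1 := (h i hi i hi).1.2 rfl
  rw [hij] at h1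
  exact ((h j hj i hi).1.1 h1).symm

theorem sep {t n : ℕ} {U : Set V} (up : UP D t n U) {a b z z' : V} (ha : a ∈ U) (hb : b ∈ U)
    (hab : ¬ D.Adj a b) (hne : a ≠ b) (hz : Cp D U a z) (hz' : Cp D U b z') :
    ¬ D.Adj z z' ∧ z ≠ z' := by
  have key : ∀ w, Cp D U b w → a ≠ w ∧ ¬ D.Adj a w := by
    intro w hw
    rcases hw.2 with h | h
    · subst h; exact ⟨hne, hab⟩
    · constructor
      · intro e; subst e; exact hab h
      · intro e; exact hab (up.p3 a ha w hw.1 b hb e h hne)
  obtain ⟨k1, k2⟩ := key z' hz'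
  rcases hz.2 with h | h
  · subst h; exact ⟨k2, k1⟩
  · constructor
    · intro e; exact k2 (up.p3 a ha z hz.1 z' hz'.1 h.symm e k1)
    · intro e; subst e; exact k2 h.symm

theorem pd_comp {U S : Set V} {m M M' : ℕ} {x u z : ℕ → V} {κ : ℕ → ℕ} {R : ℕ → ℕ → Prop}
    (h : PD D U S m x M u z κ R) {s : ℕ → ℕ} (hs : Incr M' M s)
    (hR : ∀ i < M', ∀ j < M', (R (s i) (s j) ↔ R i j)) :
    PD D U S m x M' (u ∘ s) (z ∘ s) (κ ∘ s) R where
  uU i hi := h.uU _ (hs.2 i hi)
  uS i hi := h.uS _ (hs.2 i hi)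
  zS i hi := h.zS _ (hs.2 i hi)
  km i hi := h.km _ (hs.2 i hi)
  zc i hi := h.zc _ (hs.2 i hi)
  rel i hi j hj := (h.rel _ (hs.2 i hi) _ (hs.2 j hj)).trans (hR i hi j hj)

theorem pd_mono {U S : Set V} {m M M' : ℕ} {x u z : ℕ → V} {κ : ℕ → ℕ} {R : ℕ → ℕ → Prop}
    (h : PD D U S m x M u z κ R) (hm : M' ≤ M) : PD D U S m x M' u z κ R where
  uU i hi := h.uU _ (by omega)
  uS i hi := h.uS _ (by omega)
  zS i hi := h.zS _ (by omega)
  km i hi := h.km _ (by omega)
  zc i hi := h.zc _ (by omega)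
  rel i hi j hj := h.rel _ (by omega) _ (by omega)

theorem incr_eq {M' M : ℕ} {s : ℕ → ℕ} (hs : Incr M' M s) {i j : ℕ} (hi : i < M') (hj : j < M') :
    s i = s j ↔ i = j := by
  constructor
  · intro he
    rcases Nat.lt_trichotomy i j with hij | hij | hij
    · have := hs.1 i j hij hj; omega
    · exact hij
    · have := hs.1 j i hij hi; omega
  · rintro rfl; rfl

theorem incr_le {M' M : ℕ} {s : ℕ → ℕ} (hs : Incr M' M s) {i j : ℕ} (hi : i < M') (hj : j < M') :
    s i ≤ s j ↔ i ≤ j := by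
  constructor
  · intro he
    by_contra hc
    have := hs.1 j i (by omega) hi
    omega
  · intro he
    rcases Nat.lt_or_ge i j with hij | hij
    · exact (hs.1 i j hij hj).le
    · have : i = j := by omega
      rw [this]

end NMAux

open NMAux

theorem oNM : S_NM := by
  classical
  intro ram u1 opp pa sm ha cl idp ff cfr t N n ht hn
  obtain ⟨b, hb⟩ := cfr t N t
  obtain ⟨Mc, hMc⟩ := cl t N ht
  obtain ⟨M₃, hM₃⟩ := idp t N (n + (b + 3) + Mc)
  obtain ⟨Msm, hMsm⟩ := sm t N
  obtain ⟨Mha, hMha⟩ := ha t N ht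
  obtain ⟨M₅, hM₅⟩ := ram (Bool × Bool) (M₃ + Msm + Mha + (t + 3) ^ 2 + N + 3)
  obtain ⟨c₁, hc₁⟩ := pa M₅
  refine ⟨c₁, fun β => ?_⟩
  obtain ⟨Mo, hMo⟩ := opp t N (2 * β c₁ + 2 + (4 * N + 8)) ht
  refine ⟨n + (b + 3) + Mo, ?_⟩
  intro c₀ hc₀ V _ D jf hf tw r₁ r₂ link x y him hS
  -- the class of a matching contains the matching
  have hcls : ∀ (M : ℕ) (x y : ℕ → V), n ≤ M → IM D M x y →
      ∀ i < M, x i ∈ {v | (Jt D n x y v).card ≤ 1} ∧ y i ∈ {v | (Jt D n x y v).card ≤ 1} := by
    intro M x y hM hxy i hi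
    obtain ⟨_, hin⟩ := u1 t n hn V D jf x y (im_mono hxy hM)
    by_cases hin' : i < n
    · exact hin i hin'
    · have hx : Jt D n x y (x i) = ∅ := by
        apply Finset.eq_empty_of_forall_notMem
        intro j hj
        simp only [Jt, Finset.mem_filter, Finset.mem_range] at hj
        have h1 := hxy i hi j (by omega)
        rcases hj.2 with h | h
        · exact h1.2.1 h
        · have := h1.1.1 h; omega
      have hy : Jt D n x y (y i) = ∅ := by
        apply Finset.eq_empty_of_forall_notMem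
        intro j hj
        simp only [Jt, Finset.mem_filter, Finset.mem_range] at hj
        have h1 := hxy i hi j (by omega)
        have h2 := hxy j (by omega) i hi
        rcases hj.2 with h | h
        · have := h2.1.1 h.symm; omega
        · exact h1.2.2 h
      simp only [Set.mem_ofPred_eq, hx, hy, Finset.card_empty]
      omega
  -- a matching in `Sg` whose class is not `OPP`
  have hno : ∀ (M : ℕ) (x y : ℕ → V), n + (b + 3) ≤ M → IM D M x y →
      (∀ i < M, x i ∈ Sg D t n r₁ r₂ ∧ y i ∈ Sg D t n r₁ r₂) →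
      ¬ OPP D t {v | (Jt D n x y v).card ≤ 1} → False := by
    intro M x y hM hxy hxyS hO
    obtain ⟨up, _⟩ := u1 t n hn V D jf x y (im_mono hxy (by omega))
    refine ff b t n V D r₁ r₂ _ ⟨up, hO⟩ (hb V D jf hf.toHB tw n _ up hO) x y
      ⟨im_mono hxy (by omega), fun i hi => hcls M x y (by omega) hxy i (by omega)⟩
      (fun k hk _ => (hxyS k (by omega)).2) (fun k hk _ => (hxyS k (by omega)).1)
  obtain ⟨up, _⟩ := u1 t n hn V D jf x y (im_mono him (by omega))
  set U : Set V := {v | (Jt D n x y v).card ≤ 1} with hUdef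
  have hxU := hcls _ x y (by omega) him
  by_cases hO : OPP D t U
  swap
  · exact hno _ x y (by omega) him hS hO
  obtain ⟨v, w, σ, p, q, hv, hw, hσ, hpq⟩ := hMo V D jf hf n U up hO x y
    ⟨im_mono him (by omega), fun i hi => hxU i (by omega)⟩
  have imσ := im_comp (im_mono him (by omega : Mo ≤ _)) hσ
  have od : OD D t n U v w (2 * β c₁ + 2 + (4 * N + 8)) (x ∘ σ) p q :=
    { up := up
      vU := hv
      wU := hw
      xI := fun i hi j hj => (imσ i hi j hj).2.1
      xJ := inj_of_im imσ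
      xU := fun k hk => (hxU _ (by have := hσ.2 k hk; omega)).1
      gc := fun k hk => (hpq k hk).1
      cp := fun k hk => ⟨(hpq k hk).2.1, (hpq k hk).2.2.1, (hpq k hk).2.2.2.1⟩
      vw := fun k hk => (hpq k hk).2.2.2.2 }
  obtain ⟨u, z, κ, hpd⟩ := hc₁ β c₀ hc₀ V D (Sg D t n r₁ r₂) link t n U v w _ (x ∘ σ) p q
    (by omega) od (fun k hk => (hS _ (by have := hσ.2 k hk; omega)).1)
  obtain ⟨s, c, hs1, hs2, hs3⟩ := hM₅ (fun i j => (decide (κ i = κ j), decide (D.Adj (u i) (u j))))
  have hs : Incr (M₃ + Msm + Mha + (t + 3) ^ 2 + N + 3) M₅ s := ⟨hs1, hs2⟩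
  obtain ⟨c1, c2⟩ := c
  have hκ : ∀ i j, i < j → j < M₃ + Msm + Mha + (t + 3) ^ 2 + N + 3 →
      decide (κ (s i) = κ (s j)) = c1 := fun i j hij hj => congrArg Prod.fst (hs3 i j hij hj)
  have hu : ∀ i j, i < j → j < M₃ + Msm + Mha + (t + 3) ^ 2 + N + 3 →
      decide (D.Adj (u (s i)) (u (s j))) = c2 := fun i j hij hj =>
    congrArg Prod.snd (hs3 i j hij hj)
  -- the pattern restricted
  have hpd' : PD D U (Sg D t n r₁ r₂) (2 * β c₁ + 2 + (4 * N + 8)) (x ∘ σ)
        (M₃ + Msm + Mha + (t + 3) ^ 2 + N + 3) (u ∘ s) (z ∘ s) (κ ∘ s) (fun i j => i = j) ∨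
      PD D U (Sg D t n r₁ r₂) (2 * β c₁ + 2 + (4 * N + 8)) (x ∘ σ)
        (M₃ + Msm + Mha + (t + 3) ^ 2 + N + 3) (u ∘ s) (z ∘ s) (κ ∘ s) (fun i j => i ≠ j) ∨
      PD D U (Sg D t n r₁ r₂) (2 * β c₁ + 2 + (4 * N + 8)) (x ∘ σ)
        (M₃ + Msm + Mha + (t + 3) ^ 2 + N + 3) (u ∘ s) (z ∘ s) (κ ∘ s) (fun i j => i ≤ j) := by
    rcases hpd with h | h | h
    · exact Or.inl (pd_comp h hs fun i hi j hj => incr_eq hs hi hj)
    · exact Or.inr (Or.inl (pd_comp h hs fun i hi j hj => not_congr (incr_eq hs hi hj)))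
    · exact Or.inr (Or.inr (pd_comp h hs fun i hi j hj => incr_le hs hi hj))
  cases c1 with
  | true =>
    -- one component
    have hκ0 : ∀ i < M₃ + Msm + Mha + (t + 3) ^ 2 + N + 3, (κ ∘ s) i = (κ ∘ s) 0 := by
      intro i hi
      rcases Nat.eq_zero_or_pos i with h | h
      · rw [h]
      · exact (of_decide_eq_true (hκ 0 i h hi)).symm
    rcases hpd' with h | h | h
    · -- matching
      have hg := od.gc _ (h.km 0 (by omega))
      have h1 := h.zc 1 (by omega)
      have h2 := h.zc 2 (by omega)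
      rw [hκ0 1 (by omega)] at h1
      rw [hκ0 2 (by omega)] at h2
      have hne : (z ∘ s) 1 ≠ (z ∘ s) 2 := by
        intro e
        have h3 := (h.rel 1 (by omega) 1 (by omega)).2 rfl
        rw [e] at h3
        have h4 := (h.rel 1 (by omega) 2 (by omega)).1 h3
        omega
      rcases hg _ (h.uU 0 (by omega)) _ _ h1 h2 hne with h3 | h3
      · have h4 := (h.rel 0 (by omega) 1 (by omega)).1 h3
        omega
      · have h4 := (h.rel 0 (by omega) 2 (by omega)).1 h3
        omega
    · exact hMsm V D jf hf n U _ v w _ (x ∘ σ) p q (u ∘ s) (z ∘ s) (κ ∘ s) (by omega) od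
        (pd_mono h (by omega)) (fun i hi => hκ0 i (by omega))
    · have hg := od.gc _ (h.km 0 (by omega))
      have h1 := h.zc 0 (by omega)
      have h2 := h.zc 1 (by omega)
      rw [hκ0 1 (by omega)] at h2
      have hne : (z ∘ s) 0 ≠ (z ∘ s) 1 := by
        intro e
        have h3 := (h.rel 1 (by omega) 1 (by omega)).2 le_rfl
        rw [← e] at h3
        have h4 := (h.rel 1 (by omega) 0 (by omega)).1 h3
        omega
      rcases hg _ (h.uU 2 (by omega)) _ _ h1 h2 hne with h3 | h3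
      · have h4 := (h.rel 2 (by omega) 0 (by omega)).1 h3
        omega
      · have h4 := (h.rel 2 (by omega) 1 (by omega)).1 h3
        omega
  | false =>
    have hκi : ∀ i < M₃ + Msm + Mha + (t + 3) ^ 2 + N + 3,
        ∀ j < M₃ + Msm + Mha + (t + 3) ^ 2 + N + 3, (κ ∘ s) i = (κ ∘ s) j → i = j := by
      intro i hi j hj hij
      rcases Nat.lt_trichotomy i j with h | h | h
      · exact absurd hij (of_decide_eq_false (hκ i j h hj))
      · exact h
      · exact absurd hij.symm (of_decide_eq_false (hκ j i h hi))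
    rcases hpd' with h | h | h
    · -- matching: a new matching in `Sg`
      obtain ⟨o, P, Q, u', fd, hS'⟩ := hM₃ V D jf hf n U _ v w _ (x ∘ σ) p q (u ∘ s) (z ∘ s) (κ ∘ s)
        od (pd_mono h (by omega))
      have him' : IM D (n + (b + 3) + Mc) u' P := fd.up
      obtain ⟨up', _⟩ := u1 t n hn V D jf u' P (im_mono him' (by omega))
      have hU' := hcls _ u' P (by omega) him'
      have fd' : FD D U o Mc P Q u' :=
        { pq := ⟨im_mono fd.pq.1 (by omega), fun i hi => fd.pq.2 i (by omega)⟩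
          up := im_mono fd.up (by omega)
          uU := fun k hk => fd.uU k (by omega)
          uq := fun k hk j hj => fd.uq k (by omega) j (by omega)
          gc := fun k hk => fd.gc k (by omega)
          wd := fun k hk => fd.wd k (by omega) }
      exact hno _ u' P (by omega) him' hS'
        (hMc V D jf hf n U _ o P Q u' fd' up' (fun k hk => hU' k (by omega)))
    · -- co-matching
      have hI : Ind D (M₃ + Msm + Mha + (t + 3) ^ 2 + N + 3) (z ∘ s) := by
        intro i hi j hj
        by_cases hij : i = j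
        · subst hij; exact D.irrefl
        · have hki := h.km i hi
          have hkj := h.km j hj
          have hne : (κ ∘ s) i ≠ (κ ∘ s) j := fun e => hij (hκi i hi j hj e)
          exact (sep up (od.xU _ hki) (od.xU _ hkj) (od.xI _ hki _ hkj)
            (fun e => hne (od.xJ _ hki _ hkj e)) (h.zc i hi) (h.zc j hj)).1
      have hC : Cam D (M₃ + Msm + Mha + (t + 3) ^ 2 + N + 3) (z ∘ s) (u ∘ s) := by
        intro i hi j hj
        rw [SimpleGraph.adj_comm, h.rel j hj i hi]
        exact ne_comm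
      cases c2 with
      | true =>
        refine hf.hS (z ∘ s) (u ∘ s) (fun i hi j hj => hI i (by omega) j (by omega)) ?_
          (fun i hi j hj => hC i (by omega) j (by omega))
        intro i hi j hj hij
        rcases Nat.lt_or_ge i j with h1 | h1
        · exact of_decide_eq_true (hu i j h1 (by omega))
        · exact (of_decide_eq_true (hu j i (by omega) (by omega))).symm
      | false =>
        refine jf.jF (z ∘ s) (u ∘ s) (fun i hi j hj => hI i (by omega) j (by omega)) ?_
          (fun i hi j hj => hC i (by omega) j (by omega))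
        intro i hi j hj
        rcases Nat.lt_trichotomy i j with h1 | h1 | h1
        · exact of_decide_eq_false (hu i j h1 (by omega))
        · subst h1; exact D.irrefl
        · exact fun e => of_decide_eq_false (hu j i h1 (by omega)) e.symm
    · exact hMha V D jf hf n U _ v w _ (x ∘ σ) p q (u ∘ s) (z ∘ s) (κ ∘ s) od
        (pd_mono h (by omega)) (fun i hi j hj => hκi i (by omega) j (by omega))

end Pool.Agent.MPd439b2.ON
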