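import Pool.Agent.Lib.MP_d439b2_co.ON.Spec

/-!
# MP_d439b2_co, ON/Opp: two opposite vertices disagree at almost all components (helper46)
-/

set_option autoImplicit false

namespace Pool.Agent.MPd439b2.ON

open Pool.Agent.MPd439b2
open Pool.Agent.MPd439b2.Rep
open Pool.Agent.MPd439b2.W
open Pool.Agent.MPd439b2.A0

private theorem oppEnum (J : Finset ℕ) (t : ℕ) (h : t ≤ J.card) :
    ∃ s : ℕ → ℕ, (∀ k < t, s k ∈ J) ∧ ∀ k l, k < l → l < t → s k < s l := by
  refine ⟨fun k => if hk : k < J.card then J.orderEmbOfFin rfl ⟨k, hk⟩ else 0, ?_, ?_⟩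
  · intro k hk
    have h1 : k < J.card := by omega
    show (if hk : k < J.card then J.orderEmbOfFin rfl ⟨k, hk⟩ else 0) ∈ J
    rw [dif_pos h1]
    exact Finset.orderEmbOfFin_mem J rfl ⟨k, h1⟩
  · intro k l hkl hl
    have h1 : l < J.card := by omega
    have h3 : k < J.card := by omega
    show (if hk : k < J.card then J.orderEmbOfFin rfl ⟨k, hk⟩ else 0) <
      (if hk : l < J.card then J.orderEmbOfFin rfl ⟨l, hk⟩ else 0)
    rw [dif_pos h1, dif_pos h3]
    exact (J.orderEmbOfFin rfl).strictMono (by exact hkl)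

private theorem oppInj (s : ℕ → ℕ) (t : ℕ) (h : ∀ k l, k < l → l < t → s k < s l) (i j : ℕ)
    (hi : i < t) (hj : j < t) (hij : i ≠ j) : s i ≠ s j := by
  rcases lt_or_gt_of_ne hij with h1 | h1
  · exact (h i j h1 hj).ne
  · exact (h j i h1 hi).ne'

variable {V : Type}

private theorem cpStep {D : SimpleGraph V} {t n : ℕ} {U : Set V} (hU : UP D t n U) {x a b : V}
    (hx : x ∈ U) (ha : Cp D U x a) (hb : b ∈ U) (hab : D.Adj a b) : Cp D U x b := by
  refine ⟨hb, ?_⟩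
  by_cases h1 : b = x
  · exact Or.inl h1
  right
  rcases ha.2 with h2 | h2
  · rw [← h2]
    exact hab.symm
  · exact hU.p3 b hb a ha.1 x hx hab.symm h2 h1

private theorem cpAdj {D : SimpleGraph V} {t n : ℕ} {U : Set V} (hU : UP D t n U) {x a b : V}
    (hx : x ∈ U) (ha : Cp D U x a) (hb : Cp D U x b) (hab : a ≠ b) : D.Adj a b := by
  rcases ha.2 with h2 | h2
  · rcases hb.2 with h3 | h3
    · exact absurd (h2.trans h3.symm) hab
    · rw [h2]
      exact h3.symm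
  · rcases hb.2 with h3 | h3
    · rw [h3]
      exact h2
    · exact hU.p3 a ha.1 x hx b hb.1 h2 h3.symm hab

private theorem cpSep {D : SimpleGraph V} {t n : ℕ} {U : Set V} (hU : UP D t n U) {x z a b : V}
    (hx : x ∈ U) (hz : z ∈ U) (hxz : x ≠ z) (hxz' : ¬ D.Adj x z) (ha : Cp D U x a)
    (hb : Cp D U z b) : a ≠ b ∧ ¬ D.Adj a b := by
  have key : ∀ c, Cp D U x c → Cp D U z c → False := by
    intro c h1 h2
    rcases h1.2 with h3 | h3
    · rcases h2.2 with h4 | h4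
      · exact hxz (h3.symm.trans h4)
      · rw [h3] at h4
        exact hxz' h4
    · rcases h2.2 with h4 | h4
      · rw [h4] at h3
        exact hxz' h3.symm
      · exact hxz' (hU.p3 x hx c h1.1 z hz h3.symm h4 hxz)
  refine ⟨?_, ?_⟩
  · intro h1
    rw [h1] at ha
    exact key b ha hb
  · intro h1
    exact key b (cpStep hU hx ha hb.1 h1) hb

/-- **Opp.** -/
theorem oOpp : S_Opp := by
  classical
  intro hRam hBa hPr t N m ht
  obtain ⟨m₁, hm₁⟩ := hBa hRam t N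
  refine ⟨m + m₁ + t + N + 2, ?_⟩
  intro V D hJ hH n U hU hO x y hS
  obtain ⟨v, w, p', q', hv, hw, hpq, hvw⟩ := hO
  -- the components of different `x i`
  have hxU : ∀ i < m + m₁ + t + N + 2, x i ∈ U := fun i hi => (hS.2 i hi).1
  have hyC : ∀ i < m + m₁ + t + N + 2, Cp D U (x i) (y i) := fun i hi =>
    ⟨(hS.2 i hi).2, Or.inr (((hS.1 i hi i hi).1).2 rfl).symm⟩
  have hxC : ∀ i < m + m₁ + t + N + 2, Cp D U (x i) (x i) := fun i hi => ⟨hxU i hi, Or.inl rfl⟩
  have hsep : ∀ i < m + m₁ + t + N + 2, ∀ j < m + m₁ + t + N + 2, i ≠ j → ∀ a b, Cp D U (x i) a →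
      Cp D U (x j) b → a ≠ b ∧ ¬ D.Adj a b := by
    intro i hi j hj hij a b ha hb
    refine cpSep hU (hxU i hi) (hxU j hj) ?_ (hS.1 i hi j hj).2.1 ha hb
    intro h1
    have h2 : D.Adj (x j) (y i) := by
      rw [← h1]
      exact ((hS.1 i hi i hi).1).2 rfl
    exact hij (((hS.1 j hj i hi).1).1 h2).symm
  -- the bad indices
  obtain ⟨B1, hB1⟩ : ∃ B : Finset ℕ, B = (Finset.range (m + m₁ + t + N + 2)).filter
    (fun k => ¬ GC D U (x k)) := ⟨_, rfl⟩
  obtain ⟨B2, hB2⟩ : ∃ B : Finset ℕ, B = (Finset.range (m + m₁ + t + N + 2)).filter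
    (fun k => ∃ i < t, Cp D U (x k) (p' i)) := ⟨_, rfl⟩
  obtain ⟨B3, hB3⟩ : ∃ B : Finset ℕ, B = (Finset.range (m + m₁ + t + N + 2)).filter
    (fun k => GC D U (x k) ∧ (¬ ∃ i < t, Cp D U (x k) (p' i)) ∧
      ¬ ∃ a b, Cp D U (x k) a ∧ Cp D U (x k) b ∧ a ≠ b ∧ ¬ D.Adj v a ∧ D.Adj v b ∧ D.Adj w a ∧
        ¬ D.Adj w b) := ⟨_, rfl⟩
  have c1 : B1.card < m₁ := by
    by_contra h1
    obtain ⟨s, hs1, hs2⟩ := oppEnum B1 m₁ (not_lt.1 h1)
    have hs3 : ∀ k < m₁, s k < m + m₁ + t + N + 2 ∧ ¬ GC D U (x (s k)) := by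
      intro k hk
      have h2 := hs1 k hk
      rw [hB1, Finset.mem_filter, Finset.mem_range] at h2
      exact h2
    have h4 : ∀ k, ∃ (u a b : V), k < m₁ → u ∉ U ∧ Cp D U (x (s k)) a ∧ Cp D U (x (s k)) b ∧
        a ≠ b ∧ ¬ D.Adj u a ∧ ¬ D.Adj u b := by
      intro k
      by_cases hk : k < m₁
      · have h5 := (hs3 k hk).2
        unfold GC at h5
        push Not at h5
        obtain ⟨u, h6, a, b, h7, h8, h9, h10, h11⟩ := h5
        exact ⟨u, a, b, fun _ => ⟨h6, h7, h8, h9, h10, h11⟩⟩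
      · exact ⟨v, v, v, fun h => absurd h hk⟩
    choose u a b h5 using h4
    refine hm₁ V D hJ hH.toHB n U hU a b u ⟨?_, ?_⟩ ?_
    · intro i hi j hj
      obtain ⟨_, ai, bi, abi, _, _⟩ := h5 i hi
      obtain ⟨_, aj, bj, abj, _, _⟩ := h5 j hj
      by_cases hij : i = j
      · subst hij
        exact ⟨⟨fun _ => rfl, fun _ => cpAdj hU (hxU _ (hs3 i hi).1) ai bi abi⟩, D.loopless.irrefl _,
          D.loopless.irrefl _⟩
      · have h6 := oppInj s m₁ hs2 i j hi hj hij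
        have h7 := hsep _ (hs3 i hi).1 _ (hs3 j hj).1 h6
        exact ⟨⟨fun h => absurd h (h7 _ _ ai bj).2, fun h => absurd h hij⟩, (h7 _ _ ai aj).2,
          (h7 _ _ bi bj).2⟩
    · intro i hi
      exact ⟨(h5 i hi).2.1.1, (h5 i hi).2.2.1.1⟩
    · intro i hi
      exact ⟨(h5 i hi).1, (h5 i hi).2.2.2.2.1, (h5 i hi).2.2.2.2.2⟩
  have c2 : B2.card ≤ t := by
    have h1 : ∀ k, ∃ i, k ∈ B2 → i < t ∧ Cp D U (x k) (p' i) := by
      intro k
      by_cases hk : k ∈ B2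
      · have h2 := hk
        rw [hB2, Finset.mem_filter] at h2
        obtain ⟨_, i, h3, h4⟩ := h2
        exact ⟨i, fun _ => ⟨h3, h4⟩⟩
      · exact ⟨0, fun h => absurd h hk⟩
    choose f hf using h1
    have h2 := Finset.card_le_card_of_injOn (s := B2) (t := Finset.range t) f
      (fun k hk => Finset.mem_coe.2 (Finset.mem_range.2 (hf k hk).1)) (by
        intro k hk l hl hkl
        have hk' : k ∈ B2 := hk
        have hl' : l ∈ B2 := hl
        by_contra h3
        have h4 := (hf k hk').2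
        have h5 := (hf l hl').2
        have h6 := hk'
        rw [hB2, Finset.mem_filter, Finset.mem_range] at h6
        have h7 := hl'
        rw [hB2, Finset.mem_filter, Finset.mem_range] at h7
        rw [← hkl] at h5
        exact (hsep k h6.1 l h7.1 h3 _ _ h4 h5).1 rfl)
    rw [Finset.card_range] at h2
    exact h2
  have c3 : B3.card < N + 2 := by
    by_contra h1
    obtain ⟨s, hs1, hs2⟩ := oppEnum B3 (N + 2) (not_lt.1 h1)
    have hs3 : ∀ k < N + 2, s k < m + m₁ + t + N + 2 ∧ GC D U (x (s k)) ∧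
        (¬ ∃ i < t, Cp D U (x (s k)) (p' i)) ∧
        ¬ ∃ a b, Cp D U (x (s k)) a ∧ Cp D U (x (s k)) b ∧ a ≠ b ∧ ¬ D.Adj v a ∧ D.Adj v b ∧
          D.Adj w a ∧ ¬ D.Adj w b := by
      intro k hk
      have h2 := hs1 k hk
      rw [hB3, Finset.mem_filter, Finset.mem_range] at h2
      exact h2
    have h4 : ∀ k, ∃ e : V, k < N + 2 → Cp D U (x (s k)) e ∧ D.Adj v e ∧ D.Adj w e := by
      intro k
      by_cases hk : k < N + 2
      · obtain ⟨h5, h6, h7, h8⟩ := hs3 k hk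
        have hx := hxC _ h5
        have hy := hyC _ h5
        have hne : x (s k) ≠ y (s k) := (((hS.1 _ h5 _ h5).1).2 rfl).ne
        by_cases hvx : D.Adj v (x (s k))
        · by_cases hwx : D.Adj w (x (s k))
          · exact ⟨_, fun _ => ⟨hx, hvx, hwx⟩⟩
          · have hwy : D.Adj w (y (s k)) := (h6 w hw _ _ hx hy hne).resolve_left hwx
            by_cases hvy : D.Adj v (y (s k))
            · exact ⟨_, fun _ => ⟨hy, hvy, hwy⟩⟩
            · exact absurd ⟨_, _, hy, hx, hne.symm, hvy, hvx, hwy, hwx⟩ h8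
        · have hvy : D.Adj v (y (s k)) := (h6 v hv _ _ hx hy hne).resolve_left hvx
          by_cases hwy : D.Adj w (y (s k))
          · exact ⟨_, fun _ => ⟨hy, hvy, hwy⟩⟩
          · have hwx : D.Adj w (x (s k)) := (h6 w hw _ _ hx hy hne).resolve_right hwy
            exact absurd ⟨_, _, hx, hy, hne, hvx, hvy, hwx, hwy⟩ h8
      · exact ⟨v, fun h => absurd h hk⟩
    choose e he using h4
    refine hPr t N V D ht hJ hH v w p' q' e ?_ hpq.1 hvw ?_ ?_ ?_ ?_
    · intro h5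
      have h6 := hvw 0 ht
      rw [h5] at h6
      exact h6.1 h6.2.2.1
    · intro i hi j hj
      by_cases hij : i = j
      · subst hij
        exact D.loopless.irrefl _
      · exact (hsep _ (hs3 i hi).1 _ (hs3 j hj).1 (oppInj s _ hs2 i j hi hj hij) _ _ (he i hi).1
          (he j hj).1).2
    · intro i hi j hj hij
      by_contra h5
      exact (hsep _ (hs3 i hi).1 _ (hs3 j hj).1 (oppInj s _ hs2 i j hi hj h5) _ _ (he i hi).1
          (he j hj).1).1 hij
    · intro i hi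
      exact (he i hi).2
    · intro i hi j hj
      obtain ⟨h5, h6, h7, h8⟩ := hs3 i hi
      have h9 : ¬ D.Adj (e i) (p' j) := fun h =>
        h7 ⟨j, hj, cpStep hU (hxU _ h5) (he i hi).1 (hpq.2 j hj).1 h⟩
      refine ⟨h9, fun h => ?_⟩
      have h10 := cpStep hU (hxU _ h5) (he i hi).1 (hpq.2 j hj).2 h
      exact h7 ⟨j, hj, cpStep hU (hxU _ h5) h10 (hpq.2 j hj).1 (((hpq.1 j hj j hj).1).2 rfl).symm⟩
  -- the remaining indices
  have c4 : m ≤ (Finset.range (m + m₁ + t + N + 2) \ (B1 ∪ B2 ∪ B3)).card := by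
    have h1 := Finset.le_card_sdiff (B1 ∪ B2 ∪ B3) (Finset.range (m + m₁ + t + N + 2))
    rw [Finset.card_range] at h1
    have h3 := Finset.card_union_le (B1 ∪ B2) B3
    have h4 := Finset.card_union_le B1 B2
    omega
  obtain ⟨s, hs1, hs2⟩ := oppEnum _ m c4
  have hs3 : ∀ k < m, s k < m + m₁ + t + N + 2 ∧ GC D U (x (s k)) ∧
        ∃ a b, Cp D U (x (s k)) a ∧ Cp D U (x (s k)) b ∧ a ≠ b ∧ ¬ D.Adj v a ∧ D.Adj v b ∧
          D.Adj w a ∧ ¬ D.Adj w b := by
    intro k hk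
    obtain ⟨h2, h3⟩ := Finset.mem_sdiff.1 (hs1 k hk)
    rw [Finset.mem_union, Finset.mem_union, not_or, not_or] at h3
    obtain ⟨⟨h4, h5⟩, h6⟩ := h3
    have h7 : GC D U (x (s k)) := by
      by_contra h8
      apply h4
      rw [hB1, Finset.mem_filter]
      exact ⟨h2, h8⟩
    have h9 : ¬ ∃ i < t, Cp D U (x (s k)) (p' i) := by
      intro h8
      apply h5
      rw [hB2, Finset.mem_filter]
      exact ⟨h2, h8⟩
    refine ⟨Finset.mem_range.1 h2, h7, ?_⟩
    by_contra h10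
    apply h6
    rw [hB3, Finset.mem_filter]
    exact ⟨h2, h7, h9, h10⟩
  have h4 : ∀ k, ∃ a b : V, k < m → Cp D U (x (s k)) a ∧ Cp D U (x (s k)) b ∧ a ≠ b ∧
      ¬ D.Adj v a ∧ D.Adj v b ∧ D.Adj w a ∧ ¬ D.Adj w b := by
    intro k
    by_cases hk : k < m
    · obtain ⟨_, _, a, b, h5⟩ := hs3 k hk
      exact ⟨a, b, fun _ => h5⟩
    · exact ⟨v, v, fun h => absurd h hk⟩
  choose p q h5 using h4
  exact ⟨v, w, s, p, q, hv, hw, ⟨hs2, fun k hk => (hs3 k hk).1⟩,
    fun k hk => ⟨(hs3 k hk).2.1, h5 k hk⟩⟩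

end Pool.Agent.MPd439b2.ON
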