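import Pool.Agent.Lib.MP_d439b2_co.ON.Spec
import Pool.Agent.Lib.MP_d439b2_co.Rep.Pat3

/-!
# MP_d439b2_co, ON/Pa: `Link` gives one of three patterns
-/

set_option autoImplicit false

namespace Pool.Agent.MPd439b2.ON

open Pool.Agent.MPd439b2 Pool.Agent.MPd439b2.Rep Pool.Agent.MPd439b2.W Pool.Agent.MPd439b2.A0

theorem oPa : S_Pa := by
  classical
  intro M
  obtain ⟨c₁, hc₁⟩ := rk3 (M + 2)
  refine ⟨c₁, fun β c₀ hc V _ D S hL t n U v w m x p q hm hO hxS => ?_⟩
  obtain ⟨y, hy⟩ : ∃ y : ℕ → ↥S, ∀ k < m, (y k).1 = x k := by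
    refine ⟨fun k => if h : k < m then ⟨x k, hxS k h⟩ else ⟨x 0, hxS 0 (by omega)⟩, fun k hk => ?_⟩
    show (dite (k < m) _ _ : ↥S).1 = x k
    rw [dif_pos hk]
  have hyinj : ∀ i < m, ∀ j < m, y i = y j → i = j := by
    intro i hi j hj h
    apply hO.xJ i hi j hj
    rw [← hy i hi, ← hy j hj, h]
  obtain ⟨X, hX⟩ : ∃ X : Set ↥S, ∀ s, s ∈ X ↔ ∃ k < β c₁ + 1, Cp D U (x k) s.1 :=
    ⟨{s | ∃ k < β c₁ + 1, Cp D U (x k) s.1}, fun s => Iff.rfl⟩
  have hcard : ∀ (T : Finset ℕ) (Y : Set ↥S), (∀ k ∈ T, k < m) → (∀ k ∈ T, y k ∈ Y) →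
      T.card ≤ Y.ncard := by
    intro T Y hT hTY
    have h1 : (y '' (T : Set ℕ)).ncard = T.card := by
      rw [Set.InjOn.ncard_image, Set.ncard_coe_finset]
      intro i hi j hj h
      exact hyinj i (hT i hi) j (hT j hj) h
    rw [← h1]
    refine Set.ncard_le_ncard ?_ (Set.toFinite _)
    rintro _ ⟨k, hk, rfl⟩
    exact hTY k hk
  have hno : ¬ LK.cr (D.induce S) X ≤ c₁ := by
    intro hle
    rcases hL c₁ hc X hle with h | h
    · have h1 := hcard (Finset.range (β c₁ + 1)) X (fun k hk => by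
        have := Finset.mem_range.mp hk
        omega) (fun k hk => by
        have hk' := Finset.mem_range.mp hk
        rw [hX]
        refine ⟨k, hk', ?_⟩
        rw [hy k (by omega)]
        exact ⟨hO.xU k (by omega), Or.inl rfl⟩)
      rw [Finset.card_range] at h1
      omega
    · have h1 := hcard (Finset.Ico (β c₁ + 1) (2 * β c₁ + 2)) Xᶜ (fun k hk => by
        have := Finset.mem_Ico.mp hk
        omega) (fun k hk => by
        have hk' := Finset.mem_Ico.mp hk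
        rw [Set.mem_compl_iff, hX]
        rintro ⟨j, hj, -, hj2⟩
        rw [hy k (by omega)] at hj2
        rcases hj2 with hj2 | hj2
        · have := hO.xJ k (by omega) j (by omega) hj2
          omega
        · exact hO.xI k (by omega) j (by omega) hj2)
      rw [Nat.card_Ico] at h1
      omega
  have hH : Has3 (D.induce S) Xᶜ X (M + 2) := by
    by_contra h
    apply hno
    show LK.rk (D.induce S) X Xᶜ ≤ c₁
    rw [rk_symm]
    exact hc₁ _ (D.induce S) Xᶜ X h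
  obtain ⟨a, b, hab⟩ := hH
  have main : ∀ R : ℕ → ℕ → Prop, BP (D.induce S) Xᶜ X (M + 2) a b R →
      (∀ i < M, ∃ j < M + 2, R i j) →
      ∃ κ : ℕ → ℕ, PD D U S m x M (fun i => (a i).1) (fun i => (b i).1) κ R := by
    intro R hR hRj
    obtain ⟨h1, h2, h3⟩ := hR
    have hκ : ∀ i, ∃ k, i < M + 2 → k < β c₁ + 1 ∧ Cp D U (x k) (b i).1 := by
      intro i
      by_cases hi : i < M + 2
      · obtain ⟨k, hk, hk2⟩ := (hX _).mp (h2 i hi)
        exact ⟨k, fun _ => ⟨hk, hk2⟩⟩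
      · exact ⟨0, fun h => absurd h hi⟩
    choose κ hκ using hκ
    refine ⟨κ, ?_, fun i _ => (a i).2, fun i _ => (b i).2, fun i hi => ?_,
      fun i hi => (hκ i (by omega)).2, fun i hi j hj => ?_⟩
    · intro i hi haU
      obtain ⟨j, hj, hij⟩ := hRj i hi
      have hadj : D.Adj (a i).1 (b j).1 := (h3 i (by omega) j hj).mpr hij
      obtain ⟨hk, hbU, hb⟩ := hκ j hj
      apply h1 i (by omega)
      rw [hX]
      refine ⟨κ j, hk, haU, ?_⟩
      rcases hb with hb | hb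
      · rw [hb] at hadj
        exact Or.inr hadj
      · by_cases he : (a i).1 = x (κ j)
        · exact Or.inl he
        · exact Or.inr (hO.up.p3 _ haU _ hbU _ (hO.xU _ (by omega)) hadj hb he)
    · have := (hκ i (by omega)).1
      omega
    · exact h3 i (by omega) j (by omega)
  rcases hab with h | h | h
  · obtain ⟨κ, hκ⟩ := main _ h (fun i hi => ⟨i, by omega, rfl⟩)
    exact ⟨_, _, κ, Or.inl hκ⟩
  · obtain ⟨κ, hκ⟩ := main _ h (fun i hi => ⟨i + 1, by omega, by omega⟩)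
    exact ⟨_, _, κ, Or.inr (Or.inl hκ)⟩
  · obtain ⟨κ, hκ⟩ := main _ h (fun i hi => ⟨i, by omega, le_rfl⟩)
    exact ⟨_, _, κ, Or.inr (Or.inr hκ)⟩

end Pool.Agent.MPd439b2.ON
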