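import Pool.Agent.Lib.MP_d439b2_co.ON.Spec

/-!
# MP_d439b2_co, ON/Pi: the places of the removed vertices
-/

set_option autoImplicit false

namespace Pool.Agent.MPd439b2.ON

open Pool.Agent.MPd439b2
open Pool.Agent.MPd439b2.Rep
open Pool.Agent.MPd439b2.W
open Pool.Agent.MPd439b2.A0

private theorem Pi_mixed (h0 : S_F0) (h2 : C_F2) {t N n : ℕ} {V : Type} {D : SimpleGraph V}
    (E : Env D t N n) {U U' : Set V} (hU : Gd D t n U) (hU' : Gd D t n U') {p : V}
    (hp : p ∈ FS D U) (hp' : p ∈ ES D U') : False := by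
  by_cases h : U' = U
  · subst h
    exact ((h0 t n V D U' hU'.1).2.2 E.tw).1 p hp' hp
  · obtain ⟨f, hf⟩ := hp'
    exact h2 t t N n V D E.toEnvB U' U hU' hU h p hp hf.1

private theorem Pi_uniq (h2 : C_F2) {t N n : ℕ} {V : Type} {D : SimpleGraph V}
    (E : Env D t N n) {U U' : Set V} (hU : Gd D t n U) (hU' : Gd D t n U') {p : V}
    (hp : p ∈ FS D U) (hp' : p ∈ FS D U') : U = U' := by
  by_contra h
  obtain ⟨e, he⟩ := hp
  exact h2 t t N n V D E.toEnvB U U' hU hU' h p hp' he.2.1

theorem oPi : S_Pi := by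
  classical
  intro h0 h2 h4 t N n V D E r₁ r₂ hr
  set Q : V → Set V × V → Prop := fun v p => Gd D t n p.1 ∧ FP D p.1 p.2 v with hQ
  set π : V → V := fun v => if h : ∃ p, Q v p then
    (if Hv D t n (Classical.choose h).2 then r₁ (Classical.choose h).1
      else (Classical.choose h).2) else v with hπ
  -- values of π
  have hval : ∀ v U e, Gd D t n U → FP D U e v →
      (Hv D t n e → π v = r₁ U) ∧ (¬ Hv D t n e → π v = e) := by
    intro v U e hU he
    have h : ∃ p, Q v p := ⟨(U, e), hU, he⟩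
    have hc := Classical.choose_spec h
    have e1 : (Classical.choose h).1 = U :=
      Pi_uniq h2 E hc.1 hU ⟨_, hc.2⟩ ⟨_, he⟩
    have e2 : (Classical.choose h).2 = e := by
      have h3 := hc.2
      rw [e1] at h3
      exact (h0 t n V D U hU.1).1 _ _ _ h3 he
    have e3 : π v = if Hv D t n e then r₁ U else e := by
      simp only [hπ]
      rw [dif_pos h, e1, e2]
    refine ⟨fun hh => ?_, fun hh => ?_⟩
    · rw [e3, if_pos hh]
    · rw [e3, if_neg hh]
  have hout : ∀ v ∉ Sg D t n r₁ r₂, ∃ U e, Gd D t n U ∧ FP D U e v := by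
    intro v hv
    simp only [Sg, Set.mem_setOf_eq, not_forall] at hv
    obtain ⟨U, hU, ⟨e, he⟩, _⟩ := hv
    exact ⟨U, e, hU, he⟩
  refine ⟨π, ⟨hout, fun v _ U e hU he => hval v U e hU he⟩, ?_, ?_⟩
  · intro v hv
    obtain ⟨U, e, hU, he⟩ := hout v hv
    by_cases hh : Hv D t n e
    · rw [(hval v U e hU he).1 hh]
      intro U' hU' hf
      left
      have : U = U' := by
        obtain ⟨_, ⟨e', he', _⟩, _⟩ := hr U hU
        exact Pi_uniq h2 E hU hU' ⟨e', he'⟩ hf
      rw [this]
    · rw [(hval v U e hU he).2 hh]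
      intro U' hU' hf
      exact (Pi_mixed h0 h2 E hU' hU hf ⟨v, he⟩).elim
  · intro a ha b hb c hc hab hbc
    obtain ⟨Ua, ea, hUa, hea⟩ := hout a ha
    obtain ⟨Ub, eb, hUb, heb⟩ := hout b hb
    obtain ⟨Uc, ec, hUc, hec⟩ := hout c hc
    have hfree : ∀ v U e, Gd D t n U → FP D U e v → Hv D t n e → π v ∈ FS D U := by
      intro v U e hU he hh
      rw [(hval v U e hU he).1 hh]
      obtain ⟨_, ⟨e', he', _⟩, _⟩ := hr U hU
      exact ⟨e', he'⟩
    have hpart : ∀ v U e, Gd D t n U → FP D U e v → ¬ Hv D t n e → π v ∈ ES D U := by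
      intro v U e hU he hh
      rw [(hval v U e hU he).2 hh]
      exact ⟨v, he⟩
    by_cases hha : Hv D t n ea
    · have hfa := hfree a Ua ea hUa hea hha
      have hhb : Hv D t n eb := by
        by_contra hn
        have := hpart b Ub eb hUb heb hn
        rw [← hab] at this
        exact Pi_mixed h0 h2 E hUa hUb hfa this
      have hfb := hfree b Ub eb hUb heb hhb
      rw [← hab] at hfb
      have hUU : Ua = Ub := Pi_uniq h2 E hUa hUb hfa hfb
      subst hUU
      have hee : ea = eb := h4 t N n V D E Ua hUa ea ⟨a, hea⟩ eb ⟨b, heb⟩ hha hhb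
      subst hee
      left
      exact (h0 t n V D Ua hUa.1).2.1 _ _ _ hea heb
    · have hpa := hpart a Ua ea hUa hea hha
      have hhb : ¬ Hv D t n eb := by
        intro hn
        have := hfree b Ub eb hUb heb hn
        rw [← hab] at this
        exact Pi_mixed h0 h2 E hUb hUa this hpa
      have hhc : ¬ Hv D t n ec := by
        intro hn
        have := hfree c Uc ec hUc hec hn
        rw [← hbc, ← hab] at this
        exact Pi_mixed h0 h2 E hUc hUa this hpa
      have ea1 := (hval a Ua ea hUa hea).2 hha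
      have eb1 := (hval b Ub eb hUb heb).2 hhb
      have ec1 := (hval c Uc ec hUc hec).2 hhc
      have e1 : ea = eb := by rw [← ea1, ← eb1, hab]
      have e2 : eb = ec := by rw [← eb1, ← ec1, hbc]
      subst e1
      subst e2
      by_contra hcon
      push Not at hcon
      apply hha
      refine ⟨Ua, Ub, Uc, hUa, hUb, hUc, ?_, ?_, ?_, ⟨a, hea⟩, ⟨b, heb⟩, ⟨c, hec⟩⟩
      · rintro rfl
        exact hcon.1 ((h0 t n V D Ua hUa.1).2.1 _ _ _ hea heb)
      · rintro rfl
        exact hcon.2.2 ((h0 t n V D Ua hUa.1).2.1 _ _ _ hea hec)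
      · rintro rfl
        exact hcon.2.1 ((h0 t n V D Ub hUb.1).2.1 _ _ _ heb hec)

end Pool.Agent.MPd439b2.ON
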