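import Pool.Agent.Lib.MP_d439b2_co.ON.Spec

/-!
# MP_d439b2_co, ON/Pr: two vertices which disagree have few common neighbours (helper37)
-/

set_option autoImplicit false

namespace Pool.Agent.MPd439b2.ON

open Pool.Agent.MPd439b2
open Pool.Agent.MPd439b2.Rep
open Pool.Agent.MPd439b2.W
open Pool.Agent.MPd439b2.A0

theorem oPr : S_Pr := by
  intro t N V D ht hJ hH v w p q e hvw hpq hdis hI hinj hvwe hfar
  have ht0 : 0 < t := by omega
  have hd0 := hdis 0 ht0
  by_cases hadj : D.Adj v w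
  · exact hH.hC v w (p 0) (q 0) e hadj ((hpq 0 ht0 0 ht0).1.2 rfl) hd0.1 hd0.2.1 hd0.2.2.1
      hd0.2.2.2 (fun i hi j hj => hI i (by omega) j (by omega))
      (fun i hi j hj h => hinj i (by omega) j (by omega) h)
      fun i hi => ⟨(hvwe i (by omega)).1, (hvwe i (by omega)).2, (hfar i (by omega) 0 ht0).1,
        (hfar i (by omega) 0 ht0).2⟩
  · have h0 : 0 < N + 2 := by omega
    have h1 : 1 < N + 2 := by omega
    refine hJ.jB (e 0) v w (e 1) p q hpq hvw hadj (hvwe 0 h0).1 (hvwe 1 h1).1 (hvwe 0 h0).2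
      (hvwe 1 h1).2 (fun h => ?_) (hI 0 h0 1 h1) fun i hi => ?_
    · exact absurd (hinj 0 h0 1 h1 h) (by omega)
    · exact ⟨(hfar 0 h0 i hi).1, (hfar 0 h0 i hi).2, (hfar 1 h1 i hi).1, (hfar 1 h1 i hi).2,
        Or.inl (hdis i hi).1, Or.inr (hdis i hi).2.2.2⟩

end Pool.Agent.MPd439b2.ON
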