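import Pool.Agent.Lib.MP_d439b2_co.ON.Spec

/-!
# MP_d439b2_co, ON: existence of representatives
-/

set_option autoImplicit false

namespace Pool.Agent.MPd439b2.ON

open Pool.Agent.MPd439b2 Pool.Agent.MPd439b2.Rep Pool.Agent.MPd439b2.W Pool.Agent.MPd439b2.A0

theorem oRp : S_Rp := by
  intro hF0 hF4 t N n V _ D hE
  have key : ∀ U : Set V, ∃ p : V × V, Gd D t n U → p.1 ≠ p.2 ∧
      (∃ e, FP D U e p.1 ∧ ¬ Hv D t n e) ∧ ∃ e, FP D U e p.2 ∧ ¬ Hv D t n e := by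
    intro U
    by_cases hU : Gd D t n U
    · obtain ⟨e, f, hi, hf⟩ := hE.mf U hU
      have f2 := (hF0 t n V D U hU.1).2.1
      have ne : ∀ i < N + 6, ∀ j < N + 6, i ≠ j → e i ≠ e j := by
        intro i h1 j h2 hij h
        have h3 := hf i h1
        rw [h] at h3
        exact hij (hi i h1 j h2 (f2 _ _ _ h3 (hf j h2)))
      have hv : ∀ i < N + 6, ∀ j < N + 6, i ≠ j → Hv D t n (e i) → ¬ Hv D t n (e j) := by
        intro i h1 j h2 hij h3 h4
        exact ne i h1 j h2 hij (hF4 t N n V D hE U hU (e i) ⟨f i, hf i h1⟩ (e j) ⟨f j, hf j h2⟩ h3 h4)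
      have fn : ∀ i < N + 6, ∀ j < N + 6, i ≠ j → f i ≠ f j := fun i h1 j h2 hij h =>
        hij (hi i h1 j h2 h)
      have l0 : 0 < N + 6 := by omega
      have l1 : 1 < N + 6 := by omega
      have l2 : 2 < N + 6 := by omega
      by_cases h0 : Hv D t n (e 0)
      · exact ⟨(f 1, f 2), fun _ => ⟨fn 1 l1 2 l2 (by omega),
          ⟨e 1, hf 1 l1, hv 0 l0 1 l1 (by omega) h0⟩, e 2, hf 2 l2, hv 0 l0 2 l2 (by omega) h0⟩⟩
      · by_cases h1 : Hv D t n (e 1)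
        · exact ⟨(f 0, f 2), fun _ => ⟨fn 0 l0 2 l2 (by omega),
            ⟨e 0, hf 0 l0, h0⟩, e 2, hf 2 l2, hv 1 l1 2 l2 (by omega) h1⟩⟩
        · exact ⟨(f 0, f 1), fun _ => ⟨fn 0 l0 1 l1 (by omega),
            ⟨e 0, hf 0 l0, h0⟩, e 1, hf 1 l1, h1⟩⟩
    · exact ⟨(Classical.arbitrary V, Classical.arbitrary V), fun h => absurd h hU⟩
  choose p hp using key
  exact ⟨fun U => (p U).1, fun U => (p U).2, fun U hU => hp U hU⟩

end Pool.Agent.MPd439b2.ON
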