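import Pool.Agent.Lib.MP_d439b2_co.ON.Spec

/-!
# MP_d439b2_co, ON/TR: few traces if the rank is small
-/

set_option autoImplicit false

namespace Pool.Agent.MPd439b2.ON

open Pool.Agent.MPd439b2
open Pool.Agent.MPd439b2.Rep
open Pool.Agent.MPd439b2.W
open Pool.Agent.MPd439b2.A0

theorem oTR : S_TR := by
  intro V _ G A B
  classical
  set f : Set V → (V → ZMod 2) := fun T y => if y ∈ T then 1 else 0 with hf
  have hinj : Function.Injective f := by
    intro S T hST
    ext y
    have h := congrFun hST y
    simp only [hf] at h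
    by_cases h1 : y ∈ S <;> by_cases h2 : y ∈ T
    · exact ⟨fun _ => h2, fun _ => h1⟩
    · rw [if_pos h1, if_neg h2] at h
      exact absurd h (by decide)
    · rw [if_neg h1, if_pos h2] at h
      exact absurd h (by decide)
    · exact ⟨fun h3 => absurd h3 h1, fun h3 => absurd h3 h2⟩
  have hsub : f '' Tr G A B ⊆
      (Submodule.span (ZMod 2) (LK.row G B '' A) : Set (V → ZMod 2)) := by
    rintro _ ⟨T, ⟨a, ha, rfl⟩, rfl⟩
    have h1 : f {b | b ∈ B ∧ G.Adj a b} = LK.row G B a := by
      funext y
      simp only [hf, LK.row]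
      by_cases h2 : y ∈ B ∧ G.Adj a y
      · rw [if_pos h2]
        exact if_pos h2
      · rw [if_neg h2]
        exact if_neg h2
    rw [h1]
    exact Submodule.subset_span ⟨a, ha, rfl⟩
  have hcard := Module.natCard_eq_pow_finrank (K := ZMod 2)
    (V := Submodule.span (ZMod 2) (LK.row G B '' A))
  rw [Nat.card_zmod] at hcard
  have h2 : ((Submodule.span (ZMod 2) (LK.row G B '' A) : Set (V → ZMod 2))).encard =
      ((2 ^ LK.rk G A B : ℕ) : ℕ∞) := by
    rw [← Set.Finite.cast_ncard_eq (Set.toFinite _), ← Nat.card_coe_set_eq]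
    exact congrArg _ hcard
  rw [← hinj.encard_image, ← h2]
  exact Set.encard_le_encard hsub

end Pool.Agent.MPd439b2.ON
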