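import Pool.Agent.Lib.MP_d439b2_co.ON.Spec

/-!
# MP_d439b2_co, ON/Tw: twin reduction (helper46)
-/

set_option autoImplicit false

namespace Pool.Agent.MPd439b2.ON

open Pool.Agent.MPd439b2
open Pool.Agent.MPd439b2.Rep
open Pool.Agent.MPd439b2.W
open Pool.Agent.MPd439b2.A0

variable {V : Type}

/-- the closed neighbourhood -/
private def twK (D : SimpleGraph V) (x : V) : Set V := {z | z = x ∨ D.Adj x z}

private theorem twKsymm (D : SimpleGraph V) (x z : V) : z ∈ twK D x ↔ x ∈ twK D z := by
  constructor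
  · rintro (h | h)
    · exact Or.inl h.symm
    · exact Or.inr h.symm
  · rintro (h | h)
    · exact Or.inl h.symm
    · exact Or.inr h.symm

/-- the representative -/
private noncomputable def twP (D : SimpleGraph V) (x : V) : V :=
  Quotient.out (Quotient.mk (Setoid.ker (twK D)) x)

private theorem twP_K (D : SimpleGraph V) (x : V) : twK D (twP D x) = twK D x :=
  Quotient.mk_out (s := Setoid.ker (twK D)) x

private theorem twP_eq (D : SimpleGraph V) (x y : V) (h : twK D x = twK D y) :
    twP D x = twP D y := by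
  have h1 : Quotient.mk (Setoid.ker (twK D)) x = Quotient.mk (Setoid.ker (twK D)) y :=
    Quotient.sound h
  unfold twP
  rw [h1]

private theorem twP_P (D : SimpleGraph V) (x : V) : twP D (twP D x) = twP D x :=
  twP_eq D _ _ (twP_K D x)

private def twS (D : SimpleGraph V) : Set V := {x | twP D x = x}

private theorem twP_mem (D : SimpleGraph V) (x : V) : twP D x ∈ twS D := twP_P D x

private theorem twHat (D : SimpleGraph V) (A : Set V) (hA : A ⊆ twS D) (v : V) :
    v ∈ hat (twS D) (twP D) A ↔ twP D v ∈ A := by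
  constructor
  · rintro (h | h)
    · have h1 : twP D v = v := hA h
      rw [h1]
      exact h
    · exact h.2
  · intro h
    by_cases h1 : v ∈ twS D
    · left
      have h2 : twP D v = v := h1
      rw [← h2]
      exact h
    · exact Or.inr ⟨h1, h⟩

private theorem twRow (D : SimpleGraph V) (A B : Set V) (hA : A ⊆ twS D) (hB : B ⊆ twS D)
    (hAB : Disjoint A B) (v : V) (hv : v ∈ hat (twS D) (twP D) A) :
    LK.row D (hat (twS D) (twP D) B) v = LK.row D (hat (twS D) (twP D) B) (twP D v) := by
  classical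
  funext u
  unfold LK.row
  by_cases hu : u ∈ hat (twS D) (twP D) B
  · have h1 : D.Adj v u ↔ D.Adj (twP D v) u := by
      have h2 : twP D v ∈ A := (twHat D A hA v).1 hv
      have h3 : twP D u ∈ B := (twHat D B hB u).1 hu
      have h4 : ∀ w, twP D w ∈ A → w ≠ u := by
        intro w hw hwu
        rw [hwu] at hw
        exact Set.disjoint_left.1 hAB hw h3
      have h5 : ∀ w, twP D w ∈ A → (D.Adj w u ↔ u ∈ twK D w) := by
        intro w hw
        refine ⟨fun h => Or.inr h, ?_⟩
        rintro (h | h)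
        · exact absurd h.symm (h4 w hw)
        · exact h
      rw [h5 v h2, h5 (twP D v) (by rw [twP_P]; exact h2), twP_K]
    by_cases h6 : D.Adj v u
    · rw [if_pos ⟨hu, h6⟩, if_pos ⟨hu, h1.1 h6⟩]
    · rw [if_neg (fun h => h6 h.2), if_neg (fun h => h6 (h1.2 h.2))]
  · rw [if_neg (fun h => hu h.1), if_neg (fun h => hu h.1)]

private theorem twRk1 [Finite V] (D : SimpleGraph V) (A B : Set V) (hA : A ⊆ twS D)
    (hB : B ⊆ twS D) (hAB : Disjoint A B) :
    LK.rk D (hat (twS D) (twP D) A) (hat (twS D) (twP D) B) ≤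
      LK.rk D A (hat (twS D) (twP D) B) := by
  unfold LK.rk
  apply Submodule.finrank_mono
  apply Submodule.span_mono
  rintro _ ⟨v, hv, rfl⟩
  rw [twRow D A B hA hB hAB v hv]
  exact ⟨_, (twHat D A hA v).1 hv, rfl⟩

private theorem twRow2 (D : SimpleGraph V) (A B : Set V) (hA : A ⊆ twS D) (hB : B ⊆ twS D)
    (hAB : Disjoint A B) (v : V) (hv : v ∈ hat (twS D) (twP D) A) :
    LK.row D B v = LK.row D B (twP D v) := by
  classical
  funext u
  have h1 := congrFun (twRow D A B hA hB hAB v hv) u
  unfold LK.row at h1 ⊢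
  by_cases hu : u ∈ B
  · have hu' : u ∈ hat (twS D) (twP D) B := Or.inl hu
    simp only [hu, hu', true_and] at h1 ⊢
    exact h1
  · rw [if_neg (fun h => hu h.1), if_neg (fun h => hu h.1)]

private theorem twRk [Finite V] (D : SimpleGraph V) (A B : Set V) (hA : A ⊆ twS D)
    (hB : B ⊆ twS D) (hAB : Disjoint A B) :
    LK.rk D (hat (twS D) (twP D) A) (hat (twS D) (twP D) B) ≤ LK.rk D A B := by
  refine (twRk1 D A B hA hB hAB).trans ?_
  rw [Rep.rk_symm D A, Rep.rk_symm D A]
  unfold LK.rk
  apply Submodule.finrank_mono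
  apply Submodule.span_mono
  rintro _ ⟨v, hv, rfl⟩
  rw [twRow2 D B A hB hA hAB.symm v hv]
  exact ⟨_, (twHat D B hB v).1 hv, rfl⟩

/-- a class of twins -/
private theorem twTy (D : SimpleGraph V) (v : V) (B : Set V) (hB : ∀ u ∈ B, twP D u = v) :
    (Types D B).encard ≤ 1 := by
  rw [Set.encard_le_one_iff]
  rintro T T' ⟨_, a, ha, hT⟩ ⟨_, b, hb, hT'⟩
  have h1 : twK D a = twK D b := by
    rw [← twP_K D a, ← twP_K D b, hB a ha, hB b hb]
  have h2 : ∀ c ∈ B, D.neighborSet c \ B = twK D c \ B := by
    intro c hc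
    ext z
    constructor
    · rintro ⟨h3, h4⟩
      exact ⟨Or.inr h3, h4⟩
    · rintro ⟨h3 | h3, h4⟩
      · rw [h3] at h4
        exact absurd hc h4
      · exact ⟨h3, h4⟩
  rw [hT, hT', h2 a ha, h2 b hb, h1]

private theorem twLay [Finite V] (D : SimpleGraph V) (v : V) (B : Set V)
    (hB : ∀ u ∈ B, twP D u = v) : Lay D 1 B := by
  have key : ∀ C : Set V, C.Finite → (∀ u ∈ C, twP D u = v) → Lay D 1 C := by
    intro C hC
    refine Set.Finite.induction_on (motive := fun C _ => (∀ u ∈ C, twP D u = v) → Lay D 1 C) C hC ?_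
      ?_
    · intro _
      exact Lay.empty
    · intro a C' ha _ ih h1
      have h2 : insert a C' = {a} ∪ C' := rfl
      rw [h2] at h1 ⊢
      refine Lay.union (Lay.single a ?_) (ih fun u hu => h1 u (Or.inr hu)) ?_ ?_
      · exact_mod_cast twTy D v {a} (fun u hu => h1 u (Or.inl hu))
      · rw [Set.disjoint_singleton_left]
        exact ha
      · exact_mod_cast twTy D v _ h1
  exact key B (Set.toFinite B) hB

/-- **Tw.** -/
theorem oTw : S_Tw := by
  classical
  intro hRI hLX hKX V _ D
  refine ⟨twS D, ?_, ?_, ?_⟩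
  · intro x y hxy h
    have h1 : twK D x.1 = twK D y.1 := by
      have key : ∀ w, twP D w = w → (w ∈ twK D x.1 ↔ w ∈ twK D y.1) := by
        intro w hw
        by_cases hwx : w = x.1
        · rw [hwx]
          exact ⟨fun _ => Or.inr hxy.symm, fun _ => Or.inl rfl⟩
        by_cases hwy : w = y.1
        · rw [hwy]
          exact ⟨fun _ => Or.inl rfl, fun _ => Or.inr hxy⟩
        have h2 := h ⟨w, hw⟩ (fun h3 => hwx (congrArg Subtype.val h3))
          (fun h3 => hwy (congrArg Subtype.val h3))
        have h3 : D.Adj x.1 w ↔ D.Adj y.1 w := h2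
        constructor
        · rintro (h4 | h4)
          · exact absurd h4 hwx
          · exact Or.inr (h3.1 h4)
        · rintro (h4 | h4)
          · exact absurd h4 hwy
          · exact Or.inr (h3.2 h4)
      have key2 : ∀ (z w : V), (w ∈ twK D z ↔ twP D w ∈ twK D z) := by
        intro z w
        rw [twKsymm D z w, twKsymm D z (twP D w), twP_K]
      ext w
      rw [key2 x.1 w, key2 y.1 w]
      exact key (twP D w) (twP_P D w)
    have h2 : twP D x.1 = twP D y.1 := twP_eq D _ _ h1
    have h3 : twP D x.1 = x.1 := x.2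
    have h4 : twP D y.1 = y.1 := y.2
    rw [h3, h4] at h2
    have h5 : D.Adj x.1 y.1 := hxy
    rw [h2] at h5
    exact D.loopless.irrefl _ h5
  · intro k hk
    refine hLX hRI k 1 k V D (twS D) (twP D) (fun v _ => twP_mem D v) ?_ ?_ hk
    · intro v hv
      refine twLay D v _ ?_
      intro u hu
      exact (twHat D {v} (fun z hz => by rw [Set.mem_singleton_iff.1 hz]; exact hv) u).1 hu
    · intro A A' hA h1
      have hA1 : A ⊆ twS D := by
        rw [← hA.1]
        exact Set.subset_union_left
      have hA2 : A' ⊆ twS D := by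
        rw [← hA.1]
        exact Set.subset_union_right
      exact (twRk D A A' hA1 hA2 hA.2).trans h1
  · intro β c₀ hL
    refine hKX hRI (fun c => c) β c₀ c₀ V D (twS D) (twP D) (fun v _ => twP_mem D v)
      (fun c hc => hc) ?_ hL
    intro c _ A A' hA h1
    have hA1 : A ⊆ twS D := by
      rw [← hA.1]
      exact Set.subset_union_left
    have hA2 : A' ⊆ twS D := by
      rw [← hA.1]
      exact Set.subset_union_right
    exact (twRk D A A' hA1 hA2 hA.2).trans h1

end Pool.Agent.MPd439b2.ON
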