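import Pool.Agent.Lib.MP_d439b2_co.ON.Sel

/-!
# MP_d439b2_co, ON: exceptional vertices are of type (i) (helper23)
-/

set_option autoImplicit false

namespace Pool.Agent.MPd439b2.ON

open Pool.Agent.MPd439b2
open Pool.Agent.MPd439b2.Rep
open Pool.Agent.MPd439b2.W
open Pool.Agent.MPd439b2.A0

open SelAux

theorem oTy : S_Ty := by
  classical
  intro ram t N m
  obtain ⟨M, hM⟩ := ram Bool ((t + 3) ^ 2 + 2 * N + 2 + (t + 2) + m)
  refine ⟨M, fun V D jf hS hD U w P Q u hPQ hgc hw hu hrel => ?_⟩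
  obtain ⟨s, c, hs1, hs2, hs3⟩ := hM (fun i j => decide (D.Adj (u i) (u j)))
  set K := (t + 3) ^ 2 + 2 * N + 2 + (t + 2) + m with hK
  have hs : Incr K M s := ⟨hs1, hs2⟩
  have huQ : ∀ i < M, ∀ j < M, i ≠ j → D.Adj (u i) (Q j) := by
    intro i hi j hj hij
    have h1 : ¬ D.Adj (u i) (P j) := by rw [hrel i hi j hj]; exact hij
    have hPQj : D.Adj (P j) (Q j) := (hPQ.1 j hj j hj).1.2 rfl
    rcases hgc j hj (u i) (hu i hi) (P j) (Q j) ⟨(hPQ.2 j hj).1, Or.inl rfl⟩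
      ⟨(hPQ.2 j hj).2, Or.inr hPQj.symm⟩ hPQj.ne with h | h
    · exact absurd h h1
    · exact h
  have hIQ : ∀ i < M, ∀ j < M, ¬ D.Adj (Q i) (Q j) := fun i hi j hj => (hPQ.1 i hi j hj).2.2
  -- the co-matching `Q, u`
  have hCam : ∀ (k : ℕ) (τ : ℕ → ℕ), Incr k M τ → (∀ i < k, ¬ D.Adj (u (τ i)) (Q (τ i))) →
      Cam D k (Q ∘ τ) (u ∘ τ) := by
    intro k τ hτ hn i hi j hj
    show D.Adj (Q (τ i)) (u (τ j)) ↔ i ≠ j
    constructor
    · intro h e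
      subst e
      exact hn i hi h.symm
    · intro hij
      exact (huQ _ (hτ.2 j hj) _ (hτ.2 i hi) fun e => hij (incr_inj hτ hj hi e).symm).symm
  cases c with
  | true =>
    exfalso
    have hcl : ∀ (k : ℕ) (τ : ℕ → ℕ), Incr k K τ → Clq D k (u ∘ (s ∘ τ)) := by
      intro k τ hτ i hi j hj hij
      show D.Adj (u (s (τ i))) (u (s (τ j)))
      rcases Nat.lt_or_ge i j with h | h
      · exact of_decide_eq_true (hs3 _ _ (hτ.1 i j h hj) (hτ.2 j hj))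
      · exact (of_decide_eq_true (hs3 _ _ (hτ.1 j i (by omega) hi) (hτ.2 i hi))).symm
    rcases split (fun k => D.Adj (u (s k)) (Q (s k))) N N with ⟨τ, hτ, h⟩ | ⟨τ, hτ, h⟩
    · have hτ' : Incr N K τ := incr_mono hτ le_rfl (by omega)
      have hρ := incr_comp hs hτ'
      refine hD (P ∘ (s ∘ τ)) (Q ∘ (s ∘ τ)) (u ∘ (s ∘ τ)) (im_sub hPQ.1 hρ) (hcl N τ hτ')
        (fun i hi j hj => ⟨?_, ?_⟩)
      · show D.Adj (u ((s ∘ τ) i)) (P ((s ∘ τ) j)) ↔ i = j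
        rw [hrel _ (hρ.2 i hi) _ (hρ.2 j hj)]
        exact ⟨fun e => incr_inj hρ hi hj e, fun e => by rw [e]⟩
      · by_cases hij : i = j
        · subst hij; exact h i hi
        · exact huQ _ (hρ.2 i hi) _ (hρ.2 j hj) fun e => hij (incr_inj hρ hi hj e)
    · have hτ' : Incr N K τ := incr_mono hτ le_rfl (by omega)
      have hρ := incr_comp hs hτ'
      exact hS (Q ∘ (s ∘ τ)) (u ∘ (s ∘ τ)) (fun i hi j hj => hIQ _ (hρ.2 i hi) _ (hρ.2 j hj))
        (hcl N τ hτ') (hCam N _ hρ h)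
  | false =>
    have hind : ∀ i < K, ∀ j < K, ¬ D.Adj (u (s i)) (u (s j)) := by
      intro i hi j hj
      rcases Nat.lt_trichotomy i j with h | h | h
      · exact of_decide_eq_false (hs3 i j h hj)
      · subst h; exact D.irrefl
      · exact fun e => of_decide_eq_false (hs3 j i h hi) e.symm
    rcases split (fun k => D.Adj (u (s k)) (Q (s k))) (m + (t + 2)) ((t + 3) ^ 2) with
      ⟨τ, hτ, h⟩ | ⟨τ, hτ, h⟩
    · have hτ' : Incr (m + (t + 2)) K τ := incr_mono hτ le_rfl (by omega)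
      have hall : ∀ i < m + (t + 2), ∀ j < m + (t + 2), D.Adj (u (s (τ i))) (Q (s (τ j))) := by
        intro i hi j hj
        have hρ := incr_comp hs hτ'
        by_cases hij : i = j
        · subst hij; exact h i hi
        · exact huQ _ (hρ.2 i hi) _ (hρ.2 j hj) fun e => hij (incr_inj hρ hi hj e)
      rcases split (fun k => D.Adj w (u (s (τ k)))) m (t + 2) with ⟨ρ, hρ, h2⟩ | ⟨ρ, hρ, h2⟩
      · have hφ := incr_comp hs (incr_comp hτ' hρ)
        have hρτ := incr_comp hτ' hρ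
        refine ⟨s ∘ (τ ∘ ρ), hφ, ?_⟩
        refine { pq := ⟨im_sub hPQ.1 hφ, fun i hi => hPQ.2 _ (hφ.2 i hi)⟩
                 up := fun i hi j hj => ⟨?_, hind _ (hρτ.2 i hi) _ (hρτ.2 j hj),
                  (hPQ.1 _ (hφ.2 i hi) _ (hφ.2 j hj)).2.1⟩
                 uU := fun k hk => hu _ (hφ.2 k hk)
                 uq := fun k hk j hj => hall _ (hρ.2 k hk) _ (hρ.2 j hj)
                 gc := fun k hk => hgc _ (hφ.2 k hk)
                 wd := fun k hk => ⟨(hw _ (hφ.2 k hk)).1, (hw _ (hφ.2 k hk)).2, h2 k hk⟩ }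
        show D.Adj (u ((s ∘ (τ ∘ ρ)) i)) (P ((s ∘ (τ ∘ ρ)) j)) ↔ i = j
        rw [hrel _ (hφ.2 i hi) _ (hφ.2 j hj)]
        exact ⟨fun e => incr_inj hφ hi hj e, fun e => by rw [e]⟩
      · exfalso
        have hρτ := incr_comp hτ' hρ
        have hφ := incr_comp hs hρτ
        refine jf.jC (P ∘ (s ∘ (τ ∘ ρ))) (Q ∘ (s ∘ (τ ∘ ρ))) (u ∘ (s ∘ (τ ∘ ρ))) w
          (im_sub hPQ.1 hφ) (fun i hi j hj => ⟨?_, hind _ (hρτ.2 i hi) _ (hρτ.2 j hj),
                  (hPQ.1 _ (hφ.2 i hi) _ (hφ.2 j hj)).2.1⟩)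
          (fun i hi j hj => hall _ (hρ.2 i hi) _ (hρ.2 j hj))
          (fun i hi => ⟨(hw _ (hφ.2 i hi)).1, (hw _ (hφ.2 i hi)).2, h2 i hi⟩)
        show D.Adj (u ((s ∘ (τ ∘ ρ)) i)) (P ((s ∘ (τ ∘ ρ)) j)) ↔ i = j
        rw [hrel _ (hφ.2 i hi) _ (hφ.2 j hj)]
        exact ⟨fun e => incr_inj hφ hi hj e, fun e => by rw [e]⟩
    · exfalso
      have hτ' : Incr ((t + 3) ^ 2) K τ := incr_mono hτ le_rfl (by omega)
      have hρ := incr_comp hs hτ'
      exact jf.jF (Q ∘ (s ∘ τ)) (u ∘ (s ∘ τ)) (fun i hi j hj => hIQ _ (hρ.2 i hi) _ (hρ.2 j hj))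
        (fun i hi j hj => hind _ (hτ'.2 i hi) _ (hτ'.2 j hj)) (hCam _ _ hρ h)

end Pool.Agent.MPd439b2.ON
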