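import Pool.Agent.Lib.MP_d439b2_co.ON.Spec

/-!
# MP_d439b2_co, ON/U1: the class of a matching (helper46)
-/

set_option autoImplicit false

namespace Pool.Agent.MPd439b2.ON

open Pool.Agent.MPd439b2
open Pool.Agent.MPd439b2.Rep
open Pool.Agent.MPd439b2.W
open Pool.Agent.MPd439b2.A0

private theorem u1Enum (J : Finset ℕ) (t : ℕ) (h : t ≤ J.card) :
    ∃ s : ℕ → ℕ, (∀ k < t, s k ∈ J) ∧ ∀ k < t, ∀ l < t, s k = s l → k = l := by
  refine ⟨fun k => if hk : k < J.card then (J.equivFin.symm ⟨k, hk⟩ : ℕ) else 0, ?_, ?_⟩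
  · intro k hk
    have h1 : k < J.card := by omega
    show (if hk : k < J.card then (J.equivFin.symm ⟨k, hk⟩ : ℕ) else 0) ∈ J
    rw [dif_pos h1]
    exact (J.equivFin.symm ⟨k, h1⟩).2
  · intro k hk l hl h2
    have h1 : k < J.card := by omega
    have h3 : l < J.card := by omega
    have h4 : (if hk : k < J.card then (J.equivFin.symm ⟨k, hk⟩ : ℕ) else 0) =
      (if hk : l < J.card then (J.equivFin.symm ⟨l, hk⟩ : ℕ) else 0) := h2
    rw [dif_pos h1, dif_pos h3] at h4
    have h5 := J.equivFin.symm.injective (Subtype.ext h4)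
    exact congrArg Fin.val h5

variable {V : Type}

private theorem u1Mem (D : SimpleGraph V) (n : ℕ) (x y : ℕ → V) (v : V) (i : ℕ) :
    i ∈ Jt D n x y v ↔ i < n ∧ (D.Adj v (x i) ∨ D.Adj v (y i)) := by
  classical
  unfold Jt
  rw [Finset.mem_filter, Finset.mem_range]

private theorem u1End (D : SimpleGraph V) (n : ℕ) (x y : ℕ → V) (him : IM D n x y) (i : ℕ)
    (hi : i < n) (a : V) (ha : a = x i ∨ a = y i) : ∀ k ∈ Jt D n x y a, k = i := by
  intro k hk
  obtain ⟨h1, h2⟩ := (u1Mem D n x y a k).1 hk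
  rcases ha with ha | ha <;> subst ha <;> rcases h2 with h2 | h2
  · exact absurd h2 (him i hi k h1).2.1
  · exact (((him i hi k h1).1).1 h2).symm
  · exact ((him k h1 i hi).1).1 h2.symm
  · exact absurd h2 (him i hi k h1).2.2

private theorem u1Dif (D : SimpleGraph V) (n : ℕ) (x y : ℕ → V) (him : IM D n x y) (i j : ℕ)
    (hi : i < n) (hj : j < n) (hij : i ≠ j) (a b : V) (ha : a = x i ∨ a = y i)
    (hb : b = x j ∨ b = y j) : a ≠ b ∧ ¬ D.Adj a b := by
  have h1 : ¬ D.Adj a b := by
    intro h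
    have h2 : j ∈ Jt D n x y a := by
      rw [u1Mem]
      refine ⟨hj, ?_⟩
      rcases hb with hb | hb
      · left
        rw [← hb]
        exact h
      · right
        rw [← hb]
        exact h
    exact hij (u1End D n x y him i hi a ha j h2).symm
  refine ⟨?_, h1⟩
  intro h
  have h2 : i ∈ Jt D n x y a := by
    rw [u1Mem]
    refine ⟨hi, ?_⟩
    rcases ha with ha | ha
    · right
      rw [ha]
      exact ((him i hi i hi).1).2 rfl
    · left
      rw [ha]
      exact (((him i hi i hi).1).2 rfl).symm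
  rw [h] at h2
  exact hij (u1End D n x y him j hj b hb i h2)

private theorem u1JA (t : ℕ) (D : SimpleGraph V) (hJ : JF D t) (n : ℕ) (x y : ℕ → V)
    (him : IM D n x y) (a v b : V) (h1 : D.Adj v a) (h2 : D.Adj v b) (h3 : a ≠ b)
    (h4 : ¬ D.Adj a b) (J : Finset ℕ) (hJn : ∀ i ∈ J, i < n) (hJt : t ≤ J.card)
    (h5 : ∀ i ∈ J, i ∉ Jt D n x y a ∧ i ∉ Jt D n x y v ∧ i ∉ Jt D n x y b) : False := by
  obtain ⟨s, hs1, hs2⟩ := u1Enum J t hJt
  refine hJ.jA a v b (fun k => x (s k)) (fun k => y (s k)) ?_ h1 h2 h3 h4 ?_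
  · intro i hi j hj
    have h6 := him (s i) (hJn _ (hs1 i hi)) (s j) (hJn _ (hs1 j hj))
    refine ⟨?_, h6.2⟩
    rw [h6.1]
    exact ⟨fun h => hs2 i hi j hj h, fun h => by rw [h]⟩
  · intro i hi
    have h7 := hJn _ (hs1 i hi)
    obtain ⟨h8, h9, h10⟩ := h5 _ (hs1 i hi)
    rw [u1Mem] at h8 h9 h10
    exact ⟨fun h => h8 ⟨h7, Or.inl h⟩, fun h => h8 ⟨h7, Or.inr h⟩, fun h => h9 ⟨h7, Or.inl h⟩,
      fun h => h9 ⟨h7, Or.inr h⟩, fun h => h10 ⟨h7, Or.inl h⟩, fun h => h10 ⟨h7, Or.inr h⟩⟩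

/-- an end of the edge `i` which is adjacent to `v` -/
private theorem u1Get (D : SimpleGraph V) (n : ℕ) (x y : ℕ → V) (v : V) (i : ℕ)
    (hi : i ∈ Jt D n x y v) : ∃ a, (a = x i ∨ a = y i) ∧ D.Adj v a := by
  obtain ⟨_, h | h⟩ := (u1Mem D n x y v i).1 hi
  · exact ⟨x i, Or.inl rfl, h⟩
  · exact ⟨y i, Or.inr rfl, h⟩

/-- **U1.** -/
theorem oU1 : S_U1 := by
  classical
  intro t n hn V D hJ x y him
  have hend : ∀ i < n, ∀ a, (a = x i ∨ a = y i) → (Jt D n x y a).card ≤ 1 := by
    intro i hi a ha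
    have h1 : Jt D n x y a ⊆ {i} := by
      intro k hk
      rw [Finset.mem_singleton]
      exact u1End D n x y him i hi a ha k hk
    exact (Finset.card_le_card h1).trans (by simp)
  refine ⟨⟨?_, ?_, ?_⟩, ?_⟩
  · intro a ha b hb c hc hab hbc hac
    by_contra h1
    have ha1 : (Jt D n x y a).card ≤ 1 := ha
    have hb1 : (Jt D n x y b).card ≤ 1 := hb
    have hc1 : (Jt D n x y c).card ≤ 1 := hc
    have h2 : (Jt D n x y a ∪ Jt D n x y b ∪ Jt D n x y c).card ≤ 3 := by
      have h3 := Finset.card_union_le (Jt D n x y a ∪ Jt D n x y b) (Jt D n x y c)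
      have h4 := Finset.card_union_le (Jt D n x y a) (Jt D n x y b)
      omega
    have h5 : n - 3 ≤ (Finset.range n \ (Jt D n x y a ∪ Jt D n x y b ∪ Jt D n x y c)).card := by
      have h6 := Finset.le_card_sdiff (Jt D n x y a ∪ Jt D n x y b ∪ Jt D n x y c) (Finset.range n)
      rw [Finset.card_range] at h6
      omega
    refine u1JA t D hJ n x y him a b c hab.symm hbc hac h1
      (Finset.range n \ (Jt D n x y a ∪ Jt D n x y b ∪ Jt D n x y c)) ?_ (by omega) ?_
    · intro i hi
      exact Finset.mem_range.1 (Finset.mem_sdiff.1 hi).1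
    · intro i hi
      have h7 := (Finset.mem_sdiff.1 hi).2
      rw [Finset.mem_union, Finset.mem_union, not_or, not_or] at h7
      exact ⟨h7.1.1, h7.1.2, h7.2⟩
  · intro v hv x' y' hs
    by_contra h1
    have h1' : ∀ i < t, ¬ D.Adj v (x' i) ∧ ¬ D.Adj v (y' i) := by
      intro i hi
      refine ⟨fun h => h1 ⟨i, hi, Or.inl h⟩, fun h => h1 ⟨i, hi, Or.inr h⟩⟩
    have h2 : 1 < (Jt D n x y v).card := by
      by_contra h3
      exact hv (not_lt.1 h3)
    have h3 : (Finset.range n \ Jt D n x y v).card < t := by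
      by_contra h4
      obtain ⟨i, hi, j, hj, hij⟩ := Finset.one_lt_card.1 h2
      obtain ⟨a, ha, hva⟩ := u1Get D n x y v i hi
      obtain ⟨b, hb, hvb⟩ := u1Get D n x y v j hj
      have hin := ((u1Mem D n x y v i).1 hi).1
      have hjn := ((u1Mem D n x y v j).1 hj).1
      obtain ⟨h5, h6⟩ := u1Dif D n x y him i j hin hjn hij a b ha hb
      refine u1JA t D hJ n x y him a v b hva hvb h5 h6 (Finset.range n \ Jt D n x y v) ?_
        (not_lt.1 h4) ?_
      · intro k hk
        exact Finset.mem_range.1 (Finset.mem_sdiff.1 hk).1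
      · intro k hk
        have h7 := (Finset.mem_sdiff.1 hk).2
        refine ⟨?_, h7, ?_⟩
        · intro h8
          rw [u1End D n x y him i hin a ha k h8] at h7
          exact h7 hi
        · intro h8
          rw [u1End D n x y him j hjn b hb k h8] at h7
          exact h7 hj
    have h4 : n - t < (Jt D n x y v).card := by
      have h5 := Finset.le_card_sdiff (Jt D n x y v) (Finset.range n)
      rw [Finset.card_range] at h5
      omega
    have h5 : ((Finset.range t).biUnion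
        (fun k => Jt D n x y (x' k) ∪ Jt D n x y (y' k))).card ≤ t * 2 := by
      refine (Finset.card_biUnion_le_card_mul _ _ 2 ?_).trans (by rw [Finset.card_range])
      intro k hk
      have h6 := hs.2 k (Finset.mem_range.1 hk)
      have h7 : (Jt D n x y (x' k)).card ≤ 1 := h6.1
      have h8 : (Jt D n x y (y' k)).card ≤ 1 := h6.2
      have h9 := Finset.card_union_le (Jt D n x y (x' k)) (Jt D n x y (y' k))
      omega
    have h6 : 1 < (Jt D n x y v \ (Finset.range t).biUnion
        (fun k => Jt D n x y (x' k) ∪ Jt D n x y (y' k))).card := by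
      have h7 := Finset.le_card_sdiff ((Finset.range t).biUnion
        (fun k => Jt D n x y (x' k) ∪ Jt D n x y (y' k))) (Jt D n x y v)
      omega
    obtain ⟨i, hi, j, hj, hij⟩ := Finset.one_lt_card.1 h6
    obtain ⟨hi1, hi2⟩ := Finset.mem_sdiff.1 hi
    obtain ⟨hj1, hj2⟩ := Finset.mem_sdiff.1 hj
    obtain ⟨a, ha, hva⟩ := u1Get D n x y v i hi1
    obtain ⟨b, hb, hvb⟩ := u1Get D n x y v j hj1
    have hin := ((u1Mem D n x y v i).1 hi1).1
    have hjn := ((u1Mem D n x y v j).1 hj1).1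
    obtain ⟨h7, h8⟩ := u1Dif D n x y him i j hin hjn hij a b ha hb
    have key : ∀ (l : ℕ) (c : V), l < n → (c = x l ∨ c = y l) →
        l ∉ (Finset.range t).biUnion (fun k => Jt D n x y (x' k) ∪ Jt D n x y (y' k)) →
        ∀ k < t, ¬ D.Adj c (x' k) ∧ ¬ D.Adj c (y' k) := by
      intro l c hl hc hlW k hk
      have h9 : ∀ z, (z = x' k ∨ z = y' k) → ¬ D.Adj c z := by
        intro z hz h10
        apply hlW
        rw [Finset.mem_biUnion]
        refine ⟨k, Finset.mem_range.2 hk, ?_⟩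
        have h11 : l ∈ Jt D n x y z := by
          rw [u1Mem]
          refine ⟨hl, ?_⟩
          rcases hc with hc | hc
          · left
            rw [← hc]
            exact h10.symm
          · right
            rw [← hc]
            exact h10.symm
        rcases hz with hz | hz
        · rw [hz] at h11
          exact Finset.mem_union_left _ h11
        · rw [hz] at h11
          exact Finset.mem_union_right _ h11
      exact ⟨h9 _ (Or.inl rfl), h9 _ (Or.inr rfl)⟩
    refine hJ.jA a v b x' y' hs.1 hva hvb h7 h8 ?_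
    intro k hk
    obtain ⟨p1, p2⟩ := key i a hin ha hi2 k hk
    obtain ⟨p3, p4⟩ := key j b hjn hb hj2 k hk
    exact ⟨p1, p2, (h1' k hk).1, (h1' k hk).2, p3, p4⟩
  · exact ⟨x, y, him, fun i hi => ⟨hend i hi _ (Or.inl rfl), hend i hi _ (Or.inr rfl)⟩⟩
  · intro i hi
    exact ⟨hend i hi _ (Or.inl rfl), hend i hi _ (Or.inr rfl)⟩

end Pool.Agent.MPd439b2.ON
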