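import Pool.Agent.Lib.MP_d439b2_co.ON.Spec

/-!
# MP_d439b2_co, ON/U2: uniqueness of the class
-/

set_option autoImplicit false

namespace Pool.Agent.MPd439b2.ON

open Pool.Agent.MPd439b2
open Pool.Agent.MPd439b2.Rep
open Pool.Agent.MPd439b2.W
open Pool.Agent.MPd439b2.A0

private theorem U2_apart {V : Type} {D : SimpleGraph V} {n : ℕ} {x y : ℕ → V} (h : IM D n x y)
    {i j : ℕ} (hi : i < n) (hj : j < n) (hij : i ≠ j) {a b : V} (ha : a = x i ∨ a = y i)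
    (hb : b = x j ∨ b = y j) : a ≠ b ∧ ¬ D.Adj a b := by
  have hii := (h i hi i hi).1.2 rfl
  obtain ⟨h1, h2, h3⟩ := h i hi j hj
  obtain ⟨h4, h5, h6⟩ := h j hj i hi
  have n1 : ¬ D.Adj (x i) (y j) := fun h' => hij (h1.1 h')
  have n2 : ¬ D.Adj (x j) (y i) := fun h' => hij (h4.1 h').symm
  rcases ha with rfl | rfl <;> rcases hb with rfl | rfl
  · exact ⟨fun e => n2 (e ▸ hii), h2⟩
  · refine ⟨fun e => ?_, n1⟩
    rw [e] at hii
    exact h6 hii
  · refine ⟨fun e => ?_, fun h' => n2 h'.symm⟩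
    rw [e] at hii
    exact h2 hii
  · exact ⟨fun e => n1 (e ▸ hii), h3⟩

private theorem U2_sub {t n : ℕ} {V : Type} {D : SimpleGraph V} {U U' : Set V} (hU : UP D t n U)
    (hU' : UP D t n U') {x y : ℕ → V} (hs : Sy D U (t + 1) x y) (hs' : Sy D U' (t + 1) x y) :
    U ⊆ U' := by
  intro v hv
  by_contra hv'
  have key : ∀ i < t + 1, ∀ j < t + 1, i ≠ j → (D.Adj v (x i) ∨ D.Adj v (y i)) →
      (D.Adj v (x j) ∨ D.Adj v (y j)) → False := by
    intro i hi j hj hij h1 h2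
    obtain ⟨a, ha, hav, haU⟩ : ∃ a, (a = x i ∨ a = y i) ∧ D.Adj v a ∧ a ∈ U := by
      rcases h1 with h1 | h1
      · exact ⟨_, Or.inl rfl, h1, (hs.2 i hi).1⟩
      · exact ⟨_, Or.inr rfl, h1, (hs.2 i hi).2⟩
    obtain ⟨b, hb, hbv, hbU⟩ : ∃ b, (b = x j ∨ b = y j) ∧ D.Adj v b ∧ b ∈ U := by
      rcases h2 with h2 | h2
      · exact ⟨_, Or.inl rfl, h2, (hs.2 j hj).1⟩
      · exact ⟨_, Or.inr rfl, h2, (hs.2 j hj).2⟩
    obtain ⟨hne, hna⟩ := U2_apart hs.1 hi hj hij ha hb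
    exact hna (hU.p3 a haU v hv b hbU hav.symm hbv hne)
  obtain ⟨j, hj, hmiss⟩ : ∃ j < t + 1, ∀ i < t + 1, i ≠ j →
      ¬ (D.Adj v (x i) ∨ D.Adj v (y i)) := by
    by_cases h : ∃ j < t + 1, D.Adj v (x j) ∨ D.Adj v (y j)
    · obtain ⟨j, hj, h⟩ := h
      exact ⟨j, hj, fun i hi hij h' => key i hi j hj hij h' h⟩
    · push Not at h
      exact ⟨t, by omega, fun i hi _ h' => by
        rcases h' with h' | h'
        · exact (h i hi).1 h'
        · exact (h i hi).2 h'⟩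
  set σ : ℕ → ℕ := fun k => if k < j then k else k + 1 with hσ
  have hσ1 : ∀ k < t, σ k < t + 1 := by
    intro k hk; simp only [hσ]; split_ifs <;> omega
  have hσ2 : ∀ k, σ k ≠ j := by
    intro k; simp only [hσ]; split_ifs <;> omega
  have hσ3 : ∀ k l, σ k = σ l ↔ k = l := by
    intro k l; simp only [hσ]; split_ifs <;> omega
  have hsys : Sy D U' t (fun k => x (σ k)) (fun k => y (σ k)) := by
    refine ⟨fun k hk l hl => ?_, fun k hk => hs'.2 _ (hσ1 k hk)⟩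
    obtain ⟨h1, h2, h3⟩ := hs'.1 (σ k) (hσ1 k hk) (σ l) (hσ1 l hl)
    exact ⟨h1.trans (hσ3 k l), h2, h3⟩
  obtain ⟨i, hi, h⟩ := hU'.big v hv' _ _ hsys
  exact hmiss (σ i) (hσ1 i hi) (hσ2 i) h

theorem oU2 : S_U2 := by
  intro t n V D U U' hU hU' x y hs hs'
  exact Set.Subset.antisymm (U2_sub hU hU' hs hs') (U2_sub hU' hU hs' hs)

end Pool.Agent.MPd439b2.ON
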