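import Pool.Agent.Lib.MP_d439b2_co.ON.JB
import Pool.Agent.Lib.MP_d439b2_co.ON.JAB
import Pool.Agent.Lib.MP_d439b2_co.ON.JCE
import Pool.Agent.Lib.MP_d439b2_co.ON.JFF
import Pool.Agent.Lib.MP_d439b2_co.ON.HK
import Pool.Agent.Lib.MP_d439b2_co.ON.U1
import Pool.Agent.Lib.MP_d439b2_co.ON.U2
import Pool.Agent.Lib.MP_d439b2_co.ON.Ba
import Pool.Agent.Lib.MP_d439b2_co.ON.Ch
import Pool.Agent.Lib.MP_d439b2_co.ON.Pr
import Pool.Agent.Lib.MP_d439b2_co.ON.Fr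
import Pool.Agent.Lib.MP_d439b2_co.ON.F0
import Pool.Agent.Lib.MP_d439b2_co.ON.Mf
import Pool.Agent.Lib.MP_d439b2_co.ON.F2
import Pool.Agent.Lib.MP_d439b2_co.ON.F3
import Pool.Agent.Lib.MP_d439b2_co.ON.F4
import Pool.Agent.Lib.MP_d439b2_co.ON.F5
import Pool.Agent.Lib.MP_d439b2_co.ON.Rp
import Pool.Agent.Lib.MP_d439b2_co.ON.Pi
import Pool.Agent.Lib.MP_d439b2_co.ON.TR
import Pool.Agent.Lib.MP_d439b2_co.ON.CN
import Pool.Agent.Lib.MP_d439b2_co.ON.BN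
import Pool.Agent.Lib.MP_d439b2_co.ON.HN
import Pool.Agent.Lib.MP_d439b2_co.ON.Co
import Pool.Agent.Lib.MP_d439b2_co.ON.Cu
import Pool.Agent.Lib.MP_d439b2_co.ON.RI
import Pool.Agent.Lib.MP_d439b2_co.ON.LX
import Pool.Agent.Lib.MP_d439b2_co.ON.LS
import Pool.Agent.Lib.MP_d439b2_co.ON.KX
import Pool.Agent.Lib.MP_d439b2_co.ON.Tw
import Pool.Agent.Lib.MP_d439b2_co.ON.Opp
import Pool.Agent.Lib.MP_d439b2_co.ON.Pa
import Pool.Agent.Lib.MP_d439b2_co.ON.Sm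
import Pool.Agent.Lib.MP_d439b2_co.ON.Ha
import Pool.Agent.Lib.MP_d439b2_co.ON.Ty
import Pool.Agent.Lib.MP_d439b2_co.ON.Cl
import Pool.Agent.Lib.MP_d439b2_co.ON.Id
import Pool.Agent.Lib.MP_d439b2_co.ON.FF
import Pool.Agent.Lib.MP_d439b2_co.ON.NM
import Pool.Agent.Lib.MP_d439b2_co.ON.Asm
import Pool.Agent.Lib.MP_d439b2_co.W.RamC
import Pool.Agent.Lib.MP_d439b2_co.A0.M1

/-!
# MP_d439b2_co, ON: Theorem O, final form (helper23)

`oO : S_O` and `oRed`: it is enough to bound the graphs without `K4:0,1`, `J_t` and large induced matchings in the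
complement.
-/

set_option autoImplicit false

namespace Pool.Agent.MPd439b2.ON

open Pool.Agent.MPd439b2
open Pool.Agent.MPd439b2.Rep
open Pool.Agent.MPd439b2.W
open Pool.Agent.MPd439b2.A0

theorem parts : Parts where
  ram := W.ramC
  m1 := A0.aM1
  jb := oJB
  jab := oJAB
  jce := oJCE
  jff := oJFF
  hk := oHK
  u1 := oU1
  u2 := oU2
  ba := oBa
  ch := oCh
  pr := oPr
  fr := oFr
  f0 := oF0
  mf := oMf
  f2 := oF2
  f3 := oF3
  f4 := oF4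
  f5 := oF5
  rp := oRp
  pi := oPi
  tr := oTR
  cn := oCN
  bn := oBN
  hn := oHN
  co := oCo
  cu := oCu
  ri := oRI
  lx := oLX
  ls := oLS
  kx := oKX
  tw := oTw
  opp := oOpp
  pa := oPa
  sm := oSm
  ha := oHa
  ty := oTy
  cl := oCl
  idp := oId
  ff := oFF
  nm := oNM

theorem oTO : S_TO := asmTO parts

/-- **Theorem O** -/
theorem oO : S_O := asmO parts

/-- **Reduction** to the graphs without large induced matchings in the complement -/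
theorem oRed (t : ℕ) (ht : 1 ≤ t)
    (hn : ∀ n : ℕ, ∃ k : ℕ, ∀ (V : Type) [Finite V] (G : SimpleGraph V), Rep.Fr K401 (JP t) G →
      (∀ x y : ℕ → V, ¬ IM Gᶜ n x y) → Lay G k Set.univ) :
    ∃ k : ℕ, ∀ (V : Type) [Finite V] (G : SimpleGraph V), Rep.Fr K401 (JP t) G →
      Lay G k Set.univ := asmRed oO t ht hn

end Pool.Agent.MPd439b2.ON
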