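import Pool.Agent.Lib.MP_d439b2_co.ON.Spec

/-!
# MP_d439b2_co, ON: few classes are split (helper9)
-/

set_option autoImplicit false

namespace Pool.Agent.MPd439b2.ON

open Pool.Agent.MPd439b2 Pool.Agent.MPd439b2.Rep Pool.Agent.MPd439b2.W Pool.Agent.MPd439b2.A0

namespace BNAux

variable {V : Type}

/-- the counting part -/
theorem cnt {c G₁ : ℕ} (hCN : C_CN c G₁) {t N n : ℕ} [Finite V] {D : SimpleGraph V}
    (hE : Env D t N n) {A A' : Set V} (hrk : LK.rk D A A' ≤ c) (B : Set (Set V))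
    (hB : ∀ U, U ∈ B → ∃ r e f, Gd D t n U ∧ r ∈ FS D U ∧ FP D U e f ∧ f ≠ r ∧ ¬ Hv D t n e ∧
      r ∈ A ∧ e ∈ A') : B.ncard ≤ 2 * G₁ := by
  classical
  rcases B.eq_empty_or_nonempty with rfl | ⟨U0, hU0⟩
  · simp
  have : Nonempty V := ⟨(hB U0 hU0).choose⟩
  choose! R E F h using hB
  rw [Set.ncard_eq_toFinset_card B (Set.toFinite B)]
  set S := (Set.toFinite B).toFinset with hS
  have hSm : ∀ U, U ∈ S ↔ U ∈ B := fun U => by simp [hS]
  have h1 : S.card ≤ 2 * (S.image E).card := by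
    refine Finset.card_le_mul_card_image S 2 fun a ha => ?_
    by_contra hlt
    push Not at hlt
    obtain ⟨X, hX, Y, hY, Z, hZ, hXY, hXZ, hYZ⟩ := Finset.two_lt_card.1 hlt
    rw [Finset.mem_filter, hSm] at hX hY hZ
    have gX := h X hX.1
    have gY := h Y hY.1
    have gZ := h Z hZ.1
    refine gX.2.2.2.2.1 ⟨X, Y, Z, gX.1, gY.1, gZ.1, hXY, hXZ, hYZ, ⟨F X, gX.2.2.1⟩, ?_, ?_⟩
    · refine ⟨F Y, ?_⟩
      rw [hX.2, ← hY.2]
      exact gY.2.2.1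
    · refine ⟨F Z, ?_⟩
      rw [hX.2, ← hZ.2]
      exact gZ.2.2.1
  have h2 : (S.image E).card ≤ G₁ := by
    set I := S.image E with hI
    have h3 : ∀ i, ∃ U, i < I.card → U ∈ B ∧ ∃ hi : i < I.card, E U = (I.equivFin.symm ⟨i, hi⟩ : V) := by
      intro i
      by_cases hi : i < I.card
      · have h4 := (I.equivFin.symm ⟨i, hi⟩).2
        obtain ⟨U, hU, hUe⟩ := Finset.mem_image.1 h4
        exact ⟨U, fun _ => ⟨(hSm U).1 hU, hi, hUe⟩⟩
      · exact ⟨∅, fun h => absurd h hi⟩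
    choose U hU using h3
    have hinj : ∀ i < I.card, ∀ j < I.card, E (U i) = E (U j) → i = j := by
      intro i hi j hj hij
      obtain ⟨_, hi', h5⟩ := hU i hi
      obtain ⟨_, hj', h6⟩ := hU j hj
      rw [h5, h6] at hij
      have h7 := I.equivFin.symm.injective (Subtype.ext hij)
      exact congrArg Fin.val h7
    refine hCN t N n V D hE A A' hrk I.card U (fun i => R (U i)) (fun i => E (U i))
      (fun i => F (U i)) (fun i hi => (h _ (hU i hi).1).1)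
      (fun i hi j hj hij => hinj i hi j hj (by rw [hij])) hinj fun i hi => ?_
    have g := h _ (hU i hi).1
    exact ⟨g.2.1, g.2.2.1, g.2.2.2.1, g.2.2.2.2.2.1, g.2.2.2.2.2.2⟩
  omega

/-- a class which is split -/
theorem spl (hF0 : S_F0) (hF4 : C_F4) {t N n : ℕ} {D : SimpleGraph V} (hE : Env D t N n)
    {r₁ r₂ : Set V → V} (hRp : Rp D t n r₁ r₂)
    (hes : ∀ U, Gd D t n U → ∀ e ∈ ES D U, e ∈ Sg D t n r₁ r₂)
    (hrs : ∀ U, Gd D t n U → r₁ U ∈ Sg D t n r₁ r₂ ∧ r₂ U ∈ Sg D t n r₁ r₂)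
    {A A' : Set V} (hPt : Pt (Sg D t n r₁ r₂) A A') {U : Set V} (hU : U ∈ Bd D t n r₁ r₂ A A') :
    ∃ r e f, Gd D t n U ∧ r ∈ FS D U ∧ FP D U e f ∧ f ≠ r ∧ ¬ Hv D t n e ∧
      ((r ∈ A ∧ e ∈ A') ∨ (r ∈ A' ∧ e ∈ A)) := by
  obtain ⟨hG, hn1, hn2⟩ := hU
  obtain ⟨hr, ⟨p₁, hp₁, hh₁⟩, p₂, hp₂, hh₂⟩ := hRp U hG
  by_contra hcon
  have hmem : ∀ v, v ∈ Sg D t n r₁ r₂ → v ∈ A ∨ v ∈ A' := by
    intro v hv
    rw [← hPt.1] at hv
    exact hv
  have hdis : ∀ v, v ∈ A → v ∈ A' → False := fun v h1 h2 =>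
    Set.disjoint_left.1 hPt.2 h1 h2
  -- the same side
  have same : ∀ r, r ∈ FS D U → ∀ e f, FP D U e f → f ≠ r → ¬ Hv D t n e →
      (r ∈ A → e ∈ A) ∧ (r ∈ A' → e ∈ A') := by
    intro r hr e f hef hfr hHv
    have he := hmem e (hes U hG e ⟨f, hef⟩)
    constructor
    · intro hrA
      rcases he with he | he
      · exact he
      · exact absurd ⟨r, e, f, hG, hr, hef, hfr, hHv, Or.inl ⟨hrA, he⟩⟩ hcon
    · intro hrA
      rcases he with he | he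
      · exact absurd ⟨r, e, f, hG, hr, hef, hfr, hHv, Or.inr ⟨hrA, he⟩⟩ hcon
      · exact he
  obtain ⟨f0a, f0b, f0c⟩ := hF0 t n V D U hG.1
  -- a partner which is not heavy and different from the two
  obtain ⟨e, f, hf, hef⟩ := hE.toEnvB.mf U hG
  have hex : ∃ i < N + 6, f i ≠ r₁ U ∧ f i ≠ r₂ U ∧ ¬ Hv D t n (e i) := by
    by_contra hno
    push Not at hno
    have hk : ∀ i < N + 6, f i = r₁ U ∨ f i = r₂ U ∨ Hv D t n (e i) := by
      intro i hi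
      by_cases h1 : f i = r₁ U
      · exact Or.inl h1
      · by_cases h2 : f i = r₂ U
        · exact Or.inr (Or.inl h2)
        · exact Or.inr (Or.inr (hno i hi h1 h2))
    have hheavy : ∀ i < N + 6, ∀ j < N + 6, Hv D t n (e i) → Hv D t n (e j) → i = j := by
      intro i hi j hj h1 h2
      have h3 := hF4 t N n V D hE U hG (e i) ⟨f i, hef i hi⟩ (e j) ⟨f j, hef j hj⟩ h1 h2
      refine hf i hi j hj (f0b (e i) (f i) (f j) (hef i hi) ?_)
      rw [h3]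
      exact hef j hj
    have h0 := hk 0 (by omega)
    have h1 := hk 1 (by omega)
    have h2 := hk 2 (by omega)
    have h3 := hk 3 (by omega)
    have q : ∀ i < N + 6, ∀ j < N + 6, i ≠ j → ∀ w, f i = w → f j = w → False := by
      intro i hi j hj hij w h1 h2
      exact hij (hf i hi j hj (h1.trans h2.symm))
    have q2 : ∀ i < N + 6, ∀ j < N + 6, i ≠ j → Hv D t n (e i) → Hv D t n (e j) → False :=
      fun i hi j hj hij h1 h2 => hij (hheavy i hi j hj h1 h2)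
    have l0 : 0 < N + 6 := by omega
    have l1 : 1 < N + 6 := by omega
    have l2 : 2 < N + 6 := by omega
    have l3 : 3 < N + 6 := by omega
    rcases h0 with h0 | h0 | h0 <;> rcases h1 with h1 | h1 | h1 <;>
      rcases h2 with h2 | h2 | h2 <;> rcases h3 with h3 | h3 | h3 <;>
      first
        | exact q 0 l0 1 l1 (by decide) _ h0 h1
        | exact q 0 l0 2 l2 (by decide) _ h0 h2
        | exact q 0 l0 3 l3 (by decide) _ h0 h3
        | exact q 1 l1 2 l2 (by decide) _ h1 h2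
        | exact q 1 l1 3 l3 (by decide) _ h1 h3
        | exact q 2 l2 3 l3 (by decide) _ h2 h3
        | exact q2 0 l0 1 l1 (by decide) h0 h1
        | exact q2 0 l0 2 l2 (by decide) h0 h2
        | exact q2 0 l0 3 l3 (by decide) h0 h3
        | exact q2 1 l1 2 l2 (by decide) h1 h2
        | exact q2 1 l1 3 l3 (by decide) h1 h3
        | exact q2 2 l2 3 l3 (by decide) h2 h3
  obtain ⟨i, hi, hf1, hf2, hiH⟩ := hex
  have hr1F : r₁ U ∈ FS D U := ⟨p₁, hp₁⟩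
  have hr2F : r₂ U ∈ FS D U := ⟨p₂, hp₂⟩
  have s1 := same _ hr1F _ _ (hef i hi) hf1 hiH
  have s2 := same _ hr2F _ _ (hef i hi) hf2 hiH
  have m1 := hmem _ (hrs U hG).1
  have m2 := hmem _ (hrs U hG).2
  have all : ∀ e' ∈ ES D U, ¬ Hv D t n e' → (r₁ U ∈ A → r₂ U ∈ A → e' ∈ A) ∧
      (r₁ U ∈ A' → r₂ U ∈ A' → e' ∈ A') := by
    rintro e' ⟨f', hef'⟩ hHv
    by_cases h1 : f' = r₁ U
    · have h2 : f' ≠ r₂ U := fun h2 => hr (h1.symm.trans h2)
      have s := same _ hr2F _ _ hef' h2 hHv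
      exact ⟨fun _ h => s.1 h, fun _ h => s.2 h⟩
    · have s := same _ hr1F _ _ hef' h1 hHv
      exact ⟨fun h _ => s.1 h, fun h _ => s.2 h⟩
  rcases m1 with m1 | m1
  · rcases m2 with m2 | m2
    · exact hn1 ⟨m1, m2, fun e' he' hHv => (all e' he' hHv).1 m1 m2⟩
    · exact hdis _ (s1.1 m1) (s2.2 m2)
  · rcases m2 with m2 | m2
    · exact hdis _ (s2.1 m2) (s1.2 m1)
    · exact hn2 ⟨m1, m2, fun e' he' hHv => (all e' he' hHv).2 m1 m2⟩

end BNAux

open BNAux in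
/-- **BN.** -/
theorem oBN : S_BN := by
  intro hF0 hF4 c G₁ hCN t N n V _ D hE r₁ r₂ hRp hes hrs A A' hPt hrk
  have hrk' : LK.rk D A' A ≤ c := by
    rw [rk_symm]
    exact hrk
  set B1 : Set (Set V) := {U | ∃ r e f, Gd D t n U ∧ r ∈ FS D U ∧ FP D U e f ∧ f ≠ r ∧
    ¬ Hv D t n e ∧ r ∈ A ∧ e ∈ A'} with hB1
  set B2 : Set (Set V) := {U | ∃ r e f, Gd D t n U ∧ r ∈ FS D U ∧ FP D U e f ∧ f ≠ r ∧
    ¬ Hv D t n e ∧ r ∈ A' ∧ e ∈ A} with hB2
  have hsub : Bd D t n r₁ r₂ A A' ⊆ B1 ∪ B2 := by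
    intro U hU
    obtain ⟨r, e, f, a1, a2, a3, a4, a5, a6⟩ := spl hF0 hF4 hE hRp hes hrs hPt hU
    rcases a6 with a6 | a6
    · exact Or.inl ⟨r, e, f, a1, a2, a3, a4, a5, a6.1, a6.2⟩
    · exact Or.inr ⟨r, e, f, a1, a2, a3, a4, a5, a6.1, a6.2⟩
  have h1 : B1.ncard ≤ 2 * G₁ := cnt hCN hE hrk B1 fun U hU => hU
  have h2 : B2.ncard ≤ 2 * G₁ := cnt hCN hE hrk' B2 fun U hU => hU
  have h3 : (Bd D t n r₁ r₂ A A').ncard ≤ (B1 ∪ B2).ncard :=
    Set.ncard_le_ncard hsub (Set.toFinite _)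
  have h4 := Set.ncard_union_le B1 B2
  omega

end Pool.Agent.MPd439b2.ON
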