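import Pool.Agent.Lib.MP_d439b2_co.ON.Sel

/-!
# MP_d439b2_co, ON: no co-matching inside one component (helper23)
-/

set_option autoImplicit false

namespace Pool.Agent.MPd439b2.ON

open Pool.Agent.MPd439b2
open Pool.Agent.MPd439b2.Rep
open Pool.Agent.MPd439b2.W
open Pool.Agent.MPd439b2.A0

open SelAux

theorem oSm : S_Sm := by
  classical
  intro ram t N
  obtain ⟨M, hM⟩ := ram Bool (N + 3)
  refine ⟨M, fun V D jf hf n U S v w m x p q u z κ hm od pd hκ => ?_⟩
  obtain ⟨s, c, hs1, hs2, hs3⟩ := hM (fun i j => decide (D.Adj (u i) (u j)))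
  have hs : Incr (N + 3) M s := ⟨hs1, hs2⟩
  have hM0 : 0 < M := lt_of_le_of_lt (Nat.zero_le _) (hs2 0 (by omega))
  have hk0 : κ 0 < m := pd.km 0 hM0
  have hx0 := od.xU _ hk0
  have hzc : ∀ i < N + 3, Cp D U (x (κ 0)) (z (s i)) := by
    intro i hi
    have := pd.zc _ (hs2 i hi)
    rwa [hκ _ (hs2 i hi)] at this
  have hrel : ∀ i < N + 3, ∀ j < N + 3, (D.Adj (u (s i)) (z (s j)) ↔ i ≠ j) := by
    intro i hi j hj
    rw [pd.rel _ (hs2 i hi) _ (hs2 j hj)]
    exact not_congr ⟨fun e => incr_inj hs hi hj e, fun e => by rw [e]⟩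
  have hzne : ∀ i < N + 3, ∀ j < N + 3, i ≠ j → z (s i) ≠ z (s j) := by
    intro i hi j hj hij e
    have h1 := (hrel i hi j hj).2 hij
    rw [← e] at h1
    exact (hrel i hi i hi).1 h1 rfl
  have hzz : ∀ i < N + 3, ∀ j < N + 3, i ≠ j → D.Adj (z (s i)) (z (s j)) :=
    fun i hi j hj hij => comp_adj od.up hx0 (hzc i hi) (hzc j hj) (hzne i hi j hj hij)
  cases c with
  | false =>
    refine hf.hS (fun i => u (s i)) (fun i => z (s i)) ?_
      (fun i hi j hj hij => hzz i (by omega) j (by omega) hij)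
      (fun i hi j hj => hrel i (by omega) j (by omega))
    intro i hi j hj
    rcases Nat.lt_trichotomy i j with h | h | h
    · exact of_decide_eq_false (hs3 i j h (by omega))
    · subst h; exact D.irrefl
    · exact fun e => of_decide_eq_false (hs3 j i h (by omega)) e.symm
  | true =>
    have huu : ∀ i j, i < j → j < N + 3 → D.Adj (u (s i)) (u (s j)) := fun i j hij hj =>
      of_decide_eq_true (hs3 i j hij hj)
    -- few common neighbours
    have hfew : ∀ i j, i < j → j < N + 3 → ((Finset.range m).filter fun k =>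
        k ≠ κ 0 ∧ ∃ e, Cp D U (x k) e ∧ D.Adj (u (s i)) e ∧ D.Adj (u (s j)) e).card < N := by
      intro i j hij hj
      by_contra hc
      obtain ⟨τ, hτ, h⟩ := enum _ N m (not_lt.1 hc)
      have : Nonempty V := ⟨v⟩
      choose! e he using fun k (hk : k < N) => (h k hk).2
      have hsep : ∀ k < N, ∀ a, Cp D U (x (κ 0)) a → ¬ D.Adj (e k) a := by
        intro k hk a ha
        exact (sep od.up (od.xU _ (hτ.2 k hk)) hx0 (od.xI _ (hτ.2 k hk) _ hk0)
          (fun e' => (h k hk).1 (od.xJ _ (hτ.2 k hk) _ hk0 e')) (he k hk).1 ha).1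
      have hsep2 : ∀ k < N, ∀ l < N, k ≠ l → ¬ D.Adj (e k) (e l) ∧ e k ≠ e l := by
        intro k hk l hl hkl
        exact sep od.up (od.xU _ (hτ.2 k hk)) (od.xU _ (hτ.2 l hl))
          (od.xI _ (hτ.2 k hk) _ (hτ.2 l hl))
          (fun e' => hkl (incr_inj hτ hk hl (od.xJ _ (hτ.2 k hk) _ (hτ.2 l hl) e')))
          (he k hk).1 (he l hl).1
      refine hf.hC (u (s i)) (u (s j)) (z (s i)) (z (s j)) e (huu i j hij hj)
        (hzz i (by omega) j hj (by omega)) (fun h' => (hrel i (by omega) i (by omega)).1 h' rfl)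
        ((hrel i (by omega) j hj).2 (by omega)) ((hrel j hj i (by omega)).2 (by omega))
        (fun h' => (hrel j hj j hj).1 h' rfl) ?_ ?_ (fun k hk => ⟨(he k hk).2.1, (he k hk).2.2,
          hsep k hk _ (hzc i (by omega)), hsep k hk _ (hzc j hj)⟩)
      · intro k hk l hl
        by_cases hkl : k = l
        · subst hkl; exact D.irrefl
        · exact (hsep2 k hk l hl hkl).1
      · intro k hk l hl e'
        by_contra hkl
        exact (hsep2 k hk l hl hkl).2 e'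
    have f1 := hfew 0 1 (by omega) (by omega)
    have f2 := hfew 0 2 (by omega) (by omega)
    have f3 := hfew 1 2 (by omega) (by omega)
    -- a good index
    obtain ⟨k, hk, hk0', g1, g2, g3⟩ : ∃ k < m, k ≠ κ 0 ∧
        (¬ ∃ e, Cp D U (x k) e ∧ D.Adj (u (s 0)) e ∧ D.Adj (u (s 1)) e) ∧
        (¬ ∃ e, Cp D U (x k) e ∧ D.Adj (u (s 0)) e ∧ D.Adj (u (s 2)) e) ∧
        (¬ ∃ e, Cp D U (x k) e ∧ D.Adj (u (s 1)) e ∧ D.Adj (u (s 2)) e) := by
      by_contra hc
      push Not at hc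
      have hsub : Finset.range m ⊆ {κ 0} ∪ (((Finset.range m).filter fun k =>
        k ≠ κ 0 ∧ ∃ e, Cp D U (x k) e ∧ D.Adj (u (s 0)) e ∧ D.Adj (u (s 1)) e) ∪
        (((Finset.range m).filter fun k =>
        k ≠ κ 0 ∧ ∃ e, Cp D U (x k) e ∧ D.Adj (u (s 0)) e ∧ D.Adj (u (s 2)) e) ∪
        ((Finset.range m).filter fun k =>
        k ≠ κ 0 ∧ ∃ e, Cp D U (x k) e ∧ D.Adj (u (s 1)) e ∧ D.Adj (u (s 2)) e))) := by
        intro k hk
        simp only [Finset.mem_union, Finset.mem_singleton, Finset.mem_filter]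
        by_cases h0 : k = κ 0
        · exact Or.inl h0
        · refine Or.inr ?_
          by_contra hn
          rw [not_or, not_or] at hn
          obtain ⟨n1, n2, n3⟩ := hn
          have m1 : ∀ e, Cp D U (x k) e → D.Adj (u (s 0)) e → ¬ D.Adj (u (s 1)) e :=
            fun e h1 h2 h3 => n1 ⟨hk, h0, e, h1, h2, h3⟩
          have m2 : ∀ e, Cp D U (x k) e → D.Adj (u (s 0)) e → ¬ D.Adj (u (s 2)) e :=
            fun e h1 h2 h3 => n2 ⟨hk, h0, e, h1, h2, h3⟩
          obtain ⟨e, h1, h2, h3⟩ := hc k (Finset.mem_range.1 hk) h0 m1 m2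
          exact n3 ⟨hk, h0, e, h1, h2, h3⟩
      have hcard := Finset.card_le_card hsub
      rw [Finset.card_range] at hcard
      have c1 := Finset.card_union_le ({κ 0} : Finset ℕ) (((Finset.range m).filter fun k =>
        k ≠ κ 0 ∧ ∃ e, Cp D U (x k) e ∧ D.Adj (u (s 0)) e ∧ D.Adj (u (s 1)) e) ∪
        (((Finset.range m).filter fun k =>
        k ≠ κ 0 ∧ ∃ e, Cp D U (x k) e ∧ D.Adj (u (s 0)) e ∧ D.Adj (u (s 2)) e) ∪
        ((Finset.range m).filter fun k =>
        k ≠ κ 0 ∧ ∃ e, Cp D U (x k) e ∧ D.Adj (u (s 1)) e ∧ D.Adj (u (s 2)) e)))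
      have c2 := Finset.card_union_le ((Finset.range m).filter fun k =>
        k ≠ κ 0 ∧ ∃ e, Cp D U (x k) e ∧ D.Adj (u (s 0)) e ∧ D.Adj (u (s 1)) e)
        (((Finset.range m).filter fun k =>
        k ≠ κ 0 ∧ ∃ e, Cp D U (x k) e ∧ D.Adj (u (s 0)) e ∧ D.Adj (u (s 2)) e) ∪
        ((Finset.range m).filter fun k =>
        k ≠ κ 0 ∧ ∃ e, Cp D U (x k) e ∧ D.Adj (u (s 1)) e ∧ D.Adj (u (s 2)) e))
      have c3 := Finset.card_union_le ((Finset.range m).filter fun k =>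
        k ≠ κ 0 ∧ ∃ e, Cp D U (x k) e ∧ D.Adj (u (s 0)) e ∧ D.Adj (u (s 2)) e)
        ((Finset.range m).filter fun k =>
        k ≠ κ 0 ∧ ∃ e, Cp D U (x k) e ∧ D.Adj (u (s 1)) e ∧ D.Adj (u (s 2)) e)
      rw [Finset.card_singleton] at c1
      omega
    obtain ⟨hp, hq, hpq⟩ := od.cp k hk
    have hgc := fun i (hi : i < N + 3) => od.gc k hk (u (s i)) (pd.uU _ (hs2 i hi)) (p k) (q k)
      hp hq hpq
    have k1 : ∀ e, Cp D U (x k) e → D.Adj (u (s 0)) e → ¬ D.Adj (u (s 1)) e :=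
      fun e h1 h2 h3 => g1 ⟨e, h1, h2, h3⟩
    have k2 : ∀ e, Cp D U (x k) e → D.Adj (u (s 0)) e → ¬ D.Adj (u (s 2)) e :=
      fun e h1 h2 h3 => g2 ⟨e, h1, h2, h3⟩
    have k3 : ∀ e, Cp D U (x k) e → D.Adj (u (s 1)) e → ¬ D.Adj (u (s 2)) e :=
      fun e h1 h2 h3 => g3 ⟨e, h1, h2, h3⟩
    rcases hgc 0 (by omega) with h0 | h0 <;> rcases hgc 1 (by omega) with h1 | h1 <;>
      rcases hgc 2 (by omega) with h2 | h2
    · exact k1 _ hp h0 h1
    · exact k1 _ hp h0 h1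
    · exact k2 _ hp h0 h2
    · exact k3 _ hq h1 h2
    · exact k3 _ hp h1 h2
    · exact k2 _ hq h0 h2
    · exact k1 _ hq h0 h1
    · exact k1 _ hq h0 h1

end Pool.Agent.MPd439b2.ON
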