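import Pool.Agent.Lib.MP_d439b2_co.A0.Spec
import Pool.Agent.Lib.MP_d439b2_co.W.DefsM

/-!
# MP_d439b2_co, ON: large induced matchings of `D = co(G)` (`K4:0,1`; note 2824 of helper23, refereed in 2847)

**Theorem O.** `G` without the induced minors `K4:0,1`, `J_t = co(P_3 + t P_2)` and with `Link β c₀`: there is an
induced subgraph `G'` without induced `D`-matchings of size `n₁`, again with `Link`, such that the layouts of
`G'` extend to layouts of `G` (with bounded loss).  Everything is written for `D = co(G)`: `x ~ y` ('x sees y')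
means `D.Adj x y`, 'misses' means `¬ D.Adj x y`; a set is connected (`Conn Dᶜ`) in the complement `Dᶜ = G`, and
two disjoint blocks `A`, `B` see each other iff `¬ Tch Dᶜ A B` (all pairs are `D`-adjacent).

The absence of `J_t` is used only through `JF D t`, the absence of `K4:0,1` only through `HF D N` (`N = 8`).

Every `S_...` is a statement to be proved in its own file; the docstring contains the complete proof; the used
statements are hypotheses of the theorem, in the order given in `(Uses ...)`.  The theorem for `S_X` is called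
`oX` and is in the file `ON/X.lean`.
-/

set_option autoImplicit false

namespace Pool.Agent.MPd439b2.ON

open Pool.Agent.MPd439b2
open Pool.Agent.MPd439b2.Rep
open Pool.Agent.MPd439b2.W
open Pool.Agent.MPd439b2.A0

variable {V : Type}

/-! ### Definitions -/

/-- pairwise non-adjacent -/
def Ind (D : SimpleGraph V) (n : ℕ) (x : ℕ → V) : Prop := ∀ i < n, ∀ j < n, ¬ D.Adj (x i) (x j)

/-- pairwise adjacent -/
def Clq (D : SimpleGraph V) (n : ℕ) (x : ℕ → V) : Prop :=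
  ∀ i < n, ∀ j < n, i ≠ j → D.Adj (x i) (x j)

/-- pairwise different -/
def Inj (n : ℕ) (x : ℕ → V) : Prop := ∀ i < n, ∀ j < n, x i = x j → i = j

/-- co-matching -/
def Cam (D : SimpleGraph V) (n : ℕ) (a v : ℕ → V) : Prop :=
  ∀ i < n, ∀ j < n, (D.Adj (a i) (v j) ↔ i ≠ j)

/-- increasing, with values below `M` -/
def Incr (m M : ℕ) (σ : ℕ → ℕ) : Prop := (∀ k l, k < l → l < m → σ k < σ l) ∧ ∀ k < m, σ k < M

/-- a system of edges in `U` -/
def Sy (D : SimpleGraph V) (U : Set V) (n : ℕ) (x y : ℕ → V) : Prop :=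
  IM D n x y ∧ ∀ i < n, x i ∈ U ∧ y i ∈ U

/-- **Classes**: `D[U]` is a disjoint union of cliques, a vertex outside misses less than `t` edges of every system
of edges of `U`, and there is a system of size `n` -/
structure UP (D : SimpleGraph V) (t n : ℕ) (U : Set V) : Prop where
  p3 : ∀ x ∈ U, ∀ y ∈ U, ∀ z ∈ U, D.Adj x y → D.Adj y z → x ≠ z → D.Adj x z
  big : ∀ v, v ∉ U → ∀ x y : ℕ → V, Sy D U t x y → ∃ i < t, D.Adj v (x i) ∨ D.Adj v (y i)
  sys : ∃ x y : ℕ → V, Sy D U n x y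

/-- there are two vertices outside `U` which are opposite at `h` edges -/
def OPP (D : SimpleGraph V) (h : ℕ) (U : Set V) : Prop :=
  ∃ (v w : V) (p q : ℕ → V), v ∉ U ∧ w ∉ U ∧ Sy D U h p q ∧
    ∀ i < h, ¬ D.Adj v (p i) ∧ D.Adj v (q i) ∧ D.Adj w (p i) ∧ ¬ D.Adj w (q i)

/-- `f` is a free vertex of `U` with partner `e` -/
def FP (D : SimpleGraph V) (U : Set V) (e f : V) : Prop :=
  e ∈ U ∧ f ∈ U ∧ D.Adj e f ∧ (∀ v, v ∉ U → D.Adj v f) ∧ ∀ u ∈ U, D.Adj u f → u = e

/-- the free vertices -/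
def FS (D : SimpleGraph V) (U : Set V) : Set V := {f | ∃ e, FP D U e f}

/-- their partners -/
def ES (D : SimpleGraph V) (U : Set V) : Set V := {e | ∃ f, FP D U e f}

/-- no adjacent twins -/
def TwF (D : SimpleGraph V) : Prop :=
  ∀ x y, D.Adj x y → ¬ ∀ z, z ≠ x → z ≠ y → (D.Adj x z ↔ D.Adj y z)

/-- the classes which are used (general form) -/
def GH (D : SimpleGraph V) (t h n : ℕ) (U : Set V) : Prop := UP D t n U ∧ ¬ OPP D h U

/-- the classes which are used for `K4:0,1` -/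
def Gd (D : SimpleGraph V) (t n : ℕ) (U : Set V) : Prop := GH D t t n U

/-- `e` is the partner in at least three classes -/
def Hv (D : SimpleGraph V) (t n : ℕ) (e : V) : Prop :=
  ∃ U₁ U₂ U₃ : Set V, Gd D t n U₁ ∧ Gd D t n U₂ ∧ Gd D t n U₃ ∧ U₁ ≠ U₂ ∧ U₁ ≠ U₃ ∧ U₂ ≠ U₃ ∧
    e ∈ ES D U₁ ∧ e ∈ ES D U₂ ∧ e ∈ ES D U₃

/-- the component of `x` in `D[U]` (`x ∈ U`) -/
def Cp (D : SimpleGraph V) (U : Set V) (x u : V) : Prop := u ∈ U ∧ (u = x ∨ D.Adj u x)

/-- every vertex outside `U` misses at most one vertex of the component of `x` -/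
def GC (D : SimpleGraph V) (U : Set V) (x : V) : Prop :=
  ∀ v, v ∉ U → ∀ a b, Cp D U x a → Cp D U x b → a ≠ b → D.Adj v a ∨ D.Adj v b

/-! ### The facts about `J_t` -/

/-- all blocks are vertices -/
def FjA (D : SimpleGraph V) (t : ℕ) : Prop := ∀ (a v b : V) (x y : ℕ → V), IM D t x y → D.Adj v a →
  D.Adj v b → a ≠ b → ¬ D.Adj a b →
  (∀ i < t, ¬ D.Adj a (x i) ∧ ¬ D.Adj a (y i) ∧ ¬ D.Adj v (x i) ∧ ¬ D.Adj v (y i) ∧
    ¬ D.Adj b (x i) ∧ ¬ D.Adj b (y i)) → False

/-- the centre is the block `{v, w}` -/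
def FjB (D : SimpleGraph V) (t : ℕ) : Prop := ∀ (a v w b : V) (x y : ℕ → V), IM D t x y → v ≠ w →
  ¬ D.Adj v w → D.Adj v a → D.Adj v b → D.Adj w a → D.Adj w b → a ≠ b → ¬ D.Adj a b →
  (∀ i < t, ¬ D.Adj a (x i) ∧ ¬ D.Adj a (y i) ∧ ¬ D.Adj b (x i) ∧ ¬ D.Adj b (y i) ∧
    (¬ D.Adj v (x i) ∨ ¬ D.Adj w (x i)) ∧ (¬ D.Adj v (y i) ∨ ¬ D.Adj w (y i))) → False

/-- a leaf is the block `{w, q 0}` -/
def FjC (D : SimpleGraph V) (t : ℕ) : Prop := ∀ (p q u : ℕ → V) (w : V), IM D (t + 2) p q →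
  IM D (t + 2) u p → (∀ i < t + 2, ∀ j < t + 2, D.Adj (u i) (q j)) →
  (∀ i < t + 2, D.Adj w (p i) ∧ ¬ D.Adj w (q i) ∧ ¬ D.Adj w (u i)) → False

/-- the edges `u_(i+1)`, `{p_(i+1), q_(i+2)}` -/
def FjD (D : SimpleGraph V) (t : ℕ) : Prop := ∀ (p q u : ℕ → V) (z : V), IM D (t + 2) p q →
  IM D (t + 2) u p → (∀ i < t + 2, ∀ j < t + 2, D.Adj (u i) (q j)) →
  (∀ i < t + 2, D.Adj z (p i) ∧ ¬ D.Adj z (q i) ∧ ¬ D.Adj z (u i)) → False

/-- a leaf is the block `{u 0, w, z}` -/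
def FjE (D : SimpleGraph V) (t : ℕ) : Prop := ∀ (p q u : ℕ → V) (w z : V), IM D (t + 2) p q →
  IM D (t + 2) u p → (∀ i < t + 2, ∀ j < t + 2, D.Adj (u i) (q j)) → z ≠ w → ¬ D.Adj z w →
  (∀ i < t + 2, D.Adj z (p i) ∧ D.Adj z (q i) ∧ ¬ D.Adj z (u i) ∧ D.Adj w (p i) ∧
    ¬ D.Adj w (q i)) → False

/-- no large co-matching of two independent sets -/
def FjF (D : SimpleGraph V) (t : ℕ) : Prop := ∀ a w : ℕ → V, Ind D ((t + 3) ^ 2) a →
  Ind D ((t + 3) ^ 2) w → Cam D ((t + 3) ^ 2) a w → False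

/-- what is used of the absence of `J_t` -/
structure JF (D : SimpleGraph V) (t : ℕ) : Prop where
  jA : FjA D t
  jB : FjB D t
  jC : FjC D t
  jD : FjD D t
  jE : FjE D t
  jF : FjF D t

/-! ### The facts about `K4:0,1` -/

/-- co-matching of an independent set `a` and a clique `v` -/
def FhS (D : SimpleGraph V) (N : ℕ) : Prop := ∀ a v : ℕ → V, Ind D N a → Clq D N v → Cam D N a v →
  False

/-- a clique `v` and a matching -/
def FhA (D : SimpleGraph V) (N : ℕ) : Prop := ∀ x y v : ℕ → V, IM D N x y → Clq D N v →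
  (∀ i < N, ∀ j < N, (D.Adj (v j) (x i) ↔ i < j) ∧ (D.Adj (v j) (y i) ↔ j < i)) → False

/-- the same with another diagonal -/
def FhB (D : SimpleGraph V) (N : ℕ) : Prop := ∀ x y v : ℕ → V, IM D N x y → Clq D N v →
  (∀ i < N, ∀ j < N, (D.Adj (v j) (x i) ↔ i < j) ∧ (D.Adj (v j) (y i) ↔ j ≤ i)) → False

/-- two adjacent vertices which disagree at `p, q`, and common neighbours in other components -/
def FhC (D : SimpleGraph V) (N : ℕ) : Prop := ∀ (v w p q : V) (e : ℕ → V), D.Adj v w → D.Adj p q →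
  ¬ D.Adj v p → D.Adj v q → D.Adj w p → ¬ D.Adj w q → Ind D N e → Inj N e →
  (∀ i < N, D.Adj v (e i) ∧ D.Adj w (e i) ∧ ¬ D.Adj (e i) p ∧ ¬ D.Adj (e i) q) → False

/-- a clique `u` matched to the `p i` -/
def FhD (D : SimpleGraph V) (N : ℕ) : Prop := ∀ p q u : ℕ → V, IM D N p q → Clq D N u →
  (∀ i < N, ∀ j < N, (D.Adj (u i) (p j) ↔ i = j) ∧ D.Adj (u i) (q j)) → False

/-- the last case of (5) -/
def FhE (D : SimpleGraph V) (N : ℕ) : Prop := ∀ (p q u : ℕ → V) (w z : V), IM D N p q → IM D N u p →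
  (∀ i < N, ∀ j < N, D.Adj (u i) (q j)) → D.Adj z w →
  (∀ i < N, D.Adj z (p i) ∧ D.Adj z (q i) ∧ ¬ D.Adj z (u i) ∧ D.Adj w (p i) ∧ ¬ D.Adj w (q i) ∧
    D.Adj w (u i)) → False

/-- an edge `y y'` with private neighbours and common neighbours `g i` -/
def FhF (D : SimpleGraph V) (N : ℕ) : Prop := ∀ (e e' y y' : V) (g : ℕ → V), e ≠ e' → ¬ D.Adj e e' →
  D.Adj y y' → ¬ D.Adj y e → D.Adj y e' → D.Adj y' e → ¬ D.Adj y' e' → Ind D N g → Inj N g →
  (∀ i < N, D.Adj y (g i) ∧ D.Adj y' (g i) ∧ ¬ D.Adj (g i) e ∧ ¬ D.Adj (g i) e') → False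

/-- what is used of the absence of `H`, first part (also true for `K3:0,1,02` without thin spiders) -/
structure HB (D : SimpleGraph V) (N : ℕ) : Prop where
  hS : FhS D N
  hA : FhA D N
  hB : FhB D N

/-- what is used of the absence of `H` (`K4:0,1`) -/
structure HF (D : SimpleGraph V) (N : ℕ) : Prop extends HB D N where
  hC : FhC D N
  hD : FhD D N
  hE : FhE D N
  hF : FhF D N

/-! ### 1. Models -/

/-- **JB.** A builder for models of `J_t`.

Proof. `B (inl none) = X 0`, `B (inl (some ⟨1, 0⟩)) = X 1`, `B (inl (some ⟨2, 0⟩)) = X 2`, `B (inr (i, false)) = Y i`,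
`B (inr (i, true)) = Z i`.  See `A0/PB.lean` (`aPBAux.cas`, `lf`, `spid01`, ...) for the case distinction over the
vertices of `JP t`: in `JP t` `none` is not adjacent to the two leaves, the leaves are adjacent, `(i, false)`,
`(i, true)` are not adjacent, all other pairs are adjacent. -/
def S_JB : Prop := ∀ (t : ℕ) (V : Type) (G : SimpleGraph V) (X Y Z : ℕ → Set V),
  (∀ a < 3, Conn G (X a)) → (∀ i < t, Conn G (Y i) ∧ Conn G (Z i)) →
  (∀ a < 3, ∀ b < 3, a ≠ b → Disjoint (X a) (X b)) →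
  (∀ a < 3, ∀ i < t, Disjoint (X a) (Y i) ∧ Disjoint (X a) (Z i)) →
  (∀ i < t, Disjoint (Y i) (Z i)) →
  (∀ i < t, ∀ j < t, i ≠ j → Disjoint (Y i) (Y j) ∧ Disjoint (Y i) (Z j) ∧ Disjoint (Z i) (Z j)) →
  ¬ Tch G (X 0) (X 1) → ¬ Tch G (X 0) (X 2) → Tch G (X 1) (X 2) →
  (∀ a < 3, ∀ i < t, Tch G (X a) (Y i) ∧ Tch G (X a) (Z i)) →
  (∀ i < t, ¬ Tch G (Y i) (Z i)) →
  (∀ i < t, ∀ j < t, i ≠ j → Tch G (Y i) (Y j) ∧ Tch G (Y i) (Z j) ∧ Tch G (Z i) (Z j)) →
  IMS (JP t) G Set.univ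

/-- **JAB.** The facts `FjA`, `FjB`.  (Uses `S_JB`.)

Proof. `G = Dᶜ`: `Dᶜ.Adj u v ↔ u ≠ v ∧ ¬ D.Adj u v`.  Y i = {x i}, Z i = {y i}.  FjA: `X 0 = {v}`, `X 1 = {a}`,
`X 2 = {b}`.  FjB: `X 0 = {v, w}` (connected: `Conn.pair`), `X 1 = {a}`, `X 2 = {b}`.  All the vertices are
different: `a ≠ x i` since `a ≁ y i`, `x i ~ y i`; `v ≠ x i` since `v ~ a`, `x i ≁ a`; the `x i`, `y i` by `IM`. -/
def S_JAB : Prop := S_JB → ∀ (t : ℕ) (V : Type) (D : SimpleGraph V), ¬ IMS (JP t) Dᶜ Set.univ →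
  FjA D t ∧ FjB D t

/-- **JCE.** The facts `FjC`, `FjD`, `FjE`.  (Uses `S_JB`.)

Proof. `G = Dᶜ`.  `X 0 = {p 0}` in all cases.
FjC: `X 1 = {w, q 0}`, `X 2 = {u 0}`, `Y i = {u (i + 1)}`, `Z i = {p (i + 1)}`.  (`w ≠ q 0`: `w ~ p 1`, `q 0 ≁ p 1`;
`X 1` touches `u 0`, `u (i + 1)` through `w` and `p (i + 1)` through `q 0`; `w ≠ u i`: `w ~ p j` for all `j`;
`q 0 ≠ u i` since `u i ~ q 0`.)
FjD: `X 1 = {u 0}`, `X 2 = {z}`, `Y i = {u (i + 1)}`, `Z i = {p (i + 1), q (i + 2)}` (connected: `p (i + 1) ≁ q (i + 2)`;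
all other sets touch it through `p (i + 1)`, `z` through `q (i + 2)`).
FjE: `X 1 = {q 0}`, `X 2 = {u 0, w, z}` (connected: `z ≁ u 0`, `z ≁ w`), `Y i = {p (i + 1)}`, `Z i = {q (i + 1)}`; `X 2`
touches `q j` through `w` and `p (i + 1)` through `u 0`. -/
def S_JCE : Prop := S_JB → ∀ (t : ℕ) (V : Type) (D : SimpleGraph V), ¬ IMS (JP t) Dᶜ Set.univ →
  FjC D t ∧ FjD D t ∧ FjE D t

/-- **JFF.** The fact `FjF`.  (Uses `S_JB`.)

Proof. `m = t + 3`.  For `i, j < m` let `ix i j = i * m + j < m ^ 2` (injective), and let `See i j` be the relation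
`j = 0 ∧ i ≤ 1 ∨ ∃ k < t, i = k + 2 ∧ j = k + 1`.  `A i = {a (ix i j) | j < m, ¬ See i j}` for `i ≤ t + 1` (contains
`a (ix i (t + 1))`), `B j = {w (ix i j) | i < m, ¬ See i j}` for `j ≤ t` (contains `w (ix (t + 2) j)`).  They are
connected in `Dᶜ` because all their pairs are `Dᶜ`-adjacent (the `a`'s are independent in `D` and different).  `A i`,
`A i'` (`i ≠ i'`) touch, `B j`, `B j'` too; `A i`, `B j` touch iff they have a common index iff `¬ See i j`
(`a k ~ w l` iff `k ≠ l`).  `X 0 = B 0`, `X 1 = A 0`, `X 2 = A 1`, `Y k = A (k + 2)`, `Z k = B (k + 1)`. -/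
def S_JFF : Prop := S_JB → ∀ (t : ℕ) (V : Type) (D : SimpleGraph V), ¬ IMS (JP t) Dᶜ Set.univ →
  FjF D t

/-- **HK.** The facts about `K4:0,1`.  (Uses `A0.S_M1`.)

Proof. `G = Dᶜ`.  First the lemma for vertices: if `y ~ y'`, `a, b, c, d` are different and pairwise non-adjacent,
`y` misses `a` and sees `b, c, d`, and `y'` misses `b` and sees `a, c, d`, then `S_M1` with `A = {a}`, `B = {b}`,
`C = {c}`, `D = {d}`, `P = {y}`, `Q = {y'}` gives `IMS K401 Dᶜ univ` (all vertices are different: `y ≠ a`: `y ~ b`,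
`a ≁ b`, ...).  FhS: `y = v 0`, `y' = v 1`, `a 0, a 1, a 2, a 3`.  FhA: `y = v 1`, `y' = v 3`, `x 1, y 2, x 0, y 4`.
FhB: `y = v 1`, `y' = v 3`, `x 1, y 2, x 0, y 3`.  FhD: `y = u 0`, `y' = u 1`, `p 1, p 0, q 2, q 3`.
(`HF D 8` is built as `{ hS := .., hA := .., hB := .., hC := .., .. }`.)
FhF: `y, y'`, `e, e', g 0, g 1`.
FhC: `S_M1` with `A = {p}`, `B = {q, e 0}`, `C = {e 1}`, `D = {e 2}`, `P = {v}`, `Q = {w}`.
FhE: `S_M1` with `A = {q 0, q 2}`, `B = {p 1, u 2}`, `C = {p 2}`, `D = {p 0}`, `P = {w}`, `Q = {z}`. -/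
def S_HK : Prop := S_M1 → ∀ (V : Type) (D : SimpleGraph V), ¬ IMS K401 Dᶜ Set.univ → HF D 8

/-! ### 2. Classes -/

/-- **U1.** The class of a matching.

Proof. Let `U` be the set; `v` touches the edge `i` if it sees `x i` or `y i`.  `x i`, `y i` touch only the edge `i`.
(1) A vertex which touches two edges `i ≠ j` misses (both ends of) less than `t` edges: otherwise enumerate `t` missed
edges (increasing) and use `jA` with `a ∈ {x i, y i}`, `b ∈ {x j, y j}` adjacent to `v`.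
(2) p3: otherwise `x, y, z` touch at most three edges, take `t` others: `jA` with `a = x`, `v = y`, `b = z`.
(3) big: suppose `v ∉ U` misses all `x' i`, `y' i`, `i < t`, a system in `U`.  By (1) `v` touches at least
`n - t + 1` edges of the matching; at most `2 t` edges are touched by the `x' i`, `y' i` (elements of `U`).  So
there are two edges which are touched by `v` and not touched by these; let `a`, `b` be ends adjacent to `v`:
`jA` with `x', y'` (`a ≠ x' i` since `v ~ a`, `v ≁ x' i`). -/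
def S_U1 : Prop := ∀ t n : ℕ, 3 * t + 3 ≤ n → ∀ (V : Type) (D : SimpleGraph V), JF D t →
  ∀ x y : ℕ → V, IM D n x y → UP D t n {v | (Jt D n x y v).card ≤ 1} ∧
    ∀ i < n, (Jt D n x y (x i)).card ≤ 1 ∧ (Jt D n x y (y i)).card ≤ 1

/-- **U2.** Uniqueness of the class.

Proof. By symmetry it is enough to show `U ⊆ U'`.  Let `v ∈ U`, `v ∉ U'`.  `v` touches at most one of the edges: if it
sees an end of the edges `i ≠ j`, then these ends are equal or adjacent by `p3` (`U`), but they are different and not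
adjacent.  So `v` misses both ends of `t` edges, which are a system in `U'`: `big` (`U'`) is contradicted. -/
def S_U2 : Prop := ∀ (t n : ℕ) (V : Type) (D : SimpleGraph V) (U U' : Set V), UP D t n U →
  UP D t n U' → ∀ x y : ℕ → V, Sy D U (t + 1) x y → Sy D U' (t + 1) x y → U = U'

/-- **Ba.** No large matching of missed pairs.  (Uses `W.S_RamC`.)

Proof. `m` = the number of `S_RamC` for the colours `Fin 6 → Bool` and `m₀ = (t + 3) ^ 2 + N + 5`;
`χ i j = (v i = v j, v i ~ v j, v j ~ x i, v j ~ y i, v i ~ x j, v i ~ y j)`; let `s` be the homogeneous sequence, of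
colour `(ε, η, α, α', β, β')`, and write `i` for `s i`.  (a) `ε`: `v 0` misses all edges: `big`.  So the `v i` are
different.  (b) `α = α' = 0`: the last `v` misses all earlier edges: `big`; `β = β' = 0`: the first one.
(c) `α = β = 1`: `x i ~ v j` iff `i ≠ j`: `jF` if `η = 0`, `hS` if `η = 1`.  `α' = β' = 1`: the same for `y`.
(d) `α = 1`, `β = 0` (so `β' = 1`, `α' = 0`): `v j ~ x i` iff `i < j`, `v j ~ y i` iff `j < i`.  `η = 1`: `hA`.
`η = 0`: `jB` with the block `{v 2, v (t + 2)}`, `a = x 0`, `b = x 1`, and the edges `2 ≤ i < t + 2` (`t = 0`: (a) or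
`big` is enough, because then nothing is outside `U`; for `t ≥ 1` `v 2 ≠ v (t + 2)`).
(e) `α = 0`, `β = 1` (so `α' = 1`, `β' = 0`): (d) with `x` and `y` exchanged. -/
def S_Ba : Prop := W.S_RamC → ∀ t N : ℕ, ∃ m : ℕ, ∀ (V : Type) (D : SimpleGraph V), JF D t →
  HB D N → ∀ (n : ℕ) (U : Set V), UP D t n U → ∀ x y v : ℕ → V, Sy D U m x y →
    (∀ k < m, v k ∉ U ∧ ¬ D.Adj (v k) (x k) ∧ ¬ D.Adj (v k) (y k)) → False

/-- **Ch.** Many missed vertices give one vertex which misses many.  (Uses `W.S_RamC`.)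

Proof. `M` = the number of `S_RamC` for the colours `Fin 6 → Bool` and `m₀ = (t + 3) ^ 2 + N + 5 + m`; `χ`, `s` and the
colour `(ε, η, α, α', β, β')` as in `S_Ba`, write `i` for `s i`.  On the diagonal `v i` misses `x i` and sees `y i`.
(a) `ε`: `k₀ = s 0`, `σ = s`.  (b), (c) as in `S_Ba`; (c) for `x` only.
(d) `α' = 0` (so `α = 1`, and `β = 0` by (c), so `β' = 1`): `v j ~ x i` iff `i < j`, `v j ~ y i` iff `j ≤ i`.
`η = 1`: `hB`.  `η = 0`: `jB` with the block `{v 2, v (t + 2)}`, `a = x 0`, `b = x 1`, and the edges `2 ≤ i < t + 2`.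
(e) `β' = 0`: the same with the reversed order (replace the index `i` by `m₀ - 1 - i`).
(f) `α' = β' = 1`: all `v i` see all `y j`.  By (c) `β = 0` (then `v (s 0)` misses all `x (s j)`: `k₀ = s 0`) or `α = 0`
(then `k₀ = s (m₀ - 1)`); `σ = s`. -/
def S_Ch : Prop := W.S_RamC → ∀ t N m : ℕ, ∃ M : ℕ, ∀ (V : Type) (D : SimpleGraph V), JF D t →
  HB D N → ∀ (n : ℕ) (U : Set V), UP D t n U → ∀ x y v : ℕ → V, Sy D U M x y →
    (∀ k < M, v k ∉ U ∧ ¬ D.Adj (v k) (x k) ∧ D.Adj (v k) (y k)) →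
    ∃ (k₀ : ℕ) (σ : ℕ → ℕ), k₀ < M ∧ Incr m M σ ∧
      ∀ k < m, ¬ D.Adj (v k₀) (x (σ k)) ∧ D.Adj (v k₀) (y (σ k))

/-- **Pr.** Two vertices which disagree at `t` edges have no `N + 2` common neighbours in other components.

Proof. `v ~ w`: `hC` with `p 0`, `q 0` and `e`.  `v ≁ w`: `jB` with the block `{v, w}`, `a = e 0`, `b = e 1` and the edges
`p i, q i`. -/
def S_Pr : Prop := ∀ (t N : ℕ) (V : Type) (D : SimpleGraph V), 1 ≤ t → JF D t → HF D N →
  ∀ (v w : V) (p q e : ℕ → V), v ≠ w → IM D t p q →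
    (∀ i < t, ¬ D.Adj v (p i) ∧ D.Adj v (q i) ∧ D.Adj w (p i) ∧ ¬ D.Adj w (q i)) →
    Ind D (N + 2) e → Inj (N + 2) e → (∀ i < N + 2, D.Adj v (e i) ∧ D.Adj w (e i)) →
    (∀ i < N + 2, ∀ j < t, ¬ D.Adj (e i) (p j) ∧ ¬ D.Adj (e i) (q j)) → False

/-- **Fr.** Free pairs.  (Uses `W.S_RamC`, `S_Ba`, `S_Ch`.)

Proof. `m₁` from Ba; `M₂` from Ch for `m = h`, `M₃` from Ch for `m = M₂`; `b = m₁ + M₃`.  Suppose that no pair is free.
`L k` = the component of `x k` in `D[U]` (`Cp D U (x k)`; a clique by `p3`; the `L k` are pairwise disjoint and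
anticomplete; `x k, y k ∈ L k`).  CLAIM: for every `k` (A) some `v ∉ U` misses two different elements `a, a'` of
`L k`, or (B) there are `a ≠ a'` in `L k` and `v, w ∉ U`, `v` misses `a` and sees `a'`, `w` misses `a'` and sees `a`.
Otherwise at most one element of `L k` is missed by vertices outside `U`.  If `L k` has three elements, two of them
are seen by all vertices outside `U`: they are adjacent twins (`TwF`).  If `L k = {x k, y k}`, then one of them is seen by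
all vertices outside: it is free.
If (A) is true for `m₁` indices: the pairs `a, a'` (adjacent; a system in `U`) contradict Ba.  Otherwise (B) is true
for `M₃` indices; Ch for `a, a', v` gives `v' = v k₀` which misses `M₂` of the `a`'s and sees the `a'`'s (on a
subsystem); Ch for `a', a, w` on this subsystem gives `w'` which misses `h` of the `a'` and sees the `a`: this is
`OPP`. -/
def S_Fr : Prop := W.S_RamC → S_Ba → S_Ch → ∀ t N h : ℕ, ∃ b : ℕ, ∀ (V : Type)
  (D : SimpleGraph V), JF D t → HB D N → TwF D → ∀ (n : ℕ) (U : Set V), UP D t n U →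
    ¬ OPP D h U → ∀ x y : ℕ → V, Sy D U b x y → ∃ k < b, FP D U (x k) (y k) ∨ FP D U (y k) (x k)

/-! ### 3. Families -/

/-- what is used in the sections 3 and 4, first part -/
structure EnvB (D : SimpleGraph V) (t h N n : ℕ) : Prop where
  tw : TwF D
  mf : ∀ U, GH D t h n U → ∃ e f : ℕ → V, Inj (N + 6) f ∧ ∀ i < N + 6, FP D U (e i) (f i)
  sub : ∀ U U' : Set V, GH D t h n U → GH D t h n U' → U' ⊆ U → U' = U

/-- what is used in the sections 3 and 4 -/
structure Env (D : SimpleGraph V) (t N n : ℕ) : Prop extends EnvB D t t N n where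
  hf : HF D N

/-- **F0.** Elementary facts about free pairs.

Proof. (1) `e' ∈ U` sees `f`, so `e' = e`.  (2) If `f ≠ f'`: `f ~ e ~ f'`, so `f ~ f'` (`p3`), so `f' = e` (free): `e ~ e`.
(3) If `e` is free, `FP D U e' e`: `f ~ e` gives `f = e'`.  Then `e` and `f` are adjacent twins: a vertex outside `U`
sees both; a vertex `u ∈ U` which sees `e` is `f`, and if it sees `f` it is `e`.  (4) `f ~ f'`: `f'` is in `U`, so
`f' = e` is the partner of `f`, against (3). -/
def S_F0 : Prop := ∀ (t n : ℕ) (V : Type) (D : SimpleGraph V) (U : Set V), UP D t n U →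
  (∀ e e' f, FP D U e f → FP D U e' f → e = e') ∧ (∀ e f f', FP D U e f → FP D U e f' → f = f') ∧
  (TwF D → (∀ e ∈ ES D U, e ∉ FS D U) ∧ ∀ f ∈ FS D U, ∀ f' ∈ FS D U, ¬ D.Adj f f')

/-- the conclusion of `S_Fr` -/
def C_Fr : Prop := ∀ t N h : ℕ, ∃ b : ℕ, ∀ (V : Type) (D : SimpleGraph V),
  JF D t → HB D N → TwF D → ∀ (n : ℕ) (U : Set V), UP D t n U → ¬ OPP D h U →
    ∀ x y : ℕ → V, Sy D U b x y → ∃ k < b, FP D U (x k) (y k) ∨ FP D U (y k) (x k)

/-- **Mf.** `EnvB`.  (Uses `S_U2`, `C_Fr`.)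

Proof. `n₀ = b + N + 6 + t + 1` with `b` from Fr.  mf: let `x, y` be the system of `U` (`sys`, size `n`); the set
of the `k < n` such that `x k, y k` (in some order) is a free pair has at least `N + 6` elements: otherwise
there are `b` other indices, enumerate them and use Fr.  Enumerate `N + 6` of them; `f i` = the free vertex
(they are different since they are in different edges of the matching).  sub: the system of `U'` (its first `t + 1`
edges) is a system in `U` too: U2. -/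
def S_Mf : Prop := S_U2 → C_Fr → ∀ t N h : ℕ, ∃ n₀ : ℕ, ∀ n : ℕ, n₀ ≤ n → ∀ (V : Type)
  (D : SimpleGraph V), JF D t → HB D N → TwF D → EnvB D t h N n

/-- **F2.** Free vertices of another class are outside.  (Uses `S_F0`.)

Proof. (1) If two different free vertices `f₁, f₂` of `U` are in `U'`, then `U' ⊆ U`, so `U' = U` (`sub`): a vertex
`z ∈ U'`, `z ∉ U` sees `f₁` and `f₂`, so `f₁ ~ f₂` (`p3` for `U'`), against F0 (4).
(2) Let `f ∈ FS D U'` and `f ∈ U`.  By (1) at most one of the free vertices of `U` (`mf`: at least six) is in `U'`; the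
other ones are outside `U'`, so `f` sees them.  Two of them, `f₁ ≠ f₂`, are in `U` and `f ∈ U`: `f₁ ~ f₂` by `p3`, against
F0 (4). -/
def S_F2 : Prop := S_F0 → ∀ (t h N n : ℕ) (V : Type) (D : SimpleGraph V), EnvB D t h N n →
  ∀ U U' : Set V, GH D t h n U → GH D t h n U' → U ≠ U' → ∀ f ∈ FS D U', f ∉ U

/-- **F3.** Triples of classes.  (Uses `S_F0`, `S_F2`.)

Proof. There is `y ∈ FS D U₁` which sees `e'` and misses `e`: if `e' ∈ ES D U₁` the partner of `e'` (it sees in `U₁` only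
`e'`, and `e ∈ U₁`, `e ≠ e'`).  If `e' ∉ U₁` all free vertices of `U₁` see `e'`; take one which does not see `e` (at most
one of them sees `e ∈ U₁`, by F0 (2)).  In the same way `y' ∈ FS D U₂` sees `e` and misses `e'`.
`y ∉ U₂` (F2), so `y ~ y'`.  `y, y' ∉ U` (F2), so they see all free vertices of `U`.  Among the `N + 6` free vertices of
`mf` at most two see `e` or `e'` (F0 (2)); take `N` others as `g i`: `hF` (independent by F0 (4)). -/
def S_F3 : Prop := S_F0 → S_F2 → ∀ (t N n : ℕ) (V : Type) (D : SimpleGraph V), Env D t N n →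
  ∀ U U₁ U₂ : Set V, Gd D t n U → Gd D t n U₁ → Gd D t n U₂ → U ≠ U₁ → U ≠ U₂ → U₁ ≠ U₂ →
    ∀ e e' : V, e ∈ U → e' ∈ U → e ≠ e' → ¬ D.Adj e e' → e ∈ U₁ → (e' ∉ U₁ ∨ e' ∈ ES D U₁) →
      e' ∈ U₂ → (e ∉ U₂ ∨ e ∈ ES D U₂) → False

/-- **F4.** Every class has at most one heavy partner.  (Uses `S_F0`, `S_F3`.)

Proof. Suppose `e ≠ e'`.  `e ≁ e'`: if `f` is the partner of `e` in `U`, `f ~ e ~ e'` gives `f ~ e'` or `f = e'`; the
first one gives `e' = e`, the second one contradicts F0 (3).  There are classes `U₁ ≠ U₂`, different from `U`, with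
`e ∈ ES` of both, and `A ≠ B`, different from `U`, with `e' ∈ ES` of both.  (`ES D U ⊆ U`.)
Call a class `W ≠ U` of type 1 if `e ∈ W` and (`e' ∉ W` or `e' ∈ ES D W`), of type 2 if `e' ∈ W` and (`e ∉ W` or
`e ∈ ES D W`).  By F3 there are no two different classes of type 1 and 2.  Each of `U₁, U₂` is of type 1 or 2 (type 2
if `e' ∈ W`), each of `A, B` too.  So all four have only type 1 or all have only type 2.
(i) Only type 1: `e' ∉ U₁` (otherwise `U₁` is of type 2) and `e ∈ A`.  `A ≠ U₁`.  F3 for `A` in the place of `U`, with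
the classes `U₁` (for `e`: `e ∈ U₁`, `e' ∉ U₁`) and `U` (for `e'`: `e' ∈ U`, `e ∈ ES D U`).
(ii) Only type 2: `e ∉ A` and `e' ∈ U₁`; F3 for `U₁` in the place of `U`, with the classes `U` (for `e`: `e ∈ U`,
`e' ∈ ES D U`) and `A` (for `e'`: `e' ∈ A`, `e ∉ A`). -/
def S_F4 : Prop := S_F0 → (∀ (t N n : ℕ) (V : Type) (D : SimpleGraph V), Env D t N n →
    ∀ U U₁ U₂ : Set V, Gd D t n U → Gd D t n U₁ → Gd D t n U₂ → U ≠ U₁ → U ≠ U₂ → U₁ ≠ U₂ →
      ∀ e e' : V, e ∈ U → e' ∈ U → e ≠ e' → ¬ D.Adj e e' → e ∈ U₁ → (e' ∉ U₁ ∨ e' ∈ ES D U₁) →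
        e' ∈ U₂ → (e ∉ U₂ ∨ e ∈ ES D U₂) → False) →
  ∀ (t N n : ℕ) (V : Type) (D : SimpleGraph V), Env D t N n → ∀ U : Set V, Gd D t n U →
    ∀ e ∈ ES D U, ∀ e' ∈ ES D U, Hv D t n e → Hv D t n e' → e = e'

/-- **F5.** (Uses `S_F0`, `S_F2`, `S_F3`.)

Proof. `e₁ ≁ e₂`: otherwise, with the partner `f₁` of `e₁` in `U₁`, `f₁ ~ e₁ ~ e₂` gives `f₁ = e₂` (then `e₂ ∈ FS D U₁` and
`e₂ ∈ U₂`, against F2) or `f₁ ~ e₂`, so `e₂ = e₁`.  F3 for `U₃` in the place of `U` and `e = e₂`, `e' = e₁`: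
`e₂ ∈ U₁`, `e₁ ∈ ES D U₁`, `e₁ ∈ U₂`, `e₂ ∈ ES D U₂`. -/
def S_F5 : Prop := S_F0 → S_F2 → S_F3 → ∀ (t N n : ℕ) (V : Type) (D : SimpleGraph V), Env D t N n →
  ∀ U₁ U₂ U₃ : Set V, Gd D t n U₁ → Gd D t n U₂ → Gd D t n U₃ → U₁ ≠ U₂ → U₁ ≠ U₃ → U₂ ≠ U₃ →
    ∀ e₁ ∈ ES D U₁, ∀ e₂ ∈ ES D U₂, e₁ ≠ e₂ → e₁ ∈ U₂ → e₁ ∈ U₃ → e₂ ∈ U₁ → e₂ ∈ U₃ → False

/-! ### 4. The removal -/

/-- two representatives of every class, with partners which are not heavy -/
def Rp (D : SimpleGraph V) (t n : ℕ) (r₁ r₂ : Set V → V) : Prop := ∀ U, Gd D t n U → r₁ U ≠ r₂ U ∧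
  (∃ e, FP D U e (r₁ U) ∧ ¬ Hv D t n e) ∧ ∃ e, FP D U e (r₂ U) ∧ ¬ Hv D t n e

/-- the vertices which are kept -/
def Sg (D : SimpleGraph V) (t n : ℕ) (r₁ r₂ : Set V → V) : Set V :=
  {v | ∀ U, Gd D t n U → v ∈ FS D U → v = r₁ U ∨ v = r₂ U}

/-- the places of the other vertices -/
def IsPi (D : SimpleGraph V) (t n : ℕ) (r₁ r₂ : Set V → V) (π : V → V) : Prop :=
  (∀ v ∉ Sg D t n r₁ r₂, ∃ U e, Gd D t n U ∧ FP D U e v) ∧
  ∀ v ∉ Sg D t n r₁ r₂, ∀ U e, Gd D t n U → FP D U e v →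
    (Hv D t n e → π v = r₁ U) ∧ (¬ Hv D t n e → π v = e)

/-- `A` with all vertices placed in it -/
def hat (S : Set V) (π : V → V) (A : Set V) : Set V := A ∪ {v | v ∉ S ∧ π v ∈ A}

/-- `U` is split by `A, A'` -/
def Bd (D : SimpleGraph V) (t n : ℕ) (r₁ r₂ : Set V → V) (A A' : Set V) : Set (Set V) :=
  {U | Gd D t n U ∧ ¬ (r₁ U ∈ A ∧ r₂ U ∈ A ∧ ∀ e ∈ ES D U, ¬ Hv D t n e → e ∈ A) ∧
    ¬ (r₁ U ∈ A' ∧ r₂ U ∈ A' ∧ ∀ e ∈ ES D U, ¬ Hv D t n e → e ∈ A')}

/-- the heavy vertices in `A` which are partners in a class with `r₁ U ∈ A'` -/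
def Hs (D : SimpleGraph V) (t n : ℕ) (r₁ : Set V → V) (A A' : Set V) : Set V :=
  {e | e ∈ A ∧ Hv D t n e ∧ ∃ U, Gd D t n U ∧ e ∈ ES D U ∧ r₁ U ∈ A'}

/-- `S` is the disjoint union of `A`, `A'` -/
def Pt (S A A' : Set V) : Prop := A ∪ A' = S ∧ Disjoint A A'

/-- the conclusion of `S_F4` -/
def C_F4 : Prop := ∀ (t N n : ℕ) (V : Type) (D : SimpleGraph V), Env D t N n → ∀ U : Set V,
  Gd D t n U → ∀ e ∈ ES D U, ∀ e' ∈ ES D U, Hv D t n e → Hv D t n e' → e = e'

/-- the conclusion of `S_F2` -/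
def C_F2 : Prop := ∀ (t h N n : ℕ) (V : Type) (D : SimpleGraph V), EnvB D t h N n →
  ∀ U U' : Set V, GH D t h n U → GH D t h n U' → U ≠ U' → ∀ f ∈ FS D U', f ∉ U

/-- the conclusion of `S_F5` -/
def C_F5 : Prop := ∀ (t N n : ℕ) (V : Type) (D : SimpleGraph V), Env D t N n →
  ∀ U₁ U₂ U₃ : Set V, Gd D t n U₁ → Gd D t n U₂ → Gd D t n U₃ → U₁ ≠ U₂ → U₁ ≠ U₃ → U₂ ≠ U₃ →
    ∀ e₁ ∈ ES D U₁, ∀ e₂ ∈ ES D U₂, e₁ ≠ e₂ → e₁ ∈ U₂ → e₁ ∈ U₃ → e₂ ∈ U₁ → e₂ ∈ U₃ → False

/-- **Rp.** Existence of representatives.  (Uses `S_F0`, `C_F4`.)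

Proof. For a class `U` with `Gd` take `mf`: `N + 6 ≥ 6` different free vertices with different partners (F0 (2)).  At
most one partner is heavy (`C_F4`), so two of them have partners which are not heavy.  For the other sets `U` take
`Classical.arbitrary V` (use `Classical.choice` / `choose` for the first ones). -/
def S_Rp : Prop := S_F0 → C_F4 → ∀ (t N n : ℕ) (V : Type) [Nonempty V] (D : SimpleGraph V),
  Env D t N n → ∃ r₁ r₂ : Set V → V, Rp D t n r₁ r₂

/-- **Pi.** The places.  (Uses `S_F0`, `C_F2`, `C_F4`.)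

Proof. A vertex is free in at most one class (C_F2: `f ∈ FS D U' → f ∉ U`, but `FS D U ⊆ U`), with one partner
(F0 (1)): this defines `π` (`π v = v` if `v` is not free).  (1), (2) by definition of `Sg`.
(3) If `π v = e`: `e` is not free in any class (F0 (3) for the class `U` of `v`; for `U' ≠ U` C_F2 gives `e ∉ U`, but
`e ∈ U`), so `e ∈ Sg`.  If `π v = r₁ U`: `r₁ U` is free only in the class `U`, so it is in `Sg`.
(4) Let `π a = π b = π c = p`.  If `p` is free (in exactly one class `U`), then `p` is not a partner, so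
`p = r₁ U_a`, `U_a = U` and the same for `b, c`; the partners of `a` and `b` are heavy elements of `ES D U`, so they
are equal (`C_F4`), `a = b` (F0 (2)).  Otherwise `p` is the partner of `a, b, c` in the classes `U_a, U_b, U_c` and not
heavy; so two of the classes are equal, and F0 (2). -/
def S_Pi : Prop := S_F0 → C_F2 → C_F4 → ∀ (t N n : ℕ) (V : Type) (D : SimpleGraph V), Env D t N n →
  ∀ r₁ r₂ : Set V → V, Rp D t n r₁ r₂ → ∃ π : V → V, IsPi D t n r₁ r₂ π ∧
    (∀ v ∉ Sg D t n r₁ r₂, π v ∈ Sg D t n r₁ r₂) ∧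
    ∀ a ∉ Sg D t n r₁ r₂, ∀ b ∉ Sg D t n r₁ r₂, ∀ c ∉ Sg D t n r₁ r₂, π a = π b → π b = π c →
      a = b ∨ b = c ∨ a = c

/-- **TR.** Few traces if the rank is small.

Proof. The trace `{b | b ∈ B ∧ a ~ b}` is the support of `LK.row G B a`, an element of the span of `row G B '' A`,
which has `2 ^ rk` elements (`Module.card_eq_pow_finrank`); compare `L4/A3.lean`. -/
def S_TR : Prop := ∀ (V : Type) [Finite V] (G : SimpleGraph V) (A B : Set V),
  (Tr G A B).encard ≤ ((2 ^ LK.rk G A B : ℕ) : ℕ∞)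

/-- **CN.** The main estimate.  (Uses `W.S_RamC`, `S_TR`, `S_F0`, `C_F5`.)

Proof. `G₁` = the number of `S_RamC` for the colours `Bool × Bool` and `m = 2 ^ c + 5`.  Suppose `l > G₁`;
`χ i j = (r i ~ e j, r j ~ e i)`; let `s` be homogeneous, and write `i` for `s i`, `i < m`.  `r i ≁ e i`: `e i ∈ U i` is
the partner of `f i ≠ r i` (F0 (2)).  If the colour is not `(false, false)` then the traces of the `r i`,
`i < m - 1`, on `A'` are different (`(true, true)`: `r i` misses exactly `e i`; `(true, false)`: `r i ~ e j` iff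
`i < j`; `(false, true)`: iff `j < i`, use `1 ≤ i`), more than `2 ^ c`: against TR.  Otherwise `r i ≁ e j` for all
`i, j < m`; `r i` is free in `U i`, so `e j ∈ U i` for all `i, j`: `C_F5` for `U 0, U 1, U 2`, `e 0, e 1`. -/
def S_CN : Prop := W.S_RamC → S_TR → S_F0 → C_F5 → ∀ c : ℕ, ∃ G₁ : ℕ, ∀ (t N n : ℕ) (V : Type)
  [Finite V] (D : SimpleGraph V), Env D t N n → ∀ A A' : Set V, LK.rk D A A' ≤ c →
    ∀ (l : ℕ) (U : ℕ → Set V) (r e f : ℕ → V), (∀ i < l, Gd D t n (U i)) →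
      (∀ i < l, ∀ j < l, U i = U j → i = j) → Inj l e →
      (∀ i < l, r i ∈ FS D (U i) ∧ FP D (U i) (e i) (f i) ∧ f i ≠ r i ∧ r i ∈ A ∧ e i ∈ A') →
      l ≤ G₁

/-- the conclusion of `S_CN` -/
def C_CN (c G₁ : ℕ) : Prop := ∀ (t N n : ℕ) (V : Type) [Finite V] (D : SimpleGraph V),
  Env D t N n → ∀ A A' : Set V, LK.rk D A A' ≤ c →
    ∀ (l : ℕ) (U : ℕ → Set V) (r e f : ℕ → V), (∀ i < l, Gd D t n (U i)) →
      (∀ i < l, ∀ j < l, U i = U j → i = j) → Inj l e →
      (∀ i < l, r i ∈ FS D (U i) ∧ FP D (U i) (e i) (f i) ∧ f i ≠ r i ∧ r i ∈ A ∧ e i ∈ A') →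
      l ≤ G₁

/-- **BN.** Few classes are split.  (Uses `S_F0`, `C_F4`.)

Proof. Let `U ∈ Bd`.  CLAIM: there are `r ∈ {r₁ U, r₂ U}` and `e ∈ ES D U`, not heavy, `e` not the partner of `r`, on
different sides (one in `A`, one in `A'`).  (`r₁ U, r₂ U` and all partners are in `Sg`, so in `A` or in `A'`; for
the partners see the proof of Pi: this is the hypothesis `hes`.)  Otherwise: by `mf` and C_F4 there are at least
five partners which are not heavy; one of them is not the partner of `r₁ U`, `r₂ U`, so `r₁ U` and `r₂ U` are on its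
side; the partner of `r₁ U` is not the one of `r₂ U`, so it is on this side, too; so everything is on
one side, against `U ∈ Bd`.
If `Bd` has more than `4 * G₁ + 3` elements, then more than `2 * G₁ + 1` of them have `r ∈ A`, `e ∈ A'` or more than
`2 * G₁ + 1` have `r ∈ A'`, `e ∈ A`; every `e` occurs at most twice (not heavy), so there are `G₁ + 1` classes
with different `e`: `C_CN` (for `A', A` use the symmetry of the rank). -/
def S_BN : Prop := S_F0 → C_F4 → ∀ c G₁ : ℕ, C_CN c G₁ → ∀ (t N n : ℕ) (V : Type) [Finite V]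
  (D : SimpleGraph V), Env D t N n → ∀ r₁ r₂ : Set V → V, Rp D t n r₁ r₂ →
    (∀ U, Gd D t n U → ∀ e ∈ ES D U, e ∈ Sg D t n r₁ r₂) →
    (∀ U, Gd D t n U → r₁ U ∈ Sg D t n r₁ r₂ ∧ r₂ U ∈ Sg D t n r₁ r₂) →
    ∀ A A' : Set V, Pt (Sg D t n r₁ r₂) A A' → LK.rk D A A' ≤ c →
      (Bd D t n r₁ r₂ A A').ncard ≤ 4 * G₁ + 4

/-- **HN.** Few heavy vertices are cut off.  (Uses `S_F0`, `C_F4`.)

Proof. Otherwise take `G₁ + 1` different `e i ∈ Hs` with classes `U i`; the `U i` are different (`C_F4`).  `f i` = the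
free vertex with partner `e i`; `f i ≠ r₁ (U i)` because the partner of `r₁ (U i)` is not heavy.  `C_CN` with
`r i = r₁ (U i) ∈ A'`, `e i ∈ A`, and the symmetry of the rank. -/
def S_HN : Prop := S_F0 → C_F4 → ∀ c G₁ : ℕ, C_CN c G₁ → ∀ (t N n : ℕ) (V : Type) [Finite V]
  (D : SimpleGraph V), Env D t N n → ∀ r₁ r₂ : Set V → V, Rp D t n r₁ r₂ →
    ∀ A A' : Set V, LK.rk D A A' ≤ c → (Hs D t n r₁ A A').ncard ≤ G₁

/-- **Co.** The columns of the removed vertices.  (Uses `S_F0`.)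

Proof. Let `X' = X \ Hs`, and let `f ∈ hat A'`, `f ∉ A'`: `f ∉ Sg`, `π f ∈ A'`, `f` free in `U` with partner `e`.
For `z ≠ f`: `z ~ f` iff `z ∉ U ∨ z = e`.
(1) `U ∉ Bd`.  Then `r₁ U`, `r₂ U` and the partners which are not heavy are all in `A` or all in `A'`; `π f` is `r₁ U` or
a partner which is not heavy, so they are in `A'`.  `e₁` = the partner of `r₁ U` is in `A'`.  If `z ∈ X'` then
`z ∈ hat A`, so `z ∉ A'`, `z ≠ e₁`, `z ≠ r₁ U`, and `z ≠ e`: if `e` is not heavy `e ∈ A'`; if `e` is heavy and in `A` then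
`e ∈ Hs` (`z = e` would be in `Hs`; and if `e ∉ A` then `e ∉ hat A` unless `e ∉ Sg`; but `e ∈ Sg` by `hes`).
So `z ~ f` iff `z ∉ U` iff `z ~ r₁ U`.  (2) `U ∈ Bd`: in the same way `z ~ f` iff `z ∉ U` for `z ∈ X'` (if `e` is not
heavy `e = π f ∈ A'`; otherwise `r₁ U = π f ∈ A'`, so `e ∈ A` gives `e ∈ Hs`).
Let `Z₁, Z₂` be the sets of the `f` of kind (1), (2).  `rk X (hat A') ≤ rk X' (hat A') + |Hs|` (`rk_union`, `rk_card`).
`rk X' (hat A') ≤ rk X' (A' ∪ Z₁) + rk X' Z₂`.  The rows (after exchanging the sides, `rk_symm`) of `Z₁` on `X'` are rows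
of elements of `A'`, so `rk X' (A' ∪ Z₁) = rk X' A'` (the spans are equal); the rows of `Z₂` on `X'` are the
indicators of the sets `Uᶜ ∩ X'`, `U ∈ Bd`: `rk ≤ |Bd|` (`(LK.a1 V D).2.2.2.2.2`). -/
def S_Co : Prop := S_F0 → ∀ (t N n : ℕ) (V : Type) [Finite V] (D : SimpleGraph V), Env D t N n →
  ∀ (r₁ r₂ : Set V → V) (π : V → V), Rp D t n r₁ r₂ → IsPi D t n r₁ r₂ π →
    (∀ U, Gd D t n U → ∀ e ∈ ES D U, e ∈ Sg D t n r₁ r₂) →
    ∀ A A' : Set V, Pt (Sg D t n r₁ r₂) A A' → ∀ X ⊆ hat (Sg D t n r₁ r₂) π A,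
      LK.rk D X (hat (Sg D t n r₁ r₂) π A') ≤
        LK.rk D X A' + (Bd D t n r₁ r₂ A A').ncard + (Hs D t n r₁ A A').ncard

/-- **Cu.** The cut lemma.  (Uses `S_F0`, `C_F2`, `C_F4`, `∀ c, ∃ G₁, C_CN c G₁`, `S_BN`, `S_HN`, `S_Co`.)

Proof. `hes`: all partners are in `Sg`, and the `r₁ U, r₂ U` too (see the proof of `S_Pi`, (3)).  Co with `X = hat A`:
`rk (hat A) (hat A') ≤ rk (hat A) A' + (4 G₁ + 4) + G₁`; `rk (hat A) A' = rk A' (hat A)`, and Co for the pair `A', A`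
with `X = A' ⊆ hat A'`: `≤ rk A' A + (4 G₁ + 4) + G₁`.  `g = c + 10 G₁ + 8`. -/
def S_Cu : Prop := S_F0 → C_F2 → C_F4 → (∀ c, ∃ G₁, C_CN c G₁) → S_BN → S_HN → S_Co →
  ∀ c : ℕ, ∃ g : ℕ, ∀ (t N n : ℕ) (V : Type) [Finite V] (D : SimpleGraph V), Env D t N n →
    ∀ (r₁ r₂ : Set V → V) (π : V → V), Rp D t n r₁ r₂ → IsPi D t n r₁ r₂ π →
      ∀ A A' : Set V, Pt (Sg D t n r₁ r₂) A A' → LK.rk D A A' ≤ c →
        LK.rk D (hat (Sg D t n r₁ r₂) π A) (hat (Sg D t n r₁ r₂) π A') ≤ g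

/-! ### 5. Layouts and `Link` -/

/-- **RI.** The rank in an induced subgraph.

Proof. The restriction of functions `V → ZMod 2` to `S` maps `row D (val '' B) (val a)` to `row (D.induce S) B a`, and it
is injective on the functions which vanish outside `S`; so the spans have the same dimension. -/
def S_RI : Prop := ∀ (V : Type) [Finite V] (D : SimpleGraph V) (S : Set V) (A B : Set S),
  LK.rk (D.induce S) A B = LK.rk D (Subtype.val '' A) (Subtype.val '' B)

/-- **LX.** Extension of layouts.  (Uses `S_RI`; `LK.a3 : LK.S_A3`, `Rep.cr_types` are proved.)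

Proof. `(hat A)ᶜ = hat A'` for `Pt S A A'` (`π` maps `Sᶜ` into `S`).  CLAIM: `Lay (D.induce S) k B` implies
`Lay D k'' (hat S π (val '' B))`, `k'' = 2 ^ g + k'`.  Induction: empty: `hat ∅ = ∅`.  single: the hypothesis `hf`
(`Lay` is monotone in `k`).  union: `hat (A ∪ B) = hat A ∪ hat B`, disjoint;
`(Types (D.induce S) B).encard ≤ k` gives `cr (D.induce S) B ≤ k` (`cr_types`), which is `rk D (val '' B) (S \ val '' B)`
by RI; the hypothesis gives `cr D (hat ..) ≤ g`, so at most `2 ^ g` types (`LK.a3`).  Finally `hat S = univ`. -/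
def S_LX : Prop := S_RI → ∀ (k k' g : ℕ) (V : Type) [Finite V] (D : SimpleGraph V) (S : Set V)
  (π : V → V), (∀ v ∉ S, π v ∈ S) → (∀ v ∈ S, Lay D k' (hat S π {v})) →
    (∀ A A' : Set V, Pt S A A' → LK.rk D A A' ≤ k → LK.rk D (hat S π A) (hat S π A') ≤ g) →
    Lay (D.induce S) k Set.univ → Lay D (2 ^ g + k') Set.univ

/-- **LS.** Small sets have layouts.

Proof. If `A` has at most `k` elements then every subset has at most `k` types (`Types D A` is the image of a subset of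
`A`).  Induction on the number of elements: `A = {a} ∪ (A \ {a})`. -/
def S_LS : Prop := ∀ (k : ℕ) (V : Type) [Finite V] (D : SimpleGraph V) (A : Set V),
  A.ncard ≤ k → Lay D k A

/-- **KX.** Extension of `Link`.  (Uses `S_RI`.)

Proof. Let `c ≤ c'`, `X ⊆ S` (subtype) with `cr (D.induce S) X ≤ c`.  `A = val '' X`, `A' = S \ A`: `rk D A A' ≤ c` (RI), so
`cr D (hat A) = rk D (hat A) (hat A') ≤ g c ≤ c₀`, and `hat A` or `hat A'` has at most `β (g c)` elements; they
contain `A`, `A'`. -/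
def S_KX : Prop := S_RI → ∀ (g β : ℕ → ℕ) (c' c₀ : ℕ) (V : Type) [Finite V] (D : SimpleGraph V)
  (S : Set V) (π : V → V), (∀ v ∉ S, π v ∈ S) → (∀ c ≤ c', g c ≤ c₀) →
    (∀ c ≤ c', ∀ A A' : Set V, Pt S A A' → LK.rk D A A' ≤ c →
      LK.rk D (hat S π A) (hat S π A') ≤ g c) →
    Link β c₀ D → Link (fun c => β (g c)) c' (D.induce S)

/-- **Tw.** Twin reduction.  (Uses `S_RI`, `S_LX`, `S_KX`.)

Proof. `x ≡ y` iff `x = y` or (`x ~ y` and all other vertices see both or none) is an equivalence relation (three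
pairwise twins).  Choose a representative `π x` of every class, `S` = the set of the representatives; for `v ∉ S`
`π v ∈ S` is the representative.  Two adjacent representatives are not twins in `D[S]`: they would be twins in `D` (a
vertex `z` and its representative have the same neighbours outside the class; if `π z = x`, then `z ~ x`, and
`y ~ x` gives `y ~ z`).  For `Pt S A A'` the row of a vertex `v ∈ hat A` on `hat A'` is the row of its representative,
and the same for columns: `rk D (hat A) (hat A') ≤ rk D A A'` (`rk` of rows which occur already: equal spans; twice,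
with `rk_symm`).  Layouts of `hat {v}`, a class of twins: every subset has at most one nonempty type, together
with the rest of the class: at most two (`u ∈ A` sees the rest of the class and the common neighbours: all the
same set): `Lay D 1 (hat {v})`.  LX with `g = k`, `k' = 1`; KX with `g = id`. -/
def S_Tw : Prop := S_RI → S_LX → S_KX → ∀ (V : Type) [Finite V] (D : SimpleGraph V),
  ∃ S : Set V, TwF (D.induce S) ∧ (∀ k, Lay (D.induce S) k Set.univ → Lay D (2 ^ k + 1) Set.univ) ∧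
    ∀ (β : ℕ → ℕ) (c₀ : ℕ), Link β c₀ D → Link β c₀ (D.induce S)

/-! ### 6. There is no large matching left -/

/-- **Opp.** Two opposite vertices disagree at almost all components.  (Uses `W.S_RamC`, `S_Ba`, `S_Pr`.)

Proof. `m₁` from Ba; `M = m + m₁ + t + N + 2`.  Let `v, w, p', q'` be as in `OPP` (`v ≠ w` since `t ≥ 1`).
(1) Fewer than `m₁` indices `k` have `¬ GC D U (x k)`: for such `k` there are `v_k ∉ U` and `a ≠ b` in the component of
`x k` which it misses; `a ~ b`, and for different `k` these pairs are a system: Ba.  (2) At most `t` components contain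
one of the adjacent pairs `p' i, q' i`.  (3) Let `k` be another index, with `GC`, such that `v, w` do not
disagree, i.e. there are no `a ≠ b` in the component with `v ≁ a`, `v ~ b`, `w ~ a`, `w ≁ b`.  Then `x k` or `y k` is seen
by `v` and `w` (each of them misses at most one of `x k, y k` by `GC`; if `v` misses `x k` and `w` misses `y k`, or
conversely, they disagree): `e_k`.  If there are `N + 2` such `k` then Pr gives a contradiction.
So at least `m` indices are left; `p k`, `q k` = the elements `a`, `b` with `v ≁ a`, `w ≁ b`. -/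
def S_Opp : Prop := W.S_RamC → S_Ba → S_Pr → ∀ t N m : ℕ, 1 ≤ t → ∃ M : ℕ, ∀ (V : Type)
  (D : SimpleGraph V), JF D t → HF D N → ∀ (n : ℕ) (U : Set V), UP D t n U → OPP D t U →
    ∀ x y : ℕ → V, Sy D U M x y → ∃ (v w : V) (σ : ℕ → ℕ) (p q : ℕ → V), v ∉ U ∧ w ∉ U ∧
      Incr m M σ ∧ ∀ k < m, GC D U (x (σ k)) ∧ Cp D U (x (σ k)) (p k) ∧ Cp D U (x (σ k)) (q k) ∧
        p k ≠ q k ∧ ¬ D.Adj v (p k) ∧ D.Adj v (q k) ∧ D.Adj w (p k) ∧ ¬ D.Adj w (q k)

/-- the situation after `S_Opp` (the `x (σ k)` are called `x k` again) -/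
structure OD (D : SimpleGraph V) (t n : ℕ) (U : Set V) (v w : V) (m : ℕ) (x p q : ℕ → V) : Prop where
  up : UP D t n U
  vU : v ∉ U
  wU : w ∉ U
  xI : Ind D m x
  xJ : Inj m x
  xU : ∀ k < m, x k ∈ U
  gc : ∀ k < m, GC D U (x k)
  cp : ∀ k < m, Cp D U (x k) (p k) ∧ Cp D U (x k) (q k) ∧ p k ≠ q k
  vw : ∀ k < m, ¬ D.Adj v (p k) ∧ D.Adj v (q k) ∧ D.Adj w (p k) ∧ ¬ D.Adj w (q k)

/-- a pattern between vertices `u i` outside `U` and `z i` in the components `κ i` -/
structure PD (D : SimpleGraph V) (U S : Set V) (m : ℕ) (x : ℕ → V) (M : ℕ) (u z : ℕ → V) (κ : ℕ → ℕ)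
    (R : ℕ → ℕ → Prop) : Prop where
  uU : ∀ i < M, u i ∉ U
  uS : ∀ i < M, u i ∈ S
  zS : ∀ i < M, z i ∈ S
  km : ∀ i < M, κ i < m
  zc : ∀ i < M, Cp D U (x (κ i)) (z i)
  rel : ∀ i < M, ∀ j < M, (D.Adj (u i) (z j) ↔ R i j)

/-- **Pa.** `Link` gives a pattern.

Proof. `M' = M + 2`, `c₁` = the number of `Rep.rk3 M'` (`Rep/Pat3.lean`: rank at most `c₁` if there is no pattern
`Has3` of size `M'`).
`b = β c₁ + 1`, `X` = the set of the `v ∈ S` which are in the component of some `x k`, `k < b` (as a set in the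
subtype).  If `¬ Has3 (D.induce S) Xᶜ X M'` then `cr (D.induce S) X ≤ c₁` (symmetry), and `Link` says that `X` or its
complement has at most `β c₁` elements; but `X` contains the `x k`, `k < b`, and its complement contains the `x k`,
`b ≤ k < 2 b`.  So there are `a i ∉ X`, `b i ∈ X` in `S` with one of the three patterns.  Every `a i` sees some
`b j` (size `≥ 2`), so `a i ∉ U`: otherwise it is in the component of `b j`, hence in `X`. -/
def S_Pa : Prop := ∀ M : ℕ, ∃ c₁ : ℕ, ∀ (β : ℕ → ℕ) (c₀ : ℕ), c₁ ≤ c₀ → ∀ (V : Type)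
  [Finite V] (D : SimpleGraph V) (S : Set V), Link β c₀ (D.induce S) →
    ∀ (t n : ℕ) (U : Set V) (v w : V) (m : ℕ) (x p q : ℕ → V), 2 * β c₁ + 2 ≤ m →
      OD D t n U v w m x p q → (∀ k < m, x k ∈ S) → ∃ (u z : ℕ → V) (κ : ℕ → ℕ),
        PD D U S m x M u z κ (fun i j => i = j) ∨ PD D U S m x M u z κ (fun i j => i ≠ j) ∨
          PD D U S m x M u z κ (fun i j => i ≤ j)

/-- **Sm.** No co-matching inside one component.  (Uses `W.S_RamC`.)

Proof. `M` = the number of `S_RamC` for the colours `Bool` and `N + 3`, `χ i j = u i ~ u j`; `s` homogeneous, write `i` for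
`s i`.  The `z i` are different elements of one component (a clique).  Colour false: `hS` with `a = u`, `v = z`.
Colour true: `u 0, u 1, u 2` are pairwise adjacent.  Let `i ≠ j` be two of these indices.  `u i` and `u j` disagree at the
component `k₀ = κ 0`: `u i` misses `z i`, `u j` misses `z j`, `z i ~ z j`.  For all but fewer than `N` of the `k < m`,
`k ≠ k₀`, there is no element of the component of `x k` which is seen by both: otherwise `hC` with `p = z i`, `q = z j`.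
As `m > 3 N + 1` there is one `k ≠ k₀` for which this is true for all three pairs.  Let `a = p k ≠ b = q k` (elements of the
component of `x k`).  By `GC` every `u i` misses at most one element of the component.  `a` is seen by at most one of
`u 0, u 1, u 2`, and `b` is seen by at most one of them; so some `u i` misses `a` and `b`: a contradiction. -/
def S_Sm : Prop := W.S_RamC → ∀ t N : ℕ, ∃ M : ℕ, ∀ (V : Type) (D : SimpleGraph V), JF D t →
  HF D N → ∀ (n : ℕ) (U S : Set V) (v w : V) (m : ℕ) (x p q u z : ℕ → V) (κ : ℕ → ℕ),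
    4 * N + 8 ≤ m → OD D t n U v w m x p q → PD D U S m x M u z κ (fun i j => i ≠ j) →
      (∀ i < M, κ i = κ 0) → False

/-- **Ha.** No half graph.  (Uses `S_Pr`.)

Proof. `M = 2 * (t + N + 2)`.  For half of the `i < M` we have `z i ≠ p (κ i)`, or for half of them `z i ≠ q (κ i)`; pass
to these indices (enumerate them increasingly; the relation `i ≤ j` is preserved) and let `P i = p (κ i)`, `o = v`
resp. `P i = q (κ i)`, `o = w`: `o` misses `P i` and sees `z i` (`GC`), `P i ≠ z i`, `P i ~ z i` (same component), for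
`i < t + N + 2`.  Let `c = u t`.  For `i < t` `c` misses `z i` and so sees `P i` (`GC`), `o` misses `P i` and sees `z i`.  For
`t ≤ i < t + N + 2` both `c` and `o` see `z i`.  `c ≠ o` (`z 0`, `t ≥ 1`).  Different `i` are in different components, so
`z i, P i`, `i < t`, is an induced matching, and the `e i = z (t + i)` are independent, different, and miss the
`z j, P j`, `j < t`: Pr is contradicted. -/
def S_Ha : Prop := S_Pr → ∀ t N : ℕ, 1 ≤ t → ∃ M : ℕ, ∀ (V : Type) (D : SimpleGraph V), JF D t →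
  HF D N → ∀ (n : ℕ) (U S : Set V) (v w : V) (m : ℕ) (x p q u z : ℕ → V) (κ : ℕ → ℕ),
    OD D t n U v w m x p q → PD D U S m x M u z κ (fun i j => i ≤ j) →
      (∀ i < M, ∀ j < M, κ i = κ j → i = j) → False

/-- the final data of a matching between `u k` outside `U` and `P k ∈ U` -/
structure FD (D : SimpleGraph V) (U : Set V) (w : V) (m : ℕ) (P Q u : ℕ → V) : Prop where
  pq : Sy D U m P Q
  up : IM D m u P
  uU : ∀ k < m, u k ∉ U
  uq : ∀ k < m, ∀ j < m, D.Adj (u k) (Q j)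
  gc : ∀ k < m, GC D U (P k)
  wd : ∀ k < m, D.Adj w (P k) ∧ ¬ D.Adj w (Q k) ∧ D.Adj w (u k)

/-- **Ty.** Exceptional vertices are of type (i).  (Uses `W.S_RamC`.)

Proof. `M` = the number of `S_RamC` for the colours `Bool` and `m₀ = (t + 3) ^ 2 + 2 * N + 2 + (t + 2) + m`;
`χ i j = u i ~ u j`, `s` homogeneous, write `i` for `s i`, `i < m₀`.  `u i` sees `Q j` for `j ≠ i` (it misses `P j`, `GC`).
Colour true: fewer than `N` indices have `u i ≁ Q i` (otherwise `hS` with `a = Q`, `v = u` on these indices), `N` of the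
other ones give a contradiction to `hD`.  So the `u i` are independent, `IM D m₀ u P`.  Fewer than `(t + 3) ^ 2` indices
`i` have `u i ≁ Q i`: otherwise `jF` with `a = Q`, `w = u` on these indices.  Delete these indices.  Now `u i ~ Q j` for
all `i, j`.  Fewer than `t + 2` of the other indices have `w ≁ u i`: `jC` with `p = P`, `q = Q`.  So `m` indices are
left. -/
def S_Ty : Prop := W.S_RamC → ∀ t N m : ℕ, ∃ M : ℕ, ∀ (V : Type) (D : SimpleGraph V), JF D t →
  FhS D N → FhD D N → ∀ (U : Set V) (w : V) (P Q u : ℕ → V), Sy D U M P Q →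
    (∀ k < M, GC D U (P k)) → (∀ k < M, D.Adj w (P k) ∧ ¬ D.Adj w (Q k)) → (∀ k < M, u k ∉ U) →
    (∀ k < M, ∀ j < M, (D.Adj (u k) (P j) ↔ k = j)) →
    ∃ σ : ℕ → ℕ, Incr m M σ ∧ FD D U w m (P ∘ σ) (Q ∘ σ) (u ∘ σ)

/-- **Cl.** The matching of the exceptional vertices is not `OPP`.  (Uses `W.S_RamC`, `S_Ba`, `S_Pr`, `S_Opp`, `S_Ty`.)

Proof. `m₁ = 2 * (t + 2 + N)`; `M₁` from Ty for `m = m₁`; `M` from Opp for `m = 2 * M₁`.  Suppose `OPP D t U'`.  Opp for
`U'` and the system `u k, P k` gives `v', w', σ, p', q'`.  Write `k` for `σ k`.  For half of the `k < 2 M₁` `p' k ≠ P k` (then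
`z = v'`, `y k = p' k`), or for half of them `p' k = P k` (then `z = w'`, `y k = q' k ≠ P k`).  So for `M₁` indices: `y k` is
in the `U'`-component of `u k` (and of `P k`), `y k ≠ P k`, `z` misses `y k`, and `z` sees `P k` (`GC` for `U'`).
(1) `y k ∉ U`: otherwise `y k ~ P k` is in the `U`-component of `P k`; take another index `l`: `u l ∉ U` misses `P k`, so it
sees `y k` (`GC D U (P k)`); `u l, y k, P k ∈ U'`, `u l ~ y k ~ P k` gives `u l ~ P k`: no.
(2) `y k ~ P j` iff `k = j`: for `j ≠ k` `P k ~ y k ~ P j` would give `P k ~ P j`.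
So Ty for `P, Q, w` and `u := y` gives `FD` of size `m₁` (with `y`).  For half of the indices `z` sees `Q k`, or for half
of them `z` misses `Q k`.  `z ≠ w` (`w` sees the `y k`).  `z` misses `Q`: `jD` with `u := y`.  `z` sees `Q`: if `z ≁ w` `jE`, if
`z ~ w` `hE` (with `u := y`). -/
def S_Cl : Prop := W.S_RamC → S_Ba → S_Pr → S_Opp → S_Ty → ∀ t N : ℕ, 1 ≤ t → ∃ M : ℕ,
  ∀ (V : Type) (D : SimpleGraph V), JF D t → HF D N → ∀ (n : ℕ) (U U' : Set V) (w : V)
    (P Q u : ℕ → V), FD D U w M P Q u → UP D t n U' → (∀ k < M, u k ∈ U' ∧ P k ∈ U') →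
      ¬ OPP D t U'

/-- **Id.** From the pattern `i = j` to `FD`.  (Uses `W.S_RamC`, `S_Ty`.)

Proof. `M = 2 * M₀ + 3` with `M₀` from Ty for `m'`.  `κ` is injective on the `i < M`: if `z j, z l` (`j ≠ l`; they are different: `u j` sees
only `z j`) are in the same component, a third `u i` misses both, against `GC`.  For half of the `i < M` `z i ≠ p (κ i)`
(then `Q i = p (κ i)`, `o = v`) or for half of them `z i = p (κ i)` (then `Q i = q (κ i) ≠ z i`, `o = w`); `o` misses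
`Q i` and sees `z i` (`GC`).  Ty for `P = z`, `Q`, `o`, `u` on `M₀` of these indices.  (`GC D U (x (κ i))` gives
`GC D U (z i)`: the components are the same, by `p3`.) -/
def S_Id : Prop := W.S_RamC → S_Ty → ∀ t N m' : ℕ, ∃ M : ℕ, ∀ (V : Type) (D : SimpleGraph V),
  JF D t → HF D N → ∀ (n : ℕ) (U S : Set V) (v w : V) (m : ℕ) (x p q u z : ℕ → V) (κ : ℕ → ℕ),
    OD D t n U v w m x p q → PD D U S m x M u z κ (fun i j => i = j) →
      ∃ (o : V) (P Q u' : ℕ → V), FD D U o m' P Q u' ∧ ∀ k < m', u' k ∈ S ∧ P k ∈ S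

/-- **FF.** A large matching in `S` whose class is not `OPP` is impossible.

Proof. If `FP D U (x k) (y k)` or `FP D U (y k) (x k)` for fewer than three indices `k < b + 3` then `b` other indices are
left, against the first hypothesis (about `b`).  The three free vertices are different and in `Sg`, so they are
`r₁ U` or `r₂ U` (`Gd D t n U`). -/
def S_FF : Prop := ∀ (b t n : ℕ) (V : Type) (D : SimpleGraph V) (r₁ r₂ : Set V → V) (U : Set V),
  Gd D t n U → (∀ x y : ℕ → V, Sy D U b x y → ∃ k < b, FP D U (x k) (y k) ∨ FP D U (y k) (x k)) →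
    ∀ x y : ℕ → V, Sy D U (b + 3) x y →
      (∀ k < b + 3, FP D U (x k) (y k) → y k ∈ Sg D t n r₁ r₂) →
      (∀ k < b + 3, FP D U (y k) (x k) → x k ∈ Sg D t n r₁ r₂) → False

/-- the conclusion of `S_Opp` -/
def C_Opp : Prop := ∀ t N m : ℕ, 1 ≤ t → ∃ M : ℕ, ∀ (V : Type)
  (D : SimpleGraph V), JF D t → HF D N → ∀ (n : ℕ) (U : Set V), UP D t n U → OPP D t U →
    ∀ x y : ℕ → V, Sy D U M x y → ∃ (v w : V) (σ : ℕ → ℕ) (p q : ℕ → V), v ∉ U ∧ w ∉ U ∧
      Incr m M σ ∧ ∀ k < m, GC D U (x (σ k)) ∧ Cp D U (x (σ k)) (p k) ∧ Cp D U (x (σ k)) (q k) ∧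
        p k ≠ q k ∧ ¬ D.Adj v (p k) ∧ D.Adj v (q k) ∧ D.Adj w (p k) ∧ ¬ D.Adj w (q k)

/-- the conclusion of `S_Sm` -/
def C_Sm : Prop := ∀ t N : ℕ, ∃ M : ℕ, ∀ (V : Type) (D : SimpleGraph V), JF D t →
  HF D N → ∀ (n : ℕ) (U S : Set V) (v w : V) (m : ℕ) (x p q u z : ℕ → V) (κ : ℕ → ℕ),
    4 * N + 8 ≤ m → OD D t n U v w m x p q → PD D U S m x M u z κ (fun i j => i ≠ j) →
      (∀ i < M, κ i = κ 0) → False

/-- the conclusion of `S_Ha` -/
def C_Ha : Prop := ∀ t N : ℕ, 1 ≤ t → ∃ M : ℕ, ∀ (V : Type) (D : SimpleGraph V), JF D t →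
  HF D N → ∀ (n : ℕ) (U S : Set V) (v w : V) (m : ℕ) (x p q u z : ℕ → V) (κ : ℕ → ℕ),
    OD D t n U v w m x p q → PD D U S m x M u z κ (fun i j => i ≤ j) →
      (∀ i < M, ∀ j < M, κ i = κ j → i = j) → False

/-- the conclusion of `S_Cl` -/
def C_Cl : Prop := ∀ t N : ℕ, 1 ≤ t → ∃ M : ℕ,
  ∀ (V : Type) (D : SimpleGraph V), JF D t → HF D N → ∀ (n : ℕ) (U U' : Set V) (w : V)
    (P Q u : ℕ → V), FD D U w M P Q u → UP D t n U' → (∀ k < M, u k ∈ U' ∧ P k ∈ U') →
      ¬ OPP D t U'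

/-- the conclusion of `S_Id` -/
def C_Id : Prop := ∀ t N m' : ℕ, ∃ M : ℕ, ∀ (V : Type) (D : SimpleGraph V),
  JF D t → HF D N → ∀ (n : ℕ) (U S : Set V) (v w : V) (m : ℕ) (x p q u z : ℕ → V) (κ : ℕ → ℕ),
    OD D t n U v w m x p q → PD D U S m x M u z κ (fun i j => i = j) →
      ∃ (o : V) (P Q u' : ℕ → V), FD D U o m' P Q u' ∧ ∀ k < m', u' k ∈ S ∧ P k ∈ S

/-- **NM.** There is no large matching in `Sg`.  (Uses `W.S_RamC`, `S_U1` and the conclusions of Opp, Pa, Sm, Ha, Cl,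
Id, FF, Fr, which are the definitions `C_...` above.)

Proof. `b` from Fr; `m₃ = max (max n (b + 3)) (M of Cl)`; `M₃` from Id for `m' = m₃`; `M₄` = the maximum of `M₃`, the
numbers of Sm and Ha, `(t + 3) ^ 2`, `N`, `3`; `M₅` = the number of `S_RamC` for the colours `Bool × Bool` and `M₄`; `c₁` from
Pa for `M₅`; `m₆ = max (2 β c₁ + 2) (4 N + 8)`; `n₁` = the maximum of `n`, `b + 3` and the number of Opp for `m₆`.
Let `x, y` be a matching of size `n₁` in `Sg`, `U` = the class of its first `n` edges (U1); all `x i, y i`, `i < n₁`, are in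
`U` (for `i ≥ n` they touch none of these edges).
(1) `¬ OPP D t U`: `Gd`; FF.
(2) `OPP D t U`: Opp gives `OD` of size `m₆` (with `x := x ∘ σ`; `Ind`, `Inj` from `IM`), Pa a pattern of size `M₅`, and
`S_RamC` with `χ i j = (κ i = κ j, u i ~ u j)` a pattern of size `M₄` (the three relations are preserved by an
increasing `s`) where `κ` is constant or injective and the `u i` are a clique or independent (they are different).
`κ` constant: `i = j`: `u 0` misses `z 1 ≠ z 2` of one component, against `GC`; `i ≤ j`: `u 2` misses `z 0 ≠ z 1`; `i ≠ j`: Sm.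
`κ` injective (the `z i` are independent and different): `i ≠ j`: `jF` or `hS` with `a = z`; `i ≤ j`: Ha; `i = j`: Id gives `FD`
of size `m₃` with `u k, P k ∈ Sg`.  `U'` = the class of the first `n` edges of the matching `u k, P k` (U1); all `u k, P k`
are in `U'`; Cl: `¬ OPP D t U'`, so `Gd D t n U'`.  FF for `u, P` (all `u k, P k` are in `Sg`). -/
def S_NM : Prop := W.S_RamC → S_U1 → C_Opp → S_Pa → C_Sm → C_Ha → C_Cl → C_Id → S_FF → C_Fr →
  ∀ t N n : ℕ, 1 ≤ t → 3 * t + 3 ≤ n → ∃ c₁ : ℕ, ∀ β : ℕ → ℕ, ∃ n₁ : ℕ, ∀ c₀ : ℕ, c₁ ≤ c₀ →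
    ∀ (V : Type) [Finite V] (D : SimpleGraph V), JF D t → HF D N → TwF D →
      ∀ r₁ r₂ : Set V → V, Link β c₀ (D.induce (Sg D t n r₁ r₂)) →
        ∀ x y : ℕ → V, IM D n₁ x y → (∀ i < n₁, x i ∈ Sg D t n r₁ r₂ ∧ y i ∈ Sg D t n r₁ r₂) → False

/-! ### 7. The theorem -/

/-- **Theorem O** for twin-free graphs, for any `H` with `HF`.  (Assembly.) -/
def S_TO : Prop := ∀ t N : ℕ, 1 ≤ t → ∃ g : ℕ → ℕ, ∀ β : ℕ → ℕ, ∃ c₀ n₁ : ℕ,
  ∀ (V : Type) [Finite V] (D : SimpleGraph V), JF D t → HF D N → TwF D → Link β c₀ D →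
    ∃ S : Set V, (∀ x y : ℕ → V, (∀ i < n₁, x i ∈ S ∧ y i ∈ S) → ¬ IM D n₁ x y) ∧
      ∀ k, Lay (D.induce S) k Set.univ → Lay D (g k) Set.univ

/-- **Theorem O.**  It remains to bound the graphs without `K4:0,1`, `J_t` and `O_n`.  (Assembly.) -/
def S_O : Prop := ∀ t : ℕ, 1 ≤ t → ∃ g : ℕ → ℕ, ∀ β : ℕ → ℕ, ∃ c₀ n₁ : ℕ,
  ∀ (V : Type) [Finite V] (G : SimpleGraph V), Rep.Fr K401 (JP t) G → Link β c₀ G →
    ∃ (W : Type) (_ : Finite W) (G' : SimpleGraph W), Rep.Fr K401 (JP t) G' ∧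
      (∀ x y : ℕ → W, ¬ IM G'ᶜ n₁ x y) ∧ ∀ k, Lay G' k Set.univ → Lay G (g k) Set.univ

end Pool.Agent.MPd439b2.ON
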